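import Mathlib
import Pool.Agent.T6.H81.BG.Defs
import Pool.Agent.H548.TL.Order

/-!
Every dense open subset, and smooth divisors of type `(1, 1, 1)`: definitions, and the statements
of the modules.
-/

set_option autoImplicit false

namespace Pool.Agent.T6.H81.BH

open Finset Module Matrix
open Pool.Agent.H548.WM (ht bx mem_bx Rep)
open Pool.Agent.H548.BL (lat)
open Pool.Agent.H548.TL (evz tf g1 g2 g3 s12 s23 Tx Sm InU InV tri)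
open Pool.Agent.T6.H5.TW (fl MultiDeg)
open Pool.Agent.T6.H81.BG (Pt Bx FS Zr cf)

/-! ### Hypersurfaces in fibred sets of points -/

open Classical in
/-- Module Z0: the zeros of a polynomial in a lattice. -/
def StmtZ0 : Prop := ∀ k N D : ℕ, k + 1 ≤ N → ∃ C : ℝ, 0 ≤ C ∧
  ∀ w : Fin k → Fin N → ℤ, LinearIndependent ℤ w → ∀ P : MvPolynomial (Fin N) ℤ,
    P.totalDegree ≤ D → (∃ y ∈ lat w, MvPolynomial.eval y P ≠ 0) →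
    ∀ ρ Y : ℕ, 1 ≤ ρ → ρ ≤ Y →
      ((((bx N Y).filter fun v => v ∈ lat w ∧ MvPolynomial.eval v P = 0).card : ℕ) : ℝ) ≤
        C * ((Y : ℝ) / ρ) ^ (N - k - 1) *
          ((((bx N ρ).filter fun v => v ∈ lat w).card : ℕ) : ℝ)

/-- The vectors `w v x` are given by polynomials in the coordinates of `x`. -/
def PolyW {m : ℕ} {n : Fin m → ℕ} {ι : Fin m → Type}
    (w : ∀ v, Pt n → ι v → Fin (n v) → ℤ) : Prop :=
  ∃ W : ∀ v, ι v → Fin (n v) → MvPolynomial (Σ i, Fin (n i)) ℤ,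
    ∀ v x i s, w v x i s = evz (W v i s) (fl x)

/-- From `x` one gets to a point where `G` is not zero by changing the blocks in the list one after
the other, in the lattices `lat (w v _)`. -/
def Gd {m : ℕ} {n : Fin m → ℕ} {ι : Fin m → Type} (w : ∀ v, Pt n → ι v → Fin (n v) → ℤ)
    (G : MvPolynomial (Σ i, Fin (n i)) ℤ) : List (Fin m) → Pt n → Prop
  | [], x => evz G (fl x) ≠ 0
  | v :: l, x => LinearIndependent ℤ (w v x) ∧ ∃ z ∈ lat (w v x), Gd w G l (Function.update x v z)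

/-- Module POL: `Gd` is given by polynomials of bounded degree. -/
def StmtPol : Prop := ∀ (m : ℕ) (n : Fin m → ℕ) (ι : Fin m → Type) [∀ v, Fintype (ι v)]
  (w : ∀ v, Pt n → ι v → Fin (n v) → ℤ), PolyW w → ∀ (G : MvPolynomial (Σ i, Fin (n i)) ℤ)
  (l : List (Fin m)), ∃ D : ℕ, ∀ x : Pt n, Gd w G l x →
    ∃ g : MvPolynomial (Σ i, Fin (n i)) ℤ, g.totalDegree ≤ D ∧ evz g (fl x) ≠ 0 ∧
      ∀ x' : Pt n, evz g (fl x') ≠ 0 → Gd w G l x'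

/-- Module CH1: in an anisotropic system any two points are connected by changes of the blocks. -/
def StmtCH1 : Prop := ∀ (m K : ℕ) (n : Fin m → ℕ) (F : Fin K → MvPolynomial (Σ i, Fin (n i)) ℤ)
  (d : Fin K → Fin m → ℕ), (∀ e v, d e v ≤ 1) → (∀ e, MultiDeg (F e) (d e)) →
  (∀ v, ∑ e, d e v * ∑ u, d e u + 1 ≤ n v) →
  (∀ v, ∀ x : Pt n, (∀ u, x u ≠ 0) →
    LinearIndependent ℤ (fun e : BG.Eq d univ v => cf F e.1 v x)) →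
  ∀ (G : MvPolynomial (Σ i, Fin (n i)) ℤ) (x' : Pt n), (∀ v, x' v ≠ 0) → Zr F x' →
    evz G (fl x') ≠ 0 → ∀ x : Pt n, (∀ v, x v ≠ 0) → Zr F x →
      Gd (ι := fun v => BG.Eq d univ v) (fun v x e => cf F e.1 v x) G
        (List.finRange m ++ List.finRange m) x

/-- Module S6G: an integer point where `G` is not zero. -/
def StmtS6G : Prop := ∀ (m K : ℕ) (n : Fin (m + 1) → ℕ)
  (F : Fin K → MvPolynomial (Σ i, Fin (n i)) ℤ)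
  (d : Fin K → Fin (m + 1) → ℕ), (∀ e v, d e v ≤ 1) → (∀ e, MultiDeg (F e) (d e)) →
  (∀ e, ∃ v, d e v = 1) → (∀ v, ∑ e, d e v + 2 ≤ n v) →
  ∀ G : MvPolynomial (Σ i, Fin (n i)) ℤ,
  (∃ z : ∀ i, Fin (n i) → ℂ, (∀ v, z v ≠ 0) ∧ Zr F z ∧
    (∀ v, LinearIndependent ℂ (fun e : {e : Fin K // d e v = 1} => cf F e.1 v z)) ∧
    evz G (fl z) ≠ 0) →
  ∃ x : Pt n, (∀ v, x v ≠ 0) ∧ Zr F x ∧ evz G (fl x) ≠ 0

/-! ### Trilinear forms -/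

/-- Module TR: a polynomial of type `(1, 1, 1)` as a trilinear form. -/
def StmtTR : Prop := ∀ (n : Fin 3 → ℕ) (F : Fin 1 → MvPolynomial (Σ i, Fin (n i)) ℤ),
  MultiDeg (F 0) (fun _ => 1) → ∃ T : Fin (n 0) → Fin (n 1) → Fin (n 2) → ℤ,
    ∀ (R : Type) [CommRing R] (x : ∀ i, Fin (n i) → R),
      evz (F 0) (fl x) = tf T (x 0) (x 1) (x 2) ∧ cf F 0 0 x = g1 T (x 1) (x 2) ∧
      cf F 0 1 x = g2 T (x 0) (x 2) ∧ cf F 0 2 x = g3 T (x 0) (x 1)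

/-- The matrix of the bilinear form in the second and third argument, as a complex matrix. -/
noncomputable def cx {N1 N2 N3 : ℕ} (T : Fin N1 → Fin N2 → Fin N3 → ℤ) (x : Fin N1 → ℤ) :
    Matrix (Fin N2) (Fin N3) ℂ :=
  Tx T (fun i => (x i : ℂ))

open Classical in
/-- Module B1: the number of the vectors in the kernels. -/
def StmtB1 : Prop := ∀ (N1 N2 N3 : ℕ) (T : Fin N1 → Fin N2 → Fin N3 → ℤ), 1 ≤ N1 → 4 ≤ N2 →
  4 ≤ N3 → Sm ℂ T → ∃ C : ℝ, 0 ≤ C ∧ ∀ A ρ : ℕ, 1 ≤ A → 1 ≤ ρ →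
    ∑ x ∈ (bx N1 A).filter (fun x => 3 ≤ (cx T x).rank),
      ((((bx N3 ρ).filter fun z => g2 T x z = 0).card : ℕ) : ℝ) ≤
      C * ((A : ℝ) ^ (N1 - 1) * (ρ : ℝ) ^ (N3 - 3) + (A : ℝ) ^ N1 * (ρ : ℝ) ^ (N3 - 4))

open Classical in
/-- Module CNT: the common zeros of two polynomials without common factor. -/
def StmtCnt : Prop := ∀ (N : ℕ) (p g : MvPolynomial (Fin N) ℚ), 2 ≤ N → Irreducible p → ¬ p ∣ g →
  ∃ C : ℝ, 0 ≤ C ∧ ∀ ρ : ℕ, 1 ≤ ρ →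
    ((((bx N ρ).filter fun z => MvPolynomial.eval (fun i => (z i : ℚ)) p = 0 ∧
      MvPolynomial.eval (fun i => (z i : ℚ)) g = 0).card : ℕ) : ℝ) ≤ C * (ρ : ℝ) ^ (N - 2)

/-- Module CD: the minors of size three of the matrices `Tx T x` have no common factor. -/
def StmtCD : Prop := ∀ (N1 N2 N3 : ℕ) (T : Fin N1 → Fin N2 → Fin N3 → ℤ), 2 ≤ N1 → 4 ≤ N2 →
  4 ≤ N3 → Sm ℂ T → ∀ p : MvPolynomial (Fin N1) ℚ, Irreducible p →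
    ∃ (f : Fin 3 → Fin N2) (h : Fin 3 → Fin N3),
      ¬ p ∣ ((Tx T (fun i => (MvPolynomial.X i : MvPolynomial (Fin N1) ℚ))).submatrix f h).det

open Classical in
/-- Module BIL: bilinear forms of rank at most two. -/
def StmtBil : Prop := ∀ N1 N2 : ℕ, 2 ≤ N1 → 2 ≤ N2 → ∃ C : ℝ, 0 ≤ C ∧
  ∀ M : Matrix (Fin N1) (Fin N2) ℤ, (M.map (Int.cast : ℤ → ℚ)).rank ≤ 2 →
    ∀ A B : ℕ, 1 ≤ A → 1 ≤ B →
      ((((bx N1 A ×ˢ bx N2 B).filter fun t => t.1 ⬝ᵥ M *ᵥ t.2 = 0 ∧ t.1 ᵥ* M ≠ 0 ∧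
        M *ᵥ t.2 ≠ 0).card : ℕ) : ℝ) ≤
        C * (A : ℝ) ^ (N1 - 1) * (B : ℝ) ^ (N2 - 1) * (1 + Real.log A + Real.log B)

/-- Module PERT: a complex point of `U` where in addition polynomials in the single arguments are
not zero. -/
def StmtPert : Prop := ∀ (N1 N2 N3 : ℕ) (T : Fin N1 → Fin N2 → Fin N3 → ℤ)
  (G : MvPolynomial (Fin N1 ⊕ Fin N2 ⊕ Fin N3) ℤ) (f1 : MvPolynomial (Fin N1) ℤ)
  (f2 : MvPolynomial (Fin N2) ℤ) (f3 : MvPolynomial (Fin N3) ℤ), f1 ≠ 0 → f2 ≠ 0 → f3 ≠ 0 →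
  (∃ (x : Fin N1 → ℂ) (y : Fin N2 → ℂ) (z : Fin N3 → ℂ), InV T G x y z) →
  ∃ (x : Fin N1 → ℂ) (y : Fin N2 → ℂ) (z : Fin N3 → ℂ),
    InV T G x y z ∧ evz f1 x ≠ 0 ∧ evz f2 y ≠ 0 ∧ evz f3 z ≠ 0

/-- Module CH3: the intermediate points between two points of `U`. -/
def StmtCH3 : Prop := ∀ (N1 N2 N3 : ℕ) (T : Fin N1 → Fin N2 → Fin N3 → ℤ), 4 ≤ N1 → 4 ≤ N2 →
  4 ≤ N3 → Sm ℂ T → ∀ (x : Fin N1 → ℤ) (y : Fin N2 → ℤ) (z : Fin N3 → ℤ), InU T x y z →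
    3 ≤ (cx T x).rank → 3 ≤ (cx (s12 (s23 T)) z).rank →
    ∀ (x' : Fin N1 → ℤ) (y' : Fin N2 → ℤ), 4 ≤ (cx T x').rank →
    ∃ (x1 : Fin N1 → ℤ) (y1 : Fin N2 → ℤ) (z1 : Fin N3 → ℤ),
      tf T x1 y z = 0 ∧ g2 T x1 z ≠ 0 ∧ tf T x1 y1 z = 0 ∧ g3 T x1 y1 ≠ 0 ∧
      tf T x1 y1 z1 = 0 ∧ g1 T y1 z1 ≠ 0 ∧ tf T x' y1 z1 = 0 ∧ g2 T x' z1 ≠ 0 ∧
      tf T x' y' z1 = 0

end Pool.Agent.T6.H81.BH
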