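import Mathlib
import Pool.Agent.T6.H81.BH.Defs
import Pool.Agent.T6.H81.BG.S6

/-! Module CH1: in an anisotropic system any two points are connected by changes of the blocks. -/

set_option autoImplicit false

namespace Pool.Agent.T6.H81.BH

open Finset Module Matrix
open Pool.Agent.H548.BL (lat)
open Pool.Agent.H548.TL (evz)
open Pool.Agent.T6.H5.TW (fl MultiDeg)
open Pool.Agent.T6.H81.BG (Pt Zr cf)

namespace CH1

/-- evaluation depends only on the blocks of positive degree -/
theorem dep {M : ℕ} {n : Fin M → ℕ} {p : MvPolynomial (Σ i, Fin (n i)) ℤ} {δ : Fin M → ℕ}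
    (h : MultiDeg p δ) {R : Type*} [CommRing R] (x x' : ∀ i, Fin (n i) → R)
    (hx : ∀ i, δ i ≠ 0 → x i = x' i) : evz p (fl x) = evz p (fl x') := by
  unfold evz
  rw [MvPolynomial.eval₂_eq', MvPolynomial.eval₂_eq']
  refine Finset.sum_congr rfl fun e he => ?_
  congr 1
  refine Finset.prod_congr rfl fun q _ => ?_
  obtain ⟨i, t⟩ := q
  by_cases hi : δ i = 0
  · have h1 := h e he i
    rw [hi] at h1
    have h2 := (Finset.sum_eq_zero_iff.1 h1) t (mem_univ _)
    rw [h2, pow_zero, pow_zero]
  · show x i t ^ _ = x' i t ^ _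
    rw [hx i hi]

/-- fewer equations than unknowns -/
theorem exists_sol {ι : Type} [Fintype ι] [DecidableEq ι] {N : ℕ} (h : Fintype.card ι < N)
    (A : ι → Fin N → ℤ) : ∃ y : Fin N → ℤ, y ≠ 0 ∧ ∀ i, A i ⬝ᵥ y = 0 := by
  by_cases h0 : Fintype.card ι = 0
  · have : IsEmpty ι := Fintype.card_eq_zero_iff.1 h0
    refine ⟨Pi.single ⟨0, by omega⟩ 1, ?_, fun i => (this.false i).elim⟩
    intro h1
    have := congrFun h1 ⟨0, by omega⟩
    simp at this
  · obtain ⟨y, hy0, hy, -⟩ := Int.Matrix.exists_ne_zero_int_vec_norm_le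
      (Matrix.of A : Matrix ι (Fin N) ℤ) (by simpa using h) (by omega)
    exact ⟨y, hy0, fun i => congrFun hy i⟩

/-- the mixed points -/
def mix {m : ℕ} {n : Fin m → ℕ} (x x' y : Pt n) (v w : Fin m) : Pt n :=
  fun u => if u ≤ w ∧ w < v then x' u else if u < v then y u else x u

theorem exists_y {m K : ℕ} {n : Fin m → ℕ} (F : Fin K → MvPolynomial (Σ i, Fin (n i)) ℤ)
    (d : Fin K → Fin m → ℕ) (hd : ∀ e v, d e v ≤ 1)
    (hn : ∀ v, ∑ e, d e v * ∑ u, d e u + 1 ≤ n v) (x x' : Pt n) (j : ℕ) (hj : j ≤ m) :
    ∃ y : Pt n, ∀ v : Fin m, (v : ℕ) < j → y v ≠ 0 ∧ ∀ e w, d e v = 1 → d e w = 1 →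
      cf F e v (mix x x' y v w) ⬝ᵥ y v = 0 := by
  classical
  induction j with
  | zero => exact ⟨x, fun v hv => absurd hv (Nat.not_lt_zero _)⟩
  | succ j ih =>
    obtain ⟨y, hy⟩ := ih (by omega)
    obtain ⟨v, hv⟩ : ∃ v : Fin m, (v : ℕ) = j := ⟨⟨j, by omega⟩, rfl⟩
    have hcard : Fintype.card {q : Fin K × Fin m // d q.1 v = 1 ∧ d q.1 q.2 = 1} < n v := by
      have h1 : Fintype.card {q : Fin K × Fin m // d q.1 v = 1 ∧ d q.1 q.2 = 1} =
          ∑ e, d e v * ∑ u, d e u := by
        rw [Fintype.card_subtype, Finset.card_filter, Fintype.sum_prod_type]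
        refine Finset.sum_congr rfl fun e _ => ?_
        rw [Finset.mul_sum]
        refine Finset.sum_congr rfl fun u _ => ?_
        have h2 := hd e v
        have h3 := hd e u
        show (if d e v = 1 ∧ d e u = 1 then 1 else 0) = d e v * d e u
        rcases Nat.le_one_iff_eq_zero_or_eq_one.1 h2 with h2 | h2 <;>
        rcases Nat.le_one_iff_eq_zero_or_eq_one.1 h3 with h3 | h3 <;> simp [h2, h3]
      have := hn v
      omega
    obtain ⟨z, hz0, hz⟩ := exists_sol hcard
      (fun q => cf F q.1.1 v (mix x x' y v q.1.2))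
    have hmix : ∀ v' w : Fin m, v' ≤ v → mix x x' (Function.update y v z) v' w = mix x x' y v' w := by
      intro v' w hvv
      funext u
      unfold mix
      by_cases h1 : u ≤ w ∧ w < v'
      · rw [if_pos h1, if_pos h1]
      · rw [if_neg h1, if_neg h1]
        by_cases h2 : u < v'
        · rw [if_pos h2, if_pos h2, Function.update_of_ne (ne_of_lt (lt_of_lt_of_le h2 hvv))]
        · rw [if_neg h2, if_neg h2]
    refine ⟨Function.update y v z, fun v' hv' => ?_⟩
    by_cases hvv : v' = v
    · subst hvv
      rw [Function.update_self]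
      refine ⟨hz0, fun e w hev hew => ?_⟩
      rw [hmix v' w (le_refl _)]
      exact hz ⟨(e, w), hev, hew⟩
    · have hlt : (v' : ℕ) < j := by
        have : (v' : ℕ) ≠ (v : ℕ) := fun h => hvv (Fin.ext h)
        omega
      rw [Function.update_of_ne hvv]
      refine ⟨(hy v' hlt).1, fun e w hev hew => ?_⟩
      rw [hmix v' w (by rw [Fin.le_def]; omega)]
      exact (hy v' hlt).2 e w hev hew

/-- the chain -/
theorem chain {m K : ℕ} {n : Fin m → ℕ} (F : Fin K → MvPolynomial (Σ i, Fin (n i)) ℤ)
    (d : Fin K → Fin m → ℕ) (hF : ∀ e, MultiDeg (F e) (d e))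
    (hLI : ∀ v, ∀ x : Pt n, (∀ u, x u ≠ 0) →
      LinearIndependent ℤ (fun e : BG.Eq d univ v => cf F e.1 v x))
    (G : MvPolynomial (Σ i, Fin (n i)) ℤ) (l : List (Fin m)) (Q : ℕ → Pt n) (b : Pt n)
    (hQ : ∀ v : Fin m, Q (v + 1) = Function.update (Q v) v (b v))
    (hZ : ∀ j, j ≤ m → Zr F (Q j)) (h0 : ∀ j, j ≤ m → ∀ u, Q j u ≠ 0)
    (hl : Gd (ι := fun v => BG.Eq d univ v) (fun v x e => cf F e.1 v x) G l (Q m)) :
    Gd (ι := fun v => BG.Eq d univ v) (fun v x e => cf F e.1 v x) G
      (List.finRange m ++ l) (Q 0) := by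
  have key : ∀ i j, i + j = m → Gd (ι := fun v => BG.Eq d univ v) (fun v x e => cf F e.1 v x) G
      ((List.finRange m).drop j ++ l) (Q j) := by
    intro i
    induction i with
    | zero =>
      intro j hj
      have hj' : j = m := by omega
      subst hj'
      rw [List.drop_of_length_le (by simp), List.nil_append]
      exact hl
    | succ i ih =>
      intro j hj
      have hjm : j < m := by omega
      have e1 : (List.finRange m).drop j = ⟨j, hjm⟩ :: (List.finRange m).drop (j + 1) := by
        rw [List.drop_eq_getElem_cons (by simpa using hjm)]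
        simp
      rw [e1, List.cons_append]
      have h2 := hQ ⟨j, hjm⟩
      refine ⟨hLI ⟨j, hjm⟩ (Q j) (h0 j (by omega)), b ⟨j, hjm⟩, ?_, ?_⟩
      · intro e
        have h3 := BG.S6.lin (hF e.1) e.2.2 (Q j) (b ⟨j, hjm⟩)
        rw [← h2] at h3
        have h4 := hZ (j + 1) (by omega) e.1
        rw [h4] at h3
        exact h3
      · rw [← h2]
        exact ih (j + 1) (by omega)
  have := key m 0 (by omega)
  rwa [List.drop_zero] at this

end CH1

open CH1 in
/-- Module CH1. -/
theorem ch1 : StmtCH1 := by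
  classical
  intro m K n F d hd hF hn hLI G x' hx'0 hx'Z hG x hx0 hxZ
  obtain ⟨y, hy⟩ := exists_y F d hd hn x x' m (le_refl m)
  have hy0 : ∀ v, y v ≠ 0 := fun v => (hy v v.2).1
  -- the equations for `y`
  have hyE : ∀ e v w, d e v = 1 → d e w = 1 →
      evz (F e) (fl (Function.update (mix x x' y v w) v (y v))) = 0 := by
    intro e v w hv hw
    have h1 := (hy v v.2).2 e w hv hw
    rw [← BG.S6.lin (hF e) hv (mix x x' y v w) (y v)]
    exact h1
  have h1of : ∀ e v, d e v ≠ 0 → d e v = 1 := by
    intro e v h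
    have := hd e v
    omega
  set P : ℕ → Pt n := fun j u => if (u : ℕ) < j then y u else x u with hP
  set R : ℕ → Pt n := fun j u => if (u : ℕ) < j then x' u else y u with hR
  have hPm : P m = R 0 := by
    funext u
    show (if (u : ℕ) < m then y u else x u) = if (u : ℕ) < 0 then x' u else y u
    rw [if_pos u.2, if_neg (Nat.not_lt_zero _)]
  have hRm : R m = x' := by
    funext u
    show (if (u : ℕ) < m then x' u else y u) = x' u
    rw [if_pos u.2]
  have hP0 : P 0 = x := by
    funext u
    show (if (u : ℕ) < 0 then y u else x u) = x u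
    rw [if_neg (Nat.not_lt_zero _)]
  have hPu : ∀ v : Fin m, P (v + 1) = Function.update (P v) v (y v) := by
    intro v
    funext u
    show (if (u : ℕ) < v + 1 then y u else x u) = _
    by_cases huv : u = v
    · subst huv
      rw [Function.update_self, if_pos (Nat.lt_succ_self _)]
    · rw [Function.update_of_ne huv]
      show _ = if (u : ℕ) < v then y u else x u
      have h3 : (u : ℕ) ≠ v := fun h => huv (Fin.ext h)
      by_cases h4 : (u : ℕ) < v
      · rw [if_pos h4, if_pos (by omega)]
      · rw [if_neg h4, if_neg (by omega)]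
  have hRu : ∀ v : Fin m, R (v + 1) = Function.update (R v) v (x' v) := by
    intro v
    funext u
    show (if (u : ℕ) < v + 1 then x' u else y u) = _
    by_cases huv : u = v
    · subst huv
      rw [Function.update_self, if_pos (Nat.lt_succ_self _)]
    · rw [Function.update_of_ne huv]
      show _ = if (u : ℕ) < v then x' u else y u
      have h3 : (u : ℕ) ≠ v := fun h => huv (Fin.ext h)
      by_cases h4 : (u : ℕ) < v
      · rw [if_pos h4, if_pos (by omega)]
      · rw [if_neg h4, if_neg (by omega)]
  have hPn : ∀ j, j ≤ m → ∀ u, P j u ≠ 0 := by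
    intro j _ u
    show (if (u : ℕ) < j then y u else x u) ≠ 0
    split_ifs
    · exact hy0 u
    · exact hx0 u
  have hRn : ∀ j, j ≤ m → ∀ u, R j u ≠ 0 := by
    intro j _ u
    show (if (u : ℕ) < j then x' u else y u) ≠ 0
    split_ifs
    · exact hx'0 u
    · exact hy0 u
  -- the points of the first chain
  have hPZ : ∀ j, j ≤ m → Zr F (P j) := by
    intro j _ e
    rcases (univ.filter fun v : Fin m => d e v ≠ 0 ∧ (v : ℕ) < j).eq_empty_or_nonempty with h | h
    · rw [dep (hF e) (P j) x (fun i hi => ?_)]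
      · exact hxZ e
      · show (if (i : ℕ) < j then y i else x i) = x i
        rw [if_neg]
        intro hij
        have : i ∈ (univ.filter fun v : Fin m => d e v ≠ 0 ∧ (v : ℕ) < j) := by
          rw [mem_filter]
          exact ⟨mem_univ _, hi, hij⟩
        rw [h] at this
        exact absurd this (Finset.notMem_empty _)
    · obtain ⟨v, hv, hmax⟩ := Finset.exists_max_image _ (fun v : Fin m => (v : ℕ)) h
      rw [mem_filter] at hv
      rw [← hyE e v v (h1of e v hv.2.1) (h1of e v hv.2.1)]
      refine dep (hF e) _ _ (fun i hi => ?_)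
      show (if (i : ℕ) < j then y i else x i) = _
      by_cases hiv : i = v
      · subst hiv
        rw [Function.update_self, if_pos hv.2.2]
      · rw [Function.update_of_ne hiv]
        have h3 : (i : ℕ) ≠ v := fun h => hiv (Fin.ext h)
        show _ = if i ≤ v ∧ v < v then x' i else if i < v then y i else x i
        rw [if_neg (show ¬(i ≤ v ∧ v < v) from fun h => lt_irrefl _ h.2)]
        by_cases hij : (i : ℕ) < j
        · have h4 := hmax i (by rw [mem_filter]; exact ⟨mem_univ _, hi, hij⟩)
          rw [if_pos hij, if_pos (by rw [Fin.lt_def]; omega)]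
        · rw [if_neg hij, if_neg (by rw [Fin.lt_def]; omega)]
  -- the points of the second chain
  have hRZ : ∀ j, j ≤ m → Zr F (R j) := by
    intro j _ e
    rcases (univ.filter fun v : Fin m => d e v ≠ 0 ∧ (v : ℕ) < j).eq_empty_or_nonempty with h | h
    · rw [dep (hF e) (R j) (R 0) (fun i hi => ?_)]
      · rw [← hPm]
        exact hPZ m (le_refl m) e
      · show (if (i : ℕ) < j then x' i else y i) = if (i : ℕ) < 0 then x' i else y i
        rw [if_neg, if_neg (Nat.not_lt_zero _)]
        intro hij
        have : i ∈ (univ.filter fun v : Fin m => d e v ≠ 0 ∧ (v : ℕ) < j) := by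
          rw [mem_filter]
          exact ⟨mem_univ _, hi, hij⟩
        rw [h] at this
        exact absurd this (Finset.notMem_empty _)
    · obtain ⟨w, hw, hmax⟩ := Finset.exists_max_image _ (fun v : Fin m => (v : ℕ)) h
      rw [mem_filter] at hw
      obtain ⟨v, hv, hvmax⟩ := Finset.exists_max_image (univ.filter fun v : Fin m => d e v ≠ 0)
        (fun v : Fin m => (v : ℕ)) ⟨w, by rw [mem_filter]; exact ⟨mem_univ _, hw.2.1⟩⟩
      rw [mem_filter] at hv
      have hwv := hvmax w (by rw [mem_filter]; exact ⟨mem_univ _, hw.2.1⟩)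
      by_cases hvj : (v : ℕ) < j
      · rw [dep (hF e) (R j) x' (fun i hi => ?_)]
        · exact hx'Z e
        · have h4 := hvmax i (by rw [mem_filter]; exact ⟨mem_univ _, hi⟩)
          show (if (i : ℕ) < j then x' i else y i) = x' i
          rw [if_pos (by omega)]
      · rw [← hyE e v w (h1of e v hv.2) (h1of e w hw.2.1)]
        refine dep (hF e) _ _ (fun i hi => ?_)
        have h4 := hvmax i (by rw [mem_filter]; exact ⟨mem_univ _, hi⟩)
        show (if (i : ℕ) < j then x' i else y i) = _
        by_cases hiv : i = v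
        · subst hiv
          rw [Function.update_self, if_neg hvj]
        · rw [Function.update_of_ne hiv]
          have h3 : (i : ℕ) ≠ v := fun h => hiv (Fin.ext h)
          show _ = if i ≤ w ∧ w < v then x' i else if i < v then y i else x i
          by_cases hij : (i : ℕ) < j
          · have h5 := hmax i (by rw [mem_filter]; exact ⟨mem_univ _, hi, hij⟩)
            rw [if_pos hij, if_pos]
            rw [Fin.le_def, Fin.lt_def]
            omega
          · rw [if_neg hij, if_neg, if_pos (by rw [Fin.lt_def]; omega)]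
            rw [Fin.le_def, Fin.lt_def]
            omega
  have hend : Gd (ι := fun v => BG.Eq d univ v) (fun v x e => cf F e.1 v x) G [] (R m) := by
    show evz G (fl (R m)) ≠ 0
    rw [hRm]
    exact hG
  have hmid := chain F d hF hLI G [] R x' hRu hRZ hRn hend
  rw [List.append_nil, ← hPm] at hmid
  have := chain F d hF hLI G (List.finRange m) P y hPu hPZ hPn hmid
  rwa [hP0] at this

end Pool.Agent.T6.H81.BH
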