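import Mathlib
import Pool.Agent.T6.H81.BG.C3
import Pool.Agent.T6.H81.BH.Defs

/-!
The number of the points in boxes with a property, counted in the fibres (after `BG.C3` by
helper64).
-/

set_option autoImplicit false

namespace Pool.Agent.T6.H81.BH

open Finset Module Matrix Filter Topology
open Pool.Agent.H548.WM (ht bx mem_bx Rep)
open Pool.Agent.H548.BL (lat mem_lat)
open Pool.Agent.T6.H81.BA (Cell)
open Pool.Agent.T6.H81.BG (Pt Bx FS C3.mem_Bx C3.card_fib C3.calc_aux)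
open Pool.Agent.T6.H81

open Classical in
/-- Counting in the fibres over the other blocks. -/
theorem c5 {m : ℕ} {n r D : Fin m → ℕ} {P : Pt n → Prop} {Q : Fin m → Pt n → Prop}
    {ι : Fin m → Type} [∀ v, Fintype (ι v)] {w : ∀ v, Pt n → ι v → Fin (n v) → ℤ}
    (hF : FS n r D P Q ι w) (v : Fin m) (T : Pt n → (Fin (n v) → ℤ) → Prop)
    (hT : ∀ x z z', T (Function.update x v z) z' ↔ T x z') (CR : ℝ) (hCR : 0 ≤ CR)
    (c : Pt n → ℝ) (hc : ∀ y, Q v y → ∀ ρ Y : ℕ, 1 ≤ ρ → ρ ≤ Y →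
      |((((bx (n v) Y).filter fun z => z ∈ lat (w v y) ∧ T y z).card : ℕ) : ℝ) -
        c y * (Y : ℝ) ^ (r v)| ≤ CR * (1 + Real.log Y) * ((Y : ℝ) / ρ) ^ (r v - 1) *
          ((((bx (n v) ρ).filter fun z => z ∈ lat (w v y)).card : ℕ) : ℝ)) :
    ∃ C δ : ℝ, 0 < δ ∧ ∀ X : Fin m → ℕ, (∀ u, 1 ≤ X u) → (∀ u, X u ≤ 2 * X v) →
    |((Bx n X fun x => P x ∧ T x (x v)).card : ℝ) -
      (∑ y ∈ Bx n (Function.update X v 0) (Q v), c y) * (X v : ℝ) ^ r v| ≤
      C * (∏ u, (X u : ℝ) ^ r u) * (X v : ℝ) ^ (-δ) := by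
  obtain ⟨δ0, hδ0⟩ : ∃ δ0 : ℝ, δ0 = 1 / (2 * ((D v : ℝ) + 1)) := ⟨_, rfl⟩
  obtain ⟨ε, hε⟩ : ∃ ε : ℝ, ε = δ0 / (4 * ((m : ℝ) + 1)) := ⟨_, rfl⟩
  have d0 : 0 < δ0 := by rw [hδ0]; positivity
  have e0 : 0 < ε := by rw [hε]; positivity
  obtain ⟨C1, hC1, hbox⟩ := hF.box ε e0
  obtain ⟨C2, hC2, hbad⟩ := hF.bad v ε e0
  have updA : ∀ x z, Q v (Function.update x v z) ↔ Q v x := fun x z => hF.upd_Q v x z
  refine ⟨CR * (1 + 1 / ε) * (C1 * (2 * (2 : ℝ) ^ (m * ε)) + C2) + C2, δ0 / 2, half_pos d0,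
    fun X hX hXv => ?_⟩
  have hXv1 : 1 ≤ X v := hX v
  have X1 : (1 : ℝ) ≤ X v := by exact_mod_cast hXv1
  have X0 : (0 : ℝ) < X v := by linarith
  -- the choice of `ρ`
  have hp1 : (1 : ℝ) ≤ (X v : ℝ) ^ (1 - δ0) := by
    refine Real.one_le_rpow X1 ?_
    have : δ0 ≤ 1 := by
      rw [hδ0, div_le_one (by positivity)]
      have : (0 : ℝ) ≤ D v := by positivity
      linarith
    linarith
  obtain ⟨ρ, hρ⟩ : ∃ ρ : ℕ, ρ = ⌈(X v : ℝ) ^ (1 - δ0)⌉₊ := ⟨_, rfl⟩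
  have r1 : (X v : ℝ) ^ (1 - δ0) ≤ ρ := by rw [hρ]; exact Nat.le_ceil _
  have r2 : (ρ : ℝ) ≤ 2 * (X v : ℝ) ^ (1 - δ0) := by
    have := Nat.ceil_lt_add_one (a := (X v : ℝ) ^ (1 - δ0)) (by positivity)
    rw [← hρ] at this
    linarith
  have r3 : 1 ≤ ρ := by
    have : (1 : ℝ) ≤ ρ := hp1.trans r1
    exact_mod_cast this
  have r4 : ρ ≤ X v := by
    rw [hρ]
    refine Nat.ceil_le.2 ?_
    calc (X v : ℝ) ^ (1 - δ0) ≤ (X v : ℝ) ^ (1 : ℝ) :=
          Real.rpow_le_rpow_of_exponent_le X1 (by linarith)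
      _ = X v := Real.rpow_one _
  -- the product over the other blocks
  obtain ⟨W, hW⟩ : ∃ W : ℝ, W = ∏ u ∈ univ.erase v, (X u : ℝ) ^ r u := ⟨_, rfl⟩
  have W0 : 0 ≤ W := by rw [hW]; exact Finset.prod_nonneg fun u _ => by positivity
  have hprod : ∏ u, (X u : ℝ) ^ r u = W * (X v : ℝ) ^ r v := by
    rw [hW, mul_comm, Finset.mul_prod_erase univ (fun u => (X u : ℝ) ^ r u) (mem_univ v)]
  -- the number of the points
  obtain ⟨G, hG⟩ : ∃ G : Finset (Pt n), G = Bx n X (fun x => Q v x ∧ (x v ∈ lat (w v x) ∧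
    T x (x v))) := ⟨_, rfl⟩
  have cardG : G.card = ∑ y ∈ Bx n (Function.update X v 0) (Q v),
      ((bx (n v) (X v)).filter fun z => z ∈ lat (w v y) ∧ T y z).card := by
    have h := C3.card_fib v X (Q v) updA (fun x z => z ∈ lat (w v x) ∧ T x z) (by
      intro x z z'
      rw [hF.upd_w, hT])
    rw [hG, h]
    refine Finset.sum_congr rfl fun y _ => ?_
    congr
  obtain ⟨F, hFF⟩ : ∃ F : Finset (Pt n), F = Bx n X (fun x => P x ∧ T x (x v)) := ⟨_, rfl⟩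
  have FG : F ⊆ G := by
    intro x hx
    rw [hFF, C3.mem_Bx] at hx
    rw [hG, C3.mem_Bx]
    obtain ⟨h1, h2, h3⟩ := hx
    obtain ⟨h4, h5⟩ := hF.fib v x h2
    exact ⟨h1, h4, h5, h3⟩
  have GF : G ⊆ F ∪ Bx n X (fun x => Q v x ∧ x v ∈ lat (w v x) ∧ ¬ P x) := by
    intro x hx
    rw [hG, C3.mem_Bx] at hx
    obtain ⟨h1, h2, h4, h5⟩ := hx
    rw [mem_union]
    by_cases hP : P x
    · left
      rw [hFF, C3.mem_Bx]
      exact ⟨h1, hP, h5⟩
    · right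
      rw [C3.mem_Bx]
      exact ⟨h1, h2, h4, hP⟩
  have c1 : (F.card : ℝ) ≤ G.card := by exact_mod_cast card_le_card FG
  have c2 : (G.card : ℝ) ≤ F.card +
      ((Bx n X (fun x => Q v x ∧ x v ∈ lat (w v x) ∧ ¬ P x)).card : ℝ) := by
    exact_mod_cast (card_le_card GF).trans (card_union_le _ _)
  have c3 : ((Bx n X (fun x => Q v x ∧ x v ∈ lat (w v x) ∧ ¬ P x)).card : ℝ) ≤
      C2 * W * (X v : ℝ) ^ ((D v : ℝ) + ε) * (X v : ℝ) ^ (r v - D v - 1) := by
    have := hbad X hX hXv (X v) hXv1 le_rfl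
    rw [Function.update_eq_self, ← hW] at this
    exact this
  -- the small box
  have c4 : ∑ y ∈ Bx n (Function.update X v 0) (Q v),
      ((((bx (n v) ρ).filter fun z => z ∈ lat (w v y)).card : ℕ) : ℝ) ≤
      W * (C1 * (ρ : ℝ) ^ r v * ((2 * (X v : ℝ)) ^ m) ^ ε +
        C2 * (X v : ℝ) ^ ((D v : ℝ) + ε) * (ρ : ℝ) ^ (r v - D v - 1)) := by
    have h1 := C3.card_fib v (Function.update X v ρ) (Q v) updA (fun x z => z ∈ lat (w v x)) (by
      intro x z z'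
      rw [hF.upd_w])
    rw [Function.update_idem, Function.update_self] at h1
    have h2 : (Bx n (Function.update X v ρ) fun x => Q v x ∧ x v ∈ lat (w v x)) ⊆
        (Bx n (Function.update X v ρ) P) ∪ (Bx n (Function.update X v ρ) fun x =>
          Q v x ∧ x v ∈ lat (w v x) ∧ ¬ P x) := by
      intro x hx
      rw [C3.mem_Bx] at hx
      obtain ⟨k1, k2, k4⟩ := hx
      rw [mem_union, C3.mem_Bx, C3.mem_Bx]
      by_cases hP : P x
      · exact Or.inl ⟨k1, hP⟩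
      · exact Or.inr ⟨k1, k2, k4, hP⟩
    have h3 := (card_le_card h2).trans (card_union_le _ _)
    rw [h1] at h3
    have h4 : (∑ y ∈ Bx n (Function.update X v 0) (Q v),
        ((((bx (n v) ρ).filter fun z => z ∈ lat (w v y)).card : ℕ) : ℝ)) ≤
        ((Bx n (Function.update X v ρ) P).card : ℝ) +
        ((Bx n (Function.update X v ρ) fun x => Q v x ∧ x v ∈ lat (w v x) ∧ ¬ P x).card : ℝ) := by
      exact_mod_cast h3
    have hX' : ∀ u, 1 ≤ Function.update X v ρ u := by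
      intro u
      by_cases hu : u = v
      · subst hu; rw [Function.update_self]; exact r3
      · rw [Function.update_of_ne hu]; exact hX u
    have h5 := hbox (Function.update X v ρ) hX'
    have h6 := hbad X hX hXv ρ r3 r4
    rw [← hW] at h6
    have h7 : ∏ u, ((Function.update X v ρ u : ℕ) : ℝ) ^ r u = W * (ρ : ℝ) ^ r v := by
      rw [hW, mul_comm, ← Finset.mul_prod_erase univ _ (mem_univ v), Function.update_self]
      congr 1
      refine Finset.prod_congr rfl fun u hu => ?_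
      rw [Function.update_of_ne (Finset.ne_of_mem_erase hu)]
    have h8 : ∏ u, ((Function.update X v ρ u : ℕ) : ℝ) ≤ (2 * (X v : ℝ)) ^ m := by
      have : ∀ u ∈ (univ : Finset (Fin m)), ((Function.update X v ρ u : ℕ) : ℝ) ≤
          2 * (X v : ℝ) := by
        intro u _
        by_cases hu : u = v
        · subst hu
          rw [Function.update_self]
          have : (ρ : ℝ) ≤ X u := by exact_mod_cast r4
          linarith
        · rw [Function.update_of_ne hu]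
          exact_mod_cast hXv u
      refine (Finset.prod_le_prod (fun u _ => by positivity) this).trans ?_
      rw [Finset.prod_const, card_univ, Fintype.card_fin]
    have h9 : (∏ u, ((Function.update X v ρ u : ℕ) : ℝ)) ^ ε ≤ ((2 * (X v : ℝ)) ^ m) ^ ε :=
      Real.rpow_le_rpow (Finset.prod_nonneg fun u _ => by positivity) h8 e0.le
    rw [h7] at h5
    calc _ ≤ _ := h4
      _ ≤ C1 * (W * (ρ : ℝ) ^ r v) * ((2 * (X v : ℝ)) ^ m) ^ ε +
          C2 * W * (X v : ℝ) ^ ((D v : ℝ) + ε) * (ρ : ℝ) ^ (r v - D v - 1) := by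
          refine add_le_add (h5.trans ?_) h6
          gcongr
      _ = _ := by ring
  -- the main term
  have c5 : |(G.card : ℝ) - (∑ y ∈ Bx n (Function.update X v 0) (Q v), c y) * (X v : ℝ) ^ r v| ≤
      CR * (1 + Real.log (X v)) * ((X v : ℝ) / ρ) ^ (r v - 1) *
      ∑ y ∈ Bx n (Function.update X v 0) (Q v),
      ((((bx (n v) ρ).filter fun z => z ∈ lat (w v y)).card : ℕ) : ℝ) := by
    rw [cardG, Finset.sum_mul, Finset.mul_sum]
    push_cast
    rw [← Finset.sum_sub_distrib]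
    refine (Finset.abs_sum_le_sum_abs _ _).trans ?_
    refine Finset.sum_le_sum fun y hy => ?_
    rw [C3.mem_Bx] at hy
    exact hc y hy.2 ρ (X v) r3 r4
  have l0 : 0 ≤ 1 + Real.log (X v) := by
    have := Real.log_nonneg X1
    linarith
  have c6 := C3.calc_aux (m := m) X1 hδ0 hε (hF.hD v) r1 r2 hCR hC1 hC2
  have c7 : CR * (1 + Real.log (X v)) * ((X v : ℝ) / ρ) ^ (r v - 1) *
      (∑ y ∈ Bx n (Function.update X v 0) (Q v),
      ((((bx (n v) ρ).filter fun z => z ∈ lat (w v y)).card : ℕ) : ℝ)) ≤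
      CR * (1 + Real.log (X v)) * ((X v : ℝ) / ρ) ^ (r v - 1) *
      (W * (C1 * (ρ : ℝ) ^ r v * ((2 * (X v : ℝ)) ^ m) ^ ε +
        C2 * (X v : ℝ) ^ ((D v : ℝ) + ε) * (ρ : ℝ) ^ (r v - D v - 1))) := by
    gcongr
  have c8 := mul_le_mul_of_nonneg_left c6 W0
  rw [← hFF, hprod]
  have c9 : |(F.card : ℝ) - (∑ y ∈ Bx n (Function.update X v 0) (Q v), c y) * (X v : ℝ) ^ r v| ≤
      |(G.card : ℝ) - (∑ y ∈ Bx n (Function.update X v 0) (Q v), c y) * (X v : ℝ) ^ r v| +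
      C2 * W * (X v : ℝ) ^ ((D v : ℝ) + ε) * (X v : ℝ) ^ (r v - D v - 1) := by
    have k1 : |(F.card : ℝ) - G.card| ≤
        C2 * W * (X v : ℝ) ^ ((D v : ℝ) + ε) * (X v : ℝ) ^ (r v - D v - 1) := by
      rw [abs_le]
      constructor
      · linarith
      · have : 0 ≤ ((Bx n X (fun x => Q v x ∧ x v ∈ lat (w v x) ∧ ¬ P x)).card : ℝ) := by
          positivity
        linarith
    calc _ = |((F.card : ℝ) - G.card) + ((G.card : ℝ) -
          (∑ y ∈ Bx n (Function.update X v 0) (Q v), c y) * (X v : ℝ) ^ r v)| := by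
          congr 1; ring
      _ ≤ _ := abs_add_le _ _
      _ ≤ _ := by linarith
  refine c9.trans ?_
  calc _ ≤ CR * (1 + Real.log (X v)) * ((X v : ℝ) / ρ) ^ (r v - 1) *
      (W * (C1 * (ρ : ℝ) ^ r v * ((2 * (X v : ℝ)) ^ m) ^ ε +
        C2 * (X v : ℝ) ^ ((D v : ℝ) + ε) * (ρ : ℝ) ^ (r v - D v - 1))) +
      C2 * W * (X v : ℝ) ^ ((D v : ℝ) + ε) * (X v : ℝ) ^ (r v - D v - 1) := by
        linarith [c5.trans c7]
    _ = W * (CR * (1 + Real.log (X v)) * ((X v : ℝ) / ρ) ^ (r v - 1) *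
      (C1 * (ρ : ℝ) ^ r v * ((2 * (X v : ℝ)) ^ m) ^ ε +
        C2 * (X v : ℝ) ^ ((D v : ℝ) + ε) * (ρ : ℝ) ^ (r v - D v - 1)) +
      C2 * (X v : ℝ) ^ ((D v : ℝ) + ε) * (X v : ℝ) ^ (r v - D v - 1)) := by ring
    _ ≤ _ := c8
    _ = _ := by ring

end Pool.Agent.T6.H81.BH
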