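import Mathlib
import Pool.Agent.T6.H81.BH.C5

/-!
There are few points on a hypersurface.
-/

set_option autoImplicit false

namespace Pool.Agent.T6.H81.BH

open Finset Module Matrix Filter Topology
open Pool.Agent.H548.WM (ht bx mem_bx Rep)
open Pool.Agent.H548.BL (lat mem_lat)
open Pool.Agent.H548.TL (evz evz_map evz_int deg_evz)
open Pool.Agent.T6.H5.TW (fl MultiDeg)
open Pool.Agent.T6.H81.BA (Cell)
open Pool.Agent.T6.H81.BG (Pt Bx FS StmtR3 StmtP3)
open Pool.Agent.T6.H81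

variable {m : ℕ} {n : Fin m → ℕ}

/-- The polynomial in the coordinates of one block. -/
noncomputable def rs (y : Pt n) (v : Fin m) (G : MvPolynomial (Σ i, Fin (n i)) ℤ) :
    MvPolynomial (Fin (n v)) ℤ :=
  evz G (fl (Function.update (fun u i => (MvPolynomial.C (y u i) : MvPolynomial (Fin (n v)) ℤ)) v
    (fun i => MvPolynomial.X i)))

theorem eval_rs (y : Pt n) (v : Fin m) (G : MvPolynomial (Σ i, Fin (n i)) ℤ)
    (z : Fin (n v) → ℤ) :
    MvPolynomial.eval z (rs y v G) = evz G (fl (Function.update y v z)) := by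
  unfold rs
  rw [evz_map]
  congr 1
  funext p
  obtain ⟨u, i⟩ := p
  show MvPolynomial.eval z (fl _ ⟨u, i⟩) = Function.update y v z u i
  unfold fl
  by_cases hu : u = v
  · subst hu
    simp
  · simp [Function.update_of_ne hu]

theorem deg_rs (y : Pt n) (v : Fin m) (G : MvPolynomial (Σ i, Fin (n i)) ℤ) :
    (rs y v G).totalDegree ≤ G.totalDegree := by
  unfold rs
  apply deg_evz
  rintro ⟨u, i⟩
  show (Function.update (fun u i => (MvPolynomial.C (y u i) : MvPolynomial (Fin (n v)) ℤ)) v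
    (fun i => MvPolynomial.X i) u i).totalDegree ≤ 1
  by_cases hu : u = v
  · subst hu
    rw [Function.update_self]
    rw [MvPolynomial.totalDegree_X]
  · rw [Function.update_of_ne hu, MvPolynomial.totalDegree_C]
    norm_num

open Classical in
/-- The bound for the zeros in a fibre. -/
theorem zf (hZ0 : StmtZ0) {r D : Fin m → ℕ} {P : Pt n → Prop} {Q : Fin m → Pt n → Prop}
    {ι : Fin m → Type} [∀ v, Fintype (ι v)] {w : ∀ v, Pt n → ι v → Fin (n v) → ℤ}
    (hF : FS n r D P Q ι w) (v : Fin m) (D0 : ℕ) : ∃ C : ℝ, 0 ≤ C ∧ ∀ y : Pt n, Q v y →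
      ∀ p : MvPolynomial (Fin (n v)) ℤ, p.totalDegree ≤ D0 →
        (∃ z ∈ lat (w v y), MvPolynomial.eval z p ≠ 0) → ∀ A : (Fin (n v) → ℤ) → Prop,
        (∀ z ∈ lat (w v y), A z → MvPolynomial.eval z p = 0) → ∀ ρ Y : ℕ, 1 ≤ ρ → ρ ≤ Y →
        ((((bx (n v) Y).filter fun z => z ∈ lat (w v y) ∧ A z).card : ℕ) : ℝ) ≤
          C * (1 + Real.log Y) * ((Y : ℝ) / ρ) ^ (r v - 1) *
          ((((bx (n v) ρ).filter fun z => z ∈ lat (w v y)).card : ℕ) : ℝ) := by
  have h1 := hF.card v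
  have h2 := hF.r2 v
  obtain ⟨C, hC, h⟩ := hZ0 (Fintype.card (ι v)) (n v) D0 (by omega)
  refine ⟨C, hC, fun y hy p hp hz A hA ρ Y hρ hY => ?_⟩
  have h3 := h (fun i => w v y ((Fintype.equivFin (ι v)).symm i))
      ((hF.li v y hy).comp _ (Fintype.equivFin (ι v)).symm.injective) p hp (by
        obtain ⟨z, hz1, hz2⟩ := hz
        exact ⟨z, (BG.C3.lat_comp _ _ _).2 hz1, hz2⟩) ρ Y hρ hY
  have e : n v - Fintype.card (ι v) - 1 = r v - 1 := by omega
  rw [e] at h3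
  simp only [BG.C3.lat_comp] at h3
  have h4 : (((bx (n v) Y).filter fun z => z ∈ lat (w v y) ∧ A z).card : ℕ) ≤
      (((bx (n v) Y).filter fun z => z ∈ lat (w v y) ∧ MvPolynomial.eval z p = 0).card : ℕ) := by
    apply card_le_card
    intro z hz
    rw [mem_filter] at hz ⊢
    exact ⟨hz.1, hz.2.1, hA z hz.2.1 hz.2.2⟩
  have h5 : ((((bx (n v) Y).filter fun z => z ∈ lat (w v y) ∧ A z).card : ℕ) : ℝ) ≤
      ((((bx (n v) Y).filter fun z => z ∈ lat (w v y) ∧
        MvPolynomial.eval z p = 0).card : ℕ) : ℝ) := by exact_mod_cast h4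
  refine (h5.trans h3).trans ?_
  have hY1 : (1 : ℝ) ≤ Y := by exact_mod_cast hρ.trans hY
  have hl : 1 ≤ 1 + Real.log Y := by
    have := Real.log_nonneg hY1
    linarith
  have hρ0 : (0 : ℝ) < ρ := by exact_mod_cast hρ
  have h6 : C * 1 ≤ C * (1 + Real.log Y) := by gcongr
  rw [mul_one] at h6
  gcongr

open Classical in
/-- Few points with a property which is thin in the fibres. -/
theorem zs (hZ0 : StmtZ0) {r D : Fin m → ℕ} {P : Pt n → Prop} {Q : Fin m → Pt n → Prop}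
    {ι : Fin m → Type} [∀ v, Fintype (ι v)] {w : ∀ v, Pt n → ι v → Fin (n v) → ℤ}
    (hF : FS n r D P Q ι w) (v : Fin m) (D0 : ℕ) (Bad : Pt n → Prop)
    (hB : ∀ y : Pt n, Q v y → ∃ p : MvPolynomial (Fin (n v)) ℤ, p.totalDegree ≤ D0 ∧
        (∃ z ∈ lat (w v y), MvPolynomial.eval z p ≠ 0) ∧
        (∀ z ∈ lat (w v y), Bad (Function.update y v z) → MvPolynomial.eval z p = 0)) :
    ∃ C δ : ℝ, 0 < δ ∧ ∀ X : Fin m → ℕ, (∀ u, 1 ≤ X u) → (∀ u, X u ≤ 2 * X v) →
      ((Bx n X fun x => P x ∧ Bad x).card : ℝ) ≤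
        C * (∏ u, (X u : ℝ) ^ r u) * (X v : ℝ) ^ (-δ) := by
  obtain ⟨C, hC, h⟩ := zf hZ0 hF v D0
  obtain ⟨C', δ, hδ, h'⟩ := c5 hF v (fun y z => Bad (Function.update y v z)) (by
    intro x z z'
    simp only [Function.update_idem]) C hC (fun _ => 0) (by
    intro y hy ρ Y hρ hY
    obtain ⟨p, hp1, hp2, hp3⟩ := hB y hy
    have h1 := h y hy p hp1 hp2 (fun z => Bad (Function.update y v z)) hp3 ρ Y hρ hY
    rw [zero_mul, sub_zero, abs_of_nonneg (by positivity)]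
    exact h1)
  refine ⟨C', δ, hδ, fun X hX hXv => ?_⟩
  have h1 := h' X hX hXv
  rw [Finset.sum_const_zero, zero_mul, sub_zero, abs_of_nonneg (by positivity)] at h1
  have h2 : (Bx n X fun x => P x ∧ Bad x) =
      (Bx n X fun x => P x ∧ Bad (Function.update x v (x v))) := by
    congr 1
    funext x
    rw [Function.update_eq_self]
  rw [h2]
  exact h1

theorem gd_upd {ι : Fin m → Type} [∀ v, Fintype (ι v)]
    {w : ∀ v, Pt n → ι v → Fin (n v) → ℤ}
    (hw : ∀ v (x : Pt n) (z : Fin (n v) → ℤ), w v (Function.update x v z) = w v x)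
    (G : MvPolynomial (Σ i, Fin (n i)) ℤ) (v : Fin m) (l : List (Fin m)) (x : Pt n)
    (z : Fin (n v) → ℤ) :
    Gd w G (v :: l) (Function.update x v z) ↔ Gd w G (v :: l) x := by
  unfold Gd
  rw [hw]
  simp only [Function.update_idem]

open Classical in
/-- Equal boxes. -/
theorem diag (hZ0 : StmtZ0) (hPol : StmtPol) {r D : Fin m → ℕ} {P : Pt n → Prop}
    {Q : Fin m → Pt n → Prop} {ι : Fin m → Type} [∀ v, Fintype (ι v)]
    {w : ∀ v, Pt n → ι v → Fin (n v) → ℤ} (hF : FS n r D P Q ι w) (hW : PolyW w)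
    (G : MvPolynomial (Σ i, Fin (n i)) ℤ) (l : List (Fin m)) :
    ∃ C δ : ℝ, 0 ≤ C ∧ 0 < δ ∧ ∀ A : ℕ, 1 ≤ A →
      ((Bx n (fun _ => A) fun x => P x ∧ Gd w G l x ∧ evz G (fl x) = 0).card : ℝ) ≤
        C * (∏ u, (A : ℝ) ^ r u) * (A : ℝ) ^ (-δ) := by
  induction l with
  | nil =>
    refine ⟨0, 1, le_rfl, one_pos, fun A hA => ?_⟩
    have h1 : (Bx n (fun _ => A) fun x => P x ∧ Gd w G [] x ∧ evz G (fl x) = 0) = ∅ := by
      rw [Finset.eq_empty_iff_forall_notMem]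
      intro x hx
      rw [BG.C3.mem_Bx] at hx
      exact hx.2.2.1 hx.2.2.2
    rw [h1]
    simp
  | cons v l ih =>
    obtain ⟨C1, δ1, hC1, hδ1, h1⟩ := ih
    obtain ⟨D0, hD0⟩ := hPol m n ι w hW G l
    obtain ⟨C2, δ2, hδ2, h2⟩ := zs hZ0 hF v D0
      (fun x => Gd w G (v :: l) x ∧ ¬ Gd w G l x) (by
      intro y hy
      by_cases hg : Gd w G (v :: l) y
      · obtain ⟨hli, z0, hz0, hz1⟩ := hg
        obtain ⟨g, hg1, hg2, hg3⟩ := hD0 _ hz1
        refine ⟨rs y v g, (deg_rs y v g).trans hg1, ⟨z0, hz0, ?_⟩, ?_⟩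
        · rw [eval_rs]
          exact hg2
        · intro z hz hbad
          rw [eval_rs]
          by_contra hne
          exact hbad.2 (hg3 _ hne)
      · refine ⟨1, by simp, ⟨0, AddSubgroup.zero_mem _, by simp⟩, ?_⟩
        intro z hz hbad
        exact absurd ((gd_upd hF.upd_w G v l y z).1 hbad.1) hg)
    refine ⟨C1 + |C2|, min δ1 δ2, by positivity, lt_min hδ1 hδ2, fun A hA => ?_⟩
    have hA1 : (1 : ℝ) ≤ A := by exact_mod_cast hA
    have hsub : (Bx n (fun _ => A) fun x => P x ∧ Gd w G (v :: l) x ∧ evz G (fl x) = 0) ⊆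
        (Bx n (fun _ => A) fun x => P x ∧ Gd w G l x ∧ evz G (fl x) = 0) ∪
        (Bx n (fun _ => A) fun x => P x ∧ (Gd w G (v :: l) x ∧ ¬ Gd w G l x)) := by
      intro x hx
      rw [BG.C3.mem_Bx] at hx
      rw [mem_union, BG.C3.mem_Bx, BG.C3.mem_Bx]
      by_cases hg : Gd w G l x
      · exact Or.inl ⟨hx.1, hx.2.1, hg, hx.2.2.2⟩
      · exact Or.inr ⟨hx.1, hx.2.1, hx.2.2.1, hg⟩
    have h3 : ((Bx n (fun _ => A) fun x => P x ∧ Gd w G (v :: l) x ∧ evz G (fl x) = 0).card : ℝ) ≤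
        ((Bx n (fun _ => A) fun x => P x ∧ Gd w G l x ∧ evz G (fl x) = 0).card : ℝ) +
        ((Bx n (fun _ => A) fun x => P x ∧ (Gd w G (v :: l) x ∧ ¬ Gd w G l x)).card : ℝ) := by
      exact_mod_cast (card_le_card hsub).trans (card_union_le _ _)
    have h4 := h1 A hA
    have h5 := h2 (fun _ => A) (fun _ => hA) (fun _ => by
      show A ≤ 2 * A
      omega)
    have hp : 0 ≤ ∏ u : Fin m, (A : ℝ) ^ r u := Finset.prod_nonneg fun u _ => by positivity
    have e1 : (A : ℝ) ^ (-δ1) ≤ (A : ℝ) ^ (-(min δ1 δ2)) :=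
      Real.rpow_le_rpow_of_exponent_le hA1 (neg_le_neg (min_le_left _ _))
    have e2 : (A : ℝ) ^ (-δ2) ≤ (A : ℝ) ^ (-(min δ1 δ2)) :=
      Real.rpow_le_rpow_of_exponent_le hA1 (neg_le_neg (min_le_right _ _))
    have h6 : C2 * (∏ u : Fin m, (A : ℝ) ^ r u) * (A : ℝ) ^ (-δ2) ≤
        |C2| * (∏ u : Fin m, (A : ℝ) ^ r u) * (A : ℝ) ^ (-(min δ1 δ2)) := by
      calc C2 * (∏ u : Fin m, (A : ℝ) ^ r u) * (A : ℝ) ^ (-δ2) ≤
          |C2| * (∏ u : Fin m, (A : ℝ) ^ r u) * (A : ℝ) ^ (-δ2) := by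
            gcongr
            exact le_abs_self _
        _ ≤ _ := by gcongr
    have h7 : C1 * (∏ u : Fin m, (A : ℝ) ^ r u) * (A : ℝ) ^ (-δ1) ≤
        C1 * (∏ u : Fin m, (A : ℝ) ^ r u) * (A : ℝ) ^ (-(min δ1 δ2)) := by gcongr
    have h8 : (C1 + |C2|) * (∏ u : Fin m, (A : ℝ) ^ r u) * (A : ℝ) ^ (-(min δ1 δ2)) =
        C1 * (∏ u : Fin m, (A : ℝ) ^ r u) * (A : ℝ) ^ (-(min δ1 δ2)) +
        |C2| * (∏ u : Fin m, (A : ℝ) ^ r u) * (A : ℝ) ^ (-(min δ1 δ2)) := by ring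
    rw [h8]
    linarith

open Classical in
/-- The asymptotic formula for the points on a hypersurface. -/
theorem asy (hR3 : StmtR3) (hP3 : StmtP3) (hZ0 : StmtZ0) {r D : Fin m → ℕ} {P : Pt n → Prop}
    {Q : Fin m → Pt n → Prop} {ι : Fin m → Type} [∀ v, Fintype (ι v)]
    {w : ∀ v, Pt n → ι v → Fin (n v) → ℤ} (hF : FS n r D P Q ι w)
    (G : MvPolynomial (Σ i, Fin (n i)) ℤ) :
    ∃ c C δ : ℝ, 0 < δ ∧ ∀ X : Fin m → ℕ, (∀ u, 1 ≤ X u) →
      |((Bx n X fun x => P x ∧ (∀ u, univ.gcd (x u) = 1) ∧ evz G (fl x) = 0).card : ℝ) -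
        c * ∏ u, (X u : ℝ) ^ r u| ≤ C * (∏ u, (X u : ℝ) ^ r u) * ∑ u, (X u : ℝ) ^ (-δ) := by
  apply hP3 m r (fun X => ((Bx n X fun x => P x ∧ (∀ u, univ.gcd (x u) = 1) ∧
    evz G (fl x) = 0).card : ℝ))
  intro v
  obtain ⟨C1, hC1, h1⟩ := zf hZ0 hF v G.totalDegree
  obtain ⟨C2, hC2, h2⟩ := BG.C3.coef hR3 v hF 0 1 le_rfl
  choose c hc using h2 (fun i => i.elim0) (fun i => i.elim0) 0
  obtain ⟨T, hT⟩ : ∃ T : Pt n → (Fin (n v) → ℤ) → Prop, T = fun y z =>
    (∀ u, u ≠ v → univ.gcd (y u) = 1) ∧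
    univ.gcd z = 1 ∧ evz G (fl (Function.update y v z)) = 0 := ⟨_, rfl⟩
  have hTi : ∀ y z, T y z ↔ (∀ u, u ≠ v → univ.gcd (y u) = 1) ∧
    univ.gcd z = 1 ∧ evz G (fl (Function.update y v z)) = 0 := by
    intro y z
    rw [hT]
  obtain ⟨c', hc'⟩ : ∃ c' : Pt n → ℝ, c' = fun y => if (∀ u, u ≠ v → univ.gcd (y u) = 1) ∧
    ∀ z ∈ lat (w v y), evz G (fl (Function.update y v z)) = 0 then c y else 0 := ⟨_, rfl⟩
  obtain ⟨C, δ, hδ, h⟩ := c5 hF v T (by
    intro x z z'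
    rw [hT]
    show ((∀ u, u ≠ v → univ.gcd (Function.update x v z u) = 1) ∧ univ.gcd z' = 1 ∧
      evz G (fl (Function.update (Function.update x v z) v z')) = 0) ↔
      ((∀ u, u ≠ v → univ.gcd (x u) = 1) ∧ univ.gcd z' = 1 ∧
      evz G (fl (Function.update x v z')) = 0)
    rw [Function.update_idem]
    have : (∀ u, u ≠ v → univ.gcd (Function.update x v z u) = 1) ↔
        ∀ u, u ≠ v → univ.gcd (x u) = 1 := by
      refine forall_congr' fun u => imp_congr_right fun hu => ?_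
      rw [Function.update_of_ne hu]
    rw [this]) (max C1 C2) (le_max_of_le_left hC1) c' (by
    intro y hy ρ Y hρ hY
    have hY1 : (1 : ℝ) ≤ Y := by exact_mod_cast hρ.trans hY
    have hl : 0 ≤ 1 + Real.log Y := by
      have := Real.log_nonneg hY1
      linarith
    have hρ0 : (0 : ℝ) < ρ := by exact_mod_cast hρ
    by_cases hg : ∀ u, u ≠ v → univ.gcd (y u) = 1
    · by_cases hz : ∀ z ∈ lat (w v y), evz G (fl (Function.update y v z)) = 0
      · have e1 : c' y = c y := by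
          rw [hc']
          exact if_pos ⟨hg, hz⟩
        have h3 := hc y hy ρ Y hρ hY
        have e2 : ((bx (n v) Y).filter fun z => z ∈ lat (w v y) ∧ T y z) =
            (bx (n v) Y).filter fun z => z ∈ lat (w v y) ∧
              Cell (fun i : Fin 0 => i.elim0) (fun i => i.elim0) 1 0 z := by
          ext z
          rw [mem_filter, mem_filter]
          refine and_congr_right fun _ => and_congr_right fun hzl => ?_
          rw [hTi]
          constructor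
          · rintro ⟨-, h4, -⟩
            exact ⟨h4, fun j => by simp, fun i => i.elim0⟩
          · rintro ⟨h4, -, -⟩
            exact ⟨hg, h4, hz z hzl⟩
        rw [e1, e2]
        refine h3.trans ?_
        gcongr
        exact le_max_right _ _
      · have e1 : c' y = 0 := by
          rw [hc']
          exact if_neg fun h => hz h.2
        rw [e1, zero_mul, sub_zero, abs_of_nonneg (by positivity)]
        push Not at hz
        obtain ⟨z0, hz0, hz1⟩ := hz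
        have h3 := h1 y hy (rs y v G) (deg_rs y v G) ⟨z0, hz0, by rwa [eval_rs]⟩ (T y) (by
          intro z _ hTz
          rw [eval_rs]
          exact ((hTi _ _).1 hTz).2.2) ρ Y hρ hY
        refine h3.trans ?_
        gcongr
        exact le_max_left _ _
    · have e1 : c' y = 0 := by
        rw [hc']
        exact if_neg fun h => hg h.1
      have e2 : ((bx (n v) Y).filter fun z => z ∈ lat (w v y) ∧ T y z) = ∅ := by
        rw [Finset.filter_eq_empty_iff]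
        rintro z - ⟨-, h4⟩
        exact hg ((hTi _ _).1 h4).1
      rw [e1, e2, zero_mul, sub_zero, card_empty, Nat.cast_zero, abs_zero]
      have := le_max_of_le_left (b := C1) (c := C2) hC1
      positivity)
  refine ⟨fun X' => ∑ y ∈ Bx n X' (Q v), c' y, C, δ, hδ, fun X hX hXv => ?_⟩
  have h3 := h X hX hXv
  have e1 : (Bx n X fun x => P x ∧ (∀ u, univ.gcd (x u) = 1) ∧ evz G (fl x) = 0) =
      Bx n X fun x => P x ∧ T x (x v) := by
    congr 1
    funext x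
    rw [hT]
    show (P x ∧ (∀ u, univ.gcd (x u) = 1) ∧ evz G (fl x) = 0) =
      (P x ∧ (∀ u, u ≠ v → univ.gcd (x u) = 1) ∧ univ.gcd (x v) = 1 ∧
      evz G (fl (Function.update x v (x v))) = 0)
    rw [Function.update_eq_self]
    apply propext
    constructor
    · rintro ⟨a1, a2, a3⟩
      exact ⟨a1, fun u _ => a2 u, a2 v, a3⟩
    · rintro ⟨a1, a2, a3, a4⟩
      refine ⟨a1, fun u => ?_, a4⟩
      by_cases hu : u = v
      · subst hu
        exact a3
      · exact a2 u hu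
  show |((Bx n X fun x => P x ∧ (∀ u, univ.gcd (x u) = 1) ∧ evz G (fl x) = 0).card : ℝ) - _| ≤ _
  rw [e1]
  exact h3

open Classical in
/-- **Few points on a hypersurface.** -/
theorem neg (hR3 : StmtR3) (hP3 : StmtP3) (hZ0 : StmtZ0) (hPol : StmtPol) {r D : Fin m → ℕ}
    {P : Pt n → Prop} {Q : Fin m → Pt n → Prop} {ι : Fin m → Type} [∀ v, Fintype (ι v)]
    {w : ∀ v, Pt n → ι v → Fin (n v) → ℤ} (hF : FS n r D P Q ι w) (hW : PolyW w)
    (G : MvPolynomial (Σ i, Fin (n i)) ℤ) (l : List (Fin m)) (hl : ∀ x, P x → Gd w G l x) :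
    ∃ C δ : ℝ, 0 < δ ∧ ∀ X : Fin m → ℕ, (∀ u, 1 ≤ X u) →
      ((Bx n X fun x => P x ∧ (∀ u, univ.gcd (x u) = 1) ∧ evz G (fl x) = 0).card : ℝ) ≤
        C * (∏ u, (X u : ℝ) ^ r u) * ∑ u, (X u : ℝ) ^ (-δ) := by
  obtain ⟨c, C, δ, hδ, h⟩ := asy hR3 hP3 hZ0 hF G
  obtain ⟨C', δ', hC', hδ', h'⟩ := diag hZ0 hPol hF hW G l
  have hc : c ≤ 0 := by
    have h1 : ∀ A : ℕ, 1 ≤ A → c ≤ C' * (A : ℝ) ^ (-δ') + C * (m * (A : ℝ) ^ (-δ)) := by
      intro A hA
      have hA0 : (0 : ℝ) < A := by exact_mod_cast hA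
      have h2 := h (fun _ => A) (fun _ => hA)
      have h3 := h' A hA
      have hp : 0 < ∏ u : Fin m, (A : ℝ) ^ r u := Finset.prod_pos fun u _ => by positivity
      have h4 : ((Bx n (fun _ => A) fun x => P x ∧ (∀ u, univ.gcd (x u) = 1) ∧
          evz G (fl x) = 0).card : ℝ) ≤
          ((Bx n (fun _ => A) fun x => P x ∧ Gd w G l x ∧ evz G (fl x) = 0).card : ℝ) := by
        have : (Bx n (fun _ => A) fun x => P x ∧ (∀ u, univ.gcd (x u) = 1) ∧
            evz G (fl x) = 0) ⊆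
            (Bx n (fun _ => A) fun x => P x ∧ Gd w G l x ∧ evz G (fl x) = 0) := by
          intro x hx
          rw [BG.C3.mem_Bx] at hx ⊢
          exact ⟨hx.1, hx.2.1, hl x hx.2.1, hx.2.2.2⟩
        exact_mod_cast card_le_card this
      have h5 := (abs_le.1 h2).1
      have h6 : ∑ _u : Fin m, (A : ℝ) ^ (-δ) = m * (A : ℝ) ^ (-δ) := by
        rw [Finset.sum_const, card_univ, Fintype.card_fin, nsmul_eq_mul]
      simp only [h6] at h5
      have h7 : c * ∏ u : Fin m, (A : ℝ) ^ r u ≤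
          (C' * (A : ℝ) ^ (-δ') + C * (m * (A : ℝ) ^ (-δ))) * ∏ u : Fin m, (A : ℝ) ^ r u := by
        nlinarith
      exact le_of_mul_le_mul_right h7 hp
    have h2 : Tendsto (fun A : ℕ => C' * (A : ℝ) ^ (-δ') + C * (m * (A : ℝ) ^ (-δ))) atTop
        (𝓝 (C' * 0 + C * (m * 0))) := by
      have t1 : Tendsto (fun A : ℕ => (A : ℝ) ^ (-δ')) atTop (𝓝 0) :=
        (tendsto_rpow_neg_atTop hδ').comp tendsto_natCast_atTop_atTop
      have t2 : Tendsto (fun A : ℕ => (A : ℝ) ^ (-δ)) atTop (𝓝 0) :=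
        (tendsto_rpow_neg_atTop hδ).comp tendsto_natCast_atTop_atTop
      exact (t1.const_mul C').add ((t2.const_mul (m : ℝ)).const_mul C)
    have h3 : c ≤ C' * 0 + C * (m * 0) :=
      ge_of_tendsto h2 (eventually_atTop.2 ⟨1, fun A hA => h1 A hA⟩)
    simpa using h3
  refine ⟨C, δ, hδ, fun X hX => ?_⟩
  have h1 := (abs_le.1 (h X hX)).2
  have hp : 0 ≤ ∏ u : Fin m, (X u : ℝ) ^ r u := Finset.prod_nonneg fun u _ => by positivity
  have h2 := mul_nonpos_of_nonpos_of_nonneg hc hp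
  linarith

end Pool.Agent.T6.H81.BH
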