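import Mathlib
import Pool.Agent.T6.H81.BG.A3
import Pool.Agent.T6.H81.BG.Fin3
import Pool.Agent.T6.H81.BH.Neg

/-!
The asymptotic formula on every dense open subset.
-/

set_option autoImplicit false

namespace Pool.Agent.T6.H81.BH

open Finset Module Matrix Filter Topology
open Pool.Agent.H548.WM (ht bx mem_bx Rep ht_pos)
open Pool.Agent.H548.BL (lat mem_lat rep_ne)
open Pool.Agent.H548.TL (evz evz_map evz_int deg_evz)
open Pool.Agent.T6.H5.TW (fl MultiDeg)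
open Pool.Agent.T6.H81.BA (Cell gcd_ne)
open Pool.Agent.T6.H81.BG (Pt Bx FS StmtR3 StmtP3 StmtH3 StmtZ3 Cone LFs Phs ic fin_aux)
open Pool.Agent.T6.H81

/-- The points with a negligible property may be left out. -/
theorem am_cut (hH : StmtH3) (hZ : StmtZ3) {m : ℕ} {n r : Fin (m + 1) → ℕ} (hr1 : ∀ v, 1 ≤ r v)
    {P A : Pt n → Prop} (X0 : Set (∀ v, Fin (n v) → ℝ))
    (X : ∀ p : Nat.Primes, Set (∀ v, Fin (n v) → ℚ_[p])) (hX0 : Cone X0) (hX : ∀ p, Cone (X p))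
    (hP0 : ∀ x, P x → ic ℝ x ∈ X0) (hPp : ∀ x, P x → ∀ p : Nat.Primes, ic ℚ_[p] x ∈ X p)
    (ψ : (∀ v, Fin (n v) → ℝ) → ℝ) (S : Finset Nat.Primes)
    (φ : ∀ p : Nat.Primes, (∀ v, Fin (n v) → ℚ_[p]) → ℝ) (hψ : LFs X0 ψ)
    (hφ : ∀ p ∈ S, LFs (X p) (φ p)) {C δ : ℝ} (hδ : 0 < δ)
    (hneg : ∀ X : Fin (m + 1) → ℕ, (∀ u, 1 ≤ X u) →
      ((Bx n X fun x => P x ∧ (∀ u, univ.gcd (x u) = 1) ∧ A x).card : ℝ) ≤
        C * (∏ u, (X u : ℝ) ^ r u) * ∑ u, (X u : ℝ) ^ (-δ)) {c : ℝ}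
    (hc : Tendsto (fun B : ℝ => ({x : Pt n | (∀ v, Rep (x v)) ∧ P x ∧
      (∏ v, (ht (x v) : ℝ) ^ r v) * Phs ψ S φ x ≤ B}.ncard : ℝ) / (B * Real.log B ^ m))
      atTop (𝓝 c)) :
    Tendsto (fun B : ℝ => ({x : Pt n | (∀ v, Rep (x v)) ∧ (P x ∧ ¬ A x) ∧
      (∏ v, (ht (x v) : ℝ) ^ r v) * Phs ψ S φ x ≤ B}.ncard : ℝ) / (B * Real.log B ^ m))
      atTop (𝓝 c) := by
  classical
  obtain ⟨⟨m0, m1, hm0, hmm⟩, -⟩ := hZ (m + 1) n X0 X ψ S φ hX0 hX hψ hφ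
  set Q0 : Set (Pt n) := {x | P x ∧ (∀ u, univ.gcd (x u) = 1) ∧ A x} with hQ0
  have hset : ∀ X : Fin (m + 1) → ℕ, {t : Pt n | t ∈ Q0 ∧ ∀ v, ht (t v) ≤ X v} =
      ((Bx n X fun x => P x ∧ (∀ u, univ.gcd (x u) = 1) ∧ A x : Finset (Pt n)) :
        Set (Pt n)) := by
    intro X
    ext x
    rw [Finset.mem_coe, BG.C3.mem_Bx]
    constructor
    · rintro ⟨h1, h2⟩
      exact ⟨h2, h1⟩
    · rintro ⟨h1, h2⟩
      exact ⟨h2, h1⟩
  have hQ1 : ∀ x ∈ Q0, ∀ v, 1 ≤ ht (x v) := by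
    rintro x ⟨-, hx, -⟩ v
    exact ht_pos (gcd_ne (hx v))
  -- the negligible points, naive height
  have h0 := hH m r hr1 (Pt n) Q0 (fun v x => ht (x v)) hQ1 (by
      intro X
      rw [hset X]
      exact Finset.finite_toSet _) 0 C δ hδ (by
      intro X hX
      rw [hset X, Set.ncard_coe_finset, zero_mul, sub_zero, abs_of_nonneg (by positivity)]
      exact hneg X hX)
  rw [zero_div] at h0
  have hfinA : ∀ B : ℝ, {t : Pt n | t ∈ Q0 ∧ ∏ v, (ht (t v) : ℝ) ^ r v ≤ B}.Finite :=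
    fun B => fin_aux hr1 Q0 hQ1 B
  -- finiteness
  have hfin : ∀ B : ℝ, {x : Pt n | (∀ v, Rep (x v)) ∧ P x ∧
      (∏ v, (ht (x v) : ℝ) ^ r v) * Phs ψ S φ x ≤ B}.Finite := by
    intro B
    apply (fin_aux hr1 {x : Pt n | (∀ v, Rep (x v)) ∧ P x}
      (fun x hx v => ht_pos (rep_ne (hx.1 v))) (B / m0)).subset
    rintro x ⟨h1, h2, h3⟩
    refine ⟨⟨h1, h2⟩, ?_⟩
    rw [le_div_iff₀ hm0]
    refine le_trans ?_ h3
    have := (hmm x (fun v => rep_ne (h1 v)) (hP0 x h2) (fun p _ => hPp x h2 p)).1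
    exact mul_le_mul_of_nonneg_left this (Finset.prod_nonneg fun v _ => by positivity)
  -- the negligible points, the height with factors
  have key : Tendsto (fun B : ℝ => ({x : Pt n | (∀ v, Rep (x v)) ∧ (P x ∧ A x) ∧
      (∏ v, (ht (x v) : ℝ) ^ r v) * Phs ψ S φ x ≤ B}.ncard : ℝ) / (B * Real.log B ^ m))
      atTop (𝓝 0) := by
    have hcomp := h0.comp (tendsto_id.atTop_div_const hm0)
    have hcomp' : Tendsto (fun B : ℝ => ({t : Pt n | t ∈ Q0 ∧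
        ∏ v, (ht (t v) : ℝ) ^ r v ≤ B / m0}.ncard : ℝ) /
        ((B / m0) * Real.log (B / m0) ^ m) * (1 / m0 * 2 ^ m)) atTop (𝓝 (0 * (1 / m0 * 2 ^ m))) :=
      hcomp.mul_const _
    rw [zero_mul] at hcomp'
    refine squeeze_zero' ?_ ?_ hcomp'
    · filter_upwards [eventually_ge_atTop 1] with B hB
      have := Real.log_nonneg hB
      positivity
    · have h1 : Tendsto (fun B : ℝ => Real.log B) atTop atTop := Real.tendsto_log_atTop
      filter_upwards [h1.eventually_ge_atTop (-Real.log m0), eventually_gt_atTop 1,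
        h1.eventually_ge_atTop (2 * |Real.log m0|)] with B hB hB1 hB3
      have hB0 : 0 < B := by linarith
      have hlB : 0 < Real.log B := Real.log_pos hB1
      have e1 : Real.log (B / m0) = Real.log B - Real.log m0 :=
        Real.log_div hB0.ne' hm0.ne'
      have e2 : Real.log (B / m0) ≤ 2 * Real.log B := by
        rw [e1]
        linarith
      have e3 : 0 < Real.log (B / m0) := by
        rw [e1]
        have := le_abs_self (Real.log m0)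
        by_cases h : Real.log m0 ≤ 0
        · linarith
        · push Not at h
          rw [abs_of_pos h] at hB3
          linarith
      have h2 : ({x : Pt n | (∀ v, Rep (x v)) ∧ (P x ∧ A x) ∧
          (∏ v, (ht (x v) : ℝ) ^ r v) * Phs ψ S φ x ≤ B}.ncard : ℝ) ≤
          ({t : Pt n | t ∈ Q0 ∧ ∏ v, (ht (t v) : ℝ) ^ r v ≤ B / m0}.ncard : ℝ) := by
        have : {x : Pt n | (∀ v, Rep (x v)) ∧ (P x ∧ A x) ∧
            (∏ v, (ht (x v) : ℝ) ^ r v) * Phs ψ S φ x ≤ B} ⊆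
            {t : Pt n | t ∈ Q0 ∧ ∏ v, (ht (t v) : ℝ) ^ r v ≤ B / m0} := by
          rintro x ⟨h1, ⟨h2, h2'⟩, h3⟩
          refine ⟨⟨h2, fun u => (h1 u).1, h2'⟩, ?_⟩
          rw [le_div_iff₀ hm0]
          refine le_trans ?_ h3
          have := (hmm x (fun v => rep_ne (h1 v)) (hP0 x h2) (fun p _ => hPp x h2 p)).1
          exact mul_le_mul_of_nonneg_left this (Finset.prod_nonneg fun v _ => by positivity)
        exact_mod_cast Set.ncard_le_ncard this (hfinA _)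
      have h3 : ({t : Pt n | t ∈ Q0 ∧ ∏ v, (ht (t v) : ℝ) ^ r v ≤ B / m0}.ncard : ℝ) /
          ((B / m0) * Real.log (B / m0) ^ m) * (1 / m0 * 2 ^ m) * (B * Real.log B ^ m) =
          ({t : Pt n | t ∈ Q0 ∧ ∏ v, (ht (t v) : ℝ) ^ r v ≤ B / m0}.ncard : ℝ) *
          ((2 * Real.log B) ^ m / Real.log (B / m0) ^ m) := by
        rw [mul_pow]
        generalize ({t : Pt n | t ∈ Q0 ∧ ∏ v, (ht (t v) : ℝ) ^ r v ≤ B / m0}.ncard : ℝ) = N0
        generalize Real.log (B / m0) = L0 at e3 ⊢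
        field_simp
      rw [div_le_iff₀ (by positivity), h3]
      refine h2.trans ?_
      apply le_mul_of_one_le_right (by positivity)
      rw [one_le_div (by positivity)]
      exact pow_le_pow_left₀ e3.le e2 m
  have hsum : ∀ B : ℝ, ({x : Pt n | (∀ v, Rep (x v)) ∧ (P x ∧ ¬ A x) ∧
      (∏ v, (ht (x v) : ℝ) ^ r v) * Phs ψ S φ x ≤ B}.ncard : ℝ) =
      ({x : Pt n | (∀ v, Rep (x v)) ∧ P x ∧
        (∏ v, (ht (x v) : ℝ) ^ r v) * Phs ψ S φ x ≤ B}.ncard : ℝ) -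
      ({x : Pt n | (∀ v, Rep (x v)) ∧ (P x ∧ A x) ∧
        (∏ v, (ht (x v) : ℝ) ^ r v) * Phs ψ S φ x ≤ B}.ncard : ℝ) := by
    intro B
    have hu : {x : Pt n | (∀ v, Rep (x v)) ∧ P x ∧
        (∏ v, (ht (x v) : ℝ) ^ r v) * Phs ψ S φ x ≤ B} =
        {x : Pt n | (∀ v, Rep (x v)) ∧ (P x ∧ ¬ A x) ∧
          (∏ v, (ht (x v) : ℝ) ^ r v) * Phs ψ S φ x ≤ B} ∪
        {x : Pt n | (∀ v, Rep (x v)) ∧ (P x ∧ A x) ∧
          (∏ v, (ht (x v) : ℝ) ^ r v) * Phs ψ S φ x ≤ B} := by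
      ext x
      simp only [Set.mem_ofPred_eq, Set.mem_union]
      tauto
    have hd : Disjoint {x : Pt n | (∀ v, Rep (x v)) ∧ (P x ∧ ¬ A x) ∧
          (∏ v, (ht (x v) : ℝ) ^ r v) * Phs ψ S φ x ≤ B}
        {x : Pt n | (∀ v, Rep (x v)) ∧ (P x ∧ A x) ∧
          (∏ v, (ht (x v) : ℝ) ^ r v) * Phs ψ S φ x ≤ B} := by
      rw [Set.disjoint_left]
      rintro x ⟨-, ⟨-, h1⟩, -⟩ ⟨-, ⟨-, h2⟩, -⟩
      exact h1 h2
    have h1 : {x : Pt n | (∀ v, Rep (x v)) ∧ (P x ∧ ¬ A x) ∧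
          (∏ v, (ht (x v) : ℝ) ^ r v) * Phs ψ S φ x ≤ B}.Finite :=
      (hfin B).subset (by rw [hu]; exact Set.subset_union_left)
    have h2 : {x : Pt n | (∀ v, Rep (x v)) ∧ (P x ∧ A x) ∧
          (∏ v, (ht (x v) : ℝ) ^ r v) * Phs ψ S φ x ≤ B}.Finite :=
      (hfin B).subset (by rw [hu]; exact Set.subset_union_right)
    have h3 := Set.ncard_union_eq hd h1 h2
    rw [← hu] at h3
    rw [h3]
    push_cast
    ring
  have := hc.sub key
  rw [sub_zero] at this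
  refine this.congr fun B => ?_
  rw [hsum B, sub_div]

variable {m K : ℕ}

/-- The vectors `cf F e v x` are given by polynomials. -/
theorem polyW_cf {n : Fin m → ℕ} (F : Fin K → MvPolynomial (Σ i, Fin (n i)) ℤ)
    (κ : Fin m → Type) (g : ∀ v, κ v → Fin K) :
    PolyW (ι := κ) (fun v x e => BG.cf F (g v e) v x) := by
  refine ⟨fun v e s => evz (F (g v e)) (fl (Function.update
    (fun u i => (MvPolynomial.X ⟨u, i⟩ : MvPolynomial (Σ i, Fin (n i)) ℤ)) v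
    (fun i => MvPolynomial.C ((Pi.single s 1 : Fin (n v) → ℤ) i)))), fun v x e s => ?_⟩
  show evz (F (g v e)) (fl (Function.update x v (Pi.single s 1))) = _
  have h1 := evz_map (MvPolynomial.eval (fl x)) (F (g v e)) (fl (Function.update
    (fun u i => (MvPolynomial.X ⟨u, i⟩ : MvPolynomial (Σ i, Fin (n i)) ℤ)) v
    (fun i => MvPolynomial.C ((Pi.single s 1 : Fin (n v) → ℤ) i))))
  refine Eq.trans ?_ (evz_int _ _).symm
  rw [h1]
  congr 1
  funext p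
  obtain ⟨u, i⟩ := p
  unfold fl
  by_cases hu : u = v
  · subst hu
    simp
  · simp [Function.update_of_ne hu]

end Pool.Agent.T6.H81.BH
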