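import Mathlib
import Pool.Agent.T6.H81.BG.Fin3
import Pool.Agent.T6.H81.BH.Cut

/-!
Anisotropic systems of multilinear equations: every open subset.
-/

set_option autoImplicit false

namespace Pool.Agent.T6.H81.BH

open Finset Module Matrix Filter Topology
open Pool.Agent.H548.WM (ht bx mem_bx Rep ht_pos)
open Pool.Agent.H548.BL (lat mem_lat rep_ne)
open Pool.Agent.H548.TL (evz evz_map evz_int deg_evz)
open Pool.Agent.T6.H5.TW (fl MultiDeg)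
open Pool.Agent.T6.H81.BG
open Pool.Agent.T6.H81

/-- **Anisotropic systems**: every open subset. -/
theorem t1o (hB : StmtB3) (hC : StmtC3) (hP : StmtP3) (hH : StmtH3) (hW : StmtW3) (hR3 : StmtR3)
    (hZ : StmtZ3) (hS3 : StmtS3) (hS4 : StmtS4) (hS6 : StmtS6) (hS7 : StmtS7) (hS8 : StmtS8)
    (hZ0 : StmtZ0) (hPol : StmtPol) (hCH : StmtCH1) (hSG : StmtS6G)
    {m K : ℕ} {n : Fin (m + 1) → ℕ}
    (F : Fin K → MvPolynomial (Σ i, Fin (n i)) ℤ) (d : Fin K → Fin (m + 1) → ℕ)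
    (hd1 : ∀ e v, d e v ≤ 1) (hF : ∀ e, MultiDeg (F e) (d e)) (hne : ∀ e, ∃ v, d e v = 1)
    (hn2 : ∀ v, ∑ e, d e v + 2 ≤ n v) (hle : ∀ v, ∑ e, d e v * ∑ u, d e u + 1 ≤ n v)
    (hA : ∀ v, ∀ x : Pt n, (∀ u, x u ≠ 0) →
      LinearIndependent ℤ (fun e : {e : Fin K // d e v = 1} => cf F e.1 v x))
    (ψ : (∀ v, Fin (n v) → ℝ) → ℝ) (S : Finset Nat.Primes)
    (φ : ∀ p : Nat.Primes, (∀ v, Fin (n v) → ℚ_[p]) → ℝ) (hψ : LFs {x | Zr F x} ψ)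
    (hφ : ∀ p ∈ S, LFs {x | Zr F x} (φ p)) :
    ∃ c : ℝ, 0 < c ∧ ∀ G : MvPolynomial (Σ i, Fin (n i)) ℤ,
      (∃ z : ∀ i, Fin (n i) → ℂ, (∀ v, z v ≠ 0) ∧ Zr F z ∧
        (∀ v, LinearIndependent ℂ (fun e : {e : Fin K // d e v = 1} => cf F e.1 v z)) ∧
        evz G (fl z) ≠ 0) →
      Tendsto (fun B : ℝ => ({x : Pt n | (∀ v, Rep (x v)) ∧ Zr F x ∧ evz G (fl x) ≠ 0 ∧
        (∏ v, (ht (x v) : ℝ) ^ (n v - ∑ e, d e v)) * Phs ψ S φ x ≤ B}.ncard : ℝ) /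
          (B * Real.log B ^ m)) atTop (𝓝 c) := by
  obtain ⟨c, hc0, hc⟩ := t1 hB hC hP hH hW hZ hS3 hS4 hS6 hS7 hS8 F d hd1 hF hne hn2 hle hA
    ψ S φ hψ hφ
  refine ⟨c, hc0, fun G hG => ?_⟩
  have hbad := hS4 (m + 1) K n F d hd1 hF (fun v => by have := hn2 v; omega) hA
  have hMS := hS3 (m + 1) K n F d hd1 hF hle hbad
  have hFS := fs_of_ms hB hMS (fun v => by rw [card_eq_univ d hd1 v]; exact hn2 v)
  obtain ⟨hc0', hcp⟩ := hS8 (m + 1) K n F d hF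
  have hP0 : ∀ x, PT F d univ x → ic ℝ x ∈ {x : ∀ v, Fin (n v) → ℝ | Zr F x} := fun x hx =>
    zr_cast (pt_univ.1 hx).2.1
  have hPp : ∀ x, PT F d univ x → ∀ p : Nat.Primes,
      ic ℚ_[p] x ∈ {x : ∀ v, Fin (n v) → ℚ_[p] | Zr F x} := fun x hx p =>
    zr_cast (pt_univ.1 hx).2.1
  obtain ⟨x', hx'1, hx'2, hx'3⟩ := hSG m K n F d hd1 hF hne hn2 G hG
  have hA' : ∀ v, ∀ x : Pt n, (∀ u, x u ≠ 0) →
      LinearIndependent ℤ (fun e : BG.Eq d univ v => cf F e.1 v x) := fun v x hx =>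
    (linearIndependent_equiv (eqEquiv d v)).2 (hA v x hx)
  have hGd := hCH (m + 1) K n F d hd1 hF hle hA' G x' hx'1 hx'2 hx'3
  have hPW : PolyW (ι := fun v => BG.Eq d univ v)
      (fun (v : Fin (m + 1)) (x : Pt n) (e : BG.Eq d univ v) => cf F e.1 v x) :=
    polyW_cf F (fun v => BG.Eq d univ v) (fun v e => e.1)
  obtain ⟨C, δ, hδ, hneg⟩ := neg hR3 hP hZ0 hPol hFS hPW G
    (List.finRange (m + 1) ++ List.finRange (m + 1))
    (fun x hx => hGd x (pt_univ.1 hx).1 (pt_univ.1 hx).2.1)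
  have hset : ∀ (g : Pt n → ℝ) (B : ℝ), {x : Pt n | (∀ v, Rep (x v)) ∧ PT F d univ x ∧ g x ≤ B} =
      {x : Pt n | (∀ v, Rep (x v)) ∧ Zr F x ∧ g x ≤ B} := by
    intro g B
    ext x
    simp only [Set.mem_ofPred_eq, pt_univ]
    constructor
    · rintro ⟨h1, ⟨-, h2, h3⟩, h4⟩
      exact ⟨h1, h2, h4⟩
    · rintro ⟨h1, h2, h4⟩
      exact ⟨h1, ⟨fun v => rep_ne (h1 v), h2, fun v => hA v x fun u => rep_ne (h1 u)⟩, h4⟩
  have hc' : Tendsto (fun B : ℝ => ({x : Pt n | (∀ v, Rep (x v)) ∧ PT F d univ x ∧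
      (∏ v, (ht (x v) : ℝ) ^ (n v - Fintype.card (BG.Eq d univ v))) * Phs ψ S φ x ≤ B}.ncard : ℝ) /
        (B * Real.log B ^ m)) atTop (𝓝 c) := by
    refine hc.congr fun B => ?_
    rw [hset (fun x => (∏ v, (ht (x v) : ℝ) ^ (n v - Fintype.card (BG.Eq d univ v))) *
      Phs ψ S φ x) B]
    simp only [card_eq_univ d hd1]
  have hcut := am_cut hH hZ (r := fun v => n v - Fintype.card (BG.Eq d univ v))
    (fun v => by
      show 1 ≤ n v - Fintype.card (BG.Eq d univ v)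
      rw [card_eq_univ d hd1 v]
      have := hn2 v
      omega) _ (fun p => {x : ∀ v, Fin (n v) → ℚ_[p] | Zr F x}) hc0' hcp hP0 hPp ψ S φ hψ hφ hδ
      hneg hc'
  refine hcut.congr fun B => ?_
  congr 3
  ext x
  simp only [Set.mem_ofPred_eq, pt_univ, card_eq_univ d hd1]
  constructor
  · rintro ⟨h1, ⟨⟨-, h2, -⟩, h3⟩, h4⟩
    exact ⟨h1, h2, h3, h4⟩
  · rintro ⟨h1, h2, h3, h4⟩
    exact ⟨h1, ⟨⟨fun v => rep_ne (h1 v), h2, fun v => hA v x fun u => rep_ne (h1 u)⟩, h3⟩, h4⟩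

end Pool.Agent.T6.H81.BH
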