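import Mathlib
import Pool.Agent.T6.H81.BH.Defs
import Pool.Agent.T6.H81.BG.S6

/-! Module S6G: an integer point where `G` is not zero. -/

set_option autoImplicit false

namespace Pool.Agent.T6.H81.BH

open Finset Module Matrix Filter Topology
open Pool.Agent.H548.WM (ht bx mem_bx Rep)
open Pool.Agent.H548.BL (lat)
open Pool.Agent.H548.TL (evz evz_map)
open Pool.Agent.T6.H5.TW (fl MultiDeg InV Pts finite_pts low)
open Pool.Agent.T6.H81.BG (Pt Bx FS Zr cf)

open Pool.Agent.T6.H81.BG.S6 in
theorem s6G : StmtS6G := by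
  classical
  intro m K n F d hd1 hF hex hn G0 hz
  obtain ⟨z, -, hzZ, hzL, hzG⟩ := hz
  -- the last block
  have hlast : ∀ e, ∃ j, d e j = 1 ∧ ∀ i, j < i → d e i = 0 := by
    intro e
    obtain ⟨v, hv⟩ := hex e
    obtain ⟨j, hj, hmax⟩ := Finset.exists_max_image (univ.filter fun i => d e i = 1) id
      ⟨v, by simpa using hv⟩
    rw [mem_filter] at hj
    refine ⟨j, hj.2, fun i hi => ?_⟩
    by_contra h0
    have h1 : d e i = 1 := by
      have := hd1 e i
      omega
    have := hmax i (by simpa using h1)
    exact absurd hi (not_lt.2 this)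
  choose jl hjl hjl0 using hlast
  obtain ⟨k, hk⟩ : ∃ k : Fin (m + 1) → ℕ, ∀ j, k j = Fintype.card {e : Fin K // jl e = j} :=
    ⟨_, fun _ => rfl⟩
  have hen : ∀ j, Nonempty (Fin (k j) ≃ {e : Fin K // jl e = j}) := fun j =>
    ⟨(finCongr (hk j)).trans (Fintype.equivFin _).symm⟩
  have en := fun j => (hen j).some
  -- the numbers of the equations of the blocks
  have hkd : ∀ i, k i + ∑ e, (if i = jl e then 0 else d e i) = ∑ e, d e i := by
    intro i
    have h1 : k i = ∑ e, (if i = jl e then d e i else 0) := by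
      rw [hk, Fintype.card_subtype, Finset.card_filter]
      refine Finset.sum_congr rfl fun e _ => ?_
      by_cases h : jl e = i
      · subst h
        rw [if_pos rfl, if_pos rfl, hjl]
      · rw [if_neg h, if_neg (Ne.symm h)]
    rw [h1, ← Finset.sum_add_distrib]
    refine Finset.sum_congr rfl fun e _ => ?_
    split_ifs <;> simp
  -- the minors
  have hJ : ∀ v, ∃ (r : ℕ) (ev : Fin r ≃ {e : Fin K // d e v = 1}) (J : Fin r → Fin (n v)),
      (Matrix.det (Matrix.of fun l s => cf F (ev l).1 v z (J s))) ≠ 0 := by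
    intro v
    obtain ⟨ev⟩ : Nonempty (Fin (Fintype.card {e : Fin K // d e v = 1}) ≃
      {e : Fin K // d e v = 1}) := ⟨(Fintype.equivFin _).symm⟩
    have h1 := (hzL v).comp ev ev.injective
    obtain ⟨J, hJ⟩ := Pool.Agent.H548.BK.exists_minor'
      (B := Matrix.of fun l s => cf F (ev l).1 v z s) h1
    exact ⟨_, ev, J, hJ⟩
  choose r ev J hJ using hJ
  set G : MvPolynomial (Σ i, Fin (n i)) ℤ :=
    (∏ v, Matrix.det (Matrix.of fun l s => Cp F (ev v l).1 v (J v s))) * G0 with hG
  have hGe : ∀ {R : Type} [CommRing R] (x : ∀ i, Fin (n i) → R), evz G (fl x) =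
      (∏ v, Matrix.det (Matrix.of fun l s => cf F (ev v l).1 v x (J v s))) * evz G0 (fl x) := by
    intro R _ x
    rw [evz_hom, hG, map_mul, map_prod, ← evz_hom]
    congr 1
    refine Finset.prod_congr rfl fun v _ => ?_
    rw [RingHom.map_det]
    congr 1
    ext l s
    show MvPolynomial.eval₂Hom (Int.castRingHom R) (fl x) (Cp F (ev v l).1 v (J v s)) = _
    rw [← evz_hom, evz_Cp]
    rfl
  set F' : ∀ j, Fin (k j) → Fin (n j) → MvPolynomial (Σ i, Fin (n i)) ℤ :=
    fun j l s => Cp F (en j l).1 j s with hF'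
  have hInV : InV F' G z := by
    refine ⟨?_, ?_, ?_⟩
    · intro j l
      have h6 : ∀ s, evz (F' j l s) (fl z) =
          evz (F (en j l).1) (fl (Function.update z j (Pi.single s 1))) := by
        intro s
        rw [hF']
        simp only
        rw [evz_Cp]
        rfl
      simp only [h6]
      have h7 : d (en j l).1 j = 1 := by
        have := hjl (en j l).1
        rwa [(en j l).2] at this
      rw [lin (hF _) h7, Function.update_eq_self]
      exact hzZ _
    · intro j
      have h7 : ∀ l, d (en j l).1 j = 1 := fun l => by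
        have := hjl (en j l).1
        rwa [(en j l).2] at this
      have h8 := (hzL j).comp (fun l : Fin (k j) => (⟨(en j l).1, h7 l⟩ : {e : Fin K // d e j = 1}))
        (fun l l' h => by
          have h9 := congrArg Subtype.val h
          exact (en j).injective (Subtype.ext h9))
      have e4 : (fun (l : Fin (k j)) s => evz (F' j l s) (fl z)) =
          (fun e : {e : Fin K // d e j = 1} => cf F e.1 j z) ∘
            (fun l : Fin (k j) => (⟨(en j l).1, h7 l⟩ : {e : Fin K // d e j = 1})) := by
        funext l s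
        rw [hF']
        simp only
        rw [evz_Cp]
        rfl
      rw [e4]
      exact h8
    · rw [hGe]
      exact mul_ne_zero (Finset.prod_ne_zero_iff.2 fun v _ => hJ v) hzG
  have ha1 : ∀ i, 1 ≤ n i - ∑ e, d e i := fun i => by
    have := hn i
    omega
  obtain ⟨c, B₀, hc, hlow⟩ := low (k := k) (F := F') (G := G)
    (d := fun j l i => if i = j then 0 else d (en j l).1 i)
    (a := fun i => n i - ∑ e, d e i) (fun j => by
      have h1 := hkd j
      have h2 := hn j
      omega) (fun j l s => deg_Cp hF _ _ _) (fun j l i hi => by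
      show (if i = j then 0 else d (en j l).1 i) = 0
      split_ifs with h
      · rfl
      · apply hjl0
        rw [(en j l).2]
        exact lt_of_le_of_ne hi (fun h' => h h'.symm)) (fun i => by
      have h1 := sum_fib jl k en fun j e => if i = j then 0 else d e i
      have h2 := hkd i
      have h3 := hn i
      show n i - ∑ e, d e i + ∑ j, ∑ l : Fin (k j), (if i = j then 0 else d (en j l).1 i) + k i = n i
      rw [h1]
      omega) ha1 ⟨z, hInV⟩
  -- a large value of `B`
  set B : ℝ := max B₀ (Real.exp 1) with hB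
  have hB1 : Real.exp 1 ≤ B := le_max_right _ _
  have hB0 : 0 < B := lt_of_lt_of_le (Real.exp_pos 1) hB1
  have hlog : 1 ≤ Real.log B := by
    rw [Real.le_log_iff_exp_le hB0]
    exact hB1
  have hpos : 0 < ((Pts F' G (fun i => n i - ∑ e, d e i) B).ncard : ℝ) := by
    refine lt_of_lt_of_le ?_ (hlow B (le_max_left _ _))
    have : 0 < Real.log B := lt_of_lt_of_le one_pos hlog
    positivity
  have hne : (Pts F' G (fun i => n i - ∑ e, d e i) B).Nonempty := by
    by_contra h
    rw [Set.not_nonempty_iff_eq_empty] at h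
    rw [h] at hpos
    simp at hpos
  obtain ⟨x, h1, ⟨h2, -, h3⟩, h4⟩ := hne
  refine ⟨x, fun v => ?_, ?_, ?_⟩
  · exact Pool.Agent.H548.BL.rep_ne (h1 v)
  · intro e
    have h5 := h2 (jl e) ((en (jl e)).symm ⟨e, rfl⟩)
    have h6 : ∀ s, evz (F' (jl e) ((en (jl e)).symm ⟨e, rfl⟩) s) (fl x) =
        evz (F e) (fl (Function.update x (jl e) (Pi.single s 1))) := by
      intro s
      rw [hF']
      simp only [Equiv.apply_symm_apply]
      rw [evz_Cp]
      rfl
    simp only [h6] at h5
    rw [lin (hF e) (hjl e), Function.update_eq_self] at h5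
    exact h5
  · rw [hGe] at h3
    exact right_ne_zero_of_mul h3

end Pool.Agent.T6.H81.BH
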