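import Pool.Agent.T6.H81.BH.Defs
import Pool.Agent.T6.H81.BA.N1

/-! Module Z0: the zeros of a polynomial in a lattice. -/

set_option autoImplicit false

namespace Pool.Agent.T6.H81.BH

namespace Z0M

open Finset Module Matrix
open Pool.Agent.H548.WM (ht bx mem_bx Rep)
open Pool.Agent.H548.BL (lat mem_lat rc orth mem_orth lat_doubling)
open Pool.Agent.T6.H68.BL (GG GG_finite)
open Pool.Agent.T6.H52.BA (rc_mem rc_inj LL mem_LL norm_LL finrank_eq zlat ncard_LL)
open Pool.Agent.T6.H81.BA.NN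

theorem rc_add {N : ℕ} (u v : Fin N → ℤ) : rc (u + v) = rc u + rc v := by
  funext i
  simp [rc]

theorem rc_neg {N : ℕ} (u : Fin N → ℤ) : rc (-u) = -rc u := by
  funext i
  simp [rc]

theorem rc_zero {N : ℕ} : rc (0 : Fin N → ℤ) = 0 := by
  funext i
  simp [rc]

/-- the lattice vectors in a real subspace -/
noncomputable def subl {k N : ℕ} (w : Fin k → Fin N → ℤ) (V : Submodule ℝ (Fin N → ℝ)) :
    AddSubgroup (Fin N → ℤ) where
  carrier := {v | v ∈ lat w ∧ rc v ∈ V}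
  add_mem' := by
    rintro u v ⟨h1, h2⟩ ⟨h3, h4⟩
    exact ⟨(lat w).add_mem h1 h3, by rw [rc_add]; exact V.add_mem h2 h4⟩
  zero_mem' := ⟨(lat w).zero_mem, by rw [rc_zero]; exact V.zero_mem⟩
  neg_mem' := by
    rintro u ⟨h1, h2⟩
    exact ⟨(lat w).neg_mem h1, by rw [rc_neg]; exact V.neg_mem h2⟩

open Classical in
/-- doubling in a proper subspace -/
theorem sub_doubling {k N a : ℕ} (w : Fin k → Fin N → ℤ)
    (W : Submodule ℝ (orth w)) (hW : finrank ℝ W ≤ a) (B ρ : ℕ) (hρ : 1 ≤ ρ) (hB : ρ ≤ B)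
    (h : ∀ v ∈ GG (LL w) (B : ℝ), v ∈ W) :
    (((bx N B).filter (· ∈ lat w)).card : ℝ) ≤
      (3 * B / ρ) ^ a * (((bx N ρ).filter (· ∈ lat w)).card : ℝ) := by
  have h1 := Pool.Agent.H548.BL.doubling (subl w (W.map (orth w).subtype))
    (W.map (orth w).subtype) (b := a)
    ((Submodule.finrank_map_le _ _).trans hW) (fun v hv => hv.2) B ρ hρ hB
  have h2 : (bx N B).filter (· ∈ lat w) ⊆
      (bx N B).filter (· ∈ subl w (W.map (orth w).subtype)) := by
    intro v hv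
    rw [mem_filter, mem_bx] at hv ⊢
    refine ⟨hv.1, hv.2, ?_⟩
    refine ⟨⟨rc v, rc_mem hv.2⟩, h _ ⟨mem_LL.2 ⟨v, hv.2, rfl⟩, ?_⟩, rfl⟩
    rw [norm_LL rfl]
    exact_mod_cast hv.1
  have h3 : (bx N ρ).filter (· ∈ subl w (W.map (orth w).subtype)) ⊆
      (bx N ρ).filter (· ∈ lat w) := by
    intro v hv
    rw [mem_filter] at hv ⊢
    exact ⟨hv.1, hv.2.1⟩
  calc (((bx N B).filter (· ∈ lat w)).card : ℝ) ≤
        (((bx N B).filter (· ∈ subl w (W.map (orth w).subtype))).card : ℝ) := by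
          exact_mod_cast card_le_card h2
    _ ≤ (3 * B / ρ) ^ a *
        (((bx N ρ).filter (· ∈ subl w (W.map (orth w).subtype))).card : ℝ) := h1
    _ ≤ (3 * B / ρ) ^ a * (((bx N ρ).filter (· ∈ lat w)).card : ℝ) := by
      apply mul_le_mul_of_nonneg_left _ (by positivity)
      exact_mod_cast card_le_card h3

/-- the predicate of the zeros -/
def Zp {k N : ℕ} (w : Fin k → Fin N → ℤ) (P : MvPolynomial (Fin N) ℤ) (v : orth w) : Prop :=
  ∃ u : Fin N → ℤ, rc u = v.1 ∧ MvPolynomial.eval u P = 0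

open Classical in
/-- the number of the zeros in an affine lattice box -/
theorem few {k N a D : ℕ} (w : Fin k → Fin N → ℤ) (P : MvPolynomial (Fin N) ℤ)
    (hP : P.totalDegree ≤ D) (hne : ∃ y ∈ lat w, MvPolynomial.eval y P ≠ 0)
    (b : Basis (Fin a) ℝ (orth w)) (hb : ∀ i, b i ∈ LL w) (z : orth w) (hz : z ∈ LL w) (K : ℕ)
    (hK : 1 ≤ K) :
    ((Fintype.piFinset fun _ : Fin a => Finset.Ico (0 : ℤ) K).filter
      fun c => Zp w P (z + ∑ i, c i • b i)).card * K ≤ D * K ^ a := by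
  obtain ⟨y0, hy0, hy0P⟩ := hne
  choose β hβ hβb using fun i => mem_LL.1 (hb i)
  obtain ⟨ζ, hζ, hζz⟩ := mem_LL.1 hz
  set Q := sub P ζ β with hQ
  have hsub : ((Fintype.piFinset fun _ : Fin a => Finset.Ico (0 : ℤ) K).filter
      fun c => Zp w P (z + ∑ i, c i • b i)) ⊆
      ((Fintype.piFinset fun _ : Fin a => Finset.Ico (0 : ℤ) K).filter
      fun c => MvPolynomial.eval c Q = 0) := by
    intro c hc
    rw [Finset.mem_filter] at hc ⊢
    obtain ⟨hc1, u, hu, huP⟩ := hc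
    refine ⟨hc1, ?_⟩
    have h1 : u = fun j => ζ j + ∑ i, β i j * c i := by
      apply rc_inj
      rw [hu]
      show (z + ∑ i, c i • b i : orth w).1 = _
      funext j
      rw [Submodule.coe_add, Submodule.coe_sum, Pi.add_apply, Finset.sum_apply, ← hζz]
      have h2 : ∀ i, ((c i • b i : orth w) : Fin N → ℝ) j = (β i j : ℝ) * (c i : ℝ) := by
        intro i
        have h3 := congrFun (hβb i) j
        show (c i • (b i : Fin N → ℝ)) j = _
        rw [Pi.smul_apply, ← h3, zsmul_eq_mul, mul_comm]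
        rfl
      simp only [h2]
      simp [rc]
    have h2 := eval_sub P ζ β c
    rw [MvPolynomial.aeval_eq_eval, MvPolynomial.aeval_eq_eval] at h2
    have h3 : MvPolynomial.eval c Q = MvPolynomial.eval (fun j => ζ j + ∑ i, β i j * c i) P := by
      simpa using h2
    rw [h3, ← h1]
    exact huP
  refine le_trans (Nat.mul_le_mul_right _ (Finset.card_le_card hsub)) ?_
  have hQ0 : Q ≠ 0 := by
    intro h0
    set e : orth w := ⟨rc y0, rc_mem hy0⟩ - z with he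
    have h1 := eval_sub P ζ β (fun i => b.repr e i)
    rw [← hQ, h0, map_zero] at h1
    have h2 : (fun j => (ζ j : ℝ) + ∑ i, (β i j : ℝ) * b.repr e i) = fun j => (y0 j : ℝ) := by
      funext j
      have h3 := congrArg (fun v : orth w => (v : Fin N → ℝ) j) (b.sum_repr e)
      simp only [Submodule.coe_sum, Finset.sum_apply, Submodule.coe_smul, Pi.smul_apply,
        smul_eq_mul] at h3
      have h4 : (e : Fin N → ℝ) j = (y0 j : ℝ) - (ζ j : ℝ) := by
        rw [he, Submodule.coe_sub, Pi.sub_apply, ← hζz]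
        rfl
      rw [h4] at h3
      have h5 : ∑ i, (β i j : ℝ) * b.repr e i = ∑ i, b.repr e i * (b i : Fin N → ℝ) j := by
        refine Finset.sum_congr rfl fun i _ => ?_
        rw [mul_comm, ← hβb i]
        rfl
      rw [h5, h3]
      ring
    rw [h2] at h1
    have h6 : MvPolynomial.aeval (fun j => (y0 j : ℝ)) P = ((MvPolynomial.eval y0 P : ℤ) : ℝ) := by
      have h7 := MvPolynomial.aeval_algebraMap_apply (A := ℤ) ℝ y0 P
      have h8 : (algebraMap ℤ ℝ ∘ y0) = fun j => (y0 j : ℝ) := rfl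
      rw [h8] at h7
      rw [h7]
      simp
    rw [h6] at h1
    apply hy0P
    exact_mod_cast h1.symm
  have h1 := MvPolynomial.schwartz_zippel_totalDegree hQ0 (Finset.Ico (0 : ℤ) K)
  rw [Int.card_Ico, sub_zero, Int.toNat_natCast] at h1
  have hK0 : (0 : ℚ≥0) < K := by exact_mod_cast hK
  rw [div_le_div_iff₀ (by positivity) hK0] at h1
  have h2 : ((Fintype.piFinset fun _ : Fin a => Finset.Ico (0 : ℤ) K).filter
    fun c => MvPolynomial.eval c Q = 0).card * K ≤ Q.totalDegree * K ^ a := by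
    exact_mod_cast h1
  exact h2.trans (Nat.mul_le_mul_right _ ((totalDegree_sub P ζ β).trans hP))

open Classical in
/-- the two ways of counting the zeros -/
theorem card_zeros {k N : ℕ} (w : Fin k → Fin N → ℤ) (P : MvPolynomial (Fin N) ℤ) (Y : ℕ) :
    ((bx N Y).filter fun v => v ∈ lat w ∧ MvPolynomial.eval v P = 0).card =
      {v : orth w | v ∈ LL w ∧ ‖v‖ ≤ (Y : ℝ) ∧ Zp w P v}.ncard := by
  rw [← Set.ncard_coe_finset]
  refine Set.ncard_congr
    (fun v hv => ⟨rc v, rc_mem (mem_filter.1 (mem_coe.1 hv)).2.1⟩) ?_ ?_ ?_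
  · intro v hv
    rw [mem_coe, mem_filter, mem_bx] at hv
    refine ⟨mem_LL.2 ⟨v, hv.2.1, rfl⟩, ?_, v, rfl, hv.2.2⟩
    rw [norm_LL rfl]
    exact_mod_cast hv.1
  · intro u v hu hv h
    exact rc_inj (Subtype.mk.inj h)
  · rintro e ⟨h1, h2, u, hu, huP⟩
    obtain ⟨v, hv, hve⟩ := mem_LL.1 h1
    have huv : u = v := rc_inj (hu.trans hve.symm)
    subst huv
    refine ⟨u, ?_, Subtype.ext hve⟩
    rw [mem_coe, mem_filter, mem_bx]
    refine ⟨?_, hv, huP⟩
    rw [norm_LL hve] at h2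
    exact_mod_cast h2

open Classical in
theorem card_lat {k N : ℕ} (w : Fin k → Fin N → ℤ) (Y : ℕ) :
    (GG (LL w) (Y : ℝ)).ncard = ((bx N Y).filter (· ∈ lat w)).card := by
  have h := ncard_LL w (t := (Y : ℝ)) (Nat.cast_nonneg _)
  rw [Nat.floor_natCast] at h
  exact h

end Z0M

open Finset Module Matrix
open Pool.Agent.H548.WM (ht bx mem_bx Rep)
open Pool.Agent.H548.BL (lat mem_lat rc orth mem_orth lat_doubling)
open Pool.Agent.T6.H68.BL (GG GG_finite)
open Pool.Agent.T6.H52.BA (rc_mem rc_inj LL mem_LL norm_LL finrank_eq zlat ncard_LL)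
open Z0M

theorem z0 : StmtZ0 := by
  classical
  intro k N D hkN
  obtain ⟨m, hm⟩ : ∃ m, N - k = m + 1 := ⟨N - k - 1, by omega⟩
  obtain ⟨c₁, hc₁⟩ : ∃ c₁ : ℝ, c₁ = 2 * D * (3 * (m + 2)) ^ (m + 1) := ⟨_, rfl⟩
  have hc₁0 : 0 ≤ c₁ := by rw [hc₁]; positivity
  refine ⟨3 ^ m + c₁ * 3 ^ (m + 1) + c₁ * 2 * 3 ^ (m + 1) * 3 ^ m, by positivity,
    fun w hw P hP hne ρ Y hρ hρY => ?_⟩
  have hexp : N - k - 1 = m := by omega
  rw [hexp]
  have hZL := zlat w hw
  have hfr : finrank ℝ (orth w) = m + 1 := by rw [finrank_eq w hw, hm]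
  obtain ⟨R, hR, ⟨v1, hv1, hv1ne, hv1R⟩, hspan, hsub⟩ :=
    Pool.Agent.T6.H81.BA.NN.exists_R (LL w) (by rw [hfr]; omega)
  obtain ⟨bb, hbb⟩ := Pool.Agent.T6.H81.BA.NN.exists_basis (LL w) hspan hfr
  obtain ⟨u1, hu1, hu1v⟩ := mem_LL.1 hv1
  obtain ⟨Rn, hRn⟩ : ∃ Rn : ℕ, Rn = ht u1 := ⟨_, rfl⟩
  have hRR : R = (Rn : ℝ) := by rw [← hv1R, norm_LL hu1v, hRn]
  have hRn1 : 1 ≤ Rn := by
    rw [hRR] at hR
    have : (0 : ℝ) < Rn := hR
    exact_mod_cast this
  -- abbreviations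
  obtain ⟨n, hn⟩ : ∃ n : ℕ → ℝ, n = fun B : ℕ => (((bx N B).filter (· ∈ lat w)).card : ℝ) :=
    ⟨_, rfl⟩
  obtain ⟨z, hz⟩ : ∃ z : ℝ, z =
    ((((bx N Y).filter fun v => v ∈ lat w ∧ MvPolynomial.eval v P = 0).card : ℕ) : ℝ) := ⟨_, rfl⟩
  have hn0 : ∀ B, 0 ≤ n B := fun B => by rw [hn]; exact Nat.cast_nonneg _
  have hz0 : 0 ≤ z := by rw [hz]; exact Nat.cast_nonneg _
  have hd1 : ∀ B r : ℕ, 1 ≤ r → r ≤ B → n B ≤ (3 * B / r) ^ (m + 1) * n r := by
    intro B r hr hrB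
    have h := lat_doubling hw B r hr hrB
    rw [Fintype.card_fin, hm] at h
    rw [hn]
    convert h
  have hd2 : ∀ B r : ℕ, 1 ≤ r → r ≤ B → B < Rn → n B ≤ (3 * B / r) ^ m * n r := by
    intro B r hr hrB hB
    obtain ⟨W, hW, hWr⟩ := hsub (B : ℝ) (by rw [hRR]; exact_mod_cast hB)
    have h := sub_doubling w W (a := m) (by omega) B r hr hrB hWr
    rw [hn]
    convert h
  have hzn : z ≤ n Y := by
    rw [hz, hn]
    have : ((bx N Y).filter fun v => v ∈ lat w ∧ MvPolynomial.eval v P = 0).card ≤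
        ((bx N Y).filter (· ∈ lat w)).card := by
      apply card_le_card
      intro v hv
      rw [mem_filter] at hv ⊢
      exact ⟨hv.1, hv.2.1⟩
    beta_reduce
    exact_mod_cast this
  have hρ0 : (0 : ℝ) < ρ := by exact_mod_cast hρ
  have hY0 : (0 : ℝ) < Y := by exact_mod_cast (by omega : 0 < Y)
  have hRn0 : (0 : ℝ) < Rn := by exact_mod_cast hRn1
  have hgoal : z ≤ (3 ^ m + c₁ * 3 ^ (m + 1) + c₁ * 2 * 3 ^ (m + 1) * 3 ^ m) *
      ((Y : ℝ) / ρ) ^ m * n ρ := by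
    have hX0 : 0 ≤ ((Y : ℝ) / ρ) ^ m * n ρ := mul_nonneg (by positivity) (hn0 ρ)
    have hAA : 0 ≤ 3 ^ m * (((Y : ℝ) / ρ) ^ m * n ρ) := mul_nonneg (pow_nonneg (by norm_num) _) hX0
    have hBB : 0 ≤ c₁ * 3 ^ (m + 1) * (((Y : ℝ) / ρ) ^ m * n ρ) :=
      mul_nonneg (mul_nonneg hc₁0 (pow_nonneg (by norm_num) _)) hX0
    have hCC : 0 ≤ c₁ * 2 * 3 ^ (m + 1) * 3 ^ m * (((Y : ℝ) / ρ) ^ m * n ρ) :=
      mul_nonneg (mul_nonneg (mul_nonneg (mul_nonneg hc₁0 (by norm_num))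
        (pow_nonneg (by norm_num) _)) (pow_nonneg (by norm_num) _)) hX0
    have hsplit : (3 ^ m + c₁ * 3 ^ (m + 1) + c₁ * 2 * 3 ^ (m + 1) * 3 ^ m) *
      ((Y : ℝ) / ρ) ^ m * n ρ = 3 ^ m * (((Y : ℝ) / ρ) ^ m * n ρ) +
        c₁ * 3 ^ (m + 1) * (((Y : ℝ) / ρ) ^ m * n ρ) +
        c₁ * 2 * 3 ^ (m + 1) * 3 ^ m * (((Y : ℝ) / ρ) ^ m * n ρ) := by ring
    rw [hsplit]
    rcases Nat.lt_or_ge Y Rn with hYR | hYR
    · -- small box
      have h1 := hd2 Y ρ hρ hρY hYR
      have h2 : (3 * (Y : ℝ) / ρ) ^ m * n ρ = 3 ^ m * (((Y : ℝ) / ρ) ^ m * n ρ) := by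
        rw [mul_div_assoc, mul_pow]
        ring
      rw [h2] at h1
      linarith
    · -- the main estimate
      obtain ⟨K, hK⟩ : ∃ K : ℕ, K = Y / Rn := ⟨_, rfl⟩
      have hK1 : 1 ≤ K := by
        rw [hK]
        exact Nat.div_pos hYR hRn1
      have hKle : K * Rn ≤ Y := by rw [hK]; exact Nat.div_mul_le_self Y Rn
      have hKge : Y ≤ 2 * (K * Rn) := by
        have h1 : Y < (K + 1) * Rn := by
          rw [hK]
          have := Nat.lt_div_mul_add (a := Y) hRn1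
          linarith
        nlinarith
      have hcz := Pool.Agent.T6.H81.BA.NN.count_zero (LL w) hK1 bb (fun i => (hbb i).1)
        (fun i => (hbb i).2) (Zp w P) (D := D)
        (fun zz hzz => by
          have := few w P hP hne bb (fun i => (hbb i).1) zz hzz K hK1
          convert this) (Y : ℝ)
      have h2 : (GG (LL w) ((Y : ℝ) + (m + 1 : ℕ) * K * R)).ncard ≤
          (GG (LL w) (((m + 2) * Y : ℕ) : ℝ)).ncard := by
        apply Pool.Agent.T6.H68.BL.ncard_mono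
        rw [hRR]
        have h3 : ((K * Rn : ℕ) : ℝ) ≤ Y := by exact_mod_cast hKle
        push_cast at h3 ⊢
        have h4 : (0 : ℝ) ≤ m := by positivity
        nlinarith
      rw [card_lat] at h2
      rw [← card_zeros] at hcz
      have h5 : z * K ≤ D * n ((m + 2) * Y) := by
        have h6 := hcz.trans (Nat.mul_le_mul_left D h2)
        rw [hz, hn]
        beta_reduce
        exact_mod_cast h6
      have h7 := hd1 ((m + 2) * Y) Y (by omega) (by nlinarith)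
      have h8 : (3 * (((m + 2) * Y : ℕ) : ℝ) / Y) = 3 * (m + 2) := by
        push_cast
        field_simp
      rw [h8] at h7
      have hK0 : (0 : ℝ) < K := by exact_mod_cast hK1
      have h9 : z * Y ≤ c₁ * (Rn * n Y) := by
        have h10 : (Y : ℝ) ≤ 2 * (K * Rn) := by exact_mod_cast hKge
        calc z * Y ≤ z * (2 * (K * Rn)) := mul_le_mul_of_nonneg_left h10 hz0
          _ = 2 * Rn * (z * K) := by ring
          _ ≤ 2 * Rn * (D * ((3 * (m + 2)) ^ (m + 1) * n Y)) := by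
              apply mul_le_mul_of_nonneg_left _ (by positivity)
              exact h5.trans (mul_le_mul_of_nonneg_left h7 (by positivity))
          _ = c₁ * (Rn * n Y) := by rw [hc₁]; ring
      rcases Nat.lt_or_ge ρ Rn with hρR | hρR
      · -- `ρ < R ≤ Y`
        obtain ⟨Zz, hZz⟩ : ∃ Zz : ℕ, Rn = Zz + 1 := ⟨Rn - 1, by omega⟩
        have hZ1 : 1 ≤ Zz := by omega
        have hZ0 : (0 : ℝ) < Zz := by exact_mod_cast hZ1
        have h11 := hd1 Y Zz hZ1 (by omega)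
        have h12 := hd2 Zz ρ hρ (by omega) (by omega)
        have h13 : (Rn : ℝ) ≤ 2 * Zz := by
          have : Rn ≤ 2 * Zz := by omega
          exact_mod_cast this
        have h14 : z * Y ≤ c₁ * (2 * Zz * ((3 * Y / Zz) ^ (m + 1) * ((3 * Zz / ρ) ^ m * n ρ))) := by
          refine h9.trans (mul_le_mul_of_nonneg_left ?_ hc₁0)
          have h15 : 0 ≤ (3 * (Y : ℝ) / Zz) ^ (m + 1) * ((3 * Zz / ρ) ^ m * n ρ) := by
            have := hn0 ρ
            positivity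
          calc (Rn : ℝ) * n Y ≤ Rn * ((3 * Y / Zz) ^ (m + 1) * ((3 * Zz / ρ) ^ m * n ρ)) := by
                apply mul_le_mul_of_nonneg_left _ hRn0.le
                exact h11.trans (mul_le_mul_of_nonneg_left h12 (by positivity))
            _ ≤ _ := mul_le_mul_of_nonneg_right h13 h15
        have h16 : c₁ * (2 * Zz * ((3 * (Y : ℝ) / Zz) ^ (m + 1) * ((3 * Zz / ρ) ^ m * n ρ))) =
            (c₁ * 2 * 3 ^ (m + 1) * 3 ^ m * (((Y : ℝ) / ρ) ^ m * n ρ)) * Y := by
          have e1 : ((Y : ℝ) / Zz) ^ m * ((Zz : ℝ) / ρ) ^ m = ((Y : ℝ) / ρ) ^ m := by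
            rw [← mul_pow]
            congr 1
            field_simp
          rw [mul_div_assoc, mul_div_assoc, mul_pow, mul_pow, pow_succ ((Y : ℝ) / Zz) m, ← e1]
          field_simp
        rw [h16] at h14
        have h17 := le_of_mul_le_mul_right h14 hY0
        linarith
      · -- `R ≤ ρ`
        have h11 := hd1 Y ρ hρ hρY
        have h12 : (Rn : ℝ) ≤ ρ := by exact_mod_cast hρR
        have h14 : z * Y ≤ c₁ * (ρ * ((3 * Y / ρ) ^ (m + 1) * n ρ)) := by
          refine h9.trans (mul_le_mul_of_nonneg_left ?_ hc₁0)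
          exact mul_le_mul h12 h11 (hn0 Y) hρ0.le
        have h16 : c₁ * (ρ * ((3 * (Y : ℝ) / ρ) ^ (m + 1) * n ρ)) =
            (c₁ * 3 ^ (m + 1) * (((Y : ℝ) / ρ) ^ m * n ρ)) * Y := by
          rw [mul_div_assoc, mul_pow, pow_succ ((Y : ℝ) / ρ) m]
          field_simp
        rw [h16] at h14
        have h17 := le_of_mul_le_mul_right h14 hY0
        linarith
  rw [hz, hn] at hgoal
  convert hgoal

end Pool.Agent.T6.H81.BH
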