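import Pool.Agent.T6.H81.BH.Defs
import Pool.Agent.H548.BK.Gen
import Pool.Agent.H548.BK.Prim
import Pool.Agent.H548.TL.Ev

/-! Module POL: `Gd` is given by polynomials of bounded degree. -/

set_option autoImplicit false

namespace Pool.Agent.T6.H81.BH

namespace PolM

open Finset Module Matrix
open Pool.Agent.H548.WM (ht bx mem_bx Rep)
open Pool.Agent.H548.BL (lat mem_lat)
open Pool.Agent.H548.BK (Zm mul_Zm Zm_mulVec exists_minor Zm_map indep_of_det)
open Pool.Agent.H548.TL (evz evz_map evz_int)
open Pool.Agent.T6.H5.TW (fl)
open Pool.Agent.T6.H81.BG (Pt)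

theorem evz_mul {σ R : Type*} [CommRing R] (p q : MvPolynomial σ ℤ) (v : σ → R) :
    evz (p * q) v = evz p v * evz q v := by
  unfold evz
  exact MvPolynomial.eval₂_mul _ _

/-- degree of a substitution -/
theorem deg_evz' {σ τ : Type*} [Fintype σ] (p : MvPolynomial σ ℤ) (f : σ → MvPolynomial τ ℤ)
    (E : ℕ) (hf : ∀ i, (f i).totalDegree ≤ E) :
    (evz p f).totalDegree ≤ p.totalDegree * E := by
  classical
  unfold evz
  rw [MvPolynomial.eval₂_eq']
  apply MvPolynomial.totalDegree_finsetSum_le
  intro d hd
  refine (MvPolynomial.totalDegree_mul _ _).trans ?_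
  have h1 : ((Int.castRingHom (MvPolynomial τ ℤ)) (MvPolynomial.coeff d p)).totalDegree = 0 := by
    have : (Int.castRingHom (MvPolynomial τ ℤ)) (MvPolynomial.coeff d p) =
      MvPolynomial.C ((MvPolynomial.coeff d p : ℤ) : ℤ) := by
      simp
    rw [this]
    exact MvPolynomial.totalDegree_C _
  rw [h1, zero_add]
  refine (MvPolynomial.totalDegree_finsetProd _ _).trans ?_
  calc ∑ i, (f i ^ d i).totalDegree ≤ ∑ i, d i * E := by
        refine Finset.sum_le_sum fun i _ => ?_
        refine (MvPolynomial.totalDegree_pow _ _).trans ?_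
        exact Nat.mul_le_mul_left _ (hf i)
    _ = (d.sum fun _ e => e) * E := by
        rw [Finsupp.sum_fintype _ _ (fun _ => rfl), Finset.sum_mul]
    _ ≤ p.totalDegree * E := Nat.mul_le_mul_right _ (MvPolynomial.le_totalDegree hd)

variable {m : ℕ} {n : Fin m → ℕ}

/-- applying a ring homomorphism to an updated point -/
theorem fl_update_map {R S : Type*} [CommRing R] [CommRing S] (φ : R →+* S)
    (x : ∀ i, Fin (n i) → R) (v : Fin m) (z : Fin (n v) → R) :
    (fun p => φ (fl (Function.update x v z) p)) =
      fl (Function.update (fun i s => φ (x i s)) v (fun s => φ (z s))) := by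
  funext p
  obtain ⟨i, s⟩ := p
  show φ (Function.update x v z i s) = Function.update (fun i s => φ (x i s)) v (fun s => φ (z s)) i s
  by_cases h : i = v
  · subst h
    rw [Function.update_self, Function.update_self]
  · rw [Function.update_of_ne h, Function.update_of_ne h]

/-- a multiple of a block where the polynomial is not zero -/
theorem exists_mul' (g : MvPolynomial (Σ i, Fin (n i)) ℤ) (x : Pt n) (v : Fin m)
    (z : Fin (n v) → ℤ) (h : evz g (fl (Function.update x v z)) ≠ 0) (d : ℤ) (hd : d ≠ 0) :
    ∃ s : ℤ, evz g (fl (Function.update x v ((d * s) • z))) ≠ 0 := by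
  by_contra hcon
  push Not at hcon
  obtain ⟨F, hF⟩ : ∃ F : Polynomial ℤ, F = evz g (fl (Function.update
    (fun i s => Polynomial.C (x i s)) v (fun s => Polynomial.C (z s) * Polynomial.X))) := ⟨_, rfl⟩
  have hFe : ∀ t : ℤ, Polynomial.eval t F = evz g (fl (Function.update x v (t • z))) := by
    intro t
    have h1 := evz_map (Polynomial.evalRingHom t) g (fl (Function.update
      (fun i s => Polynomial.C (x i s)) v (fun s => Polynomial.C (z s) * Polynomial.X)))
    rw [fl_update_map, ← hF, Polynomial.coe_evalRingHom] at h1
    rw [h1]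
    congr 2
    · simp only [Polynomial.eval_C]
      congr 1
      funext s
      simp [mul_comm]
  have h0 : F = 0 := by
    apply Polynomial.eq_zero_of_infinite_isRoot
    apply Set.infinite_of_injective_forall_mem (f := fun s : ℤ => d * s)
    · intro s t hst
      exact mul_left_cancel₀ hd hst
    · intro s
      show Polynomial.eval (d * s) F = 0
      rw [hFe]
      exact hcon s
  apply h
  have := hFe 1
  rw [h0, Polynomial.eval_zero, one_smul] at this
  exact this.symm

end PolM

open Finset Module Matrix
open Pool.Agent.H548.WM (ht bx mem_bx Rep)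
open Pool.Agent.H548.BL (lat mem_lat)
open Pool.Agent.H548.BK (Zm mul_Zm Zm_mulVec exists_minor Zm_map indep_of_det)
open Pool.Agent.H548.TL (evz evz_map evz_int)
open Pool.Agent.T6.H5.TW (fl)
open Pool.Agent.T6.H81.BG (Pt)
open PolM

theorem pol : StmtPol := by
  classical
  intro m n ι _ w hW G l
  obtain ⟨W, hW⟩ := hW
  induction l with
  | nil =>
    refine ⟨G.totalDegree, fun x hx => ⟨G, le_rfl, hx, fun x' hx' => hx'⟩⟩
  | cons v l ih =>
    obtain ⟨D', hD'⟩ := ih
    obtain ⟨k, hk⟩ : ∃ k, k = Fintype.card (ι v) := ⟨_, rfl⟩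
    subst hk
    let e : Fin (Fintype.card (ι v)) ≃ ι v := (Fintype.equivFin (ι v)).symm
    let WP : Matrix (Fin (Fintype.card (ι v))) (Fin (n v)) (MvPolynomial (Σ i, Fin (n i)) ℤ) :=
      Matrix.of fun i s => W v (e i) s
    let A : Pt n → Matrix (Fin (Fintype.card (ι v))) (Fin (n v)) ℤ := fun x =>
      Matrix.of fun i s => w v x (e i) s
    have hA : ∀ x : Pt n, WP.map (MvPolynomial.eval₂Hom (Int.castRingHom ℤ) (fl x)) = A x := by
      intro x
      ext i s
      show evz (W v (e i) s) (fl x) = w v x (e i) s
      rw [hW]
    -- linear independence, kernels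
    have hLI : ∀ x : Pt n, LinearIndependent ℤ (w v x) → LinearIndependent ℤ (A x).row := by
      intro x hx
      exact hx.comp e e.injective
    have hLI' : ∀ x : Pt n, LinearIndependent ℤ (A x).row → LinearIndependent ℤ (w v x) := by
      intro x hx
      have h1 := hx.comp e.symm e.symm.injective
      have h2 : (A x).row ∘ e.symm = w v x := by
        funext i s
        show w v x (e (e.symm i)) s = w v x i s
        rw [Equiv.apply_symm_apply]
      rwa [h2] at h1
    have hker : ∀ (x : Pt n) (z : Fin (n v) → ℤ), z ∈ lat (w v x) ↔ A x *ᵥ z = 0 := by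
      intro x z
      rw [mem_lat]
      constructor
      · intro h
        funext i
        exact h (e i)
      · intro h i
        have := congrFun h (e.symm i)
        have h2 : (A x *ᵥ z) (e.symm i) = w v x (e (e.symm i)) ⬝ᵥ z := rfl
        rw [h2, Equiv.apply_symm_apply] at this
        exact this
    -- degrees
    let E : ℕ := (univ.sup fun J : Fin (Fintype.card (ι v)) → Fin (n v) =>
      univ.sup fun s => univ.sup fun j => (Zm WP J s j).totalDegree) + 1
    let Dd : ℕ := univ.sup fun J : Fin (Fintype.card (ι v)) → Fin (n v) =>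
      ((WP.submatrix id J).det).totalDegree
    refine ⟨Dd + D' * E, fun x hx => ?_⟩
    obtain ⟨hx1, z, hz, hx2⟩ := hx
    obtain ⟨g', hg1, hg2, hg3⟩ := hD' _ hx2
    obtain ⟨J, hJ⟩ := exists_minor (hLI x hx1)
    obtain ⟨s, hs⟩ := exists_mul' g' x v z hg2 _ hJ
    let t : Fin (n v) → ℤ := s • z
    have ht : A x *ᵥ t = 0 := by
      show A x *ᵥ (s • z) = 0
      rw [mulVec_smul, (hker x z).1 hz, smul_zero]
    let sub : ∀ i, Fin (n i) → MvPolynomial (Σ i, Fin (n i)) ℤ :=
      Function.update (fun i s => MvPolynomial.X ⟨i, s⟩) v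
        (Zm WP J *ᵥ fun s => MvPolynomial.C (t s))
    have hev : ∀ x' : Pt n, evz ((WP.submatrix id J).det * evz g' (fl sub)) (fl x') =
        ((A x').submatrix id J).det *
          evz g' (fl (Function.update x' v (Zm (A x') J *ᵥ t))) := by
      intro x'
      rw [evz_mul]
      congr 1
      · show MvPolynomial.eval₂Hom (Int.castRingHom ℤ) (fl x') ((WP.submatrix id J).det) = _
        rw [RingHom.map_det, RingHom.mapMatrix_apply, ← submatrix_map, hA]
      · have h1 := evz_map (MvPolynomial.eval₂Hom (Int.castRingHom ℤ) (fl x')) g' (fl sub)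
        rw [fl_update_map] at h1
        have h2 : evz (evz g' (fl sub)) (fl x') =
          (MvPolynomial.eval₂Hom (Int.castRingHom ℤ) (fl x')) (evz g' (fl sub)) := rfl
        rw [h2, h1]
        congr 2
        congr 1
        · funext i s
          exact MvPolynomial.eval₂Hom_X' _ _ _
        · funext s
          rw [← hA x', ← Zm_map]
          show (MvPolynomial.eval₂Hom (Int.castRingHom ℤ) (fl x')) (∑ c, Zm WP J s c *
              MvPolynomial.C (t c)) = ∑ c, (MvPolynomial.eval₂Hom (Int.castRingHom ℤ) (fl x'))
              (Zm WP J s c) * t c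
          rw [map_sum]
          refine Finset.sum_congr rfl fun c _ => ?_
          rw [map_mul, MvPolynomial.eval₂Hom_C]
          rfl
    refine ⟨(WP.submatrix id J).det * evz g' (fl sub), ?_, ?_, ?_⟩
    · refine (MvPolynomial.totalDegree_mul _ _).trans ?_
      have h1 : ((WP.submatrix id J).det).totalDegree ≤ Dd :=
        Finset.le_sup (f := fun J : Fin (Fintype.card (ι v)) → Fin (n v) =>
          ((WP.submatrix id J).det).totalDegree) (mem_univ J)
      have h2 : (evz g' (fl sub)).totalDegree ≤ g'.totalDegree * E := by
        apply deg_evz'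
        rintro ⟨i, s⟩
        show (sub i s).totalDegree ≤ E
        by_cases hi : i = v
        · subst hi
          have h3 : sub i s = ∑ j, Zm WP J s j * MvPolynomial.C (t j) := by
            show (Function.update (fun i s => MvPolynomial.X ⟨i, s⟩) i
              (Zm WP J *ᵥ fun s => MvPolynomial.C (t s)) :
                ∀ i, Fin (n i) → MvPolynomial (Σ i, Fin (n i)) ℤ) i s = _
            rw [Function.update_self]
            rfl
          rw [h3]
          apply MvPolynomial.totalDegree_finsetSum_le
          intro j _
          refine (MvPolynomial.totalDegree_mul _ _).trans ?_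
          rw [MvPolynomial.totalDegree_C, add_zero]
          have h4 : (Zm WP J s j).totalDegree ≤ univ.sup fun j => (Zm WP J s j).totalDegree :=
            Finset.le_sup (f := fun j => (Zm WP J s j).totalDegree) (mem_univ j)
          have h5 : (univ.sup fun j => (Zm WP J s j).totalDegree) ≤
              univ.sup fun s => univ.sup fun j => (Zm WP J s j).totalDegree :=
            Finset.le_sup (f := fun s => univ.sup fun j => (Zm WP J s j).totalDegree) (mem_univ s)
          have h6 : (univ.sup fun s => univ.sup fun j => (Zm WP J s j).totalDegree) ≤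
              univ.sup fun J : Fin (Fintype.card (ι i)) → Fin (n i) =>
                univ.sup fun s => univ.sup fun j => (Zm WP J s j).totalDegree :=
            Finset.le_sup (f := fun J : Fin (Fintype.card (ι i)) → Fin (n i) =>
              univ.sup fun s => univ.sup fun j => (Zm WP J s j).totalDegree) (mem_univ J)
          omega
        · have h3 : sub i s = MvPolynomial.X ⟨i, s⟩ := by
            show (Function.update (fun i s => MvPolynomial.X ⟨i, s⟩) v
              (Zm WP J *ᵥ fun s => MvPolynomial.C (t s)) :
                ∀ i, Fin (n i) → MvPolynomial (Σ i, Fin (n i)) ℤ) i s = _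
            rw [Function.update_of_ne hi]
          rw [h3, MvPolynomial.totalDegree_X]
          omega
      calc ((WP.submatrix id J).det).totalDegree + (evz g' (fl sub)).totalDegree ≤
            Dd + g'.totalDegree * E := add_le_add h1 h2
        _ ≤ Dd + D' * E := Nat.add_le_add_left (Nat.mul_le_mul_right _ hg1) _
    · rw [hev x, Zm_mulVec _ J ht]
      refine mul_ne_zero hJ ?_
      show evz g' (fl (Function.update x v (((A x).submatrix id J).det • (s • z)))) ≠ 0
      rw [smul_smul]
      exact hs
    · intro x' hx'
      rw [hev x'] at hx'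
      have h1 := left_ne_zero_of_mul hx'
      have h2 := right_ne_zero_of_mul hx'
      refine ⟨hLI' x' (indep_of_det h1), Zm (A x') J *ᵥ t, ?_, hg3 _ h2⟩
      rw [hker, mulVec_mulVec, mul_Zm, zero_mulVec]

end Pool.Agent.T6.H81.BH
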