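import Mathlib
import Pool.Agent.T6.H81.BH.Defs

/-! Module PERT: a complex point of `U` where polynomials in the single arguments are not zero. -/

set_option autoImplicit false

namespace Pool.Agent.T6.H81.BH

open Finset Module Matrix Filter Topology
open Pool.Agent.H548.TL (evz evz_map tf g1 g2 g3 s12 s23 InU InV tri tf_g3 tf_s12 tf_s23 g3_s12
  g3_s23)

namespace Pert

variable {N1 N2 N3 : ℕ}

theorem cont_evz {σ : Type*} (p : MvPolynomial σ ℤ) : Continuous fun v : σ → ℂ => evz p v := by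
  unfold evz
  simp only [MvPolynomial.eval₂_eq]
  fun_prop

theorem cont_g1 (T : Fin N1 → Fin N2 → Fin N3 → ℤ) :
    Continuous fun p : (Fin N2 → ℂ) × (Fin N3 → ℂ) => g1 T p.1 p.2 := by
  unfold g1
  fun_prop

theorem cont_g2 (T : Fin N1 → Fin N2 → Fin N3 → ℤ) :
    Continuous fun p : (Fin N1 → ℂ) × (Fin N3 → ℂ) => g2 T p.1 p.2 := by
  unfold g2
  fun_prop

theorem cont_g3 (T : Fin N1 → Fin N2 → Fin N3 → ℤ) :
    Continuous fun p : (Fin N1 → ℂ) × (Fin N2 → ℂ) => g3 T p.1 p.2 := by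
  unfold g3
  fun_prop

theorem cont_tri : Continuous fun p : (Fin N1 → ℂ) × (Fin N2 → ℂ) × (Fin N3 → ℂ) =>
    tri p.1 p.2.1 p.2.2 := by
  rw [continuous_pi_iff]
  rintro (i | i | i)
  · show Continuous fun p : (Fin N1 → ℂ) × (Fin N2 → ℂ) × (Fin N3 → ℂ) => p.1 i
    fun_prop
  · show Continuous fun p : (Fin N1 → ℂ) × (Fin N2 → ℂ) × (Fin N3 → ℂ) => p.2.1 i
    fun_prop
  · show Continuous fun p : (Fin N1 → ℂ) × (Fin N2 → ℂ) × (Fin N3 → ℂ) => p.2.2 i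
    fun_prop

theorem cc1 (T : Fin N1 → Fin N2 → Fin N3 → ℤ) :
    Continuous fun p : (Fin N1 → ℂ) × (Fin N2 → ℂ) × (Fin N3 → ℂ) => g1 T p.2.1 p.2.2 := by
  unfold g1
  fun_prop

theorem cc2 (T : Fin N1 → Fin N2 → Fin N3 → ℤ) :
    Continuous fun p : (Fin N1 → ℂ) × (Fin N2 → ℂ) × (Fin N3 → ℂ) => g2 T p.1 p.2.2 := by
  unfold g2
  fun_prop

theorem cc3 (T : Fin N1 → Fin N2 → Fin N3 → ℤ) :
    Continuous fun p : (Fin N1 → ℂ) × (Fin N2 → ℂ) × (Fin N3 → ℂ) => g3 T p.1 p.2.1 := by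
  unfold g3
  fun_prop

theorem cc4 (G : MvPolynomial (Fin N1 ⊕ Fin N2 ⊕ Fin N3) ℤ) :
    Continuous fun p : (Fin N1 → ℂ) × (Fin N2 → ℂ) × (Fin N3 → ℂ) =>
      evz G (tri p.1 p.2.1 p.2.2) := by
  have h := (cont_evz G).comp (cont_tri (N1 := N1) (N2 := N2) (N3 := N3))
  exact h

theorem cf1 {A C : Type*} [TopologicalSpace A] [TopologicalSpace C] {N : ℕ}
    (f : MvPolynomial (Fin N) ℤ) : Continuous fun p : A × (Fin N → ℂ) × C => evz f p.2.1 := by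
  have h1 : Continuous fun p : A × (Fin N → ℂ) × C => p.2.1 := by fun_prop
  have h := (cont_evz f).comp h1
  exact h

theorem cf2 {A B : Type*} [TopologicalSpace A] [TopologicalSpace B] {N : ℕ}
    (f : MvPolynomial (Fin N) ℤ) : Continuous fun p : A × B × (Fin N → ℂ) => evz f p.2.2 := by
  have h1 : Continuous fun p : A × B × (Fin N → ℂ) => p.2.2 := by fun_prop
  have h := (cont_evz f).comp h1
  exact h

/-- the open conditions -/
def Op (T : Fin N1 → Fin N2 → Fin N3 → ℤ) (G : MvPolynomial (Fin N1 ⊕ Fin N2 ⊕ Fin N3) ℤ)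
    (x : Fin N1 → ℂ) (y : Fin N2 → ℂ) (z : Fin N3 → ℂ) : Prop :=
  g1 T y z ≠ 0 ∧ g2 T x z ≠ 0 ∧ g3 T x y ≠ 0 ∧ evz G (tri x y z) ≠ 0

theorem ev_ne {X Y : Type*} [TopologicalSpace X] [TopologicalSpace Y] [T1Space Y] {f : X → Y}
    (hf : Continuous f) (x : X) (c : Y) (h : f x ≠ c) : ∀ᶠ p in 𝓝 x, f p ≠ c :=
  hf.continuousAt.eventually_ne h

theorem ex_ne {N : ℕ} {f : MvPolynomial (Fin N) ℤ} (hf : f ≠ 0) : ∃ w : Fin N → ℂ, evz f w ≠ 0 := by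
  by_contra h
  push Not at h
  apply hf
  have h1 : MvPolynomial.map (Int.castRingHom ℂ) f = 0 := by
    apply MvPolynomial.funext
    intro w
    rw [MvPolynomial.eval_map, map_zero]
    exact h w
  exact MvPolynomial.map_injective _ Int.cast_injective (by rw [h1, map_zero])

theorem step (T : Fin N1 → Fin N2 → Fin N3 → ℤ) (x : Fin N1 → ℂ) (y : Fin N2 → ℂ)
    (z : Fin N3 → ℂ) (hz : tf T x y z = 0) (hg : g3 T x y ≠ 0) (f : MvPolynomial (Fin N1) ℤ)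
    (hf : f ≠ 0) (P : (Fin N1 → ℂ) → (Fin N2 → ℂ) → (Fin N3 → ℂ) → Prop)
    (hP : ∀ᶠ p in 𝓝 (x, y, z), P p.1 p.2.1 p.2.2) :
    ∃ x' z', P x' y z' ∧ tf T x' y z' = 0 ∧ evz f x' ≠ 0 := by
  obtain ⟨w, hw⟩ := ex_ne hf
  obtain ⟨k, hk⟩ := Function.ne_iff.1 hg
  obtain ⟨u, hug⟩ : ∃ u : Fin N3 → ℂ, ∀ g : Fin N3 → ℂ, u ⬝ᵥ g = g k :=
    ⟨Pi.single k 1, fun g => by rw [single_dotProduct, one_mul]⟩
  obtain ⟨xt, hxt⟩ : ∃ xt : ℂ → Fin N1 → ℂ, xt = fun t => x + t • (w - x) := ⟨_, rfl⟩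
  obtain ⟨gt, hgt⟩ : ∃ gt : ℂ → Fin N3 → ℂ, ∀ t, gt t = g3 T (xt t) y :=
    ⟨fun t => g3 T (xt t) y, fun _ => rfl⟩
  have cx : Continuous xt := by
    rw [hxt]
    fun_prop
  have cg : Continuous gt := by
    have h1 : gt = (fun p : (Fin N1 → ℂ) × (Fin N2 → ℂ) => g3 T p.1 p.2) ∘
        (fun t => (xt t, y)) := funext hgt
    rw [h1]
    exact (cont_g3 T).comp (cx.prodMk continuous_const)
  have x0 : xt 0 = x := by
    rw [hxt]
    simp
  have g0 : gt 0 k ≠ 0 := by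
    rw [hgt, x0]
    exact hk
  obtain ⟨zt, hzt⟩ : ∃ zt : ℂ → Fin N3 → ℂ, zt = fun t => z - (z ⬝ᵥ gt t / gt t k) • u :=
    ⟨_, rfl⟩
  have z0 : zt 0 = z := by
    rw [hzt]
    simp only
    have : z ⬝ᵥ gt 0 = 0 := by
      rw [hgt, x0, ← hz, tf_g3]
    rw [this, zero_div, zero_smul, sub_zero]
  have ck : ContinuousAt (fun t => gt t k) 0 := ((continuous_apply k).comp cg).continuousAt
  have cd : ContinuousAt (fun t => z ⬝ᵥ gt t) 0 := by
    unfold dotProduct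
    have : Continuous fun t => ∑ i, z i * gt t i :=
      continuous_finsetSum _ fun i _ => continuous_const.mul ((continuous_apply i).comp cg)
    exact this.continuousAt
  have cz : ContinuousAt zt 0 := by
    rw [hzt]
    exact continuousAt_const.sub ((cd.div ck g0).smul continuousAt_const)
  have ct : Tendsto (fun t => (xt t, y, zt t)) (𝓝 0) (𝓝 (x, y, z)) := by
    have h1 : ContinuousAt (fun t => (xt t, y, zt t)) 0 :=
      cx.continuousAt.prodMk (continuousAt_const.prodMk cz)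
    have h2 := h1.tendsto
    simp only [x0, z0] at h2
    exact h2
  have e1 := ct.eventually hP
  have e2 := ck.eventually_ne g0
  -- the polynomial in one variable
  obtain ⟨q, hqe⟩ : ∃ q : Polynomial ℂ, ∀ t, q.eval t = evz f (xt t) := by
    refine ⟨evz f (fun i => Polynomial.C (x i) + Polynomial.X * Polynomial.C ((w - x) i)),
      fun t => ?_⟩
    have h1 := evz_map (Polynomial.evalRingHom t) f (fun i => Polynomial.C (x i) +
      Polynomial.X * Polynomial.C ((w - x) i))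
    rw [← Polynomial.coe_evalRingHom, h1]
    congr 1
    funext i
    simp [hxt]
  have hq0 : q ≠ 0 := by
    intro h
    have h1 := hqe 1
    rw [h, Polynomial.eval_zero] at h1
    apply hw
    rw [h1, hxt]
    congr 1
    funext i
    simp
  have hfin : ({t | q.eval t = 0} \ {0} : Set ℂ).Finite :=
    (Polynomial.finite_setOfPred_isRoot hq0).subset fun t ht => ht.1
  have e3 : ∀ᶠ t in 𝓝 (0 : ℂ), t ∉ ({t | q.eval t = 0} \ {0} : Set ℂ) :=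
    hfin.isClosed.isOpen_compl.mem_nhds (by simp)
  have e4 := ((e1.and (e2.and e3)).filter_mono (nhdsWithin_le_nhds (s := {(0 : ℂ)}ᶜ))).and
    self_mem_nhdsWithin
  obtain ⟨t, ⟨h1, h2, h3⟩, h4⟩ := e4.exists
  refine ⟨xt t, zt t, h1, ?_, ?_⟩
  · rw [tf_g3]
    rw [← hgt, hzt]
    simp only
    rw [sub_dotProduct, smul_dotProduct, hug, smul_eq_mul, div_mul_cancel₀ _ h2, sub_self]
  · rw [← hqe]
    intro h5
    exact h3 ⟨h5, h4⟩

theorem ev_op {T : Fin N1 → Fin N2 → Fin N3 → ℤ} {G : MvPolynomial (Fin N1 ⊕ Fin N2 ⊕ Fin N3) ℤ}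
    {x : Fin N1 → ℂ} {y : Fin N2 → ℂ} {z : Fin N3 → ℂ} (h : Op T G x y z) :
    ∀ᶠ p in 𝓝 (x, y, z), Op T G p.1 p.2.1 p.2.2 := by
  obtain ⟨h1, h2, h3, h4⟩ := h
  exact (ev_ne (cc1 T) (x, y, z) 0 h1).and ((ev_ne (cc2 T) (x, y, z) 0 h2).and
      ((ev_ne (cc3 T) (x, y, z) 0 h3).and (ev_ne (cc4 G) (x, y, z) 0 h4)))

theorem ev_swap {A B C : Type*} [TopologicalSpace A] [TopologicalSpace B] [TopologicalSpace C]
    {P : A → B → C → Prop} {a : A} {b : B} {c : C} (h : ∀ᶠ p in 𝓝 (a, b, c), P p.1 p.2.1 p.2.2) :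
    ∀ᶠ p in 𝓝 (b, a, c), P p.2.1 p.1 p.2.2 := by
  have k : Continuous fun p : B × A × C => (p.2.1, p.1, p.2.2) := by fun_prop
  exact (k.tendsto (b, a, c)).eventually h

theorem ev_rot {A B C : Type*} [TopologicalSpace A] [TopologicalSpace B] [TopologicalSpace C]
    {P : A → B → C → Prop} {a : A} {b : B} {c : C} (h : ∀ᶠ p in 𝓝 (a, b, c), P p.1 p.2.1 p.2.2) :
    ∀ᶠ p in 𝓝 (c, a, b), P p.2.1 p.2.2 p.1 := by
  have k : Continuous fun p : C × A × B => (p.2.1, p.2.2, p.1) := by fun_prop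
  exact (k.tendsto (c, a, b)).eventually h

end Pert

open Pert in
theorem pert : StmtPert := by
  intro N1 N2 N3 T G f1 f2 f3 hf1 hf2 hf3 hex
  obtain ⟨x, y, z, ⟨h0, h1, h2, h3⟩, hG⟩ := hex
  have hop : Op T G x y z := ⟨h1, h2, h3, hG⟩
  -- the first argument
  obtain ⟨x1, z1, a1, a5, a6⟩ := step T x y z h0 h3 f1 hf1 (Op T G) (ev_op hop)
  -- the second argument
  have hb : ∀ᶠ p in 𝓝 (y, x1, z1), Op T G p.2.1 p.1 p.2.2 ∧ evz f1 p.2.1 ≠ 0 :=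
    (ev_swap (ev_op a1)).and (ev_ne (cf1 f1) (y, x1, z1) 0 a6)
  obtain ⟨y2, z2, ⟨b1, b6⟩, b5, b7⟩ := step (s12 T) y x1 z1 (by rwa [tf_s12])
    (by rw [g3_s12]; exact a1.2.2.1) f2 hf2 (fun y x z => Op T G x y z ∧ evz f1 x ≠ 0) hb
  rw [tf_s12] at b5
  -- the third argument
  have hc : ∀ᶠ p in 𝓝 (z2, x1, y2), (Op T G p.2.1 p.2.2 p.1 ∧ evz f1 p.2.1 ≠ 0) ∧
      evz f2 p.2.2 ≠ 0 :=
    ((ev_rot (ev_op b1)).and (ev_ne (cf1 f1) (z2, x1, y2) 0 b6)).and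
      (ev_ne (cf2 f2) (z2, x1, y2) 0 b7)
  obtain ⟨z3, y3, ⟨⟨d1, d6⟩, d7⟩, d5, d8⟩ := step (s12 (s23 T)) z2 x1 y2
    (by rw [tf_s12, tf_s23]; exact b5) (by rw [g3_s12, g3_s23]; exact b1.2.1) f3 hf3
    (fun z x y => (Op T G x y z ∧ evz f1 x ≠ 0) ∧ evz f2 y ≠ 0) hc
  rw [tf_s12, tf_s23] at d5
  exact ⟨x1, y3, z3, ⟨⟨d5, d1.1, d1.2.1, d1.2.2.1⟩, d1.2.2.2⟩, d6, d7, d8⟩

end Pool.Agent.T6.H81.BH
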