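import Mathlib
import Pool.Agent.T6.H81.BH.Defs
import Pool.Agent.T6.H81.BG.S6

/-! Module TR: a polynomial of type `(1, 1, 1)` as a trilinear form. -/

set_option autoImplicit false

namespace Pool.Agent.T6.H81.BH

open Finset Module Matrix
open Pool.Agent.H548.BL (lat)
open Pool.Agent.H548.TL (evz evz_map tf g1 g2 g3 tf_g1 tf_g2 tf_g3)
open Pool.Agent.T6.H5.TW (fl MultiDeg)
open Pool.Agent.T6.H81.BG (Pt Zr cf)

namespace TR

/-- the point with given blocks -/
def pt3 {R : Type*} [CommRing R] {n : Fin 3 → ℕ} (a : Fin (n 0) → R) (b : Fin (n 1) → R)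
    (c : Fin (n 2) → R) : ∀ i, Fin (n i) → R :=
  Function.update (Function.update (Function.update (fun _ _ => 0) 0 a) 1 b) 2 c

theorem pt3_zero {R : Type*} [CommRing R] {n : Fin 3 → ℕ} (a : Fin (n 0) → R) (b : Fin (n 1) → R)
    (c : Fin (n 2) → R) : pt3 (n := n) a b c 0 = a := by
  unfold pt3
  rw [Function.update_of_ne (by decide), Function.update_of_ne (by decide), Function.update_self]

theorem pt3_one {R : Type*} [CommRing R] {n : Fin 3 → ℕ} (a : Fin (n 0) → R) (b : Fin (n 1) → R)
    (c : Fin (n 2) → R) : pt3 (n := n) a b c 1 = b := by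
  unfold pt3
  rw [Function.update_of_ne (by decide), Function.update_self]

theorem pt3_two {R : Type*} [CommRing R] {n : Fin 3 → ℕ} (a : Fin (n 0) → R) (b : Fin (n 1) → R)
    (c : Fin (n 2) → R) : pt3 (n := n) a b c 2 = c := by
  unfold pt3
  rw [Function.update_self]

theorem eq_pt3 {R : Type*} [CommRing R] {n : Fin 3 → ℕ} (x : ∀ i, Fin (n i) → R) :
    x = pt3 (x 0) (x 1) (x 2) := by
  funext i
  fin_cases i
  · exact (pt3_zero (n := n) _ _ _).symm
  · exact (pt3_one (n := n) _ _ _).symm
  · exact (pt3_two (n := n) _ _ _).symm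

theorem upd0 {R : Type*} [CommRing R] {n : Fin 3 → ℕ} (a a' : Fin (n 0) → R) (b : Fin (n 1) → R)
    (c : Fin (n 2) → R) : Function.update (pt3 (n := n) a b c) 0 a' = pt3 a' b c := by
  rw [eq_pt3 (Function.update (pt3 (n := n) a b c) 0 a'), Function.update_self,
    Function.update_of_ne (by decide), Function.update_of_ne (by decide), pt3_one, pt3_two]

theorem upd1 {R : Type*} [CommRing R] {n : Fin 3 → ℕ} (a : Fin (n 0) → R) (b b' : Fin (n 1) → R)
    (c : Fin (n 2) → R) : Function.update (pt3 (n := n) a b c) 1 b' = pt3 a b' c := by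
  rw [eq_pt3 (Function.update (pt3 (n := n) a b c) 1 b'), Function.update_self,
    Function.update_of_ne (by decide), Function.update_of_ne (by decide), pt3_zero, pt3_two]

theorem upd2 {R : Type*} [CommRing R] {n : Fin 3 → ℕ} (a : Fin (n 0) → R) (b : Fin (n 1) → R)
    (c c' : Fin (n 2) → R) : Function.update (pt3 (n := n) a b c) 2 c' = pt3 a b c' := by
  rw [eq_pt3 (Function.update (pt3 (n := n) a b c) 2 c'), Function.update_self,
    Function.update_of_ne (by decide), Function.update_of_ne (by decide), pt3_zero, pt3_one]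

theorem main {n : Fin 3 → ℕ} (p : MvPolynomial (Σ i, Fin (n i)) ℤ)
    (h : MultiDeg p (fun _ => 1)) (R : Type) [CommRing R] (x : ∀ i, Fin (n i) → R) :
    evz p (fl x) = tf (fun i j k => evz p (fl (pt3 (R := ℤ) (Pi.single i 1) (Pi.single j 1)
      (Pi.single k 1)))) (x 0) (x 1) (x 2) := by
  have h0 : ∀ a b c, evz p (fl (pt3 (n := n) (R := R) a b c)) =
      ∑ s, evz p (fl (pt3 (n := n) (R := R) (Pi.single s 1) b c)) * a s := by
    intro a b c
    have := BG.S6.lin h (v := 0) rfl (pt3 (n := n) a b c) a
    simp only [upd0] at this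
    exact this.symm
  have h1 : ∀ a b c, evz p (fl (pt3 (n := n) (R := R) a b c)) =
      ∑ s, evz p (fl (pt3 (n := n) (R := R) a (Pi.single s 1) c)) * b s := by
    intro a b c
    have := BG.S6.lin h (v := 1) rfl (pt3 (n := n) a b c) b
    simp only [upd1] at this
    exact this.symm
  have h2 : ∀ a b c, evz p (fl (pt3 (n := n) (R := R) a b c)) =
      ∑ s, evz p (fl (pt3 (n := n) (R := R) a b (Pi.single s 1))) * c s := by
    intro a b c
    have := BG.S6.lin h (v := 2) rfl (pt3 (n := n) a b c) c
    simp only [upd2] at this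
    exact this.symm
  have hc : ∀ i j k, evz p (fl (pt3 (n := n) (R := R) (Pi.single i 1) (Pi.single j 1)
      (Pi.single k 1))) = ((evz p (fl (pt3 (n := n) (R := ℤ) (Pi.single i 1) (Pi.single j 1)
      (Pi.single k 1))) : ℤ) : R) := by
    intro i j k
    have := evz_map (Int.castRingHom R) p (fl (pt3 (n := n) (R := ℤ) (Pi.single i 1)
      (Pi.single j 1) (Pi.single k 1)))
    rw [eq_intCast] at this
    rw [this]
    congr 1
    have hs : ∀ (N : ℕ) (q q' : Fin N), (Pi.single q (1 : R) : Fin N → R) q' =
        (Int.castRingHom R) ((Pi.single q (1 : ℤ) : Fin N → ℤ) q') := by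
      intro N q q'
      by_cases hq : q' = q
      · subst hq
        simp
      · rw [Pi.single_eq_of_ne hq, Pi.single_eq_of_ne hq, map_zero]
    funext q
    obtain ⟨v, t⟩ := q
    show pt3 (n := n) (R := R) (Pi.single i 1) (Pi.single j 1) (Pi.single k 1) v t =
      (Int.castRingHom R) (pt3 (n := n) (R := ℤ) (Pi.single i 1) (Pi.single j 1)
        (Pi.single k 1) v t)
    fin_cases v
    · exact (congrFun (pt3_zero (n := n) _ _ _) t).trans ((hs _ _ _).trans
        (congrArg (Int.castRingHom R) (congrFun (pt3_zero (n := n) _ _ _) t).symm))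
    · exact (congrFun (pt3_one (n := n) _ _ _) t).trans ((hs _ _ _).trans
        (congrArg (Int.castRingHom R) (congrFun (pt3_one (n := n) _ _ _) t).symm))
    · exact (congrFun (pt3_two (n := n) _ _ _) t).trans ((hs _ _ _).trans
        (congrArg (Int.castRingHom R) (congrFun (pt3_two (n := n) _ _ _) t).symm))
  conv_lhs => rw [eq_pt3 x]
  rw [h0]
  unfold tf
  refine Finset.sum_congr rfl fun i _ => ?_
  rw [h1, Finset.sum_mul]
  refine Finset.sum_congr rfl fun j _ => ?_
  rw [h2, Finset.sum_mul, Finset.sum_mul]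
  refine Finset.sum_congr rfl fun k _ => ?_
  rw [hc]
  ring

end TR

open TR in
/-- Module TR. -/
theorem tR : StmtTR := by
  intro n F hF
  refine ⟨fun i j k => evz (F 0) (fl (pt3 (R := ℤ) (Pi.single i 1) (Pi.single j 1)
      (Pi.single k 1))), fun R _ x => ⟨main (F 0) hF R x, ?_, ?_, ?_⟩⟩
  · funext s
    show evz (F 0) (fl (Function.update x 0 (Pi.single s 1))) = _
    rw [main (F 0) hF R, tf_g1, Function.update_self, Function.update_of_ne (by decide),
      Function.update_of_ne (by decide), single_one_dotProduct]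
  · funext s
    show evz (F 0) (fl (Function.update x 1 (Pi.single s 1))) = _
    rw [main (F 0) hF R, tf_g2, Function.update_self, Function.update_of_ne (by decide),
      Function.update_of_ne (by decide), single_one_dotProduct]
  · funext s
    show evz (F 0) (fl (Function.update x 2 (Pi.single s 1))) = _
    rw [main (F 0) hF R, tf_g3, Function.update_self, Function.update_of_ne (by decide),
      Function.update_of_ne (by decide), single_one_dotProduct]

end Pool.Agent.T6.H81.BH
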