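import Mathlib
import Pool.Agent.T6.H81.BH.Defs
import Pool.Agent.H548.TL.Gen
import Pool.Agent.H548.TL.Ev

/-! Module CH3: the intermediate points between two points of `U`. -/

set_option autoImplicit false

namespace Pool.Agent.T6.H81.BH

open Finset Module Matrix
open Pool.Agent.H548.TL (evz tf g1 g2 g3 s12 s23 Tx Sm InU InV tri)

namespace CH3

open Pool.Agent.H548.TL (zp dot_zp exists_zp g3_map evz_map evz_int exists_ker first_order Tx_map
  Tx_mulVec vecMul_Tx Tx_add Tx_zero tf_g1 tf_g2 tf_g3 g2_s12 g3_s12 g3_s23 g1_s12 g2_add g3_add)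

/-! ### Linear algebra -/

theorem rank_nul {R : Type} [CommRing R] [IsDomain R] [IsNoetherianRing R] {m n : ℕ}
    (M : Matrix (Fin m) (Fin n) R) :
    M.rank + finrank R (LinearMap.ker M.mulVecLin) = n := by
  have h1 := Submodule.finrank_quotient_add_finrank (LinearMap.ker M.mulVecLin)
  have h2 := (LinearMap.quotKerEquivRange M.mulVecLin).finrank_eq
  rw [h2] at h1
  have h5 : finrank R (LinearMap.range M.mulVecLin) = M.rank := rfl
  rw [h5, Module.finrank_fintype_fun_eq_card, Fintype.card_fin] at h1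
  exact h1

theorem sep {R : Type} [CommRing R] [IsDomain R] [IsNoetherianRing R] {m n k : ℕ}
    (M : Matrix (Fin m) (Fin n) R) (P : Matrix (Fin k) (Fin n) R) (h : k < M.rank) :
    ∃ z : Fin n → R, P *ᵥ z = 0 ∧ M *ᵥ z ≠ 0 := by
  by_contra hcon
  push Not at hcon
  have hle : LinearMap.ker P.mulVecLin ≤ LinearMap.ker M.mulVecLin := by
    intro z hz
    rw [LinearMap.mem_ker, Matrix.mulVecLin_apply] at hz ⊢
    exact hcon z hz
  have h1 := Submodule.finrank_mono hle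
  have h2 := rank_nul P
  have h3 := rank_nul M
  have h6 := P.rank_le_height
  omega

theorem exists_rows {K : Type*} [Field K] {m n r : ℕ} (M : Matrix (Fin m) (Fin n) K)
    (h : r ≤ M.rank) : ∃ g : Fin r → Fin m, LinearIndependent K (M.submatrix g id).row := by
  rw [Matrix.rank_eq_finrank_span_row] at h
  obtain ⟨f, hf, -, hli⟩ := Submodule.exists_fun_fin_finrank_span_eq K (Set.range M.row)
  have hf' : ∀ s : Fin r, ∃ j, M.row j = f (Fin.castLE h s) := fun s => hf _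
  choose g hg using hf'
  refine ⟨g, ?_⟩
  have h2 := hli.comp (Fin.castLE h) (Fin.castLE_injective h)
  have h3 : (M.submatrix g id).row = f ∘ (Fin.castLE h) := by
    funext s
    exact hg s
  rw [h3]
  exact h2

theorem exists_minor {K : Type*} [Field K] {m n r : ℕ} (M : Matrix (Fin m) (Fin n) K)
    (h : r ≤ M.rank) : ∃ (g : Fin r → Fin m) (c : Fin r → Fin n), (M.submatrix g c).det ≠ 0 := by
  obtain ⟨g, hg⟩ := exists_rows M h
  have h1 : r ≤ (M.submatrix g id)ᵀ.rank := by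
    rw [Matrix.rank_transpose, hg.rank_matrix, Fintype.card_fin]
  obtain ⟨c, hc⟩ := exists_rows _ h1
  refine ⟨g, c, ?_⟩
  have h2 : (M.submatrix g id)ᵀ.submatrix c id = (M.submatrix g c)ᵀ := rfl
  rw [h2, Matrix.linearIndependent_rows_iff_isUnit, Matrix.isUnit_iff_isUnit_det,
    Matrix.det_transpose] at hc
  exact hc.ne_zero

theorem rank_of_minor {R : Type*} [CommRing R] [IsDomain R] {m n r : ℕ}
    (M : Matrix (Fin m) (Fin n) R) {g : Fin r → Fin m} {c : Fin r → Fin n}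
    (h : (M.submatrix g c).det ≠ 0) : r ≤ M.rank := by
  have h1 := Matrix.rank_of_det_ne_zero h
  have h2 := Matrix.rank_submatrix_le M g c
  rw [h1, Fintype.card_fin] at h2
  exact h2

/-- The generic matrix has maximal rank. -/
theorem exists_rank' {𝕜 : Type*} [RCLike 𝕜] {N1 N2 N3 r : ℕ} (h1 : 1 ≤ N1) (h2 : r ≤ N2)
    (h3 : r ≤ N3) {T : Fin N1 → Fin N2 → Fin N3 → ℤ} (hs : Sm 𝕜 T) :
    ∃ x : Fin N1 → 𝕜, x ≠ 0 ∧ r ≤ (Tx T x).rank := by
  have hS : ({x : Fin N1 → 𝕜 | x ≠ 0}).Nonempty := by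
    refine ⟨fun _ => 1, ?_⟩
    intro h
    have := congrFun h ⟨0, by omega⟩
    simp at this
  obtain ⟨x, hx, hmax⟩ := Pool.Agent.H548.BL.exists_max {x : Fin N1 → 𝕜 | x ≠ 0} hS
    (fun x => (Tx T x).rank) N2 (fun x => by simpa using (Tx T x).rank_le_height)
  have hmax' : ∀ x' : Fin N1 → 𝕜, (Tx T x').rank ≤ (Tx T x).rank := by
    intro x'
    by_cases h : x' = 0
    · rw [h, Tx_zero, rank_zero]
      omega
    · exact hmax x' h
  refine ⟨x, hx, ?_⟩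
  by_contra hlt
  push Not at hlt
  obtain ⟨η, hη0, hη⟩ := exists_ker (Tx T x) (by omega)
  obtain ⟨ξ, hξ0, hξ⟩ := exists_ker (Tx T x)ᵀ (by rw [rank_transpose]; omega)
  rw [mulVec_transpose] at hξ
  refine hs x ξ η hx hξ0 hη0 ⟨?_, ?_, ?_⟩
  · have hrel : ∀ v : Fin N1 → 𝕜, g1 T ξ η ⬝ᵥ v = 0 := by
      intro v
      have h4 := first_order (Tx T x) (Tx T v) (Filter.Eventually.of_forall fun t => by
        rw [← Tx_add]
        exact hmax' _) hξ hη
      rw [Tx_mulVec, ← tf_g2, tf_g1] at h4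
      rw [dotProduct_comm]
      exact h4
    exact dotProduct_eq_zero _ hrel
  · rw [← Tx_mulVec]
    exact hη
  · rw [← vecMul_Tx]
    exact hξ

/-! ### The two parametrised points -/

variable {N1 N2 N3 : ℕ}

theorem zp_map {R S : Type*} [CommRing R] [CommRing S] {m : ℕ} (φ : R →+* S) (w : Fin m → R)
    (s : Fin m × Fin m → R) (k : Fin m) :
    φ (zp w s k) = zp (fun i => φ (w i)) (fun p => φ (s p)) k := by
  unfold zp
  simp

theorem g1_map {R S : Type*} [CommRing R] [CommRing S] (T : Fin N1 → Fin N2 → Fin N3 → ℤ)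
    (φ : R →+* S) (y : Fin N2 → R) (z : Fin N3 → R) (i : Fin N1) :
    φ (g1 T y z i) = g1 T (fun j => φ (y j)) (fun k => φ (z k)) i := by
  unfold g1
  simp

theorem g2_map {R S : Type*} [CommRing R] [CommRing S] (T : Fin N1 → Fin N2 → Fin N3 → ℤ)
    (φ : R →+* S) (x : Fin N1 → R) (z : Fin N3 → R) (j : Fin N2) :
    φ (g2 T x z j) = g2 T (fun j => φ (x j)) (fun k => φ (z k)) j := by
  unfold g2
  simp

/-- Integer vectors in a ring. -/
def ci (R : Type*) [CommRing R] {n : ℕ} (v : Fin n → ℤ) : Fin n → R := fun i => (v i : R)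

theorem ci_map {R S : Type*} [CommRing R] [CommRing S] {n : ℕ} (φ : R →+* S) (v : Fin n → ℤ) :
    (fun i => φ (ci R v i)) = ci S v := by
  funext i
  unfold ci
  simp

theorem ci_int {n : ℕ} (v : Fin n → ℤ) : ci ℤ v = v := by
  funext i
  unfold ci
  simp

theorem ci_ne {n : ℕ} {v : Fin n → ℤ} (h : v ≠ 0) : ci ℂ v ≠ 0 := by
  intro h0
  apply h
  funext i
  have := congrFun h0 i
  unfold ci at this
  simpa using this

/-- The first point. -/
def X1 {R : Type*} [CommRing R] (T : Fin N1 → Fin N2 → Fin N3 → ℤ) (y : Fin N2 → ℤ)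
    (z : Fin N3 → ℤ) (s : Fin N1 × Fin N1 → R) : Fin N1 → R :=
  zp (g1 T (ci R y) (ci R z)) s

/-- The second point. -/
def Y1 {R : Type*} [CommRing R] (T : Fin N1 → Fin N2 → Fin N3 → ℤ) (y : Fin N2 → ℤ)
    (z : Fin N3 → ℤ) (s : Fin N1 × Fin N1 → R) (t : Fin N2 × Fin N2 → R) : Fin N2 → R :=
  zp (g2 T (X1 T y z s) (ci R z)) t

theorem X1_map {R S : Type*} [CommRing R] [CommRing S] (φ : R →+* S)
    (T : Fin N1 → Fin N2 → Fin N3 → ℤ) (y : Fin N2 → ℤ) (z : Fin N3 → ℤ) (s : Fin N1 × Fin N1 → R) :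
    (fun i => φ (X1 T y z s i)) = X1 T y z (fun p => φ (s p)) := by
  funext i
  unfold X1
  rw [zp_map]
  simp only [g1_map, ci_map]

theorem Y1_map {R S : Type*} [CommRing R] [CommRing S] (φ : R →+* S)
    (T : Fin N1 → Fin N2 → Fin N3 → ℤ) (y : Fin N2 → ℤ) (z : Fin N3 → ℤ) (s : Fin N1 × Fin N1 → R)
    (t : Fin N2 × Fin N2 → R) :
    (fun i => φ (Y1 T y z s t i)) = Y1 T y z (fun p => φ (s p)) (fun p => φ (t p)) := by
  funext i
  unfold Y1
  rw [zp_map]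
  simp only [g2_map, ci_map, X1_map]

/-- A minor at the second point. -/
def F1 {R : Type*} [CommRing R] (T : Fin N1 → Fin N2 → Fin N3 → ℤ) (y : Fin N2 → ℤ)
    (z : Fin N3 → ℤ) (g : Fin 4 → Fin N1) (c : Fin 4 → Fin N3) (s : Fin N1 × Fin N1 → R)
    (t : Fin N2 × Fin N2 → R) : R :=
  ((Tx (s12 T) (Y1 T y z s t)).submatrix g c).det

/-- A coordinate of the third gradient. -/
def F2 {R : Type*} [CommRing R] (T : Fin N1 → Fin N2 → Fin N3 → ℤ) (y : Fin N2 → ℤ)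
    (z : Fin N3 → ℤ) (k : Fin N3) (s : Fin N1 × Fin N1 → R) (t : Fin N2 × Fin N2 → R) : R :=
  g3 T (X1 T y z s) (Y1 T y z s t) k

theorem F1_map {R S : Type*} [CommRing R] [CommRing S] (φ : R →+* S)
    (T : Fin N1 → Fin N2 → Fin N3 → ℤ) (y : Fin N2 → ℤ) (z : Fin N3 → ℤ) (g : Fin 4 → Fin N1)
    (c : Fin 4 → Fin N3) (s : Fin N1 × Fin N1 → R) (t : Fin N2 × Fin N2 → R) :
    φ (F1 T y z g c s t) = F1 T y z g c (fun p => φ (s p)) (fun p => φ (t p)) := by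
  unfold F1
  rw [RingHom.map_det, RingHom.mapMatrix_apply, ← submatrix_map, Tx_map, Y1_map]

theorem F2_map {R S : Type*} [CommRing R] [CommRing S] (φ : R →+* S)
    (T : Fin N1 → Fin N2 → Fin N3 → ℤ) (y : Fin N2 → ℤ) (z : Fin N3 → ℤ) (k : Fin N3)
    (s : Fin N1 × Fin N1 → R) (t : Fin N2 × Fin N2 → R) :
    φ (F2 T y z k s t) = F2 T y z k (fun p => φ (s p)) (fun p => φ (t p)) := by
  unfold F2
  rw [g3_map, X1_map, Y1_map]

/-- Two polynomials, each not zero at some complex point, are not zero at an integer point. -/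
theorem common {σ : Type} (p q : MvPolynomial σ ℤ) (hp : ∃ v : σ → ℂ, evz p v ≠ 0)
    (hq : ∃ v : σ → ℂ, evz q v ≠ 0) : ∃ v : σ → ℤ, evz p v ≠ 0 ∧ evz q v ≠ 0 := by
  have hp0 : p ≠ 0 := by
    rintro rfl
    obtain ⟨v, hv⟩ := hp
    apply hv
    unfold Pool.Agent.H548.TL.evz
    simp
  have hq0 : q ≠ 0 := by
    rintro rfl
    obtain ⟨v, hv⟩ := hq
    apply hv
    unfold Pool.Agent.H548.TL.evz
    simp
  by_contra hcon
  push Not at hcon
  apply mul_ne_zero hp0 hq0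
  apply MvPolynomial.funext
  intro v
  rw [map_mul, map_zero, ← evz_int, ← evz_int]
  by_cases h : evz p v = 0
  · rw [h, zero_mul]
  · rw [hcon v h, mul_zero]

/-- The complex parameters for the first polynomial. -/
theorem param1 (h1 : 4 ≤ N1) (h2 : 4 ≤ N2) (h3 : 4 ≤ N3) {T : Fin N1 → Fin N2 → Fin N3 → ℤ}
    (hs : Sm ℂ T) {y : Fin N2 → ℤ} {z : Fin N3 → ℤ} (hg : g1 T y z ≠ 0)
    (hz : 3 ≤ (cx (s12 (s23 T)) z).rank) :
    ∃ (g : Fin 4 → Fin N1) (c : Fin 4 → Fin N3) (s : Fin N1 × Fin N1 → ℂ)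
      (t : Fin N2 × Fin N2 → ℂ), F1 T y z g c s t ≠ 0 := by
  obtain ⟨y0, -, hy0⟩ := exists_rank' (r := 4) (by omega) h1 h3 hs.s12
  obtain ⟨g, c, hgc⟩ := exists_minor _ hy0
  have hD : 2 < ((cx (s12 (s23 T)) z)ᵀ).rank := by
    rw [rank_transpose]
    omega
  obtain ⟨x1, hx1, hx1'⟩ := sep _ (Matrix.of ![g1 T (ci ℂ y) (ci ℂ z), g1 T y0 (ci ℂ z)]) hD
  have e1 : g1 T (ci ℂ y) (ci ℂ z) ⬝ᵥ x1 = 0 := congrFun hx1 0
  have e2 : g1 T y0 (ci ℂ z) ⬝ᵥ x1 = 0 := congrFun hx1 1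
  have e3 : (cx (s12 (s23 T)) z)ᵀ *ᵥ x1 = g2 T x1 (ci ℂ z) := by
    rw [mulVec_transpose]
    show x1 ᵥ* Tx (s12 (s23 T)) (ci ℂ z) = _
    rw [vecMul_Tx, g3_s12, g3_s23]
  rw [e3] at hx1'
  have hg' : g1 T (ci ℂ y) (ci ℂ z) ≠ 0 := by
    have h5 := ci_ne hg
    have h6 : ci ℂ (g1 T y z) = g1 T (ci ℂ y) (ci ℂ z) := by
      funext i
      have := g1_map T (Int.castRingHom ℂ) y z i
      exact this
    rwa [h6] at h5
  obtain ⟨s, hs1⟩ := exists_zp hg' e1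
  have e4 : g2 T x1 (ci ℂ z) ⬝ᵥ y0 = 0 := by
    rw [dotProduct_comm, ← tf_g2, tf_g1, dotProduct_comm]
    exact e2
  obtain ⟨t, ht1⟩ := exists_zp hx1' e4
  refine ⟨g, c, s, t, ?_⟩
  have e5 : X1 T y z s = x1 := hs1
  have e6 : Y1 T y z s t = y0 := by
    unfold Y1
    rw [e5]
    exact ht1
  unfold F1
  rw [e6]
  exact hgc

/-- The complex parameters for the second polynomial. -/
theorem param2 {T : Fin N1 → Fin N2 → Fin N3 → ℤ} {x : Fin N1 → ℤ} {y : Fin N2 → ℤ}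
    {z : Fin N3 → ℤ} (h : InU T x y z) :
    ∃ (k : Fin N3) (s : Fin N1 × Fin N1 → ℂ) (t : Fin N2 × Fin N2 → ℂ), F2 T y z k s t ≠ 0 := by
  obtain ⟨h0, h1, h2, h3⟩ := h
  obtain ⟨k, hk⟩ : ∃ k, g3 T x y k ≠ 0 := by
    by_contra hcon
    push Not at hcon
    exact h3 (funext hcon)
  have c1 : ci ℂ (g1 T y z) = g1 T (ci ℂ y) (ci ℂ z) := by
    funext i
    exact g1_map T (Int.castRingHom ℂ) y z i
  have c2 : ci ℂ (g2 T x z) = g2 T (ci ℂ x) (ci ℂ z) := by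
    funext i
    exact g2_map T (Int.castRingHom ℂ) x z i
  have c0 : tf T (ci ℂ x) (ci ℂ y) (ci ℂ z) = 0 := by
    have h5 : ((tf T x y z : ℤ) : ℂ) = tf T (ci ℂ x) (ci ℂ y) (ci ℂ z) := by
      unfold tf ci
      simp
    rw [← h5, h0, Int.cast_zero]
  have n1 := ci_ne h1
  have n2 := ci_ne h2
  rw [c1] at n1
  rw [c2] at n2
  obtain ⟨s, hs⟩ := exists_zp (z := ci ℂ x) n1 (by rw [dotProduct_comm, ← tf_g1]; exact c0)
  obtain ⟨t, ht⟩ := exists_zp (z := ci ℂ y) n2 (by rw [dotProduct_comm, ← tf_g2]; exact c0)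
  refine ⟨k, s, t, ?_⟩
  have e5 : X1 T y z s = ci ℂ x := hs
  have e6 : Y1 T y z s t = ci ℂ y := by
    unfold Y1
    rw [e5]
    exact ht
  unfold F2
  rw [e5, e6]
  have h7 : ((g3 T x y k : ℤ) : ℂ) = g3 T (ci ℂ x) (ci ℂ y) k :=
    g3_map T (Int.castRingHom ℂ) x y k
  rw [← h7]
  exact_mod_cast hk

/-- The integer parameters. -/
theorem param (h1 : 4 ≤ N1) (h2 : 4 ≤ N2) (h3 : 4 ≤ N3) {T : Fin N1 → Fin N2 → Fin N3 → ℤ}
    (hs : Sm ℂ T) {x : Fin N1 → ℤ} {y : Fin N2 → ℤ} {z : Fin N3 → ℤ} (h : InU T x y z)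
    (hz : 3 ≤ (cx (s12 (s23 T)) z).rank) :
    ∃ (x1 : Fin N1 → ℤ) (y1 : Fin N2 → ℤ), tf T x1 y z = 0 ∧ g2 T x1 z ≠ 0 ∧ tf T x1 y1 z = 0 ∧
      g3 T x1 y1 ≠ 0 ∧ 4 ≤ (Tx (s12 T) y1).rank := by
  obtain ⟨g, c, s1, t1, hF1⟩ := param1 h1 h2 h3 hs h.2.1 hz
  obtain ⟨k, s2, t2, hF2⟩ := param2 h
  set xs : Fin N1 × Fin N1 → MvPolynomial ((Fin N1 × Fin N1) ⊕ (Fin N2 × Fin N2)) ℤ :=
    fun p => MvPolynomial.X (Sum.inl p) with hxs
  set xt : Fin N2 × Fin N2 → MvPolynomial ((Fin N1 × Fin N1) ⊕ (Fin N2 × Fin N2)) ℤ :=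
    fun p => MvPolynomial.X (Sum.inr p) with hxt
  have key1 : ∀ (R : Type) [CommRing R] (v : (Fin N1 × Fin N1) ⊕ (Fin N2 × Fin N2) → R),
      evz (F1 T y z g c xs xt) v = F1 T y z g c (fun p => v (Sum.inl p)) (fun p => v (Sum.inr p)) := by
    intro R _ v
    have h5 := F1_map (MvPolynomial.eval₂Hom (Int.castRingHom R) v) T y z g c xs xt
    simp only [hxs, hxt, MvPolynomial.eval₂Hom_X'] at h5
    exact h5
  have key2 : ∀ (R : Type) [CommRing R] (v : (Fin N1 × Fin N1) ⊕ (Fin N2 × Fin N2) → R),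
      evz (F2 T y z k xs xt) v = F2 T y z k (fun p => v (Sum.inl p)) (fun p => v (Sum.inr p)) := by
    intro R _ v
    have h5 := F2_map (MvPolynomial.eval₂Hom (Int.castRingHom R) v) T y z k xs xt
    simp only [hxs, hxt, MvPolynomial.eval₂Hom_X'] at h5
    exact h5
  obtain ⟨v, hv1, hv2⟩ := common _ _
    ⟨Sum.elim s1 t1, by rw [key1]; exact hF1⟩ ⟨Sum.elim s2 t2, by rw [key2]; exact hF2⟩
  rw [key1] at hv1
  rw [key2] at hv2
  set s : Fin N1 × Fin N1 → ℤ := fun p => v (Sum.inl p) with hsd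
  set t : Fin N2 × Fin N2 → ℤ := fun p => v (Sum.inr p) with htd
  have e1 : X1 T y z s = zp (g1 T y z) s := by
    unfold X1
    rw [ci_int, ci_int]
  have e2 : Y1 T y z s t = zp (g2 T (X1 T y z s) z) t := by
    unfold Y1
    rw [ci_int]
  have hg3 : g3 T (X1 T y z s) (Y1 T y z s t) ≠ 0 := by
    intro h0
    exact hv2 (congrFun h0 k)
  refine ⟨X1 T y z s, Y1 T y z s t, ?_, ?_, ?_, hg3, rank_of_minor _ hv1⟩
  · rw [tf_g1, dotProduct_comm, e1]
    exact dot_zp _ _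
  · intro h0
    apply hg3
    rw [e2, h0]
    have h6 : zp (0 : Fin N2 → ℤ) t = 0 := by
      funext i
      unfold zp
      simp
    rw [h6, ← vecMul_Tx, zero_vecMul]
  · rw [tf_g2, dotProduct_comm]
    conv_lhs => rw [e2]
    exact dot_zp _ _

end CH3

open CH3 in
open Pool.Agent.H548.TL (g3_map Tx_map Tx_mulVec vecMul_Tx tf_g1 tf_g2 tf_g3 g2_s12 g2_add
  g1_add) in
theorem cH3 : StmtCH3 := by
  intro N1 N2 N3 T h1 h2 h3 hs x y z h _ hz x' y' hx'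
  obtain ⟨x1, y1, a1, a2, a3, a4, a5⟩ := param h1 h2 h3 hs h hz
  -- the rank of the matrix at x'
  have hr : 4 ≤ (Tx T x').rank := by
    obtain ⟨g, c, hgc⟩ := exists_minor _ hx'
    apply rank_of_minor (g := g) (c := c)
    intro h0
    apply hgc
    have h5 : cx T x' = (Tx T x').map (Int.castRingHom ℂ) := by
      rw [Tx_map]
      rfl
    rw [h5, submatrix_map, ← RingHom.mapMatrix_apply, ← RingHom.map_det, h0, map_zero]
  obtain ⟨u, hu1, hu2⟩ := sep (Tx (s12 T) y1) (Matrix.of ![g3 T x1 y1, g3 T x' y1, g3 T x' y'])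
    (by omega)
  obtain ⟨w, hw1, hw2⟩ := sep (Tx T x') (Matrix.of ![g3 T x1 y1, g3 T x' y1, g3 T x' y'])
    (by omega)
  rw [Tx_mulVec, g2_s12] at hu2
  rw [Tx_mulVec] at hw2
  obtain ⟨z1, hz1, hz2, hz3⟩ : ∃ z1 : Fin N3 → ℤ,
      Matrix.of ![g3 T x1 y1, g3 T x' y1, g3 T x' y'] *ᵥ z1 = 0 ∧ g1 T y1 z1 ≠ 0 ∧
        g2 T x' z1 ≠ 0 := by
    have ga : ∀ a b : Fin N3 → ℤ, g1 T y1 (a + b) = g1 T y1 a + g1 T y1 b := by
      intro a b
      have := g2_add (s12 T) y1 a b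
      exact this
    by_cases hA : g2 T x' u = 0
    · by_cases hB : g1 T y1 w = 0
      · refine ⟨u + w, ?_, ?_, ?_⟩
        · rw [mulVec_add, hu1, hw1, add_zero]
        · rw [ga, hB, add_zero]
          exact hu2
        · rw [g2_add, hA, zero_add]
          exact hw2
      · exact ⟨w, hw1, hB, hw2⟩
    · exact ⟨u, hu1, hu2, hA⟩
  refine ⟨x1, y1, z1, a1, a2, a3, a4, ?_, hz2, ?_, hz3, ?_⟩
  · rw [tf_g3, dotProduct_comm]
    exact congrFun hz1 0
  · rw [tf_g3, dotProduct_comm]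
    exact congrFun hz1 1
  · rw [tf_g3, dotProduct_comm]
    exact congrFun hz1 2

end Pool.Agent.T6.H81.BH
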