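import Mathlib
import Pool.Agent.T6.H81.BH.Defs

/-!
The number of the bad points for smooth divisors of type `(1, 1, 1)`.
-/

set_option autoImplicit false

namespace Pool.Agent.T6.H81.BH

open Finset Module Matrix
open Pool.Agent.H548.WM (ht bx mem_bx Rep card_bx_le)
open Pool.Agent.H548.BL (lat)
open Pool.Agent.H548.TL (evz tf g1 g2 g3 s12 s23 Tx Sm InU InV tri tf_g1 tf_g2 tf_g3 g1_s12 g2_s12
  g3_s12 tf_s12 g1_s23 g2_s23 g3_s23 tf_s23 Tx_mulVec vecMul_Tx)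

namespace BD

/-- Extension of the field. -/
theorem rank_le_cast {a b : ℕ} (M : Matrix (Fin a) (Fin b) ℤ) :
    (M.map (Int.cast : ℤ → ℚ)).rank ≤ (M.map (Int.cast : ℤ → ℂ)).rank := by
  classical
  obtain ⟨s, hs1, hs2, hs3⟩ := exists_linearIndependent ℚ
    (Set.range (M.map (Int.cast : ℤ → ℚ)).row)
  have hfin : s.Finite := (Set.finite_range _).subset hs1
  have : Fintype s := hfin.fintype
  have h1 : (M.map (Int.cast : ℤ → ℚ)).rank = Fintype.card s := by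
    rw [Matrix.rank_eq_finrank_span_row, ← hs2]
    have := finrank_span_eq_card hs3
    rw [Subtype.range_coe] at this
    exact this
  rw [h1]
  have h2 : LinearIndependent ℂ (fun v : s => (algebraMap ℚ ℂ) ∘ (v : Fin b → ℚ)) :=
    (linearIndependent_algebraMap_comp_iff (R := ℚ) (S := ℂ)
      (v := fun v : s => (v : Fin b → ℚ))).2 hs3
  have h3 := finrank_span_eq_card h2
  rw [← h3, Matrix.rank_eq_finrank_span_row]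
  apply Submodule.finrank_mono
  rw [Submodule.span_le]
  rintro _ ⟨v, rfl⟩
  obtain ⟨i, hi⟩ := hs1 v.2
  apply Submodule.subset_span
  refine ⟨i, ?_⟩
  funext j
  have h4 := congrFun hi j
  show ((M i j : ℤ) : ℂ) = algebraMap ℚ ℂ ((v : Fin b → ℚ) j)
  rw [← h4]
  show ((M i j : ℤ) : ℂ) = algebraMap ℚ ℂ ((M i j : ℤ) : ℚ)
  simp

variable {N1 N2 N3 : ℕ}

theorem cx_map (T : Fin N1 → Fin N2 → Fin N3 → ℤ) (x : Fin N1 → ℤ) :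
    cx T x = (Tx T x).map (Int.cast : ℤ → ℂ) := by
  ext j k
  unfold cx Tx
  simp only [Matrix.of_apply, Matrix.map_apply]
  push_cast
  rfl

/-- A minor which is not zero. -/
theorem rank_minor {K : Type} [Field K] {a b : ℕ} (M : Matrix (Fin a) (Fin b) K)
    (f : Fin 3 → Fin a) (h : Fin 3 → Fin b) (hd : (M.submatrix f h).det ≠ 0) : 3 ≤ M.rank := by
  have h1 : (M.submatrix f h).rank = 3 := by
    rw [Matrix.rank_of_det_ne_zero hd, Fintype.card_fin]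
  have h2 := Matrix.rank_submatrix_le M f h
  omega

/-- The value of a minor. -/
theorem minor_eval (T : Fin N1 → Fin N2 → Fin N3 → ℤ) (f : Fin 3 → Fin N2) (h : Fin 3 → Fin N3)
    (x : Fin N1 → ℤ) :
    MvPolynomial.eval (fun i => (x i : ℚ))
      ((Tx T (fun i => (MvPolynomial.X i : MvPolynomial (Fin N1) ℚ))).submatrix f h).det =
      (((Tx T x).map (Int.cast : ℤ → ℚ)).submatrix f h).det := by
  rw [RingHom.map_det]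
  congr 1
  ext i j
  show MvPolynomial.eval (fun i => (x i : ℚ)) (Tx T _ (f i) (h j)) = ((Tx T x (f i) (h j) : ℤ) : ℚ)
  unfold Tx
  simp

open Classical in
/-- Few vectors with a matrix of small rank. -/
theorem few (hCnt : StmtCnt) (hCD : StmtCD) (T : Fin N1 → Fin N2 → Fin N3 → ℤ) (h1 : 2 ≤ N1)
    (h2 : 4 ≤ N2) (h3 : 4 ≤ N3) (hs : Sm ℂ T) : ∃ C : ℝ, 0 ≤ C ∧ ∀ ρ : ℕ, 1 ≤ ρ →
    ((((bx N1 ρ).filter fun x => ¬ 3 ≤ (cx T x).rank).card : ℕ) : ℝ) ≤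
      C * (ρ : ℝ) ^ (N1 - 2) := by
  -- a nonzero minor
  have hX : Irreducible (MvPolynomial.X (⟨0, by omega⟩ : Fin N1) : MvPolynomial (Fin N1) ℚ) :=
    MvPolynomial.X_prime.irreducible
  obtain ⟨f0, g0, hf0⟩ := hCD N1 N2 N3 T h1 h2 h3 hs _ hX
  set F := ((Tx T (fun i => (MvPolynomial.X i : MvPolynomial (Fin N1) ℚ))).submatrix f0 g0).det
    with hF
  have hF0 : F ≠ 0 := by
    intro h
    rw [h] at hf0
    exact hf0 (dvd_zero _)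
  have hmin : ∀ x : Fin N1 → ℤ, ¬ 3 ≤ (cx T x).rank → ∀ (f : Fin 3 → Fin N2)
      (g : Fin 3 → Fin N3), MvPolynomial.eval (fun i => (x i : ℚ))
      ((Tx T (fun i => (MvPolynomial.X i : MvPolynomial (Fin N1) ℚ))).submatrix f g).det = 0 := by
    intro x hx f g
    rw [minor_eval]
    by_contra hne
    apply hx
    have h5 := rank_minor _ f g hne
    have h6 := rank_le_cast (Tx T x)
    rw [← cx_map] at h6
    omega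
  -- the points where a product vanishes
  have key : ∀ G : MvPolynomial (Fin N1) ℚ, G ≠ 0 → ∃ C : ℝ, 0 ≤ C ∧ ∀ ρ : ℕ, 1 ≤ ρ →
      ((((bx N1 ρ).filter fun x => ¬ 3 ≤ (cx T x).rank ∧
        MvPolynomial.eval (fun i => (x i : ℚ)) G = 0).card : ℕ) : ℝ) ≤
      C * (ρ : ℝ) ^ (N1 - 2) := by
    intro G
    induction G using WfDvdMonoid.induction_on_irreducible with
    | zero => intro h; exact absurd rfl h
    | unit u hu =>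
      intro _
      refine ⟨0, le_rfl, fun ρ _ => ?_⟩
      have : ((bx N1 ρ).filter fun x => ¬ 3 ≤ (cx T x).rank ∧
          MvPolynomial.eval (fun i => (x i : ℚ)) u = 0) = ∅ := by
        rw [Finset.filter_eq_empty_iff]
        rintro x - ⟨-, hx⟩
        have := hu.map (MvPolynomial.eval (fun i => (x i : ℚ)))
        rw [hx] at this
        exact not_isUnit_zero this
      rw [this]
      simp
    | mul a i ha hi ih =>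
      intro _
      obtain ⟨C1, hC1, h1'⟩ := ih ha
      obtain ⟨f, g, hfg⟩ := hCD N1 N2 N3 T h1 h2 h3 hs i hi
      obtain ⟨C2, hC2, h2'⟩ := hCnt N1 i _ h1 hi hfg
      refine ⟨C1 + C2, by positivity, fun ρ hρ => ?_⟩
      have hsub : ((bx N1 ρ).filter fun x => ¬ 3 ≤ (cx T x).rank ∧
          MvPolynomial.eval (fun i => (x i : ℚ)) (i * a) = 0) ⊆
          ((bx N1 ρ).filter fun x => ¬ 3 ≤ (cx T x).rank ∧
          MvPolynomial.eval (fun i => (x i : ℚ)) a = 0) ∪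
          ((bx N1 ρ).filter fun x => MvPolynomial.eval (fun i => (x i : ℚ)) i = 0 ∧
          MvPolynomial.eval (fun i => (x i : ℚ)) ((Tx T (fun i => (MvPolynomial.X i :
            MvPolynomial (Fin N1) ℚ))).submatrix f g).det = 0) := by
        intro x hx
        rw [mem_filter] at hx
        obtain ⟨k1, k2, k3⟩ := hx
        rw [map_mul, mul_eq_zero] at k3
        rw [mem_union, mem_filter, mem_filter]
        rcases k3 with k3 | k3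
        · exact Or.inr ⟨k1, k3, hmin x k2 f g⟩
        · exact Or.inl ⟨k1, k2, k3⟩
      have h4 := (card_le_card hsub).trans (card_union_le _ _)
      have h5 := h1' ρ hρ
      have h6 := h2' ρ hρ
      have h7 : ((((bx N1 ρ).filter fun x => ¬ 3 ≤ (cx T x).rank ∧
          MvPolynomial.eval (fun i => (x i : ℚ)) (i * a) = 0).card : ℕ) : ℝ) ≤
          ((((bx N1 ρ).filter fun x => ¬ 3 ≤ (cx T x).rank ∧
          MvPolynomial.eval (fun i => (x i : ℚ)) a = 0).card : ℕ) : ℝ) +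
          ((((bx N1 ρ).filter fun x => MvPolynomial.eval (fun i => (x i : ℚ)) i = 0 ∧
          MvPolynomial.eval (fun i => (x i : ℚ)) ((Tx T (fun i => (MvPolynomial.X i :
            MvPolynomial (Fin N1) ℚ))).submatrix f g).det = 0).card : ℕ) : ℝ) := by
        exact_mod_cast h4
      rw [add_mul]
      linarith
  obtain ⟨C, hC, h⟩ := key F hF0
  refine ⟨C, hC, fun ρ hρ => ?_⟩
  refine le_trans ?_ (h ρ hρ)
  have : ((bx N1 ρ).filter fun x => ¬ 3 ≤ (cx T x).rank) ⊆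
      ((bx N1 ρ).filter fun x => ¬ 3 ≤ (cx T x).rank ∧
        MvPolynomial.eval (fun i => (x i : ℚ)) F = 0) := by
    intro x hx
    rw [mem_filter] at hx ⊢
    exact ⟨hx.1, hx.2, hmin x hx.2 _ _⟩
  exact_mod_cast card_le_card this

theorem card_le1 {α β γ : Type} (SA : Finset α) (SB : Finset β) (SC : Finset γ)
    (p : α × β × γ → Prop) (r : α → Prop) (q : α → γ → Prop) [DecidablePred p] [DecidablePred r]
    [∀ x, DecidablePred (q x)]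
    (h : ∀ t, p t → r t.1 ∧ q t.1 t.2.2) :
    ((SA ×ˢ SB ×ˢ SC).filter p).card ≤ ∑ x ∈ SA.filter r, SB.card * (SC.filter (q x)).card := by
  classical
  have h1 : (SA ×ˢ SB ×ˢ SC).filter p ⊆
      (SA.filter r).biUnion fun x => ({x} : Finset α) ×ˢ SB ×ˢ SC.filter (q x) := by
    rintro ⟨x, y, z⟩ ht
    rw [mem_filter, mem_product, mem_product] at ht
    obtain ⟨⟨a1, a2, a3⟩, a4⟩ := ht
    obtain ⟨b1, b2⟩ := h _ a4
    rw [mem_biUnion]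
    refine ⟨x, mem_filter.2 ⟨a1, b1⟩, ?_⟩
    rw [mem_product, mem_product, mem_singleton, mem_filter]
    exact ⟨rfl, a2, a3, b2⟩
  refine (card_le_card h1).trans (card_biUnion_le.trans (Finset.sum_le_sum fun x _ => ?_))
  rw [card_product, card_product, card_singleton, one_mul]

theorem card_le2 {α β γ : Type} (SA : Finset α) (SB : Finset β) (SC : Finset γ)
    (p : α × β × γ → Prop) (r : β → Prop) (q : β → γ → Prop) [DecidablePred p] [DecidablePred r]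
    [∀ x, DecidablePred (q x)]
    (h : ∀ t, p t → r t.2.1 ∧ q t.2.1 t.2.2) :
    ((SA ×ˢ SB ×ˢ SC).filter p).card ≤ ∑ y ∈ SB.filter r, SA.card * (SC.filter (q y)).card := by
  classical
  have h1 : (SA ×ˢ SB ×ˢ SC).filter p ⊆
      (SB.filter r).biUnion fun y => SA ×ˢ ({y} : Finset β) ×ˢ SC.filter (q y) := by
    rintro ⟨x, y, z⟩ ht
    rw [mem_filter, mem_product, mem_product] at ht
    obtain ⟨⟨a1, a2, a3⟩, a4⟩ := ht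
    obtain ⟨b1, b2⟩ := h _ a4
    rw [mem_biUnion]
    refine ⟨y, mem_filter.2 ⟨a2, b1⟩, ?_⟩
    rw [mem_product, mem_product, mem_singleton, mem_filter]
    exact ⟨a1, rfl, a3, b2⟩
  refine (card_le_card h1).trans (card_biUnion_le.trans (Finset.sum_le_sum fun x _ => ?_))
  rw [card_product, card_product, card_singleton, one_mul]

theorem card_le3 {α β γ : Type} (SA : Finset α) (SB : Finset β) (SC : Finset γ)
    (p : α × β × γ → Prop) (r : γ → Prop) (q : γ → α × β → Prop) [DecidablePred p]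
    [DecidablePred r] [∀ x, DecidablePred (q x)]
    (h : ∀ t, p t → r t.2.2 ∧ q t.2.2 (t.1, t.2.1)) :
    ((SA ×ˢ SB ×ˢ SC).filter p).card ≤ ∑ z ∈ SC.filter r, ((SA ×ˢ SB).filter (q z)).card := by
  classical
  have h1 : (SA ×ˢ SB ×ˢ SC).filter p ⊆
      (SC.filter r).biUnion fun z => ((SA ×ˢ SB).filter (q z)).image fun t => (t.1, t.2, z) := by
    rintro ⟨x, y, z⟩ ht
    rw [mem_filter, mem_product, mem_product] at ht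
    obtain ⟨⟨a1, a2, a3⟩, a4⟩ := ht
    obtain ⟨b1, b2⟩ := h _ a4
    rw [mem_biUnion]
    refine ⟨z, mem_filter.2 ⟨a3, b1⟩, ?_⟩
    rw [mem_image]
    refine ⟨(x, y), ?_, rfl⟩
    rw [mem_filter, mem_product]
    exact ⟨⟨a1, a2⟩, b2⟩
  refine (card_le_card h1).trans (card_biUnion_le.trans (Finset.sum_le_sum fun x _ => ?_))
  exact card_image_le

theorem real1 (a b c : ℕ) (hc : 4 ≤ c) {A B ρ Z : ℝ} (hA : 1 ≤ A) (hB : 1 ≤ B) (hρ : 1 ≤ ρ)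
    (h1 : A ≤ 2 * Z) (h2 : B ≤ 2 * Z) (h3 : ρ ≤ Z) :
    (3 * B) ^ (b + 1) * (A ^ a * ρ ^ (c - 3) + A ^ (a + 1) * ρ ^ (c - 4)) ≤
      3 ^ (b + 1) * 6 * (A ^ a * B ^ b * Z ^ (c - 2)) := by
  obtain ⟨e, rfl⟩ : ∃ e, c = e + 4 := ⟨c - 4, by omega⟩
  have e1 : e + 4 - 3 = e + 1 := by omega
  have e2 : e + 4 - 4 = e := by omega
  have e3 : e + 4 - 2 = e + 2 := by omega
  rw [e1, e2, e3]
  have hZ : 1 ≤ Z := hρ.trans h3
  have k1 : B * ρ ^ (e + 1) ≤ 2 * Z ^ (e + 2) := by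
    calc B * ρ ^ (e + 1) ≤ (2 * Z) * Z ^ (e + 1) := by gcongr
      _ = _ := by ring
  have k2 : A * B * ρ ^ e ≤ 4 * Z ^ (e + 2) := by
    calc A * B * ρ ^ e ≤ (2 * Z) * (2 * Z) * Z ^ e := by gcongr
      _ = _ := by ring
  calc (3 * B) ^ (b + 1) * (A ^ a * ρ ^ (e + 1) + A ^ (a + 1) * ρ ^ e) =
      3 ^ (b + 1) * (A ^ a * B ^ b) * (B * ρ ^ (e + 1) + A * B * ρ ^ e) := by
        rw [mul_pow]; ring
    _ ≤ 3 ^ (b + 1) * (A ^ a * B ^ b) * (2 * Z ^ (e + 2) + 4 * Z ^ (e + 2)) := by gcongr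
    _ = _ := by ring

open Classical in
/-- The points in the kernels. -/
theorem part1 (hB1 : StmtB1)
    (T : Fin N1 → Fin N2 → Fin N3 → ℤ) (h1 : 4 ≤ N1) (h2 : 4 ≤ N2) (h3 : 4 ≤ N3)
    (hs : Sm ℂ T) : ∃ C : ℝ, 0 ≤ C ∧ ∀ (A B ρ Z : ℕ)
    (p : (Fin N1 → ℤ) × (Fin N2 → ℤ) × (Fin N3 → ℤ) → Prop),
    (∀ t, p t → 3 ≤ (cx T t.1).rank ∧ g2 T t.1 t.2.2 = 0) → 1 ≤ A → 1 ≤ B →
    1 ≤ ρ → A ≤ 2 * Z → B ≤ 2 * Z → ρ ≤ Z →
    ((((bx N1 A ×ˢ bx N2 B ×ˢ bx N3 ρ).filter p).card : ℕ) : ℝ) ≤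
      C * ((A : ℝ) ^ (N1 - 1) * (B : ℝ) ^ (N2 - 1) * (Z : ℝ) ^ (N3 - 2)) := by
  obtain ⟨C1, hC1, k1⟩ := hB1 N1 N2 N3 T (by omega) h2 h3 hs
  refine ⟨C1 * (3 ^ N2 * 6), by positivity, ?_⟩
  intro A B ρ Z p hp hA hB hρ hAZ hBZ hρZ
  have hA' : (1 : ℝ) ≤ A := by exact_mod_cast hA
  have hB' : (1 : ℝ) ≤ B := by exact_mod_cast hB
  have hρ' : (1 : ℝ) ≤ ρ := by exact_mod_cast hρ
  have hAZ' : (A : ℝ) ≤ 2 * Z := by exact_mod_cast hAZ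
  have hBZ' : (B : ℝ) ≤ 2 * Z := by exact_mod_cast hBZ
  have hρZ' : (ρ : ℝ) ≤ Z := by exact_mod_cast hρZ
  have e1 := card_le1 (bx N1 A) (bx N2 B) (bx N3 ρ) p (fun x => 3 ≤ (cx T x).rank)
    (fun x z => g2 T x z = 0) hp
  have e2 := k1 A ρ hA hρ
  have e3 := card_bx_le N2 hB
  have e4 := real1 (N1 - 1) (N2 - 1) N3 h3 hA' hB' hρ' hAZ' hBZ' hρZ'
  have n1 : N1 - 1 + 1 = N1 := by omega
  have n2 : N2 - 1 + 1 = N2 := by omega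
  rw [n1, n2] at e4
  have e5 : ((((bx N1 A ×ˢ bx N2 B ×ˢ bx N3 ρ).filter p).card : ℕ) : ℝ) ≤
      ((bx N2 B).card : ℝ) * ∑ x ∈ (bx N1 A).filter (fun x => 3 ≤ (cx T x).rank),
          ((((bx N3 ρ).filter fun z => g2 T x z = 0).card : ℕ) : ℝ) := by
    rw [Finset.mul_sum]
    exact_mod_cast e1
  refine e5.trans ?_
  calc ((bx N2 B).card : ℝ) * ∑ x ∈ (bx N1 A).filter (fun x => 3 ≤ (cx T x).rank),
          ((((bx N3 ρ).filter fun z => g2 T x z = 0).card : ℕ) : ℝ)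
      ≤ (3 * (B : ℝ)) ^ N2 * (C1 * ((A : ℝ) ^ (N1 - 1) * (ρ : ℝ) ^ (N3 - 3) +
          (A : ℝ) ^ N1 * (ρ : ℝ) ^ (N3 - 4))) := by gcongr
      _ = C1 * ((3 * (B : ℝ)) ^ N2 * ((A : ℝ) ^ (N1 - 1) * (ρ : ℝ) ^ (N3 - 3) +
          (A : ℝ) ^ N1 * (ρ : ℝ) ^ (N3 - 4))) := by ring
      _ ≤ C1 * (3 ^ N2 * 6 * ((A : ℝ) ^ (N1 - 1) * (B : ℝ) ^ (N2 - 1) * (Z : ℝ) ^ (N3 - 2))) := by
          gcongr
      _ = _ := by ring

open Classical in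
/-- The points in the kernels. -/
theorem part2 (hB1 : StmtB1)
    (T : Fin N1 → Fin N2 → Fin N3 → ℤ) (h1 : 4 ≤ N1) (h2 : 4 ≤ N2) (h3 : 4 ≤ N3)
    (hs : Sm ℂ T) : ∃ C : ℝ, 0 ≤ C ∧ ∀ (A B ρ Z : ℕ)
    (p : (Fin N1 → ℤ) × (Fin N2 → ℤ) × (Fin N3 → ℤ) → Prop),
    (∀ t, p t → 3 ≤ (cx (s12 T) t.2.1).rank ∧ g1 T t.2.1 t.2.2 = 0) → 1 ≤ A → 1 ≤ B →
    1 ≤ ρ → A ≤ 2 * Z → B ≤ 2 * Z → ρ ≤ Z →
    ((((bx N1 A ×ˢ bx N2 B ×ˢ bx N3 ρ).filter p).card : ℕ) : ℝ) ≤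
      C * ((A : ℝ) ^ (N1 - 1) * (B : ℝ) ^ (N2 - 1) * (Z : ℝ) ^ (N3 - 2)) := by
  obtain ⟨C1, hC1, k1⟩ := hB1 N2 N1 N3 (s12 T) (by omega) h1 h3 hs.s12
  refine ⟨C1 * (3 ^ N1 * 6), by positivity, ?_⟩
  intro A B ρ Z p hp hA hB hρ hAZ hBZ hρZ
  have hA' : (1 : ℝ) ≤ A := by exact_mod_cast hA
  have hB' : (1 : ℝ) ≤ B := by exact_mod_cast hB
  have hρ' : (1 : ℝ) ≤ ρ := by exact_mod_cast hρ
  have hAZ' : (A : ℝ) ≤ 2 * Z := by exact_mod_cast hAZ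
  have hBZ' : (B : ℝ) ≤ 2 * Z := by exact_mod_cast hBZ
  have hρZ' : (ρ : ℝ) ≤ Z := by exact_mod_cast hρZ
  have e1 := card_le2 (bx N1 A) (bx N2 B) (bx N3 ρ) p (fun y => 3 ≤ (cx (s12 T) y).rank)
    (fun y z => g2 (s12 T) y z = 0) hp
  have e2 := k1 B ρ hB hρ
  have e3 := card_bx_le N1 hA
  have e4 := real1 (N2 - 1) (N1 - 1) N3 h3 hB' hA' hρ' hBZ' hAZ' hρZ'
  have n1 : N1 - 1 + 1 = N1 := by omega
  have n2 : N2 - 1 + 1 = N2 := by omega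
  rw [n1, n2] at e4
  have e5 : ((((bx N1 A ×ˢ bx N2 B ×ˢ bx N3 ρ).filter p).card : ℕ) : ℝ) ≤
      ((bx N1 A).card : ℝ) * ∑ y ∈ (bx N2 B).filter (fun y => 3 ≤ (cx (s12 T) y).rank),
          ((((bx N3 ρ).filter fun z => g2 (s12 T) y z = 0).card : ℕ) : ℝ) := by
    rw [Finset.mul_sum]
    exact_mod_cast e1
  refine e5.trans ?_
  calc ((bx N1 A).card : ℝ) * ∑ y ∈ (bx N2 B).filter (fun y => 3 ≤ (cx (s12 T) y).rank),
          ((((bx N3 ρ).filter fun z => g2 (s12 T) y z = 0).card : ℕ) : ℝ)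
      ≤ (3 * (A : ℝ)) ^ N1 * (C1 * ((B : ℝ) ^ (N2 - 1) * (ρ : ℝ) ^ (N3 - 3) +
          (B : ℝ) ^ N2 * (ρ : ℝ) ^ (N3 - 4))) := by gcongr
      _ = C1 * ((3 * (A : ℝ)) ^ N1 * ((B : ℝ) ^ (N2 - 1) * (ρ : ℝ) ^ (N3 - 3) +
          (B : ℝ) ^ N2 * (ρ : ℝ) ^ (N3 - 4))) := by ring
      _ ≤ C1 * (3 ^ N1 * 6 * ((B : ℝ) ^ (N2 - 1) * (A : ℝ) ^ (N1 - 1) * (Z : ℝ) ^ (N3 - 2))) := by
          gcongr
      _ = _ := by ring

theorem logs {ε : ℝ} (hε : 0 < ε) {A B Z : ℝ} (hA : 1 ≤ A) (hB : 1 ≤ B) (h1 : A ≤ 2 * Z)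
    (h2 : B ≤ 2 * Z) (hZ : 1 ≤ Z) :
    1 + Real.log A + Real.log B ≤ (1 + 2 * (Real.log 2 + 1 / ε)) * Z ^ ε := by
  have hZε : (1 : ℝ) ≤ Z ^ ε := Real.one_le_rpow hZ hε.le
  have l1 : Real.log A ≤ Real.log 2 + Real.log Z := by
    rw [← Real.log_mul (by norm_num) (by positivity)]
    exact Real.log_le_log (by positivity) h1
  have l2 : Real.log B ≤ Real.log 2 + Real.log Z := by
    rw [← Real.log_mul (by norm_num) (by positivity)]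
    exact Real.log_le_log (by positivity) h2
  have l3 := Real.log_le_rpow_div (by positivity : (0 : ℝ) ≤ Z) hε
  have l4 : Z ^ ε / ε = 1 / ε * Z ^ ε := by ring
  rw [l4] at l3
  have l5 := Real.log_nonneg (by norm_num : (1 : ℝ) ≤ 2)
  have l6 : Real.log 2 * 1 ≤ Real.log 2 * Z ^ ε := by gcongr
  have l7 : (1 + 2 * (Real.log 2 + 1 / ε)) * Z ^ ε =
      Z ^ ε + 2 * (Real.log 2 * Z ^ ε) + 2 * (1 / ε * Z ^ ε) := by ring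
  rw [l7]
  linarith

open Classical in
/-- The points with a small rank. -/
theorem part3 (hCnt : StmtCnt) (hCD : StmtCD) (hBil : StmtBil)
    (T : Fin N1 → Fin N2 → Fin N3 → ℤ) (h1 : 4 ≤ N1) (h2 : 4 ≤ N2) (h3 : 4 ≤ N3)
    (hs : Sm ℂ T) (ε : ℝ) (hε : 0 < ε) : ∃ C : ℝ, 0 ≤ C ∧ ∀ (A B ρ Z : ℕ)
    (p : (Fin N1 → ℤ) × (Fin N2 → ℤ) × (Fin N3 → ℤ) → Prop),
    (∀ t, p t → tf T t.1 t.2.1 t.2.2 = 0 ∧ g1 T t.2.1 t.2.2 ≠ 0 ∧ g2 T t.1 t.2.2 ≠ 0 ∧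
      ¬ 3 ≤ (cx (s12 (s23 T)) t.2.2).rank) → 1 ≤ A → 1 ≤ B →
    1 ≤ ρ → A ≤ 2 * Z → B ≤ 2 * Z → ρ ≤ Z →
    ((((bx N1 A ×ˢ bx N2 B ×ˢ bx N3 ρ).filter p).card : ℕ) : ℝ) ≤
      C * ((A : ℝ) ^ (N1 - 1) * (B : ℝ) ^ (N2 - 1) * (Z : ℝ) ^ (N3 - 2)) * (Z : ℝ) ^ ε := by
  obtain ⟨C3, hC3, k3⟩ := few hCnt hCD (s12 (s23 T)) (by omega) h1 h2 hs.s23.s12
  obtain ⟨C4, hC4, k4⟩ := hBil N1 N2 (by omega) (by omega)
  obtain ⟨L, hL⟩ : ∃ L : ℝ, L = 1 + 2 * (Real.log 2 + 1 / ε) := ⟨_, rfl⟩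
  have hL0 : 0 ≤ L := by
    have := Real.log_nonneg (by norm_num : (1 : ℝ) ≤ 2)
    rw [hL]
    positivity
  refine ⟨C3 * C4 * L, by positivity, ?_⟩
  intro A B ρ Z p hp hA hB hρ hAZ hBZ hρZ
  have hA' : (1 : ℝ) ≤ A := by exact_mod_cast hA
  have hB' : (1 : ℝ) ≤ B := by exact_mod_cast hB
  have hρ' : (1 : ℝ) ≤ ρ := by exact_mod_cast hρ
  have hAZ' : (A : ℝ) ≤ 2 * Z := by exact_mod_cast hAZ
  have hBZ' : (B : ℝ) ≤ 2 * Z := by exact_mod_cast hBZ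
  have hρZ' : (ρ : ℝ) ≤ Z := by exact_mod_cast hρZ
  have hlog := logs hε hA' hB' hAZ' hBZ' (hρ'.trans hρZ')
  rw [← hL] at hlog
  have e1 := card_le3 (bx N1 A) (bx N2 B) (bx N3 ρ) p
    (fun z => ¬ 3 ≤ (cx (s12 (s23 T)) z).rank)
    (fun z t => t.1 ⬝ᵥ Tx (s12 (s23 T)) z *ᵥ t.2 = 0 ∧ t.1 ᵥ* Tx (s12 (s23 T)) z ≠ 0 ∧
      Tx (s12 (s23 T)) z *ᵥ t.2 ≠ 0) (by
    rintro ⟨x, y, z⟩ ht
    obtain ⟨b1, b2, b3, b4⟩ := hp _ ht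
    refine ⟨b4, ?_⟩
    simp only at b1 b2 b3 ⊢
    rw [Tx_mulVec, vecMul_Tx, g2_s12, g1_s23, g3_s12, g3_s23, ← tf_g1]
    exact ⟨b1, b3, b2⟩)
  have e2 := k3 ρ hρ
  have e5 : ((((bx N1 A ×ˢ bx N2 B ×ˢ bx N3 ρ).filter p).card : ℕ) : ℝ) ≤
      ∑ z ∈ (bx N3 ρ).filter (fun z => ¬ 3 ≤ (cx (s12 (s23 T)) z).rank),
          ((((bx N1 A ×ˢ bx N2 B).filter fun t => t.1 ⬝ᵥ Tx (s12 (s23 T)) z *ᵥ t.2 = 0 ∧
            t.1 ᵥ* Tx (s12 (s23 T)) z ≠ 0 ∧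
            Tx (s12 (s23 T)) z *ᵥ t.2 ≠ 0).card : ℕ) : ℝ) := by exact_mod_cast e1
  refine e5.trans ?_
  have e6 : ∑ z ∈ (bx N3 ρ).filter (fun z => ¬ 3 ≤ (cx (s12 (s23 T)) z).rank),
          ((((bx N1 A ×ˢ bx N2 B).filter fun t => t.1 ⬝ᵥ Tx (s12 (s23 T)) z *ᵥ t.2 = 0 ∧
            t.1 ᵥ* Tx (s12 (s23 T)) z ≠ 0 ∧
            Tx (s12 (s23 T)) z *ᵥ t.2 ≠ 0).card : ℕ) : ℝ) ≤
      ∑ _z ∈ (bx N3 ρ).filter (fun z => ¬ 3 ≤ (cx (s12 (s23 T)) z).rank),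
          C4 * (A : ℝ) ^ (N1 - 1) * (B : ℝ) ^ (N2 - 1) * (1 + Real.log A + Real.log B) := by
    refine Finset.sum_le_sum fun z hz => ?_
    rw [mem_filter] at hz
    apply k4 _ _ A B hA hB
    have h5 := rank_le_cast (Tx (s12 (s23 T)) z)
    rw [← cx_map] at h5
    have := hz.2
    omega
  refine e6.trans ?_
  rw [Finset.sum_const, nsmul_eq_mul]
  calc (((bx N3 ρ).filter (fun z => ¬ 3 ≤ (cx (s12 (s23 T)) z).rank)).card : ℝ) *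
          (C4 * (A : ℝ) ^ (N1 - 1) * (B : ℝ) ^ (N2 - 1) * (1 + Real.log A + Real.log B))
      ≤ (C3 * (ρ : ℝ) ^ (N3 - 2)) *
          (C4 * (A : ℝ) ^ (N1 - 1) * (B : ℝ) ^ (N2 - 1) * (L * (Z : ℝ) ^ ε)) := by
          have := Real.log_nonneg hA'
          have := Real.log_nonneg hB'
          gcongr
      _ ≤ (C3 * (Z : ℝ) ^ (N3 - 2)) *
          (C4 * (A : ℝ) ^ (N1 - 1) * (B : ℝ) ^ (N2 - 1) * (L * (Z : ℝ) ^ ε)) := by gcongr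
      _ = _ := by ring

open Classical in
/-- **The number of the bad points.** -/
theorem bd (hB1 : StmtB1) (hCnt : StmtCnt) (hCD : StmtCD) (hBil : StmtBil)
    (T : Fin N1 → Fin N2 → Fin N3 → ℤ) (h1 : 4 ≤ N1) (h2 : 4 ≤ N2) (h3 : 4 ≤ N3)
    (hs : Sm ℂ T) (ε : ℝ) (hε : 0 < ε) : ∃ C : ℝ, 0 ≤ C ∧ ∀ (A B ρ Z : ℕ)
    (p : (Fin N1 → ℤ) × (Fin N2 → ℤ) × (Fin N3 → ℤ) → Prop),
    (∀ t, p t → 3 ≤ (cx T t.1).rank ∧ 3 ≤ (cx (s12 T) t.2.1).rank ∧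
      tf T t.1 t.2.1 t.2.2 = 0 ∧ (g1 T t.2.1 t.2.2 = 0 ∨ g2 T t.1 t.2.2 = 0 ∨
        ¬ 3 ≤ (cx (s12 (s23 T)) t.2.2).rank)) → 1 ≤ A → 1 ≤ B →
    1 ≤ ρ → A ≤ 2 * Z → B ≤ 2 * Z → ρ ≤ Z →
    ((((bx N1 A ×ˢ bx N2 B ×ˢ bx N3 ρ).filter p).card : ℕ) : ℝ) ≤
      C * ((A : ℝ) ^ (N1 - 1) * (B : ℝ) ^ (N2 - 1) * (Z : ℝ) ^ (N3 - 2)) * (Z : ℝ) ^ ε := by
  obtain ⟨C1, hC1, k1⟩ := part1 hB1 T h1 h2 h3 hs
  obtain ⟨C2, hC2, k2⟩ := part2 hB1 T h1 h2 h3 hs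
  obtain ⟨C3, hC3, k3⟩ := part3 hCnt hCD hBil T h1 h2 h3 hs ε hε
  refine ⟨C1 + C2 + C3, by positivity, ?_⟩
  intro A B ρ Z p hp hA hB hρ hAZ hBZ hρZ
  have hZ' : (1 : ℝ) ≤ Z := by exact_mod_cast hρ.trans hρZ
  have hZε : (1 : ℝ) ≤ (Z : ℝ) ^ ε := Real.one_le_rpow hZ' hε.le
  obtain ⟨p1, hp1⟩ : ∃ p1 : (Fin N1 → ℤ) × (Fin N2 → ℤ) × (Fin N3 → ℤ) → Prop,
    ∀ t, p1 t ↔ (3 ≤ (cx T t.1).rank ∧ g2 T t.1 t.2.2 = 0) := ⟨_, fun t => Iff.rfl⟩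
  obtain ⟨p2, hp2⟩ : ∃ p1 : (Fin N1 → ℤ) × (Fin N2 → ℤ) × (Fin N3 → ℤ) → Prop,
    ∀ t, p1 t ↔ (3 ≤ (cx (s12 T) t.2.1).rank ∧ g1 T t.2.1 t.2.2 = 0) := ⟨_, fun t => Iff.rfl⟩
  obtain ⟨p3, hp3⟩ : ∃ p1 : (Fin N1 → ℤ) × (Fin N2 → ℤ) × (Fin N3 → ℤ) → Prop,
    ∀ t, p1 t ↔ (tf T t.1 t.2.1 t.2.2 = 0 ∧ g1 T t.2.1 t.2.2 ≠ 0 ∧ g2 T t.1 t.2.2 ≠ 0 ∧
      ¬ 3 ≤ (cx (s12 (s23 T)) t.2.2).rank) := ⟨_, fun t => Iff.rfl⟩
  have hsub : (bx N1 A ×ˢ bx N2 B ×ˢ bx N3 ρ).filter p ⊆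
      (bx N1 A ×ˢ bx N2 B ×ˢ bx N3 ρ).filter p1 ∪ ((bx N1 A ×ˢ bx N2 B ×ˢ bx N3 ρ).filter p2 ∪
        (bx N1 A ×ˢ bx N2 B ×ˢ bx N3 ρ).filter p3) := by
    intro t ht
    rw [mem_filter] at ht
    obtain ⟨a1, a6⟩ := ht
    obtain ⟨a2, a3, a4, a5⟩ := hp t a6
    rw [mem_union, mem_union, mem_filter, mem_filter, mem_filter, hp1, hp2, hp3]
    by_cases b1 : g2 T t.1 t.2.2 = 0
    · exact Or.inl ⟨a1, a2, b1⟩
    · by_cases b2 : g1 T t.2.1 t.2.2 = 0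
      · exact Or.inr (Or.inl ⟨a1, a3, b2⟩)
      · refine Or.inr (Or.inr ⟨a1, a4, b2, b1, ?_⟩)
        rcases a5 with h | h | h
        · exact absurd h b2
        · exact absurd h b1
        · exact h
  have hcard := (card_le_card hsub).trans ((card_union_le _ _).trans
    (Nat.add_le_add_left (card_union_le _ _) _))
  have q1 := k1 A B ρ Z p1 (fun t ht => (hp1 t).1 ht) hA hB hρ hAZ hBZ hρZ
  have q2 := k2 A B ρ Z p2 (fun t ht => (hp2 t).1 ht) hA hB hρ hAZ hBZ hρZ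
  have q3 := k3 A B ρ Z p3 (fun t ht => (hp3 t).1 ht) hA hB hρ hAZ hBZ hρZ
  have hcard' : ((((bx N1 A ×ˢ bx N2 B ×ˢ bx N3 ρ).filter p).card : ℕ) : ℝ) ≤
      (((bx N1 A ×ˢ bx N2 B ×ˢ bx N3 ρ).filter p1).card : ℝ) +
      ((((bx N1 A ×ˢ bx N2 B ×ˢ bx N3 ρ).filter p2).card : ℝ) +
      (((bx N1 A ×ˢ bx N2 B ×ˢ bx N3 ρ).filter p3).card : ℝ)) := by exact_mod_cast hcard
  refine hcard'.trans ?_
  obtain ⟨W, hW⟩ : ∃ W : ℝ, W = (A : ℝ) ^ (N1 - 1) * (B : ℝ) ^ (N2 - 1) * (Z : ℝ) ^ (N3 - 2) :=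
    ⟨_, rfl⟩
  have hW0 : 0 ≤ W := by rw [hW]; positivity
  rw [← hW] at q1 q2 q3 ⊢
  have q1' : C1 * W ≤ C1 * W * (Z : ℝ) ^ ε :=
    le_mul_of_one_le_right (by positivity) hZε
  have q2' : C2 * W ≤ C2 * W * (Z : ℝ) ^ ε :=
    le_mul_of_one_le_right (by positivity) hZε
  have hfin : (C1 + C2 + C3) * W * (Z : ℝ) ^ ε =
      C1 * W * (Z : ℝ) ^ ε + (C2 * W * (Z : ℝ) ^ ε + C3 * W * (Z : ℝ) ^ ε) := by ring
  rw [hfin]
  linarith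

end BD

end Pool.Agent.T6.H81.BH
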