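import Mathlib
import Pool.Agent.T6.H81.BH.BD
import Pool.Agent.T6.H81.BG.C3

/-!
Smooth divisors of type `(1, 1, 1)` as fibred sets.
-/

set_option autoImplicit false

namespace Pool.Agent.T6.H81.BH

open Finset Module Matrix
open Pool.Agent.H548.WM (ht bx mem_bx Rep card_bx_le)
open Pool.Agent.H548.BL (lat mem_lat)
open Pool.Agent.H548.TL (evz tf g1 g2 g3 s12 s23 Tx Sm InU InV tri tf_g1 tf_g2 tf_g3 g1_s12 g2_s12
  g3_s12 tf_s12 g1_s23 g2_s23 g3_s23 tf_s23 Tx_mulVec vecMul_Tx PP)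
open Pool.Agent.T6.H5.TW (fl MultiDeg)
open Pool.Agent.T6.H81.BG (Pt Bx FS Zr cf)

namespace TFS

variable {n : Fin 3 → ℕ}

/-- `T` is the tensor of the form `F`. -/
def TRep (F : Fin 1 → MvPolynomial (Σ i, Fin (n i)) ℤ) (T : Fin (n 0) → Fin (n 1) → Fin (n 2) → ℤ) :
    Prop := ∀ (R : Type) [CommRing R] (x : ∀ i, Fin (n i) → R),
      evz (F 0) (fl x) = tf T (x 0) (x 1) (x 2) ∧ cf F 0 0 x = g1 T (x 1) (x 2) ∧
      cf F 0 1 x = g2 T (x 0) (x 2) ∧ cf F 0 2 x = g3 T (x 0) (x 1)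

/-- The three conditions for the ranks. -/
def Rk (T : Fin (n 0) → Fin (n 1) → Fin (n 2) → ℤ) (x : Pt n) : Fin 3 → Prop :=
  ![3 ≤ (cx T (x 0)).rank, 3 ≤ (cx (s12 T) (x 1)).rank, 3 ≤ (cx (s12 (s23 T)) (x 2)).rank]

/-- The points of the open set. -/
def PU (F : Fin 1 → MvPolynomial (Σ i, Fin (n i)) ℤ) (T : Fin (n 0) → Fin (n 1) → Fin (n 2) → ℤ)
    (x : Pt n) : Prop := Zr F x ∧ (∀ v, cf F 0 v x ≠ 0) ∧ ∀ v, Rk T x v

/-- The points over which there is a fibre. -/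
def QU (F : Fin 1 → MvPolynomial (Σ i, Fin (n i)) ℤ) (T : Fin (n 0) → Fin (n 1) → Fin (n 2) → ℤ)
    (v : Fin 3) (x : Pt n) : Prop := cf F 0 v x ≠ 0 ∧ ∀ u, u ≠ v → Rk T x u

theorem forall3 {p : Fin 3 → Prop} : (∀ v, p v) ↔ p 0 ∧ p 1 ∧ p 2 := by
  constructor
  · intro h
    exact ⟨h 0, h 1, h 2⟩
  · rintro ⟨h0, h1, h2⟩ v
    match v with
    | 0 => exact h0
    | 1 => exact h1
    | 2 => exact h2

theorem rk_upd (T : Fin (n 0) → Fin (n 1) → Fin (n 2) → ℤ) (x : Pt n) (u v : Fin 3) (huv : u ≠ v)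
    (z : Fin (n v) → ℤ) : Rk T (Function.update x v z) u ↔ Rk T x u := by
  match u, huv with
  | 0, h =>
    show 3 ≤ (cx T (Function.update x v z 0)).rank ↔ 3 ≤ (cx T (x 0)).rank
    rw [Function.update_of_ne h]
  | 1, h =>
    show 3 ≤ (cx (s12 T) (Function.update x v z 1)).rank ↔ 3 ≤ (cx (s12 T) (x 1)).rank
    rw [Function.update_of_ne h]
  | 2, h =>
    show 3 ≤ (cx (s12 (s23 T)) (Function.update x v z 2)).rank ↔ 3 ≤ (cx (s12 (s23 T)) (x 2)).rank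
    rw [Function.update_of_ne h]

theorem cf_upd (F : Fin 1 → MvPolynomial (Σ i, Fin (n i)) ℤ) (v : Fin 3) (x : Pt n)
    (z : Fin (n v) → ℤ) : cf F 0 v (Function.update x v z) = cf F 0 v x := by
  unfold cf
  simp only [Function.update_idem]

/-- The equation in terms of one block. -/
theorem zr_iff {F : Fin 1 → MvPolynomial (Σ i, Fin (n i)) ℤ}
    {T : Fin (n 0) → Fin (n 1) → Fin (n 2) → ℤ} (h : TRep F T) (v : Fin 3) (x : Pt n) :
    Zr F x ↔ cf F 0 v x ⬝ᵥ x v = 0 := by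
  have h1 := h ℤ x
  have h0 : Zr F x ↔ evz (F 0) (fl x) = 0 := by
    unfold BG.Zr
    constructor
    · intro h
      exact h 0
    · intro h e
      rw [Subsingleton.elim e 0]
      exact h
  rw [h0, h1.1]
  match v with
  | 0 => rw [h1.2.1, dotProduct_comm, ← tf_g1]
  | 1 => rw [h1.2.2.1, dotProduct_comm, ← tf_g2]
  | 2 => rw [h1.2.2.2, dotProduct_comm, ← tf_g3]

theorem lat_iff {F : Fin 1 → MvPolynomial (Σ i, Fin (n i)) ℤ}
    {T : Fin (n 0) → Fin (n 1) → Fin (n 2) → ℤ} (h : TRep F T) (v : Fin 3) (x : Pt n) :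
    x v ∈ lat (fun _ : Unit => cf F 0 v x) ↔ Zr F x := by
  rw [mem_lat, zr_iff h v x]
  exact ⟨fun h => h (), fun h _ => h⟩

theorem zr_tf {F : Fin 1 → MvPolynomial (Σ i, Fin (n i)) ℤ}
    {T : Fin (n 0) → Fin (n 1) → Fin (n 2) → ℤ} (h : TRep F T) (x : Pt n) :
    Zr F x ↔ tf T (x 0) (x 1) (x 2) = 0 := by
  rw [zr_iff h 0 x, (h ℤ x).2.1, dotProduct_comm, ← tf_g1]

/-! ### Boxes as products -/

theorem ext3 {R : Type} {x y : ∀ i, Fin (n i) → R} (h0 : x 0 = y 0) (h1 : x 1 = y 1)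
    (h2 : x 2 = y 2) : x = y := by
  funext v
  match v with
  | 0 => exact h0
  | 1 => exact h1
  | 2 => exact h2

theorem card_Bx2 (X : Fin 3 → ℕ) (P : Pt n → Prop)
    (p : (Fin (n 0) → ℤ) × (Fin (n 1) → ℤ) × (Fin (n 2) → ℤ) → Prop) [DecidablePred p]
    (h : ∀ x, P x → p (x 0, x 1, x 2)) : (Bx n X P).card ≤
      ((bx (n 0) (X 0) ×ˢ bx (n 1) (X 1) ×ˢ bx (n 2) (X 2)).filter p).card := by
  apply Finset.card_le_card_of_injOn (fun x => (x 0, x 1, x 2))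
  · intro x hx
    rw [Finset.mem_coe, BG.C3.mem_Bx] at hx
    rw [Finset.mem_coe, mem_filter, mem_product, mem_product, mem_bx, mem_bx, mem_bx]
    exact ⟨⟨hx.1 0, hx.1 1, hx.1 2⟩, h x hx.2⟩
  · intro x _ y _ hxy
    simp only [Prod.mk.injEq] at hxy
    exact ext3 hxy.1 hxy.2.1 hxy.2.2

theorem card_Bx0 (X : Fin 3 → ℕ) (P : Pt n → Prop)
    (p : (Fin (n 1) → ℤ) × (Fin (n 2) → ℤ) × (Fin (n 0) → ℤ) → Prop) [DecidablePred p]
    (h : ∀ x, P x → p (x 1, x 2, x 0)) : (Bx n X P).card ≤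
      ((bx (n 1) (X 1) ×ˢ bx (n 2) (X 2) ×ˢ bx (n 0) (X 0)).filter p).card := by
  apply Finset.card_le_card_of_injOn (fun x => (x 1, x 2, x 0))
  · intro x hx
    rw [Finset.mem_coe, BG.C3.mem_Bx] at hx
    rw [Finset.mem_coe, mem_filter, mem_product, mem_product, mem_bx, mem_bx, mem_bx]
    exact ⟨⟨hx.1 1, hx.1 2, hx.1 0⟩, h x hx.2⟩
  · intro x _ y _ hxy
    simp only [Prod.mk.injEq] at hxy
    exact ext3 hxy.2.2 hxy.1 hxy.2.1

theorem card_Bx1 (X : Fin 3 → ℕ) (P : Pt n → Prop)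
    (p : (Fin (n 0) → ℤ) × (Fin (n 2) → ℤ) × (Fin (n 1) → ℤ) → Prop) [DecidablePred p]
    (h : ∀ x, P x → p (x 0, x 2, x 1)) : (Bx n X P).card ≤
      ((bx (n 0) (X 0) ×ˢ bx (n 2) (X 2) ×ˢ bx (n 1) (X 1)).filter p).card := by
  apply Finset.card_le_card_of_injOn (fun x => (x 0, x 2, x 1))
  · intro x hx
    rw [Finset.mem_coe, BG.C3.mem_Bx] at hx
    rw [Finset.mem_coe, mem_filter, mem_product, mem_product, mem_bx, mem_bx, mem_bx]
    exact ⟨⟨hx.1 0, hx.1 2, hx.1 1⟩, h x hx.2⟩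
  · intro x _ y _ hxy
    simp only [Prod.mk.injEq] at hxy
    exact ext3 hxy.1 hxy.2.2 hxy.2.1

/-! ### Transposed matrices -/

theorem rank_s23 {N1 N2 N3 : ℕ} (T : Fin N1 → Fin N2 → Fin N3 → ℤ) (x : Fin N1 → ℤ) :
    (cx (s23 T) x).rank = (cx T x).rank := by
  have : cx (s23 T) x = (cx T x)ᵀ := by
    ext j k
    rfl
  rw [this, Matrix.rank_transpose]

theorem rank_s12_s23_s12 {N1 N2 N3 : ℕ} (T : Fin N1 → Fin N2 → Fin N3 → ℤ) (z : Fin N3 → ℤ) :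
    (cx (s12 (s23 (s12 T))) z).rank = (cx (s12 (s23 T)) z).rank := by
  have : cx (s12 (s23 (s12 T))) z = (cx (s12 (s23 T)) z)ᵀ := by
    ext j k
    rfl
  rw [this, Matrix.rank_transpose]

/-! ### The bad points -/

open Classical in
theorem bad_aux (hB1 : StmtB1) (hCnt : StmtCnt) (hCD : StmtCD) (hBil : StmtBil)
    (hn : ∀ v, 4 ≤ n v) {F : Fin 1 → MvPolynomial (Σ i, Fin (n i)) ℤ}
    {T : Fin (n 0) → Fin (n 1) → Fin (n 2) → ℤ} (hT : TRep F T) (hs : Sm ℂ T) (v : Fin 3)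
    (ε : ℝ) (hε : 0 < ε) : ∃ C : ℝ, 0 ≤ C ∧ ∀ X : Fin 3 → ℕ, (∀ u, 1 ≤ X u) →
    (∀ u, X u ≤ 2 * X v) → ∀ ρ : ℕ, 1 ≤ ρ → ρ ≤ X v →
    ((Bx n (Function.update X v ρ) fun x => QU F T v x ∧
      x v ∈ lat (fun _ : Unit => cf F 0 v x) ∧ ¬ PU F T x).card : ℝ) ≤
      C * (∏ u ∈ univ.erase v, (X u : ℝ) ^ (n u - 1)) * (X v : ℝ) ^ (n v - 2) *
        (X v : ℝ) ^ ε := by
  match v with
  | 2 =>
    obtain ⟨C, hC, h⟩ := BD.bd hB1 hCnt hCD hBil T (hn 0) (hn 1) (hn 2) hs ε hε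
    refine ⟨C, hC, fun X hX hXv ρ hρ hρX => ?_⟩
    obtain ⟨p, hp⟩ : ∃ p : (Fin (n 0) → ℤ) × (Fin (n 1) → ℤ) × (Fin (n 2) → ℤ) → Prop,
      ∀ t, p t ↔ (3 ≤ (cx T t.1).rank ∧ 3 ≤ (cx (s12 T) t.2.1).rank ∧
      tf T t.1 t.2.1 t.2.2 = 0 ∧ (g1 T t.2.1 t.2.2 = 0 ∨ g2 T t.1 t.2.2 = 0 ∨
        ¬ 3 ≤ (cx (s12 (s23 T)) t.2.2).rank)) := ⟨_, fun t => Iff.rfl⟩
    have h1 := h (X 0) (X 1) ρ (X 2) p (fun t ht => (hp t).1 ht) (hX 0) (hX 1) hρ (hXv 0) (hXv 1)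
      hρX
    have h2 := card_Bx2 (Function.update X 2 ρ) (fun x => QU F T 2 x ∧
      x 2 ∈ lat (fun _ : Unit => cf F 0 2 x) ∧ ¬ PU F T x) p (by
      rintro x ⟨⟨a1, a2⟩, a3, a4⟩
      rw [lat_iff hT] at a3
      rw [hp]
      have b0 := a2 0 (by decide)
      have b1 := a2 1 (by decide)
      refine ⟨b0, b1, (zr_tf hT x).1 a3, ?_⟩
      by_contra hcon
      push Not at hcon
      obtain ⟨c1, c2, c3⟩ := hcon
      apply a4
      refine ⟨a3, forall3.2 ⟨?_, ?_, a1⟩, forall3.2 ⟨b0, b1, c3⟩⟩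
      · rw [(hT ℤ x).2.1]
        exact c1
      · rw [(hT ℤ x).2.2.1]
        exact c2)
    have h3 : Function.update X 2 ρ 0 = X 0 := Function.update_of_ne (by decide) _ _
    have h4 : Function.update X 2 ρ 1 = X 1 := Function.update_of_ne (by decide) _ _
    rw [h3, h4, Function.update_self] at h2
    have h5 : ∏ u ∈ univ.erase (2 : Fin 3), (X u : ℝ) ^ (n u - 1) =
        (X 0 : ℝ) ^ (n 0 - 1) * (X 1 : ℝ) ^ (n 1 - 1) := by
      rw [show univ.erase (2 : Fin 3) = {0, 1} from by decide, Finset.prod_pair (by decide)]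
    rw [h5]
    have h6 : ((Bx n (Function.update X 2 ρ) fun x => QU F T 2 x ∧
      x 2 ∈ lat (fun _ : Unit => cf F 0 2 x) ∧ ¬ PU F T x).card : ℝ) ≤
      ((((bx (n 0) (X 0) ×ˢ bx (n 1) (X 1) ×ˢ bx (n 2) ρ).filter p).card : ℕ) : ℝ) := by
      exact_mod_cast h2
    refine (h6.trans h1).trans (le_of_eq ?_)
    ring
  | 0 =>
    obtain ⟨C, hC, h⟩ := BD.bd hB1 hCnt hCD hBil (s23 (s12 T)) (hn 1) (hn 2) (hn 0) hs.s12.s23 ε hε
    refine ⟨C, hC, fun X hX hXv ρ hρ hρX => ?_⟩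
    obtain ⟨p, hp⟩ : ∃ p : (Fin (n 1) → ℤ) × (Fin (n 2) → ℤ) × (Fin (n 0) → ℤ) → Prop,
      ∀ t, p t ↔ (3 ≤ (cx (s23 (s12 T)) t.1).rank ∧ 3 ≤ (cx (s12 (s23 (s12 T))) t.2.1).rank ∧
      tf (s23 (s12 T)) t.1 t.2.1 t.2.2 = 0 ∧ (g1 (s23 (s12 T)) t.2.1 t.2.2 = 0 ∨
        g2 (s23 (s12 T)) t.1 t.2.2 = 0 ∨
        ¬ 3 ≤ (cx (s12 (s23 (s23 (s12 T)))) t.2.2).rank)) := ⟨_, fun t => Iff.rfl⟩
    have h1 := h (X 1) (X 2) ρ (X 0) p (fun t ht => (hp t).1 ht) (hX 1) (hX 2) hρ (hXv 1) (hXv 2)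
      hρX
    have h2 := card_Bx0 (Function.update X 0 ρ) (fun x => QU F T 0 x ∧
      x 0 ∈ lat (fun _ : Unit => cf F 0 0 x) ∧ ¬ PU F T x) p (by
      rintro x ⟨⟨a1, a2⟩, a3, a4⟩
      rw [lat_iff hT] at a3
      rw [hp]
      have b1 := a2 1 (by decide)
      have b2 := a2 2 (by decide)
      have b1' : 3 ≤ (cx (s12 T) (x 1)).rank := b1
      have b2' : 3 ≤ (cx (s12 (s23 T)) (x 2)).rank := b2
      refine ⟨?_, ?_, ?_, ?_⟩
      · rw [rank_s23]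
        exact b1'
      · rw [rank_s12_s23_s12]
        exact b2'
      · show tf (s23 (s12 T)) (x 1) (x 2) (x 0) = 0
        rw [tf_s23, tf_s12]
        exact (zr_tf hT x).1 a3
      · by_contra hcon
        push Not at hcon
        obtain ⟨c1, c2, c3⟩ := hcon
        apply a4
        have c1' : g1 (s23 (s12 T)) (x 2) (x 0) ≠ 0 := c1
        have c2' : g2 (s23 (s12 T)) (x 1) (x 0) ≠ 0 := c2
        rw [g1_s23, g1_s12] at c1'
        rw [g2_s23, g3_s12] at c2'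
        refine ⟨a3, forall3.2 ⟨a1, ?_, ?_⟩, forall3.2 ⟨c3, b1, b2⟩⟩
        · rw [(hT ℤ x).2.2.1]
          exact c1'
        · rw [(hT ℤ x).2.2.2]
          exact c2')
    have h3 : Function.update X 0 ρ 1 = X 1 := Function.update_of_ne (by decide) _ _
    have h4 : Function.update X 0 ρ 2 = X 2 := Function.update_of_ne (by decide) _ _
    rw [h3, h4, Function.update_self] at h2
    have h5 : ∏ u ∈ univ.erase (0 : Fin 3), (X u : ℝ) ^ (n u - 1) =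
        (X 1 : ℝ) ^ (n 1 - 1) * (X 2 : ℝ) ^ (n 2 - 1) := by
      rw [show univ.erase (0 : Fin 3) = {1, 2} from by decide, Finset.prod_pair (by decide)]
    rw [h5]
    have h6 : ((Bx n (Function.update X 0 ρ) fun x => QU F T 0 x ∧
      x 0 ∈ lat (fun _ : Unit => cf F 0 0 x) ∧ ¬ PU F T x).card : ℝ) ≤
      ((((bx (n 1) (X 1) ×ˢ bx (n 2) (X 2) ×ˢ bx (n 0) ρ).filter p).card : ℕ) : ℝ) := by
      exact_mod_cast h2
    refine (h6.trans h1).trans (le_of_eq ?_)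
    ring
  | 1 =>
    obtain ⟨C, hC, h⟩ := BD.bd hB1 hCnt hCD hBil (s23 T) (hn 0) (hn 2) (hn 1) hs.s23 ε hε
    refine ⟨C, hC, fun X hX hXv ρ hρ hρX => ?_⟩
    obtain ⟨p, hp⟩ : ∃ p : (Fin (n 0) → ℤ) × (Fin (n 2) → ℤ) × (Fin (n 1) → ℤ) → Prop,
      ∀ t, p t ↔ (3 ≤ (cx (s23 T) t.1).rank ∧ 3 ≤ (cx (s12 (s23 T)) t.2.1).rank ∧
      tf (s23 T) t.1 t.2.1 t.2.2 = 0 ∧ (g1 (s23 T) t.2.1 t.2.2 = 0 ∨
        g2 (s23 T) t.1 t.2.2 = 0 ∨
        ¬ 3 ≤ (cx (s12 (s23 (s23 T))) t.2.2).rank)) := ⟨_, fun t => Iff.rfl⟩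
    have h1 := h (X 0) (X 2) ρ (X 1) p (fun t ht => (hp t).1 ht) (hX 0) (hX 2) hρ (hXv 0) (hXv 2)
      hρX
    have h2 := card_Bx1 (Function.update X 1 ρ) (fun x => QU F T 1 x ∧
      x 1 ∈ lat (fun _ : Unit => cf F 0 1 x) ∧ ¬ PU F T x) p (by
      rintro x ⟨⟨a1, a2⟩, a3, a4⟩
      rw [lat_iff hT] at a3
      rw [hp]
      have b0 := a2 0 (by decide)
      have b2 := a2 2 (by decide)
      have b0' : 3 ≤ (cx T (x 0)).rank := b0
      have b2' : 3 ≤ (cx (s12 (s23 T)) (x 2)).rank := b2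
      refine ⟨?_, ?_, ?_, ?_⟩
      · rw [rank_s23]
        exact b0'
      · exact b2'
      · show tf (s23 T) (x 0) (x 2) (x 1) = 0
        rw [tf_s23]
        exact (zr_tf hT x).1 a3
      · by_contra hcon
        push Not at hcon
        obtain ⟨c1, c2, c3⟩ := hcon
        apply a4
        have c1' : g1 (s23 T) (x 2) (x 1) ≠ 0 := c1
        have c2' : g2 (s23 T) (x 0) (x 1) ≠ 0 := c2
        rw [g1_s23] at c1'
        rw [g2_s23] at c2'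
        refine ⟨a3, forall3.2 ⟨?_, a1, ?_⟩, forall3.2 ⟨b0, c3, b2⟩⟩
        · rw [(hT ℤ x).2.1]
          exact c1'
        · rw [(hT ℤ x).2.2.2]
          exact c2')
    have h3 : Function.update X 1 ρ 0 = X 0 := Function.update_of_ne (by decide) _ _
    have h4 : Function.update X 1 ρ 2 = X 2 := Function.update_of_ne (by decide) _ _
    rw [h3, h4, Function.update_self] at h2
    have h5 : ∏ u ∈ univ.erase (1 : Fin 3), (X u : ℝ) ^ (n u - 1) =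
        (X 0 : ℝ) ^ (n 0 - 1) * (X 2 : ℝ) ^ (n 2 - 1) := by
      rw [show univ.erase (1 : Fin 3) = {0, 2} from by decide, Finset.prod_pair (by decide)]
    rw [h5]
    have h6 : ((Bx n (Function.update X 1 ρ) fun x => QU F T 1 x ∧
      x 1 ∈ lat (fun _ : Unit => cf F 0 1 x) ∧ ¬ PU F T x).card : ℝ) ≤
      ((((bx (n 0) (X 0) ×ˢ bx (n 2) (X 2) ×ˢ bx (n 1) ρ).filter p).card : ℕ) : ℝ) := by
      exact_mod_cast h2
    refine (h6.trans h1).trans (le_of_eq ?_)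
    ring

/-- **Smooth divisors of type `(1, 1, 1)` are fibred.** -/
theorem tfs (hB1 : StmtB1) (hCnt : StmtCnt) (hCD : StmtCD) (hBil : StmtBil)
    (hn : ∀ v, 4 ≤ n v) {F : Fin 1 → MvPolynomial (Σ i, Fin (n i)) ℤ}
    {T : Fin (n 0) → Fin (n 1) → Fin (n 2) → ℤ} (hT : TRep F T) (hs : Sm ℂ T) :
    FS n (fun v => n v - 1) (fun v => n v - 2) (PU F T) (QU F T) (fun _ => Unit)
      (fun v x _ => cf F 0 v x) where
  card := fun v => by
    have := hn v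
    show 1 + (n v - 1) = n v
    omega
  r2 := fun v => by have := hn v; omega
  hD := fun v => by have := hn v; omega
  upd_Q := fun v x z => by
    unfold QU
    rw [cf_upd]
    refine and_congr_right fun _ => forall_congr' fun u => imp_congr_right fun hu => ?_
    exact rk_upd T x u v hu z
  upd_w := fun v x z => by
    funext _
    exact cf_upd F v x z
  li := fun v x hx => by
    rw [linearIndependent_unique_iff]
    exact hx.1
  fib := fun v x hx => ⟨⟨hx.2.1 v, fun u _ => hx.2.2 u⟩, (lat_iff hT v x).2 hx.1⟩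
  box := fun ε hε => by
    classical
    obtain ⟨K, hK, h⟩ := Pool.Agent.H548.TL.box (by have := hn 0; omega : 3 ≤ n 0)
      (by have := hn 1; omega : 3 ≤ n 1) (by have := hn 2; omega : 3 ≤ n 2) hs.real ε hε
    refine ⟨K, hK, fun X hX => ?_⟩
    have h1 := h (X 0) (X 1) (X 2) (hX 0) (hX 1) (hX 2)
    have h2 := card_Bx2 X (PU F T) (fun t => InU T t.1 t.2.1 t.2.2) (by
      rintro x ⟨a1, a2, -⟩
      refine ⟨(zr_tf hT x).1 a1, ?_, ?_, ?_⟩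
      · rw [← (hT ℤ x).2.1]
        exact a2 0
      · rw [← (hT ℤ x).2.2.1]
        exact a2 1
      · rw [← (hT ℤ x).2.2.2]
        exact a2 2)
    rw [Fin.prod_univ_three, Fin.prod_univ_three]
    refine le_trans ?_ h1
    exact_mod_cast h2
  bad := fun v ε hε => by
    obtain ⟨C, hC, h⟩ := bad_aux hB1 hCnt hCD hBil hn hT hs v ε hε
    refine ⟨C, hC, fun X hX hXv ρ hρ hρX => (h X hX hXv ρ hρ hρX).trans (le_of_eq ?_)⟩
    have h1 : (0 : ℝ) < X v := by exact_mod_cast hX v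
    have h2 : n v - 1 - (n v - 2) - 1 = 0 := by have := hn v; omega
    rw [h2, pow_zero, mul_one, Real.rpow_add h1, Real.rpow_natCast]
    ring

end TFS

end Pool.Agent.T6.H81.BH
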