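import Mathlib
import Pool.Agent.T6.H81.BH.TFS
import Pool.Agent.T6.H81.BG.A3

/-!
Smooth divisors of type `(1, 1, 1)`: lower bounds.
-/

set_option autoImplicit false

namespace Pool.Agent.T6.H81.BH

open Finset Module Matrix Filter Topology
open Pool.Agent.H548.WM (ht bx mem_bx Rep card_bx_le ht_pos)
open Pool.Agent.H548.BL (lat mem_lat rep_ne)
open Pool.Agent.H548.TL (evz evz_map evz_int tf g1 g2 g3 s12 s23 Tx Sm InU InV tri tf_g1 tf_g2 tf_g3
  g1_s12 g2_s12 g3_s12 tf_s12 g1_s23 g2_s23 g3_s23 tf_s23 Tx_mulVec vecMul_Tx PP Tx_add Tx_zero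
  exists_ker first_order)
open Pool.Agent.T6.H5.TW (fl MultiDeg)
open Pool.Agent.T6.H81.BG (Pt Bx FS Zr cf fin_aux)

namespace TLow

open TFS

/-! ### Minors -/

theorem pick {K : Type*} [Field K] {m n k : ℕ} (A : Matrix (Fin m) (Fin n) K) (h : k ≤ A.rank) :
    ∃ g : Fin k → Fin m, LinearIndependent K (A.submatrix g id).row := by
  rw [Matrix.rank_eq_finrank_span_row] at h
  obtain ⟨f, hf, -, hli⟩ := Submodule.exists_fun_fin_finrank_span_eq K (Set.range A.row)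
  have hf' : ∀ s : Fin k, ∃ j, A.row j = f (Fin.castLE h s) := fun s => hf _
  choose g hg using hf'
  refine ⟨g, ?_⟩
  have h2 := hli.comp (Fin.castLE h) (Fin.castLE_injective h)
  have h3 : (A.submatrix g id).row = f ∘ (Fin.castLE h) := by
    funext s
    exact hg s
  rw [h3]
  exact h2

theorem minor {K : Type*} [Field K] {m n k : ℕ} (A : Matrix (Fin m) (Fin n) K) (h : k ≤ A.rank) :
    ∃ (g : Fin k → Fin m) (f : Fin k → Fin n), (A.submatrix g f).det ≠ 0 := by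
  obtain ⟨g, hg⟩ := pick A h
  have h1 := hg.rank_matrix
  rw [Fintype.card_fin] at h1
  obtain ⟨f, hf⟩ := pick (k := k) (A.submatrix g id)ᵀ (by rw [rank_transpose, h1])
  refine ⟨g, f, ?_⟩
  have h2 : ((A.submatrix g id)ᵀ.submatrix f id) = (A.submatrix g f)ᵀ := rfl
  rw [h2] at hf
  have h3 := (Matrix.linearIndependent_rows_iff_isUnit (A := (A.submatrix g f)ᵀ)).1 hf
  rw [Matrix.isUnit_iff_isUnit_det, det_transpose, isUnit_iff_ne_zero] at h3
  exact h3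

theorem rank_minor {K : Type*} [Field K] {a b k : ℕ} (M : Matrix (Fin a) (Fin b) K)
    (f : Fin k → Fin a) (h : Fin k → Fin b) (hd : (M.submatrix f h).det ≠ 0) : k ≤ M.rank := by
  have h1 : (M.submatrix f h).rank = k := by
    rw [Matrix.rank_of_det_ne_zero hd, Fintype.card_fin]
  have h2 := Matrix.rank_submatrix_le M f h
  omega

/-- The generic matrix of a smooth trilinear form has a large rank. -/
theorem exists_rank {N1 N2 N3 k : ℕ} (h1 : 1 ≤ N1) (h2 : k ≤ N2)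
    (h3 : k ≤ N3) {T : Fin N1 → Fin N2 → Fin N3 → ℤ} (hs : Sm ℂ T) :
    ∃ x : Fin N1 → ℂ, k ≤ (Tx T x).rank := by
  have hS : ({x : Fin N1 → ℂ | x ≠ 0}).Nonempty := by
    refine ⟨fun _ => 1, ?_⟩
    intro h
    have := congrFun h ⟨0, by omega⟩
    simp at this
  obtain ⟨x, hx, hmax⟩ := Pool.Agent.H548.BL.exists_max {x : Fin N1 → ℂ | x ≠ 0} hS
    (fun x => (Tx T x).rank) N2 (fun x => by simpa using (Tx T x).rank_le_height)
  have hmax' : ∀ x' : Fin N1 → ℂ, (Tx T x').rank ≤ (Tx T x).rank := by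
    intro x'
    by_cases h : x' = 0
    · rw [h, Tx_zero, rank_zero]
      omega
    · exact hmax x' h
  refine ⟨x, ?_⟩
  by_contra hlt
  push Not at hlt
  obtain ⟨η, hη0, hη⟩ := exists_ker (Tx T x) (by omega)
  obtain ⟨ξ, hξ0, hξ⟩ := exists_ker (Tx T x)ᵀ (by rw [rank_transpose]; omega)
  rw [mulVec_transpose] at hξ
  refine hs x ξ η hx hξ0 hη0 ⟨?_, ?_, ?_⟩
  · have hrel : ∀ v : Fin N1 → ℂ, g1 T ξ η ⬝ᵥ v = 0 := by
      intro v
      have h4 := first_order (Tx T x) (Tx T v) (Filter.Eventually.of_forall fun t => by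
        rw [← Tx_add]
        exact hmax' _) hξ hη
      rw [Tx_mulVec, ← tf_g2, tf_g1] at h4
      rw [dotProduct_comm]
      exact h4
    exact dotProduct_eq_zero _ hrel
  · rw [← Tx_mulVec]
    exact hη
  · rw [← vecMul_Tx]
    exact hξ

theorem Tx_map {R S : Type*} [CommRing R] [CommRing S] {N1 N2 N3 : ℕ}
    (T : Fin N1 → Fin N2 → Fin N3 → ℤ) (φ : R →+* S) (x : Fin N1 → R) :
    (Tx T x).map φ = Tx T (fun i => φ (x i)) := by
  ext j k
  unfold Tx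
  simp [Matrix.map_apply]

/-- A polynomial which is not zero only where the rank is large. -/
theorem exists_mp {N1 N2 N3 k : ℕ} (h1 : 1 ≤ N1) (h2 : k ≤ N2)
    (h3 : k ≤ N3) {T : Fin N1 → Fin N2 → Fin N3 → ℤ} (hs : Sm ℂ T) :
    ∃ f : MvPolynomial (Fin N1) ℤ, f ≠ 0 ∧
      ∀ x : Fin N1 → ℤ, evz f x ≠ 0 → k ≤ (cx T x).rank := by
  obtain ⟨x0, hx0⟩ := exists_rank h1 h2 h3 hs
  obtain ⟨g, f, hgf⟩ := minor _ hx0
  have key : ∀ (R : Type) [CommRing R] (x : Fin N1 → R),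
      evz (((Tx T (fun i => (MvPolynomial.X i : MvPolynomial (Fin N1) ℤ))).submatrix g f).det) x =
        ((Tx T x).submatrix g f).det := by
    intro R _ x
    unfold Pool.Agent.H548.TL.evz
    rw [← MvPolynomial.coe_eval₂Hom, RingHom.map_det]
    congr 1
    rw [RingHom.mapMatrix_apply, ← Matrix.submatrix_map, Tx_map]
    congr 1
    congr 1
    funext i
    simp
  refine ⟨((Tx T (fun i => (MvPolynomial.X i : MvPolynomial (Fin N1) ℤ))).submatrix g f).det,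
    ?_, ?_⟩
  · intro h0
    have := key ℂ x0
    rw [h0] at this
    apply hgf
    rw [← this]
    unfold Pool.Agent.H548.TL.evz
    simp
  · intro x hx
    have h4 : evz (((Tx T (fun i => (MvPolynomial.X i :
        MvPolynomial (Fin N1) ℤ))).submatrix g f).det) (fun i => ((x i : ℤ) : ℂ)) ≠ 0 := by
      have := evz_map (Int.castRingHom ℂ) (((Tx T (fun i => (MvPolynomial.X i :
        MvPolynomial (Fin N1) ℤ))).submatrix g f).det) x
      have h5 : evz (((Tx T (fun i => (MvPolynomial.X i :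
        MvPolynomial (Fin N1) ℤ))).submatrix g f).det) (fun i => ((x i : ℤ) : ℂ)) =
        ((evz (((Tx T (fun i => (MvPolynomial.X i :
        MvPolynomial (Fin N1) ℤ))).submatrix g f).det) x : ℤ) : ℂ) := this.symm
      rw [h5]
      exact_mod_cast hx
    rw [key] at h4
    exact rank_minor _ g f h4

/-! ### Three blocks -/

/-- The point with the given blocks. -/
def mk3 {n : Fin 3 → ℕ} {R : Type} (a : Fin (n 0) → R) (b : Fin (n 1) → R) (c : Fin (n 2) → R) :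
    ∀ v, Fin (n v) → R := fun v =>
  match v with
  | 0 => a
  | 1 => b
  | 2 => c

variable {n : Fin 3 → ℕ}

/-- The coordinates of the three blocks. -/
def e3 (n : Fin 3 → ℕ) : (Σ i, Fin (n i)) → Fin (n 0) ⊕ Fin (n 1) ⊕ Fin (n 2) := fun p =>
  match p with
  | ⟨0, i⟩ => Sum.inl i
  | ⟨1, i⟩ => Sum.inr (Sum.inl i)
  | ⟨2, i⟩ => Sum.inr (Sum.inr i)

theorem tri_e3 {R : Type} (a : Fin (n 0) → R) (b : Fin (n 1) → R) (c : Fin (n 2) → R) :
    (tri a b c) ∘ (e3 n) = fl (mk3 a b c) := by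
  funext p
  match p with
  | ⟨0, i⟩ => rfl
  | ⟨1, i⟩ => rfl
  | ⟨2, i⟩ => rfl

theorem mk3_eta {R : Type} (x : ∀ v, Fin (n v) → R) : mk3 (x 0) (x 1) (x 2) = x :=
  ext3 rfl rfl rfl

theorem evz_rename {σ τ R : Type*} [CommRing R] (e : σ → τ) (p : MvPolynomial σ ℤ) (v : τ → R) :
    evz (MvPolynomial.rename e p) v = evz p (v ∘ e) := by
  unfold Pool.Agent.H548.TL.evz
  rw [MvPolynomial.eval₂_rename]

theorem evz_mul {σ R : Type*} [CommRing R] (p q : MvPolynomial σ ℤ) (v : σ → R) :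
    evz (p * q) v = evz p v * evz q v := by
  unfold Pool.Agent.H548.TL.evz
  rw [MvPolynomial.eval₂_mul]

theorem evz_one {σ R : Type*} [CommRing R] (v : σ → R) :
    evz (1 : MvPolynomial σ ℤ) v = 1 := by
  unfold Pool.Agent.H548.TL.evz
  simp

/-- There are many points of the open set where a polynomial is not zero. -/
theorem low (hPert : StmtPert) (hn : ∀ v, 4 ≤ n v)
    {F : Fin 1 → MvPolynomial (Σ i, Fin (n i)) ℤ}
    {T : Fin (n 0) → Fin (n 1) → Fin (n 2) → ℤ} (hT : TRep F T) (hs : Sm ℂ T)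
    (G : MvPolynomial (Σ i, Fin (n i)) ℤ)
    (hG : ∃ z : ∀ i, Fin (n i) → ℂ, Zr F z ∧ (∀ v, cf F 0 v z ≠ 0) ∧ evz G (fl z) ≠ 0) :
    ∃ c B₀ : ℝ, 0 < c ∧ 1 < B₀ ∧ ∀ B : ℝ, B₀ ≤ B → c * B * Real.log B ^ 2 ≤
      ({x : Pt n | (∀ v, Rep (x v)) ∧ (PU F T x ∧ 4 ≤ (cx T (x 0)).rank ∧ evz G (fl x) ≠ 0) ∧
        ∏ v, (ht (x v) : ℝ) ^ (n v - 1) ≤ B}.ncard : ℝ) := by
  classical
  have n0 := hn 0
  have n1 := hn 1
  have n2 := hn 2
  obtain ⟨z, hz1, hz2, hz3⟩ := hG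
  obtain ⟨f1, hf1, hf1'⟩ := exists_mp (k := 4) (by omega : 1 ≤ n 0) n1 n2 hs
  obtain ⟨f2, hf2, hf2'⟩ := exists_mp (k := 3) (by omega : 1 ≤ n 1) (by omega : 3 ≤ n 0)
    (by omega : 3 ≤ n 2) hs.s12
  obtain ⟨f3, hf3, hf3'⟩ := exists_mp (k := 3) (by omega : 1 ≤ n 2) (by omega : 3 ≤ n 0)
    (by omega : 3 ≤ n 1) hs.s23.s12
  have hTz := hT ℂ z
  obtain ⟨G3, hG3⟩ : ∃ G3, G3 = MvPolynomial.rename (e3 n) G := ⟨_, rfl⟩
  obtain ⟨a, b, c, habc, ha, hb, hc⟩ := hPert (n 0) (n 1) (n 2) T G3 f1 f2 f3 hf1 hf2 hf3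
    ⟨z 0, z 1, z 2, ⟨by
      rw [← hTz.1]
      exact hz1 0, by
      rw [← hTz.2.1]
      exact hz2 0, by
      rw [← hTz.2.2.1]
      exact hz2 1, by
      rw [← hTz.2.2.2]
      exact hz2 2⟩, by
      rw [hG3, evz_rename, tri_e3, mk3_eta]
      exact hz3⟩
  obtain ⟨G', hG'⟩ : ∃ G' : MvPolynomial (Fin (n 0) ⊕ Fin (n 1) ⊕ Fin (n 2)) ℤ,
    G' = G3 * (MvPolynomial.rename Sum.inl f1 * (MvPolynomial.rename (Sum.inr ∘ Sum.inl) f2 *
      MvPolynomial.rename (Sum.inr ∘ Sum.inr) f3)) := ⟨_, rfl⟩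
  have hev : ∀ (R : Type) [CommRing R] (a : Fin (n 0) → R) (b : Fin (n 1) → R)
      (c : Fin (n 2) → R), evz G' (tri a b c) = evz G (fl (mk3 a b c)) *
        (evz f1 a * (evz f2 b * evz f3 c)) := by
    intro R _ a b c
    rw [hG', hG3, evz_mul, evz_mul, evz_mul, evz_rename, evz_rename, evz_rename, evz_rename,
      tri_e3]
    rfl
  have hhG : evz G (fl (mk3 a b c)) ≠ 0 := by
    have := habc.2
    rw [hG3, evz_rename, tri_e3] at this
    exact this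
  obtain ⟨c0, X₀, hc0, hX₀, hlow⟩ := Pool.Agent.H548.TL.lower (by omega : 3 ≤ n 0)
    (by omega : 3 ≤ n 1) (by omega : 3 ≤ n 2) hs.real (G := G')
    ⟨a, b, c, habc.1, by
      rw [hev]
      exact mul_ne_zero hhG (mul_ne_zero ha (mul_ne_zero hb hc))⟩
  refine ⟨c0, X₀ + 1, hc0, by linarith, fun B hB => ?_⟩
  obtain ⟨P, hP, hPc⟩ := hlow B (by linarith)
  have hinj : Function.Injective
      (fun t : (Fin (n 0) → ℤ) × (Fin (n 1) → ℤ) × (Fin (n 2) → ℤ) =>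
        (mk3 t.1 t.2.1 t.2.2 : Pt n)) := by
    rintro ⟨a, b, c⟩ ⟨a', b', c'⟩ h
    have e0 : a = a' := congrFun h 0
    have e1 : b = b' := congrFun h 1
    have e2 : c = c' := congrFun h 2
    rw [e0, e1, e2]
  have hfin : {x : Pt n | (∀ v, Rep (x v)) ∧ (PU F T x ∧ 4 ≤ (cx T (x 0)).rank ∧
      evz G (fl x) ≠ 0) ∧ ∏ v, (ht (x v) : ℝ) ^ (n v - 1) ≤ B}.Finite := by
    apply (fin_aux (r := fun v => n v - 1) (fun v => by have := hn v; omega)
      {x : Pt n | ∀ v, Rep (x v)} (fun x hx v => ht_pos (rep_ne (hx v))) B).subset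
    rintro x ⟨h1, h2, h3⟩
    exact ⟨h1, h3⟩
  have hsub : ((P.image fun t => (mk3 t.1 t.2.1 t.2.2 : Pt n)) : Set (Pt n)) ⊆
      {x : Pt n | (∀ v, Rep (x v)) ∧ (PU F T x ∧ 4 ≤ (cx T (x 0)).rank ∧
      evz G (fl x) ≠ 0) ∧ ∏ v, (ht (x v) : ℝ) ^ (n v - 1) ≤ B} := by
    intro x hx
    rw [Finset.mem_coe, Finset.mem_image] at hx
    obtain ⟨t, ht, rfl⟩ := hx
    obtain ⟨k1, k2, k3, k4, k5⟩ := hP t ht
    have k6 := k4.2
    rw [hev] at k6
    have k7 := hT ℤ (mk3 t.1 t.2.1 t.2.2 : Pt n)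
    have k8 : 4 ≤ (cx T t.1).rank := hf1' _ (left_ne_zero_of_mul (right_ne_zero_of_mul k6))
    refine ⟨forall3.2 ⟨k1, k2, k3⟩, ⟨⟨?_, forall3.2 ⟨?_, ?_, ?_⟩, forall3.2 ⟨?_, ?_, ?_⟩⟩, k8, ?_⟩,
      ?_⟩
    · rw [zr_tf hT]
      exact k4.1.1
    · rw [k7.2.1]
      exact k4.1.2.1
    · rw [k7.2.2.1]
      exact k4.1.2.2.1
    · rw [k7.2.2.2]
      exact k4.1.2.2.2
    · show 3 ≤ (cx T t.1).rank
      omega
    · exact hf2' _ (left_ne_zero_of_mul (right_ne_zero_of_mul (right_ne_zero_of_mul k6)))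
    · exact hf3' _ (right_ne_zero_of_mul (right_ne_zero_of_mul (right_ne_zero_of_mul k6)))
    · exact left_ne_zero_of_mul k6
    · rw [Fin.prod_univ_three]
      exact k5
  have hc1 := Set.ncard_le_ncard hsub hfin
  rw [Set.ncard_coe_finset, Finset.card_image_of_injective _ hinj] at hc1
  calc c0 * B * Real.log B ^ 2 = c0 * (B * Real.log B ^ 2) := by ring
    _ ≤ (P.card : ℝ) := hPc
    _ ≤ _ := by exact_mod_cast hc1

/-- The open set is not empty. -/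
theorem nonempty_U (hn : ∀ v, 4 ≤ n v) {F : Fin 1 → MvPolynomial (Σ i, Fin (n i)) ℤ}
    {T : Fin (n 0) → Fin (n 1) → Fin (n 2) → ℤ} (hT : TRep F T) (hs : Sm ℂ T) :
    ∃ z : ∀ i, Fin (n i) → ℂ, Zr F z ∧ (∀ v, cf F 0 v z ≠ 0) := by
  have n0 := hn 0
  have n1 := hn 1
  have n2 := hn 2
  obtain ⟨a, b, c, h1, h2, h3, h4⟩ := Pool.Agent.H548.TL.nonempty (by omega : 3 ≤ n 0)
    (by omega : 3 ≤ n 1) (by omega : 3 ≤ n 2) hs
  have k7 := hT ℂ (mk3 a b c)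
  refine ⟨mk3 a b c, ?_, forall3.2 ⟨?_, ?_, ?_⟩⟩
  · intro e
    rw [Subsingleton.elim e 0, k7.1]
    exact h1
  · rw [k7.2.1]
    exact h2
  · rw [k7.2.2.1]
    exact h3
  · rw [k7.2.2.2]
    exact h4

end TLow

end Pool.Agent.T6.H81.BH
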