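import Mathlib
import Pool.Agent.T6.H81.BG.Fin3
import Pool.Agent.T6.H81.BH.Cut
import Pool.Agent.T6.H81.BH.TLow

/-!
Smooth divisors of type `(1, 1, 1)`: the asymptotic formula.
-/

set_option autoImplicit false

namespace Pool.Agent.T6.H81.BH

open Finset Module Matrix Filter Topology
open Pool.Agent.H548.WM (ht bx mem_bx Rep ht_pos)
open Pool.Agent.H548.BL (lat mem_lat rep_ne)
open Pool.Agent.H548.TL (evz evz_map evz_int tf g1 g2 g3 s12 s23 Tx Sm InU InV tri tf_g1 tf_g2 tf_g3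
  tf_s12 tf_s23)
open Pool.Agent.T6.H5.TW (fl MultiDeg)
open Pool.Agent.T6.H81.BG
open Pool.Agent.T6.H81

namespace Fin5

open TFS TLow

variable {n : Fin 3 → ℕ}

/-! ### The ranks of the integral matrices -/

theorem rank_cast {a b : ℕ} (M : Matrix (Fin a) (Fin b) ℤ) :
    3 ≤ (M.map (Int.cast : ℤ → ℚ)).rank ↔ 3 ≤ (M.map (Int.cast : ℤ → ℂ)).rank := by
  constructor
  · intro h
    exact h.trans (BD.rank_le_cast M)
  · intro h
    obtain ⟨g, f, hgf⟩ := minor _ h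
    have h1 : ((M.map (Int.cast : ℤ → ℂ)).submatrix g f).det = (((M.submatrix g f).det : ℤ) : ℂ) := by
      rw [Matrix.submatrix_map]
      exact (Int.cast_det _).symm
    have h2 : ((M.map (Int.cast : ℤ → ℚ)).submatrix g f).det = (((M.submatrix g f).det : ℤ) : ℚ) := by
      rw [Matrix.submatrix_map]
      exact (Int.cast_det _).symm
    apply rank_minor _ g f
    rw [h2]
    rw [h1] at hgf
    exact_mod_cast hgf

theorem tf_single {N1 N2 N3 : ℕ} (T : Fin N1 → Fin N2 → Fin N3 → ℤ) (x : Fin N1 → ℤ) (s : Fin N2)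
    (t : Fin N3) : tf T x (Pi.single s 1) (Pi.single t 1) = Tx T x s t := by
  rw [tf_g2, ← Pool.Agent.H548.TL.Tx_mulVec, single_one_dotProduct, Matrix.mulVec_single_one]
  rfl

/-- The point after two updates. -/
theorem mf_tf {F : Fin 1 → MvPolynomial (Σ i, Fin (n i)) ℤ}
    {T : Fin (n 0) → Fin (n 1) → Fin (n 2) → ℤ} (hT : TRep F T) (u v : Fin 3) (x : Pt n)
    (s : Fin (n u)) (t : Fin (n v)) : mf F 0 u v x s t =
      tf T (Function.update (Function.update x u (Pi.single s 1)) v (Pi.single t 1) 0)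
        (Function.update (Function.update x u (Pi.single s 1)) v (Pi.single t 1) 1)
        (Function.update (Function.update x u (Pi.single s 1)) v (Pi.single t 1) 2) :=
  (hT ℤ _).1

theorem mf12 {F : Fin 1 → MvPolynomial (Σ i, Fin (n i)) ℤ}
    {T : Fin (n 0) → Fin (n 1) → Fin (n 2) → ℤ} (hT : TRep F T) (x : Pt n) :
    mf F 0 1 2 x = Tx T (x 0) := by
  ext s t
  rw [mf_tf hT, Function.update_of_ne (by decide : (0 : Fin 3) ≠ 2),
    Function.update_of_ne (by decide : (0 : Fin 3) ≠ 1),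
    Function.update_of_ne (by decide : (1 : Fin 3) ≠ 2), Function.update_self,
    Function.update_self, tf_single]

theorem mf02 {F : Fin 1 → MvPolynomial (Σ i, Fin (n i)) ℤ}
    {T : Fin (n 0) → Fin (n 1) → Fin (n 2) → ℤ} (hT : TRep F T) (x : Pt n) :
    mf F 0 0 2 x = Tx (s12 T) (x 1) := by
  ext s t
  rw [mf_tf hT, Function.update_of_ne (by decide : (0 : Fin 3) ≠ 2),
    Function.update_self, Function.update_of_ne (by decide : (1 : Fin 3) ≠ 2),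
    Function.update_of_ne (by decide : (1 : Fin 3) ≠ 0),
    Function.update_self, ← tf_s12, tf_single]

theorem mf01 {F : Fin 1 → MvPolynomial (Σ i, Fin (n i)) ℤ}
    {T : Fin (n 0) → Fin (n 1) → Fin (n 2) → ℤ} (hT : TRep F T) (x : Pt n) :
    mf F 0 0 1 x = Tx (s12 (s23 T)) (x 2) := by
  ext s t
  rw [mf_tf hT, Function.update_of_ne (by decide : (0 : Fin 3) ≠ 1),
    Function.update_self, Function.update_self,
    Function.update_of_ne (by decide : (2 : Fin 3) ≠ 1),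
    Function.update_of_ne (by decide : (2 : Fin 3) ≠ 0),
    ← tf_s23, ← tf_s12, tf_single]

theorem mf_comm (F : Fin 1 → MvPolynomial (Σ i, Fin (n i)) ℤ) (u v : Fin 3) (huv : u ≠ v)
    (x : Pt n) : mf F 0 v u x = (mf F 0 u v x)ᵀ := by
  ext t s
  show evz (F 0) (fl (Function.update (Function.update x v (Pi.single t 1)) u (Pi.single s 1))) =
    evz (F 0) (fl (Function.update (Function.update x u (Pi.single s 1)) v (Pi.single t 1)))
  rw [Function.update_comm huv]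

theorem rk_iff {F : Fin 1 → MvPolynomial (Σ i, Fin (n i)) ℤ}
    {T : Fin (n 0) → Fin (n 1) → Fin (n 2) → ℤ} (hT : TRep F T) (x : Pt n) :
    (∀ u v, u ≠ v → 3 ≤ ((mf F 0 u v x).map (Int.cast : ℤ → ℚ)).rank) ↔ ∀ v, Rk T x v := by
  have e0 : 3 ≤ ((mf F 0 1 2 x).map (Int.cast : ℤ → ℚ)).rank ↔ Rk T x 0 := by
    rw [mf12 hT, rank_cast, ← BD.cx_map]
    rfl
  have e1 : 3 ≤ ((mf F 0 0 2 x).map (Int.cast : ℤ → ℚ)).rank ↔ Rk T x 1 := by
    rw [mf02 hT, rank_cast, ← BD.cx_map]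
    rfl
  have e2 : 3 ≤ ((mf F 0 0 1 x).map (Int.cast : ℤ → ℚ)).rank ↔ Rk T x 2 := by
    rw [mf01 hT, rank_cast, ← BD.cx_map]
    rfl
  have hsym : ∀ u v, u ≠ v → ((mf F 0 v u x).map (Int.cast : ℤ → ℚ)).rank =
      ((mf F 0 u v x).map (Int.cast : ℤ → ℚ)).rank := by
    intro u v huv
    rw [mf_comm F u v huv, Matrix.transpose_map, Matrix.rank_transpose]
  constructor
  · intro h
    exact forall3.2 ⟨e0.1 (h 1 2 (by decide)), e1.1 (h 0 2 (by decide)),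
      e2.1 (h 0 1 (by decide))⟩
  · intro h u v huv
    match u, v, huv with
    | 0, 0, h' => exact absurd rfl h'
    | 0, 1, _ => exact e2.2 (h 2)
    | 0, 2, _ => exact e1.2 (h 1)
    | 1, 0, _ => rw [hsym 0 1 (by decide)]; exact e2.2 (h 2)
    | 1, 1, h' => exact absurd rfl h'
    | 1, 2, _ => exact e0.2 (h 0)
    | 2, 0, _ => rw [hsym 0 2 (by decide)]; exact e1.2 (h 1)
    | 2, 1, _ => rw [hsym 1 2 (by decide)]; exact e0.2 (h 0)
    | 2, 2, h' => exact absurd rfl h'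

/-! ### The way between two points -/

theorem gs {F : Fin 1 → MvPolynomial (Σ i, Fin (n i)) ℤ}
    {T : Fin (n 0) → Fin (n 1) → Fin (n 2) → ℤ} (hT : TRep F T)
    (G : MvPolynomial (Σ i, Fin (n i)) ℤ) (l : List (Fin 3)) (v : Fin 3) (x : Pt n)
    (z : Fin (n v) → ℤ) (x1 : Pt n) (hx1 : Function.update x v z = x1) (h0 : cf F 0 v x ≠ 0)
    (h1 : Zr F x1)
    (h2 : Gd (ι := fun _ => Unit) (fun v (x : Pt n) (_ : Unit) => cf F 0 v x) G l x1) :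
    Gd (ι := fun _ => Unit) (fun v (x : Pt n) (_ : Unit) => cf F 0 v x) G (v :: l) x := by
  subst hx1
  refine ⟨?_, z, ?_, h2⟩
  · rw [linearIndependent_unique_iff]
    exact h0
  · have h3 := (lat_iff hT v (Function.update x v z)).2 h1
    rw [Function.update_self, cf_upd] at h3
    exact h3

theorem upd0 (a a' : Fin (n 0) → ℤ) (b : Fin (n 1) → ℤ) (c : Fin (n 2) → ℤ) :
    Function.update (mk3 a b c : Pt n) 0 a' = mk3 a' b c :=
  ext3 (Function.update_self _ _ _) (Function.update_of_ne (by decide) _ _)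
    (Function.update_of_ne (by decide) _ _)

theorem upd1 (a : Fin (n 0) → ℤ) (b b' : Fin (n 1) → ℤ) (c : Fin (n 2) → ℤ) :
    Function.update (mk3 a b c : Pt n) 1 b' = mk3 a b' c :=
  ext3 (Function.update_of_ne (by decide) _ _) (Function.update_self _ _ _)
    (Function.update_of_ne (by decide) _ _)

theorem upd2 (a : Fin (n 0) → ℤ) (b : Fin (n 1) → ℤ) (c c' : Fin (n 2) → ℤ) :
    Function.update (mk3 a b c : Pt n) 2 c' = mk3 a b c' :=
  ext3 (Function.update_of_ne (by decide) _ _) (Function.update_of_ne (by decide) _ _)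
    (Function.update_self _ _ _)

theorem way (hCH3 : StmtCH3) (hn : ∀ v, 4 ≤ n v)
    {F : Fin 1 → MvPolynomial (Σ i, Fin (n i)) ℤ}
    {T : Fin (n 0) → Fin (n 1) → Fin (n 2) → ℤ} (hT : TRep F T) (hs : Sm ℂ T)
    (G : MvPolynomial (Σ i, Fin (n i)) ℤ) (x' : Pt n) (hx' : PU F T x')
    (hr : 4 ≤ (cx T (x' 0)).rank) (hG : evz G (fl x') ≠ 0) (x : Pt n) (hx : PU F T x) :
    Gd (ι := fun _ => Unit) (fun v (x : Pt n) (_ : Unit) => cf F 0 v x) G [0, 1, 2, 0, 1, 2] x := by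
  have hTx := hT ℤ x
  have hTx' := hT ℤ x'
  obtain ⟨hx1, hx2, hx3⟩ := hx
  obtain ⟨hx1', hx2', hx3'⟩ := hx'
  obtain ⟨a, b, c, k1, k2, k3, k4, k5, k6, k7, k8, k9⟩ := hCH3 (n 0) (n 1) (n 2) T (hn 0) (hn 1)
    (hn 2) hs (x 0) (x 1) (x 2) ⟨(zr_tf hT x).1 hx1, by
      rw [← hTx.2.1]
      exact hx2 0, by
      rw [← hTx.2.2.1]
      exact hx2 1, by
      rw [← hTx.2.2.2]
      exact hx2 2⟩ (hx3 0) (hx3 2) (x' 0) (x' 1) hr
  have hx0 : x = mk3 (x 0) (x 1) (x 2) := (mk3_eta x).symm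
  have hx0' : (mk3 (x' 0) (x' 1) (x' 2) : Pt n) = x' := mk3_eta x'
  rw [hx0]
  refine gs hT G _ 0 _ a _ (upd0 _ _ _ _) ?_ ?_ ?_
  · rw [← hx0]
    exact hx2 0
  · rw [zr_tf hT]
    exact k1
  refine gs hT G _ 1 _ b _ (upd1 _ _ _ _) ?_ ?_ ?_
  · rw [(hT ℤ _).2.2.1]
    exact k2
  · rw [zr_tf hT]
    exact k3
  refine gs hT G _ 2 _ c _ (upd2 _ _ _ _) ?_ ?_ ?_
  · rw [(hT ℤ _).2.2.2]
    exact k4
  · rw [zr_tf hT]
    exact k5
  refine gs hT G _ 0 _ (x' 0) _ (upd0 _ _ _ _) ?_ ?_ ?_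
  · rw [(hT ℤ _).2.1]
    exact k6
  · rw [zr_tf hT]
    exact k7
  refine gs hT G _ 1 _ (x' 1) _ (upd1 _ _ _ _) ?_ ?_ ?_
  · rw [(hT ℤ _).2.2.1]
    exact k8
  · rw [zr_tf hT]
    exact k9
  refine gs hT G _ 2 _ (x' 2) _ (upd2 _ _ _ _) ?_ ?_ ?_
  · have h5 := hx2' 2
    rw [hTx'.2.2.2] at h5
    rw [(hT ℤ _).2.2.2]
    exact h5
  · rw [hx0']
    exact hx1'
  · rw [hx0']
    exact hG

/-! ### The asymptotic formula -/

/-- **Smooth divisors of type `(1, 1, 1)`.** -/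
theorem main (hC : StmtC3) (hP : StmtP3) (hH : StmtH3) (hW : StmtW3) (hR3 : StmtR3)
    (hZ : StmtZ3) (hS8 : StmtS8) (hZ0 : StmtZ0) (hPol : StmtPol) (hTR : StmtTR) (hB1 : StmtB1)
    (hCnt : StmtCnt) (hCD : StmtCD) (hBil : StmtBil) (hPert : StmtPert) (hCH3 : StmtCH3)
    (hn : ∀ v, 4 ≤ n v) (F : Fin 1 → MvPolynomial (Σ i, Fin (n i)) ℤ)
    (hF : MultiDeg (F 0) (fun _ => 1))
    (hsm : ∀ z : ∀ v, Fin (n v) → ℂ, (∀ v, z v ≠ 0) → Zr F z → ∃ v, cf F 0 v z ≠ 0)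
    (ψ : (∀ v, Fin (n v) → ℝ) → ℝ) (S : Finset Nat.Primes)
    (φ : ∀ p : Nat.Primes, (∀ v, Fin (n v) → ℚ_[p]) → ℝ) (hψ : LFs {x | Zr F x} ψ)
    (hφ : ∀ p ∈ S, LFs {x | Zr F x} (φ p)) :
    ∃ c : ℝ, 0 < c ∧ ∀ G : MvPolynomial (Σ i, Fin (n i)) ℤ,
      (∃ z : ∀ i, Fin (n i) → ℂ, Zr F z ∧ (∀ v, cf F 0 v z ≠ 0) ∧ evz G (fl z) ≠ 0) →
      Tendsto (fun B : ℝ => ({x : Pt n | (∀ v, Rep (x v)) ∧ Zr F x ∧ (∀ v, cf F 0 v x ≠ 0) ∧
        (∀ u v, u ≠ v → 3 ≤ ((mf F 0 u v x).map (Int.cast : ℤ → ℚ)).rank) ∧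
        evz G (fl x) ≠ 0 ∧
        (∏ v, (ht (x v) : ℝ) ^ (n v - 1)) * Phs ψ S φ x ≤ B}.ncard : ℝ) /
          (B * Real.log B ^ 2)) atTop (𝓝 c) := by
  obtain ⟨T, hT'⟩ := hTR n F hF
  have hT : TRep F T := hT'
  have hs : Sm ℂ T := by
    intro a b c ha hb hc hh
    obtain ⟨h1, h2, h3⟩ := hh
    have k7 := hT ℂ (mk3 a b c)
    obtain ⟨v, hv⟩ := hsm (mk3 a b c) (forall3.2 ⟨ha, hb, hc⟩) (by
      intro e
      rw [Subsingleton.elim e 0, k7.1]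
      show tf T a b c = 0
      rw [tf_g1, h1, dotProduct_zero])
    apply hv
    match v with
    | 0 => rw [k7.2.1]; exact h1
    | 1 => rw [k7.2.2.1]; exact h2
    | 2 => rw [k7.2.2.2]; exact h3
  have hFS := tfs hB1 hCnt hCD hBil hn hT hs
  have hr1 : ∀ v, 1 ≤ (fun v => n v - 1) v := fun v => by
    have := hn v
    show 1 ≤ n v - 1
    omega
  obtain ⟨hc0', hcp⟩ := hS8 3 1 n F (fun _ _ => 1) (fun e => by
    rw [Subsingleton.elim e 0]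
    exact hF)
  have hP0 : ∀ x, PU F T x → ic ℝ x ∈ {x : ∀ v, Fin (n v) → ℝ | Zr F x} := fun x hx =>
    zr_cast hx.1
  have hPp : ∀ x, PU F T x → ∀ p : Nat.Primes,
      ic ℚ_[p] x ∈ {x : ∀ v, Fin (n v) → ℚ_[p] | Zr F x} := fun x hx p =>
    zr_cast hx.1
  obtain ⟨c, hc⟩ := am_lim (m := 2) hC hP hH hW hZ hFS _
    (fun p => {x : ∀ v, Fin (n v) → ℚ_[p] | Zr F x}) hc0' hcp hP0 hPp ψ S φ hψ hφ
  -- positivity
  obtain ⟨z0, hz0, hz0'⟩ := nonempty_U hn hT hs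
  obtain ⟨c0, B₀, hc0, hB₀, hlow⟩ := low hPert hn hT hs 1 ⟨z0, hz0, hz0', by
    rw [evz_one]
    exact one_ne_zero⟩
  have hfin : ∀ B : ℝ, {x : Pt n | (∀ v, Rep (x v)) ∧ PU F T x ∧
      ∏ v, (ht (x v) : ℝ) ^ (n v - 1) ≤ B}.Finite := by
    intro B
    apply (fin_aux (r := fun v => n v - 1) hr1
      {x : Pt n | ∀ v, Rep (x v)} (fun x hx v => ht_pos (rep_ne (hx v))) B).subset
    rintro x ⟨h1, h2, h3⟩
    exact ⟨h1, h3⟩
  have hpos : 0 < c := am_pos (m := 2) (n := n) hZ (r := fun v => n v - 1) hr1 _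
    (fun p => {x : ∀ v, Fin (n v) → ℚ_[p] | Zr F x}) hc0' hcp hP0 hPp ψ S φ hψ hφ hc0
    (B₀ := B₀) (by
      intro B hB
      refine (hlow B hB).trans ?_
      have : {x : Pt n | (∀ v, Rep (x v)) ∧ (PU F T x ∧ 4 ≤ (cx T (x 0)).rank ∧
          evz 1 (fl x) ≠ 0) ∧ ∏ v, (ht (x v) : ℝ) ^ (n v - 1) ≤ B} ⊆
          {x : Pt n | (∀ v, Rep (x v)) ∧ PU F T x ∧
            ∏ v, (ht (x v) : ℝ) ^ (n v - 1) ≤ B} := by
        rintro x ⟨h1, h2, h3⟩
        exact ⟨h1, h2.1, h3⟩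
      exact_mod_cast Set.ncard_le_ncard this (hfin B)) hc
  refine ⟨c, hpos, fun G hG => ?_⟩
  -- a point of the open subset
  obtain ⟨c1, B₁, hc1, hB₁, hlow1⟩ := low hPert hn hT hs G hG
  obtain ⟨x', hx'⟩ : {x : Pt n | (∀ v, Rep (x v)) ∧ (PU F T x ∧ 4 ≤ (cx T (x 0)).rank ∧
      evz G (fl x) ≠ 0) ∧ ∏ v, (ht (x v) : ℝ) ^ (n v - 1) ≤ B₁}.Nonempty := by
    apply Set.nonempty_of_ncard_ne_zero
    intro h0
    have h1 := hlow1 B₁ le_rfl
    rw [h0] at h1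
    have h2 : 0 < Real.log B₁ := Real.log_pos hB₁
    have h3 : 0 < c1 * B₁ * Real.log B₁ ^ 2 := by positivity
    simp at h1
    linarith
  obtain ⟨-, ⟨h1', h2', h3'⟩, -⟩ := hx'
  have hPW : PolyW (ι := fun _ : Fin 3 => Unit)
      (fun (v : Fin 3) (x : Pt n) (_ : Unit) => cf F 0 v x) :=
    polyW_cf F (fun _ => Unit) (fun _ _ => 0)
  obtain ⟨C, δ, hδ, hneg⟩ := neg hR3 hP hZ0 hPol hFS hPW G [0, 1, 2, 0, 1, 2]
    (fun x hx => way hCH3 hn hT hs G x' h1' h2' h3' x hx)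
  have hcut := am_cut (m := 2) hH hZ (r := fun v => n v - 1) hr1 _
    (fun p => {x : ∀ v, Fin (n v) → ℚ_[p] | Zr F x}) hc0' hcp hP0 hPp ψ S φ hψ hφ hδ
      hneg hc
  refine hcut.congr fun B => ?_
  congr 3
  ext x
  simp only [Set.mem_ofPred_eq, rk_iff hT]
  constructor
  · rintro ⟨h1, ⟨⟨h2, h3, h5⟩, h6⟩, h4⟩
    exact ⟨h1, h2, h3, h5, h6, h4⟩
  · rintro ⟨h1, h2, h3, h5, h6, h4⟩
    exact ⟨h1, ⟨⟨h2, h3, h5⟩, h6⟩, h4⟩

end Fin5

end Pool.Agent.T6.H81.BH
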