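import Mathlib
import Pool.Agent.T6.H81.BH.Defs
import Pool.Agent.H548.TL.Step

/-!
Module B1: the number of the vectors in the kernels.
-/

set_option autoImplicit false

namespace Pool.Agent.T6.H81.BH
namespace ModB1

open Finset Module Matrix Topology
open Pool.Agent.H548.WM (ht bx mem_bx)
open Pool.Agent.H548.BL (lat mem_lat lat_card)
open Pool.Agent.H548.TL (g1 g2 g3 tf Tx Sm exists_ker first_order Tx_map Tx_add Tx_zero Tx_mulVec
  vecMul_Tx tf_g1 tf_g2 row_dot zeros)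

/-- The generic matrix of the trilinear form has rank at least `k`. -/
theorem exists_rank {𝕜 : Type*} [RCLike 𝕜] {N1 N2 N3 : ℕ} (k : ℕ) (h1 : 1 ≤ N1) (h2 : k ≤ N2)
    (h3 : k ≤ N3) {T : Fin N1 → Fin N2 → Fin N3 → ℤ} (hs : Sm 𝕜 T) :
    ∃ x : Fin N1 → 𝕜, x ≠ 0 ∧ k ≤ (Tx T x).rank := by
  have hS : ({x : Fin N1 → 𝕜 | x ≠ 0}).Nonempty := by
    refine ⟨fun _ => 1, ?_⟩
    intro h
    have := congrFun h ⟨0, by omega⟩
    simp at this
  obtain ⟨x, hx, hmax⟩ := Pool.Agent.H548.BL.exists_max {x : Fin N1 → 𝕜 | x ≠ 0} hS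
    (fun x => (Tx T x).rank) N2 (fun x => by simpa using (Tx T x).rank_le_height)
  have hmax' : ∀ x' : Fin N1 → 𝕜, (Tx T x').rank ≤ (Tx T x).rank := by
    intro x'
    by_cases h : x' = 0
    · rw [h, Tx_zero, rank_zero]
      omega
    · exact hmax x' h
  refine ⟨x, hx, ?_⟩
  by_contra hlt
  push Not at hlt
  obtain ⟨η, hη0, hη⟩ := exists_ker (Tx T x) (by omega)
  obtain ⟨ξ, hξ0, hξ⟩ := exists_ker (Tx T x)ᵀ (by rw [rank_transpose]; omega)
  rw [mulVec_transpose] at hξ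
  refine hs x ξ η hx hξ0 hη0 ⟨?_, ?_, ?_⟩
  · have hrel : ∀ v : Fin N1 → 𝕜, g1 T ξ η ⬝ᵥ v = 0 := by
      intro v
      have h4 := first_order (Tx T x) (Tx T v) (Filter.Eventually.of_forall fun t => by
        rw [← Tx_add]
        exact hmax' _) hξ hη
      rw [Tx_mulVec, ← tf_g2, tf_g1] at h4
      rw [dotProduct_comm]
      exact h4
    exact dotProduct_eq_zero _ hrel
  · rw [← Tx_mulVec]
    exact hη
  · rw [← vecMul_Tx]
    exact hξ

/-- The Gram determinant of some rows. -/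
def gr {R : Type*} [CommRing R] {N1 N2 N3 k : ℕ} (T : Fin N1 → Fin N2 → Fin N3 → ℤ)
    (g : Fin k → Fin N2) (x : Fin N1 → R) : R :=
  ((Tx T x).submatrix g id * ((Tx T x).submatrix g id)ᵀ).det

theorem gr_map {R S : Type*} [CommRing R] [CommRing S] {N1 N2 N3 k : ℕ}
    (T : Fin N1 → Fin N2 → Fin N3 → ℤ) (g : Fin k → Fin N2) (φ : R →+* S) (x : Fin N1 → R) :
    φ (gr T g x) = gr T g (fun i => φ (x i)) := by
  unfold gr
  rw [RingHom.map_det, RingHom.mapMatrix_apply, Matrix.map_mul, transpose_map, ← submatrix_map,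
    Tx_map]

theorem gr_rows {N1 N2 N3 k : ℕ} {T : Fin N1 → Fin N2 → Fin N3 → ℤ} {g : Fin k → Fin N2}
    {x : Fin N1 → ℤ} (h : gr T g x ≠ 0) : LinearIndependent ℤ (fun s => Tx T x (g s)) := by
  have h1 : LinearIndependent ℤ ((Tx T x).submatrix g id).row := by
    rw [← Matrix.vecMul_injective_iff]
    intro v w hvw
    rw [← sub_eq_zero]
    apply Matrix.eq_zero_of_vecMul_eq_zero h
    have hvw' : v ᵥ* (Tx T x).submatrix g id = w ᵥ* (Tx T x).submatrix g id := hvw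
    rw [← vecMul_vecMul, sub_vecMul, hvw', sub_self, zero_vecMul]
  exact h1

theorem gr_real {N1 N2 N3 k : ℕ} {T : Fin N1 → Fin N2 → Fin N3 → ℤ} {x : Fin N1 → ℝ}
    (h : k ≤ (Tx T x).rank) : ∃ g : Fin k → Fin N2, gr T g x ≠ 0 := by
  rw [Matrix.rank_eq_finrank_span_row] at h
  obtain ⟨f, hf, -, hli⟩ := Submodule.exists_fun_fin_finrank_span_eq ℝ (Set.range (Tx T x).row)
  have hf' : ∀ s : Fin k, ∃ j, (Tx T x).row j = f (Fin.castLE h s) := fun s => hf _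
  choose g hg using hf'
  refine ⟨g, ?_⟩
  have h1 : LinearIndependent ℝ ((Tx T x).submatrix g id).row := by
    have h2 := hli.comp (Fin.castLE h) (Fin.castLE_injective h)
    have h3 : ((Tx T x).submatrix g id).row = f ∘ (Fin.castLE h) := by
      funext s
      exact hg s
    rw [h3]
    exact h2
  intro h0
  unfold gr at h0
  obtain ⟨v, hv, hv0⟩ := Matrix.exists_vecMul_eq_zero_iff.2 h0
  apply hv
  rw [← Matrix.vecMul_injective_iff] at h1
  apply h1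
  show v ᵥ* _ = 0 ᵥ* _
  rw [zero_vecMul]
  set W := (Tx T x).submatrix g id with hW
  have h2 : (v ᵥ* W) ⬝ᵥ (v ᵥ* W) = 0 := by
    have h3 : (v ᵥ* W) ⬝ᵥ (v ᵥ* W) = (v ᵥ* (W * Wᵀ)) ⬝ᵥ v := by
      rw [← vecMul_vecMul, vecMul_transpose, dotProduct_comm (W *ᵥ _), dotProduct_mulVec]
    rw [h3, hv0, zero_dotProduct]
  exact dotProduct_self_eq_zero.1 h2

/-- The rows of the matrix at an integer point. -/
theorem gen {N1 N2 N3 : ℕ} (k : ℕ) (h1 : 1 ≤ N1) (h2 : k ≤ N2) (h3 : k ≤ N3)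
    {T : Fin N1 → Fin N2 → Fin N3 → ℤ} (hs : Sm ℝ T) :
    ∃ f : MvPolynomial (Fin N1) ℤ, f ≠ 0 ∧ ∀ x : Fin N1 → ℤ, MvPolynomial.eval x f ≠ 0 →
      ∃ g : Fin k → Fin N2, LinearIndependent ℤ (fun s => Tx T x (g s)) := by
  obtain ⟨x0, -, hr⟩ := exists_rank k h1 h2 h3 hs
  obtain ⟨g, hg⟩ := gr_real hr
  refine ⟨gr T g (fun i => MvPolynomial.X i), ?_, ?_⟩
  · intro h0
    apply hg
    have h4 := gr_map T g (MvPolynomial.eval₂Hom (Int.castRingHom ℝ) x0)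
      (fun i => MvPolynomial.X i)
    rw [h0, map_zero] at h4
    simp only [MvPolynomial.eval₂Hom_X'] at h4
    exact h4.symm
  · intro x hx
    refine ⟨g, gr_rows ?_⟩
    rw [gr_map] at hx
    simpa using hx

/-- Rows of the integer matrix from the complex rank. -/
theorem rows_of_rank {N1 N2 N3 k : ℕ} {T : Fin N1 → Fin N2 → Fin N3 → ℤ} {x : Fin N1 → ℤ}
    (h : k ≤ (cx T x).rank) :
    ∃ g : Fin k → Fin N2, LinearIndependent ℤ (fun s => Tx T x (g s)) := by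
  rw [Matrix.rank_eq_finrank_span_row] at h
  obtain ⟨f, hf, -, hli⟩ := Submodule.exists_fun_fin_finrank_span_eq ℂ (Set.range (cx T x).row)
  have hf' : ∀ s : Fin k, ∃ j, (cx T x).row j = f (Fin.castLE h s) := fun s => hf _
  choose g hg using hf'
  refine ⟨g, ?_⟩
  have h2 : LinearIndependent ℂ (fun s : Fin k => (cx T x).row (g s)) := by
    have h3 := hli.comp (Fin.castLE h) (Fin.castLE_injective h)
    have h4 : (fun s : Fin k => (cx T x).row (g s)) = f ∘ (Fin.castLE h) := by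
      funext s
      exact hg s
    rw [h4]
    exact h3
  have hcast : ∀ j k', (cx T x).row j k' = ((Tx T x j k' : ℤ) : ℂ) := by
    intro j k'
    show cx T x j k' = _
    unfold cx Tx
    simp
  rw [Fintype.linearIndependent_iff] at h2 ⊢
  intro c hc i
  have h5 := h2 (fun s => (c s : ℂ)) (by
    funext k'
    have h6 := congrFun hc k'
    simp only [Finset.sum_apply, Pi.smul_apply, smul_eq_mul, Pi.zero_apply] at h6 ⊢
    have h7 : ((∑ s, c s * Tx T x (g s) k' : ℤ) : ℂ) = 0 := by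
      rw [h6]
      simp
    push_cast at h7
    rw [← h7]
    refine Finset.sum_congr rfl fun s _ => ?_
    rw [hcast]) i
  exact_mod_cast h5

open Classical in
theorem ker_rows {N1 N2 N3 k : ℕ} {T : Fin N1 → Fin N2 → Fin N3 → ℤ} {x : Fin N1 → ℤ}
    (h : ∃ g : Fin k → Fin N2, LinearIndependent ℤ (fun s => Tx T x (g s))) (ρ : ℕ)
    (hρ : 1 ≤ ρ) :
    (((bx N3 ρ).filter fun z => g2 T x z = 0).card : ℝ) ≤ 3 ^ N3 * (3 * ρ) ^ (N3 - k) := by
  obtain ⟨g, hg⟩ := h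
  have h4 := lat_card hg ρ hρ
  rw [Fintype.card_fin] at h4
  refine le_trans ?_ h4
  have h5 : (bx N3 ρ).filter (fun z => g2 T x z = 0) ⊆
      (bx N3 ρ).filter (· ∈ lat (fun s => Tx T x (g s))) := by
    intro w hw
    rw [mem_filter] at hw ⊢
    refine ⟨hw.1, ?_⟩
    rw [mem_lat]
    intro i
    rw [row_dot, hw.2]
    rfl
  exact_mod_cast card_le_card h5

end ModB1

open Finset Matrix
open Pool.Agent.H548.WM (ht bx mem_bx)
open Pool.Agent.H548.TL (g2 Tx Sm zeros)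

open Classical in
/-- Module B1. -/
theorem b1 : StmtB1 := by
  intro N1 N2 N3 T h1 h2 h3 hs
  have hsR : Sm ℝ T := Pool.Agent.H548.TL.Sm.real hs
  obtain ⟨f, hf0, hf⟩ := ModB1.gen 4 h1 h2 h3 hsR
  set a : ℝ := f.totalDegree * 3 ^ (N1 - 1) * (3 ^ N3 * 3 ^ (N3 - 3)) with ha
  set b : ℝ := 3 ^ N1 * (3 ^ N3 * 3 ^ (N3 - 4)) with hb
  have ha0 : 0 ≤ a := by positivity
  have hb0 : 0 ≤ b := by positivity
  refine ⟨a + b, by positivity, ?_⟩
  intro A ρ hA hρ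
  set X := (bx N1 A).filter (fun x => 3 ≤ (cx T x).rank) with hX
  have hx : ∀ x ∈ X, ((((bx N3 ρ).filter fun z => g2 T x z = 0).card : ℕ) : ℝ) ≤
      (if MvPolynomial.eval x f = 0 then 3 ^ N3 * (3 * (ρ : ℝ)) ^ (N3 - 3) else 0) +
        3 ^ N3 * (3 * (ρ : ℝ)) ^ (N3 - 4) := by
    intro x hx
    rw [hX, mem_filter] at hx
    split_ifs with h
    · have h4 := ModB1.ker_rows (ModB1.rows_of_rank hx.2) ρ hρ
      have h5 : (0 : ℝ) ≤ 3 ^ N3 * (3 * (ρ : ℝ)) ^ (N3 - 4) := by positivity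
      linarith
    · rw [zero_add]
      exact ModB1.ker_rows (hf x h) ρ hρ
  have hXf : ((X.filter fun x => MvPolynomial.eval x f = 0).card : ℝ) ≤
      f.totalDegree * (3 * A) ^ (N1 - 1) := by
    refine le_trans ?_ (zeros h1 hf0 A hA)
    exact_mod_cast card_le_card (filter_subset_filter _ (filter_subset _ _))
  have hXc : (X.card : ℝ) ≤ (3 * A) ^ N1 := by
    refine le_trans ?_ (Pool.Agent.H548.WM.card_bx_le N1 hA)
    exact_mod_cast card_le_card (filter_subset _ _)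
  calc (∑ x ∈ X, ((((bx N3 ρ).filter fun z => g2 T x z = 0).card : ℕ) : ℝ)) ≤
      ∑ x ∈ X, ((if MvPolynomial.eval x f = 0 then 3 ^ N3 * (3 * (ρ : ℝ)) ^ (N3 - 3) else 0) +
        3 ^ N3 * (3 * (ρ : ℝ)) ^ (N3 - 4)) := Finset.sum_le_sum hx
    _ = (X.filter fun x => MvPolynomial.eval x f = 0).card *
        (3 ^ N3 * (3 * (ρ : ℝ)) ^ (N3 - 3)) + X.card * (3 ^ N3 * (3 * (ρ : ℝ)) ^ (N3 - 4)) := by
        rw [Finset.sum_add_distrib, ← Finset.sum_filter, Finset.sum_const, Finset.sum_const,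
          nsmul_eq_mul, nsmul_eq_mul]
    _ ≤ f.totalDegree * (3 * A) ^ (N1 - 1) * (3 ^ N3 * (3 * (ρ : ℝ)) ^ (N3 - 3)) +
        (3 * A) ^ N1 * (3 ^ N3 * (3 * (ρ : ℝ)) ^ (N3 - 4)) := by gcongr
    _ = a * ((A : ℝ) ^ (N1 - 1) * (ρ : ℝ) ^ (N3 - 3)) + b * ((A : ℝ) ^ N1 * (ρ : ℝ) ^ (N3 - 4)) := by
        rw [ha, hb]
        simp only [mul_pow]
        ring
    _ ≤ (a + b) * ((A : ℝ) ^ (N1 - 1) * (ρ : ℝ) ^ (N3 - 3)) +
        (a + b) * ((A : ℝ) ^ N1 * (ρ : ℝ) ^ (N3 - 4)) := by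
        gcongr
        · linarith
        · linarith
    _ = _ := by ring

end Pool.Agent.T6.H81.BH
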