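import Pool.Agent.T6.H81.BH.BilA

/-! Module BIL: bilinear forms of rank at most two. -/

set_option autoImplicit false

namespace Pool.Agent.T6.H81.BH

namespace BIL

open Finset Matrix
open Pool.Agent.H548.WM (ht bx mem_bx card_bx le_ht le_ht' ht_le exists_ht card_bx_le)

/-- the norm of a pair -/
def nn (v : ℤ × ℤ) : ℕ := max v.1.natAbs v.2.natAbs

theorem shell (V : Finset (ℤ × ℤ)) (n : ℕ) (hn : 1 ≤ n) :
    (V.filter fun v => nn v = n).card ≤ 12 * n := by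
  classical
  have hsub : (V.filter fun v => nn v = n) ⊆
      (({-(n : ℤ), (n : ℤ)} : Finset ℤ) ×ˢ Finset.Icc (-(n : ℤ)) n) ∪
      (Finset.Icc (-(n : ℤ)) n ×ˢ ({-(n : ℤ), (n : ℤ)} : Finset ℤ)) := by
    rintro ⟨a, b⟩ h
    have h1 : max a.natAbs b.natAbs = n := (Finset.mem_filter.1 h).2
    simp only [mem_union, mem_product, mem_insert, mem_singleton, mem_Icc]
    omega
  refine (Finset.card_le_card hsub).trans ((Finset.card_union_le _ _).trans ?_)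
  rw [card_product, card_product, Int.card_Icc]
  have h2 : ({-(n : ℤ), (n : ℤ)} : Finset ℤ).card ≤ 2 := Finset.card_le_two
  have h3 : ((n : ℤ) + 1 - -(n : ℤ)).toNat = 2 * n + 1 := by omega
  rw [h3]
  nlinarith

theorem planar (V : Finset (ℤ × ℤ)) (A : ℕ) (h0 : ∀ v ∈ V, v ≠ 0) (hA : ∀ v ∈ V, nn v ≤ A)
    (f : ℕ → ℝ) (hf : ∀ n, 0 ≤ f n) :
    ∑ v ∈ V, f (nn v) ≤ ∑ n ∈ Finset.Icc 1 A, 12 * (n : ℝ) * f n := by
  classical
  have hm : ∀ v ∈ V, nn v ∈ Finset.Icc 1 A := by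
    intro v hv
    rw [Finset.mem_Icc]
    refine ⟨?_, hA v hv⟩
    by_contra h
    apply h0 v hv
    have h1 : max v.1.natAbs v.2.natAbs = 0 := by
      have : nn v = 0 := by omega
      exact this
    ext <;> simp <;> omega
  rw [← Finset.sum_fiberwise_of_maps_to hm]
  refine Finset.sum_le_sum fun n hn => ?_
  have h1 : ∑ v ∈ V with nn v = n, f (nn v) = ((V.filter fun v => nn v = n).card : ℝ) * f n := by
    rw [Finset.sum_congr rfl (g := fun _ => f n)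
      (fun v hv => by rw [(Finset.mem_filter.1 hv).2]), Finset.sum_const, nsmul_eq_mul]
  rw [h1]
  have h2 : ((V.filter fun v => nn v = n).card : ℝ) ≤ 12 * n := by
    exact_mod_cast shell V n (Finset.mem_Icc.1 hn).1
  exact mul_le_mul_of_nonneg_right h2 (hf n)

theorem planar0 (V : Finset (ℤ × ℤ)) (A : ℕ) (h0 : ∀ v ∈ V, v ≠ 0) (hA : ∀ v ∈ V, nn v ≤ A) :
    (V.card : ℝ) ≤ 12 * (A : ℝ) ^ 2 := by
  have h1 := planar V A h0 hA (fun _ => 1) (fun _ => zero_le_one)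
  rw [Finset.sum_const, nsmul_eq_mul, mul_one] at h1
  refine h1.trans ?_
  calc ∑ n ∈ Finset.Icc 1 A, 12 * (n : ℝ) * 1 ≤ ∑ n ∈ Finset.Icc 1 A, 12 * (A : ℝ) := by
        refine Finset.sum_le_sum fun n hn => ?_
        have : (n : ℝ) ≤ A := by exact_mod_cast (Finset.mem_Icc.1 hn).2
        linarith
    _ = 12 * (A : ℝ) ^ 2 := by
        rw [Finset.sum_const, Nat.card_Icc, Nat.add_sub_cancel, nsmul_eq_mul]
        ring

theorem planar1 (V : Finset (ℤ × ℤ)) (A : ℕ) (h0 : ∀ v ∈ V, v ≠ 0) (hA : ∀ v ∈ V, nn v ≤ A) :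
    ∑ v ∈ V, 1 / (nn v : ℝ) ≤ 12 * (A : ℝ) := by
  refine (planar V A h0 hA (fun n => 1 / (n : ℝ)) (fun n => by positivity)).trans ?_
  calc ∑ n ∈ Finset.Icc 1 A, 12 * (n : ℝ) * (1 / n) = ∑ n ∈ Finset.Icc 1 A, (12 : ℝ) := by
        refine Finset.sum_congr rfl fun n hn => ?_
        have : (n : ℝ) ≠ 0 := by
          have := (Finset.mem_Icc.1 hn).1
          positivity
        field_simp
    _ = 12 * (A : ℝ) := by
        rw [Finset.sum_const, Nat.card_Icc, Nat.add_sub_cancel, nsmul_eq_mul]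
        ring
    _ ≤ _ := le_rfl

theorem planar2 (V : Finset (ℤ × ℤ)) (A : ℕ) (h0 : ∀ v ∈ V, v ≠ 0) (hA : ∀ v ∈ V, nn v ≤ A) :
    ∑ v ∈ V, 1 / (nn v : ℝ) ^ 2 ≤ 12 * (1 + Real.log A) := by
  refine (planar V A h0 hA (fun n => 1 / (n : ℝ) ^ 2) (fun n => by positivity)).trans ?_
  have h1 := harmonic_le_one_add_log A
  rw [harmonic_eq_sum_Icc] at h1
  push_cast at h1
  calc ∑ n ∈ Finset.Icc 1 A, 12 * (n : ℝ) * (1 / (n : ℝ) ^ 2) =
        12 * ∑ n ∈ Finset.Icc 1 A, ((n : ℝ))⁻¹ := by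
        rw [Finset.mul_sum]
        refine Finset.sum_congr rfl fun n hn => ?_
        have : (n : ℝ) ≠ 0 := by
          have := (Finset.mem_Icc.1 hn).1
          positivity
        field_simp
    _ ≤ _ := by linarith

theorem planar3 (V : Finset (ℤ × ℤ)) (A : ℕ) (hA1 : 1 ≤ A) (h0 : ∀ v ∈ V, v ≠ 0) :
    ∑ v ∈ V, 1 / (nn v : ℝ) ^ 2 ≤ 12 * (1 + Real.log A) + V.card / (A : ℝ) ^ 2 := by
  classical
  rw [← Finset.sum_filter_add_sum_filter_not V (fun v => nn v ≤ A)]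
  have h1 := planar2 (V.filter fun v => nn v ≤ A) A
    (fun v hv => h0 v (Finset.mem_filter.1 hv).1) (fun v hv => (Finset.mem_filter.1 hv).2)
  have hA0 : (0 : ℝ) < A := by exact_mod_cast hA1
  have h2 : ∑ v ∈ V with ¬ nn v ≤ A, 1 / (nn v : ℝ) ^ 2 ≤ V.card / (A : ℝ) ^ 2 := by
    calc ∑ v ∈ V with ¬ nn v ≤ A, 1 / (nn v : ℝ) ^ 2 ≤
          ∑ v ∈ V with ¬ nn v ≤ A, 1 / (A : ℝ) ^ 2 := by
          refine Finset.sum_le_sum fun v hv => ?_
          have h3 : (A : ℝ) ≤ nn v := by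
            have := (Finset.mem_filter.1 hv).2
            exact_mod_cast (not_le.1 this).le
          exact one_div_le_one_div_of_le (by positivity) (pow_le_pow_left₀ hA0.le h3 2)
      _ = ((V.filter fun v => ¬ nn v ≤ A).card : ℝ) * (1 / (A : ℝ) ^ 2) := by
          rw [Finset.sum_const, nsmul_eq_mul]
      _ ≤ (V.card : ℝ) * (1 / (A : ℝ) ^ 2) := by
          refine mul_le_mul_of_nonneg_right ?_ (by positivity)
          exact_mod_cast Finset.card_filter_le _ _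
      _ = _ := by ring
  linarith

/-- the two coordinates -/
def pj {N : ℕ} (j1 j2 : Fin N) (w : Fin N → ℤ) : ℤ × ℤ := (w j1, w j2)

theorem nn_pj {N : ℕ} (j1 j2 : Fin N) (w : Fin N → ℤ) : nn (pj j1 j2 w) ≤ ht w :=
  max_le (le_ht w j1) (le_ht w j2)

/-- injectivity of the two coordinates on primitive parts -/
theorem pj_inj {N1 N2 : ℕ} (M : Matrix (Fin N1) (Fin N2) ℤ) {j1 j2 : Fin N2}
    (hj : ∀ x : Fin N1 → ℤ, (x ᵥ* M) j1 = 0 → (x ᵥ* M) j2 = 0 → x ᵥ* M = 0)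
    {x x' : Fin N1 → ℤ} (hx : x ᵥ* M ≠ 0) (hx' : x' ᵥ* M ≠ 0)
    (h : pj j1 j2 (pr (x ᵥ* M)) = pj j1 j2 (pr (x' ᵥ* M))) : pr (x ᵥ* M) = pr (x' ᵥ* M) := by
  set g := univ.gcd (x ᵥ* M) with hg
  set g' := univ.gcd (x' ᵥ* M) with hg'
  have h1 : pr (x ᵥ* M) j1 = pr (x' ᵥ* M) j1 := congrArg Prod.fst h
  have h2 : pr (x ᵥ* M) j2 = pr (x' ᵥ* M) j2 := congrArg Prod.snd h
  have e1 : (g' • x - g • x') ᵥ* M = g' • (x ᵥ* M) - g • (x' ᵥ* M) := by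
    rw [sub_vecMul, smul_vecMul, smul_vecMul]
  have key : ∀ k, (g' • (x ᵥ* M) - g • (x' ᵥ* M)) k =
      g' * g * (pr (x ᵥ* M) k - pr (x' ᵥ* M) k) := by
    intro k
    simp only [Pi.sub_apply, Pi.smul_apply, smul_eq_mul]
    conv_lhs => rw [← pr_mul (x ᵥ* M) k, ← pr_mul (x' ᵥ* M) k]
    rw [← hg, ← hg']
    ring
  have h3 := hj (g' • x - g • x') (by rw [e1, key, h1, sub_self, mul_zero])
    (by rw [e1, key, h2, sub_self, mul_zero])
  rw [e1] at h3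
  funext k
  have h4 := congrFun h3 k
  rw [key, Pi.zero_apply] at h4
  rcases mul_eq_zero.1 h4 with h5 | h5
  · exact absurd h5 (mul_ne_zero (gcd_ne hx') (gcd_ne hx))
  · linarith

theorem pj_ne {N1 N2 : ℕ} (M : Matrix (Fin N1) (Fin N2) ℤ) {j1 j2 : Fin N2}
    (hj : ∀ x : Fin N1 → ℤ, (x ᵥ* M) j1 = 0 → (x ᵥ* M) j2 = 0 → x ᵥ* M = 0)
    {x : Fin N1 → ℤ} (hx : x ᵥ* M ≠ 0) : pj j1 j2 (pr (x ᵥ* M)) ≠ 0 := by
  intro h
  have h1 : pr (x ᵥ* M) j1 = 0 := congrArg Prod.fst h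
  have h2 : pr (x ᵥ* M) j2 = 0 := congrArg Prod.snd h
  apply hx
  apply hj
  · rw [← pr_mul (x ᵥ* M) j1, h1, mul_zero]
  · rw [← pr_mul (x ᵥ* M) j2, h2, mul_zero]

theorem pr_dot {N : ℕ} {v : Fin N → ℤ} (hv : v ≠ 0) (y : Fin N → ℤ) :
    pr v ⬝ᵥ y = 0 ↔ v ⬝ᵥ y = 0 := by
  have h1 : v ⬝ᵥ y = univ.gcd v * (pr v ⬝ᵥ y) := by
    conv_lhs => rw [← pr_smul v]
    rw [smul_dotProduct, smul_eq_mul]
  rw [h1]
  constructor
  · intro h; rw [h, mul_zero]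
  · intro h
    rcases mul_eq_zero.1 h with h2 | h2
    · exact absurd h2 (gcd_ne hv)
    · exact h2

open Classical in
/-- the set of the pairs -/
noncomputable def PP {N1 N2 : ℕ} (M : Matrix (Fin N1) (Fin N2) ℤ) (A B : ℕ) :
    Finset ((Fin N1 → ℤ) × (Fin N2 → ℤ)) :=
  (bx N1 A ×ˢ bx N2 B).filter fun t => t.1 ⬝ᵥ M *ᵥ t.2 = 0 ∧ t.1 ᵥ* M ≠ 0 ∧ M *ᵥ t.2 ≠ 0

theorem mem_PP {N1 N2 : ℕ} {M : Matrix (Fin N1) (Fin N2) ℤ} {A B : ℕ}
    {t : (Fin N1 → ℤ) × (Fin N2 → ℤ)} : t ∈ PP M A B ↔ (t.1 ∈ bx N1 A ∧ t.2 ∈ bx N2 B) ∧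
      t.1 ⬝ᵥ M *ᵥ t.2 = 0 ∧ t.1 ᵥ* M ≠ 0 ∧ M *ᵥ t.2 ≠ 0 := by
  unfold PP
  rw [mem_filter, mem_product]

/-- the case `A ≤ B` -/
theorem half {N1 N2 : ℕ} (hN1 : 2 ≤ N1) (hN2 : 2 ≤ N2) (M : Matrix (Fin N1) (Fin N2) ℤ)
    (hM : (M.map (Int.cast : ℤ → ℚ)).rank ≤ 2) (A B : ℕ) (hA : 1 ≤ A) (hAB : A ≤ B) :
    ((PP M A B).card : ℝ) ≤ (5 ^ N2 * (72 * 5 ^ N1 + 2 * 3 ^ N1)) * (A : ℝ) ^ (N1 - 1) *
      (B : ℝ) ^ (N2 - 1) * (1 + Real.log A) := by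
  classical
  obtain ⟨j1, j2, hj⟩ := cols (by omega) M hM
  obtain ⟨i1, i2, hi'⟩ := cols (by omega) Mᵀ
    (by rw [Matrix.transpose_map, rank_transpose]; exact hM)
  have hi : ∀ y : Fin N2 → ℤ, (M *ᵥ y) i1 = 0 → (M *ᵥ y) i2 = 0 → M *ᵥ y = 0 := by
    intro y; have := hi' y; rwa [vecMul_transpose] at this
  have hB : 1 ≤ B := hA.trans hAB
  have hAr : (1 : ℝ) ≤ A := by exact_mod_cast hA
  have hBr : (1 : ℝ) ≤ B := by exact_mod_cast hB
  have hABr : (A : ℝ) ≤ B := by exact_mod_cast hAB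
  have hlog : 0 ≤ Real.log A := Real.log_nonneg hAr
  set W : (Fin N1 → ℤ) → (Fin N2 → ℤ) := fun x => pr (x ᵥ* M) with hW
  set X := (PP M A B).image Prod.fst with hX
  have hXp : ∀ x ∈ X, ∃ y, (x, y) ∈ PP M A B := by
    intro x hx
    obtain ⟨⟨x', y⟩, ht, rfl⟩ := Finset.mem_image.1 hx
    exact ⟨y, ht⟩
  have hXM : ∀ x ∈ X, x ᵥ* M ≠ 0 := by
    intro x hx
    obtain ⟨y, hy⟩ := hXp x hx
    exact (mem_PP.1 hy).2.2.1
  have hXbx : X ⊆ bx N1 A := by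
    intro x hx
    obtain ⟨y, hy⟩ := hXp x hx
    exact (mem_PP.1 hy).1.1
  have hXc : (X.card : ℝ) ≤ (3 * (A : ℝ)) ^ N1 :=
    le_trans (by exact_mod_cast Finset.card_le_card hXbx) (card_bx_le N1 hA)
  -- step 1
  have hs1 : ((PP M A B).card : ℝ) ≤ ∑ x ∈ X,
      5 ^ N2 * ((B : ℝ) ^ (N2 - 1) * (1 / ht (W x)) + (B : ℝ) ^ (N2 - 2)) := by
    have h1 : (PP M A B).card = ∑ x ∈ X, ((PP M A B).filter fun t => t.1 = x).card :=
      Finset.card_eq_sum_card_image Prod.fst (PP M A B)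
    rw [h1, Nat.cast_sum]
    refine Finset.sum_le_sum fun x hx => ?_
    have h2 : ((PP M A B).filter fun t => t.1 = x).card ≤ hp (W x) B := by
      unfold hp
      refine Finset.card_le_card_of_injOn Prod.snd ?_ ?_
      · rintro ⟨x', y⟩ ht
        rw [mem_coe, mem_filter] at ht
        obtain ⟨h3, rfl⟩ := ht
        have h4 := mem_PP.1 h3
        rw [mem_coe, mem_filter]
        refine ⟨h4.1.2, ?_⟩
        rw [hW]
        simp only
        rw [pr_dot h4.2.2.1, ← dotProduct_mulVec]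
        exact h4.2.1
      · rintro ⟨x1, y1⟩ h3 ⟨x2, y2⟩ h4 h5
        rw [mem_coe, mem_filter] at h3 h4
        have e1 : x1 = x := h3.2
        have e2 : x2 = x := h4.2
        have e3 : y1 = y2 := h5
        rw [e1, e2, e3]
    calc (((PP M A B).filter fun t => t.1 = x).card : ℝ) ≤ hp (W x) B := by exact_mod_cast h2
      _ ≤ 5 ^ N2 * ((B : ℝ) ^ (N2 - 1) / ht (W x) + (B : ℝ) ^ (N2 - 2)) :=
          hp_real hN2 (pr_prim (hXM x hx)) B hB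
      _ = _ := by ring
  -- step 2: the sum of 1 / ht
  set X1 := X.filter (fun x => ht (W x) ≤ A) with hX1
  have hs2 : ∑ x ∈ X, (1 : ℝ) / ht (W x) ≤ ∑ x ∈ X1, (1 : ℝ) / ht (W x) +
      3 ^ N1 * (A : ℝ) ^ (N1 - 1) := by
    rw [← Finset.sum_filter_add_sum_filter_not X (fun x => ht (W x) ≤ A)]
    have h1 : ∑ x ∈ X with ¬ ht (W x) ≤ A, (1 : ℝ) / ht (W x) ≤ 3 ^ N1 * (A : ℝ) ^ (N1 - 1) := by
      calc ∑ x ∈ X with ¬ ht (W x) ≤ A, (1 : ℝ) / ht (W x) ≤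
            ∑ x ∈ X with ¬ ht (W x) ≤ A, (1 : ℝ) / A := by
            refine Finset.sum_le_sum fun x hx => ?_
            have := (Finset.mem_filter.1 hx).2
            exact one_div_le_one_div_of_le (by linarith) (by exact_mod_cast (not_le.1 this).le)
        _ = ((X.filter fun x => ¬ ht (W x) ≤ A).card : ℝ) * (1 / A) := by
            rw [Finset.sum_const, nsmul_eq_mul]
        _ ≤ (3 * (A : ℝ)) ^ N1 * (1 / A) := by
            refine mul_le_mul_of_nonneg_right (le_trans ?_ hXc) (by positivity)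
            exact_mod_cast Finset.card_filter_le _ _
        _ = 3 ^ N1 * (A : ℝ) ^ (N1 - 1) := by
            have : (A : ℝ) ^ N1 = A ^ (N1 - 1) * A := by rw [← pow_succ]; congr 1; omega
            rw [mul_pow, this]
            field_simp
    linarith
  -- the classes
  set W1 := X1.image W with hW1
  have hY : ∀ w, ∃ y : Fin N2 → ℤ, w ∈ W1 → ∃ x, (x, y) ∈ PP M A B ∧ W x = w ∧ ht w ≤ A := by
    intro w
    by_cases hw : w ∈ W1
    · obtain ⟨x, hx, rfl⟩ := Finset.mem_image.1 hw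
      obtain ⟨y, hy⟩ := hXp x (Finset.mem_filter.1 hx).1
      exact ⟨y, fun _ => ⟨x, hy, rfl, (Finset.mem_filter.1 hx).2⟩⟩
    · exact ⟨0, fun h => absurd h hw⟩
  choose Y hY using hY
  set U : (Fin N2 → ℤ) → (Fin N1 → ℤ) := fun w => pr (M *ᵥ Y w) with hU
  have hUM : ∀ w ∈ W1, M *ᵥ Y w ≠ 0 := by
    intro w hw
    obtain ⟨x, hx, _⟩ := hY w hw
    exact (mem_PP.1 hx).2.2.2
  have hwY : ∀ w ∈ W1, w ⬝ᵥ Y w = 0 := by
    intro w hw
    obtain ⟨x, hx, hxw, _⟩ := hY w hw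
    have h4 := mem_PP.1 hx
    have h5 : W x ⬝ᵥ Y w = 0 := by
      rw [hW]; simp only
      rw [pr_dot h4.2.2.1, ← dotProduct_mulVec]
      exact h4.2.1
    rwa [hxw] at h5
  -- fibres of W
  have hfib : ∀ w ∈ W1, (((X1.filter fun x => W x = w).card : ℕ) : ℝ) ≤
      5 ^ N1 * ((A : ℝ) ^ (N1 - 1) * (1 / ht (U w)) + (A : ℝ) ^ (N1 - 2)) := by
    intro w hw
    have h2 : (X1.filter fun x => W x = w).card ≤ hp (U w) A := by
      unfold hp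
      refine Finset.card_le_card ?_
      intro x hx
      rw [mem_filter] at hx ⊢
      obtain ⟨hx1, hxw⟩ := hx
      have hxX := (Finset.mem_filter.1 hx1).1
      refine ⟨hXbx hxX, ?_⟩
      rw [hU]; simp only
      rw [pr_dot (hUM w hw), dotProduct_comm, dotProduct_mulVec]
      have h6 : W x ⬝ᵥ Y w = 0 := by rw [hxw]; exact hwY w hw
      rw [hW] at h6; simp only at h6
      rwa [pr_dot (hXM x hxX)] at h6
    calc (((X1.filter fun x => W x = w).card : ℕ) : ℝ) ≤ hp (U w) A := by exact_mod_cast h2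
      _ ≤ 5 ^ N1 * ((A : ℝ) ^ (N1 - 1) / ht (U w) + (A : ℝ) ^ (N1 - 2)) :=
          hp_real hN1 (pr_prim (hUM w hw)) A hA
      _ = _ := by ring
  have hs3 : ∑ x ∈ X1, (1 : ℝ) / ht (W x) ≤ ∑ w ∈ W1,
      5 ^ N1 * ((A : ℝ) ^ (N1 - 1) * (1 / (ht w : ℝ) ^ 2 + 1 / (ht (U w) : ℝ) ^ 2) +
        (A : ℝ) ^ (N1 - 2) * (1 / ht w)) := by
    rw [Finset.sum_comp (fun w : Fin N2 → ℤ => (1 : ℝ) / ht w) W]
    refine Finset.sum_le_sum fun w hw => ?_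
    rw [nsmul_eq_mul]
    have h1 := hfib w hw
    have hp1 : (0 : ℝ) ≤ 1 / ht w := by positivity
    have h2 : (1 : ℝ) / ht (U w) * (1 / ht w) ≤ 1 / (ht w : ℝ) ^ 2 + 1 / (ht (U w) : ℝ) ^ 2 := by
      have e1 : 1 / (ht w : ℝ) ^ 2 = (1 / ht w) ^ 2 := by rw [div_pow, one_pow]
      have e2 : 1 / (ht (U w) : ℝ) ^ 2 = (1 / ht (U w)) ^ 2 := by rw [div_pow, one_pow]
      rw [e1, e2]
      nlinarith [sq_nonneg ((1 : ℝ) / ht w - 1 / ht (U w)), sq_nonneg ((1 : ℝ) / ht w),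
        sq_nonneg ((1 : ℝ) / ht (U w))]
    calc (((X1.filter fun x => W x = w).card : ℕ) : ℝ) * (1 / ht w) ≤
        (5 ^ N1 * ((A : ℝ) ^ (N1 - 1) * (1 / ht (U w)) + (A : ℝ) ^ (N1 - 2))) * (1 / ht w) :=
          mul_le_mul_of_nonneg_right h1 hp1
      _ = 5 ^ N1 * ((A : ℝ) ^ (N1 - 1) * (1 / ht (U w) * (1 / ht w)) +
          (A : ℝ) ^ (N1 - 2) * (1 / ht w)) := by ring
      _ ≤ _ := by gcongr
  -- the planar sums for w
  have hWx : ∀ w ∈ W1, ∃ x, x ᵥ* M ≠ 0 ∧ w = pr (x ᵥ* M) := by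
    intro w hw
    obtain ⟨x, hx, hxw, _⟩ := hY w hw
    exact ⟨x, (mem_PP.1 hx).2.2.1, hxw.symm⟩
  have hinjW : Set.InjOn (pj j1 j2) (W1 : Set (Fin N2 → ℤ)) := by
    intro w hw w' hw' e
    obtain ⟨x, hx, rfl⟩ := hWx w hw
    obtain ⟨x', hx', rfl⟩ := hWx w' hw'
    exact pj_inj M hj hx hx' e
  set V := W1.image (pj j1 j2) with hV
  have hV0 : ∀ v ∈ V, v ≠ 0 := by
    intro v hv
    obtain ⟨w, hw, rfl⟩ := Finset.mem_image.1 hv
    obtain ⟨x, hx, rfl⟩ := hWx w hw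
    exact pj_ne M hj hx
  have hVA : ∀ v ∈ V, nn v ≤ A := by
    intro v hv
    obtain ⟨w, hw, rfl⟩ := Finset.mem_image.1 hv
    obtain ⟨x, _, _, hh⟩ := hY w hw
    exact (nn_pj _ _ _).trans hh
  have hnnW : ∀ w ∈ W1, (1 : ℝ) ≤ nn (pj j1 j2 w) := by
    intro w hw
    have h1 := hV0 _ (Finset.mem_image_of_mem (pj j1 j2) hw)
    have h2 : nn (pj j1 j2 w) ≠ 0 := by
      intro h3
      apply h1
      have h4 : max (pj j1 j2 w).1.natAbs (pj j1 j2 w).2.natAbs = 0 := h3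
      ext <;> simp <;> omega
    exact_mod_cast Nat.one_le_iff_ne_zero.2 h2
  have hW1c : (W1.card : ℝ) ≤ 12 * (A : ℝ) ^ 2 := by
    rw [← Finset.card_image_of_injOn hinjW]
    exact planar0 V A hV0 hVA
  have hp1 : ∑ w ∈ W1, (1 : ℝ) / ht w ≤ 12 * A := by
    calc ∑ w ∈ W1, (1 : ℝ) / ht w ≤ ∑ w ∈ W1, (1 : ℝ) / nn (pj j1 j2 w) := by
          refine Finset.sum_le_sum fun w hw => ?_
          exact one_div_le_one_div_of_le (by linarith [hnnW w hw])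
            (by exact_mod_cast nn_pj _ _ _)
      _ = ∑ v ∈ V, (1 : ℝ) / nn v := by rw [hV, Finset.sum_image hinjW]
      _ ≤ _ := planar1 V A hV0 hVA
  have hp2 : ∑ w ∈ W1, (1 : ℝ) / (ht w : ℝ) ^ 2 ≤ 12 * (1 + Real.log A) := by
    calc ∑ w ∈ W1, (1 : ℝ) / (ht w : ℝ) ^ 2 ≤ ∑ w ∈ W1, (1 : ℝ) / (nn (pj j1 j2 w) : ℝ) ^ 2 := by
          refine Finset.sum_le_sum fun w hw => ?_
          have h1 := hnnW w hw
          refine one_div_le_one_div_of_le (by positivity) (pow_le_pow_left₀ (by positivity) ?_ 2)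
          exact_mod_cast nn_pj _ _ _
      _ = ∑ v ∈ V, (1 : ℝ) / (nn v : ℝ) ^ 2 := by rw [hV, Finset.sum_image hinjW]
      _ ≤ _ := planar2 V A hV0 hVA
  -- the planar sum for U
  set U1 := W1.image U with hU1
  have hU1c : (U1.card : ℝ) ≤ 12 * (A : ℝ) ^ 2 :=
    le_trans (by exact_mod_cast Finset.card_image_le) hW1c
  have hUx : ∀ u ∈ U1, ∃ y, y ᵥ* Mᵀ ≠ 0 ∧ u = pr (y ᵥ* Mᵀ) := by
    intro u hu
    obtain ⟨w, hw, rfl⟩ := Finset.mem_image.1 hu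
    exact ⟨Y w, by rw [vecMul_transpose]; exact hUM w hw, by rw [vecMul_transpose]⟩
  have hinjU : Set.InjOn (pj i1 i2) (U1 : Set (Fin N1 → ℤ)) := by
    intro w hw w' hw' e
    obtain ⟨x, hx, rfl⟩ := hUx w hw
    obtain ⟨x', hx', rfl⟩ := hUx w' hw'
    exact pj_inj Mᵀ hi' hx hx' e
  have hfU : ∀ u ∈ U1, (W1.filter fun w => U w = u).card ≤ 2 := by
    intro u hu
    obtain ⟨w0, hw0, rfl⟩ := Finset.mem_image.1 hu
    have hsub : (W1.filter fun w => U w = U w0) ⊆ {w0, -w0} := by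
      intro w hw
      rw [mem_filter] at hw
      obtain ⟨hw, hUw⟩ := hw
      obtain ⟨x, hx, hxw, _⟩ := hY w hw
      obtain ⟨x0, hx0, hxw0, _⟩ := hY w0 hw0
      have m1 := mem_PP.1 hx
      have m0 := mem_PP.1 hx0
      -- x is orthogonal to U w = U w0
      have o1 : (x ᵥ* M) ⬝ᵥ Y w0 = 0 := by
        have h1 : pr (M *ᵥ Y w) ⬝ᵥ x = 0 := by
          rw [pr_dot (hUM w hw), dotProduct_comm]; exact m1.2.1
        have h2 : pr (M *ᵥ Y w0) ⬝ᵥ x = 0 := by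
          have : pr (M *ᵥ Y w) = pr (M *ᵥ Y w0) := hUw
          rw [← this]; exact h1
        rw [pr_dot (hUM w0 hw0), dotProduct_comm, dotProduct_mulVec] at h2
        exact h2
      have o2 : (x0 ᵥ* M) ⬝ᵥ Y w0 = 0 := by
        rw [← dotProduct_mulVec]; exact m0.2.1
      obtain ⟨p1, p2⟩ := par M hj o2 o1 (hUM w0 hw0)
      have hz : (x0 ᵥ* M) j1 ≠ 0 ∨ (x0 ᵥ* M) j2 ≠ 0 := by
        by_contra hcon
        push Not at hcon
        exact m0.2.2.1 (hj x0 hcon.1 hcon.2)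
      have hfin : w = w0 ∨ w = -w0 := by
        rw [← hxw, ← hxw0]
        rcases hz with hz | hz
        · refine prim_par (pr_prim m0.2.2.1) (pr_prim m1.2.2.1)
            (c := (x0 ᵥ* M) j1 * univ.gcd (x ᵥ* M)) (c' := (x ᵥ* M) j1 * univ.gcd (x0 ᵥ* M))
            (mul_ne_zero hz (gcd_ne m1.2.2.1)) ?_
          intro k
          rw [mul_assoc, mul_assoc, pr_mul, pr_mul]
          exact (p1 k).symm
        · refine prim_par (pr_prim m0.2.2.1) (pr_prim m1.2.2.1)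
            (c := (x0 ᵥ* M) j2 * univ.gcd (x ᵥ* M)) (c' := (x ᵥ* M) j2 * univ.gcd (x0 ᵥ* M))
            (mul_ne_zero hz (gcd_ne m1.2.2.1)) ?_
          intro k
          rw [mul_assoc, mul_assoc, pr_mul, pr_mul]
          exact (p2 k).symm
      rw [mem_insert, mem_singleton]
      exact hfin
    exact (Finset.card_le_card hsub).trans Finset.card_le_two
  have hp3 : ∑ w ∈ W1, (1 : ℝ) / (ht (U w) : ℝ) ^ 2 ≤ 2 * (12 * (1 + Real.log A) + 12) := by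
    rw [Finset.sum_comp (fun u : Fin N1 → ℤ => (1 : ℝ) / (ht u : ℝ) ^ 2) U]
    have hV0' : ∀ v ∈ U1.image (pj i1 i2), v ≠ 0 := by
      intro v hv
      obtain ⟨w, hw, rfl⟩ := Finset.mem_image.1 hv
      obtain ⟨x, hx, rfl⟩ := hUx w hw
      exact pj_ne Mᵀ hi' hx
    have hnnU : ∀ w ∈ U1, (1 : ℝ) ≤ nn (pj i1 i2 w) := by
      intro w hw
      have h1 := hV0' _ (Finset.mem_image_of_mem (pj i1 i2) hw)
      have h2 : nn (pj i1 i2 w) ≠ 0 := by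
        intro h3
        apply h1
        have h4 : max (pj i1 i2 w).1.natAbs (pj i1 i2 w).2.natAbs = 0 := h3
        ext <;> simp <;> omega
      exact_mod_cast Nat.one_le_iff_ne_zero.2 h2
    calc ∑ u ∈ U1, (W1.filter fun w => U w = u).card • ((1 : ℝ) / (ht u : ℝ) ^ 2) ≤
          ∑ u ∈ U1, 2 * ((1 : ℝ) / (nn (pj i1 i2 u) : ℝ) ^ 2) := by
          refine Finset.sum_le_sum fun u hu => ?_
          rw [nsmul_eq_mul]
          have h1 := hnnU u hu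
          refine mul_le_mul (by exact_mod_cast hfU u hu) ?_ (by positivity) (by norm_num)
          refine one_div_le_one_div_of_le (by positivity) (pow_le_pow_left₀ (by positivity) ?_ 2)
          exact_mod_cast nn_pj _ _ _
      _ = 2 * ∑ v ∈ U1.image (pj i1 i2), (1 : ℝ) / (nn v : ℝ) ^ 2 := by
          rw [Finset.sum_image hinjU, Finset.mul_sum]
      _ ≤ 2 * (12 * (1 + Real.log A) + (U1.image (pj i1 i2)).card / (A : ℝ) ^ 2) := by
          have := planar3 (U1.image (pj i1 i2)) A hA hV0'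
          linarith
      _ ≤ _ := by
          have h5 : ((U1.image (pj i1 i2)).card : ℝ) / (A : ℝ) ^ 2 ≤ 12 := by
            rw [div_le_iff₀ (by positivity)]
            exact le_trans (by exact_mod_cast Finset.card_image_le) hU1c
          linarith
  -- conclusion
  have hA2 : (A : ℝ) ^ (N1 - 1) = A ^ (N1 - 2) * A := by rw [← pow_succ]; congr 1; omega
  have hs4 : ∑ x ∈ X1, (1 : ℝ) / ht (W x) ≤
      72 * 5 ^ N1 * (A : ℝ) ^ (N1 - 1) * (1 + Real.log A) := by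
    refine hs3.trans ?_
    have e1 : ∑ w ∈ W1,
        5 ^ N1 * ((A : ℝ) ^ (N1 - 1) * (1 / (ht w : ℝ) ^ 2 + 1 / (ht (U w) : ℝ) ^ 2) +
        (A : ℝ) ^ (N1 - 2) * (1 / ht w)) =
        5 ^ N1 * ((A : ℝ) ^ (N1 - 1) * (∑ w ∈ W1, (1 : ℝ) / (ht w : ℝ) ^ 2 +
          ∑ w ∈ W1, (1 : ℝ) / (ht (U w) : ℝ) ^ 2) +
          (A : ℝ) ^ (N1 - 2) * ∑ w ∈ W1, (1 : ℝ) / ht w) := by
      rw [← Finset.mul_sum, Finset.sum_add_distrib, ← Finset.mul_sum, ← Finset.mul_sum,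
        Finset.sum_add_distrib]
    rw [e1]
    calc 5 ^ N1 * ((A : ℝ) ^ (N1 - 1) * (∑ w ∈ W1, (1 : ℝ) / (ht w : ℝ) ^ 2 +
          ∑ w ∈ W1, (1 : ℝ) / (ht (U w) : ℝ) ^ 2) +
          (A : ℝ) ^ (N1 - 2) * ∑ w ∈ W1, (1 : ℝ) / ht w) ≤
        5 ^ N1 * ((A : ℝ) ^ (N1 - 1) * (12 * (1 + Real.log A) +
          2 * (12 * (1 + Real.log A) + 12)) + (A : ℝ) ^ (N1 - 2) * (12 * A)) := by gcongr
      _ = 5 ^ N1 * (A : ℝ) ^ (N1 - 1) * (72 + 36 * Real.log A) := by rw [hA2]; ring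
      _ ≤ 5 ^ N1 * (A : ℝ) ^ (N1 - 1) * (72 + 72 * Real.log A) := by gcongr; norm_num
      _ = _ := by ring
  have hB2 : (B : ℝ) ^ (N2 - 1) = B ^ (N2 - 2) * B := by rw [← pow_succ]; congr 1; omega
  have hA3 : (A : ℝ) ^ N1 = A ^ (N1 - 1) * A := by rw [← pow_succ]; congr 1; omega
  have hs5 : (X.card : ℝ) * (B : ℝ) ^ (N2 - 2) ≤
      3 ^ N1 * (A : ℝ) ^ (N1 - 1) * (B : ℝ) ^ (N2 - 1) := by
    calc (X.card : ℝ) * (B : ℝ) ^ (N2 - 2) ≤ (3 * (A : ℝ)) ^ N1 * (B : ℝ) ^ (N2 - 2) := by gcongr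
      _ = 3 ^ N1 * (A : ℝ) ^ (N1 - 1) * (B ^ (N2 - 2) * A) := by rw [mul_pow, hA3]; ring
      _ ≤ 3 ^ N1 * (A : ℝ) ^ (N1 - 1) * (B ^ (N2 - 2) * B) := by gcongr
      _ = _ := by rw [hB2]
  have e2 : ∑ x ∈ X, 5 ^ N2 * ((B : ℝ) ^ (N2 - 1) * (1 / ht (W x)) + (B : ℝ) ^ (N2 - 2)) =
      5 ^ N2 * ((B : ℝ) ^ (N2 - 1) * (∑ x ∈ X, (1 : ℝ) / ht (W x)) +
        (X.card : ℝ) * (B : ℝ) ^ (N2 - 2)) := by
    rw [← Finset.mul_sum, Finset.sum_add_distrib, ← Finset.mul_sum, Finset.sum_const,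
      nsmul_eq_mul]
  rw [e2] at hs1
  refine hs1.trans ?_
  have hpos : (0 : ℝ) ≤ (A : ℝ) ^ (N1 - 1) * (B : ℝ) ^ (N2 - 1) := by positivity
  calc 5 ^ N2 * ((B : ℝ) ^ (N2 - 1) * (∑ x ∈ X, (1 : ℝ) / ht (W x)) +
        (X.card : ℝ) * (B : ℝ) ^ (N2 - 2)) ≤
      5 ^ N2 * ((B : ℝ) ^ (N2 - 1) * (72 * 5 ^ N1 * (A : ℝ) ^ (N1 - 1) * (1 + Real.log A) +
        3 ^ N1 * (A : ℝ) ^ (N1 - 1)) + 3 ^ N1 * (A : ℝ) ^ (N1 - 1) * (B : ℝ) ^ (N2 - 1)) := by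
        gcongr
        exact hs2.trans (by linarith)
    _ = 5 ^ N2 * ((A : ℝ) ^ (N1 - 1) * (B : ℝ) ^ (N2 - 1)) *
        (72 * 5 ^ N1 * (1 + Real.log A) + 2 * 3 ^ N1) := by ring
    _ ≤ 5 ^ N2 * ((A : ℝ) ^ (N1 - 1) * (B : ℝ) ^ (N2 - 1)) *
        (72 * 5 ^ N1 * (1 + Real.log A) + 2 * 3 ^ N1 * (1 + Real.log A)) := by
        have h7 : (0 : ℝ) ≤ 2 * 3 ^ N1 := by positivity
        have h8 : (2 : ℝ) * 3 ^ N1 ≤ 2 * 3 ^ N1 * (1 + Real.log A) := by nlinarith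
        exact mul_le_mul_of_nonneg_left (by linarith) (by positivity)
    _ = _ := by ring

theorem PP_card_tr {N1 N2 : ℕ} (M : Matrix (Fin N1) (Fin N2) ℤ) (A B : ℕ) :
    (PP M A B).card = (PP Mᵀ B A).card := by
  classical
  refine Finset.card_bij (fun t _ => (t.2, t.1)) ?_ ?_ ?_
  · rintro ⟨x, y⟩ h
    have h1 := mem_PP.1 h
    rw [mem_PP]
    refine ⟨⟨h1.1.2, h1.1.1⟩, ?_, ?_, ?_⟩
    · simp only
      rw [mulVec_transpose, dotProduct_comm, ← dotProduct_mulVec]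
      exact h1.2.1
    · simp only
      rw [vecMul_transpose]
      exact h1.2.2.2
    · simp only
      rw [mulVec_transpose]
      exact h1.2.2.1
  · rintro ⟨x, y⟩ _ ⟨x', y'⟩ _ h
    simp only [Prod.mk.injEq] at h
    rw [h.1, h.2]
  · rintro ⟨y, x⟩ h
    have h1 := mem_PP.1 h
    refine ⟨(x, y), ?_, rfl⟩
    rw [mem_PP]
    refine ⟨⟨h1.1.2, h1.1.1⟩, ?_, ?_, ?_⟩
    · have := h1.2.1
      simp only at this
      rw [mulVec_transpose, dotProduct_comm, ← dotProduct_mulVec] at this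
      exact this
    · have := h1.2.2.2
      simp only at this
      rw [mulVec_transpose] at this
      exact this
    · have := h1.2.2.1
      simp only at this
      rw [vecMul_transpose] at this
      exact this

end BIL

open BIL Matrix in
/-- Module BIL. -/
theorem bil : StmtBil := by
  intro N1 N2 hN1 hN2
  refine ⟨5 ^ N2 * (72 * 5 ^ N1 + 2 * 3 ^ N1) + 5 ^ N1 * (72 * 5 ^ N2 + 2 * 3 ^ N2),
    by positivity, ?_⟩
  intro M hM A B hA hB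
  have hAr : (1 : ℝ) ≤ A := by exact_mod_cast hA
  have hBr : (1 : ℝ) ≤ B := by exact_mod_cast hB
  have hlA : 0 ≤ Real.log A := Real.log_nonneg hAr
  have hlB : 0 ≤ Real.log B := Real.log_nonneg hBr
  change ((PP M A B).card : ℝ) ≤ _
  rcases le_total A B with h | h
  · refine (half hN1 hN2 M hM A B hA h).trans ?_
    have h1 : (0 : ℝ) ≤ 5 ^ N1 * (72 * 5 ^ N2 + 2 * 3 ^ N2) := by positivity
    gcongr
    · linarith
    · linarith
  · rw [PP_card_tr]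
    refine (half hN2 hN1 Mᵀ (by rw [Matrix.transpose_map, Matrix.rank_transpose]; exact hM)
      B A hB h).trans ?_
    have h1 : (0 : ℝ) ≤ 5 ^ N2 * (72 * 5 ^ N1 + 2 * 3 ^ N1) := by positivity
    calc 5 ^ N1 * (72 * 5 ^ N2 + 2 * 3 ^ N2) * (B : ℝ) ^ (N2 - 1) * (A : ℝ) ^ (N1 - 1) *
        (1 + Real.log B) = 5 ^ N1 * (72 * 5 ^ N2 + 2 * 3 ^ N2) * (A : ℝ) ^ (N1 - 1) *
        (B : ℝ) ^ (N2 - 1) * (1 + Real.log B) := by ring
      _ ≤ _ := by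
        gcongr
        · linarith
        · linarith

end Pool.Agent.T6.H81.BH
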