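import Pool.Agent.T6.H81.BH.Defs

/-! Auxiliary lemmas for the module BIL: primitive vectors, hyperplanes in boxes, matrices of rank
at most two. -/

set_option autoImplicit false

namespace Pool.Agent.T6.H81.BH.BIL

open Finset Matrix
open Pool.Agent.H548.WM (ht bx mem_bx card_bx le_ht le_ht' ht_le exists_ht card_bx_le)

/-- primitive part -/
def pr {N : ℕ} (v : Fin N → ℤ) : Fin N → ℤ := fun i => v i / univ.gcd v

theorem gcd_ne {N : ℕ} {v : Fin N → ℤ} (hv : v ≠ 0) : univ.gcd v ≠ 0 := by
  intro h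
  apply hv
  funext i
  exact (Finset.gcd_eq_zero_iff.1 h) i (mem_univ i)

theorem pr_mul {N : ℕ} (v : Fin N → ℤ) (i : Fin N) : univ.gcd v * pr v i = v i :=
  Int.mul_ediv_cancel' (Finset.gcd_dvd (mem_univ i))

theorem pr_smul {N : ℕ} (v : Fin N → ℤ) : univ.gcd v • pr v = v := by
  funext i
  exact pr_mul v i

/-- primitive vectors in Bezout form -/
def Pm {N : ℕ} (w : Fin N → ℤ) : Prop := ∃ c : Fin N → ℤ, ∑ i, w i * c i = 1

theorem pr_prim {N : ℕ} {v : Fin N → ℤ} (hv : v ≠ 0) : Pm (pr v) := by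
  obtain ⟨c, hc⟩ := Finset.gcd_eq_sum_mul univ v
  refine ⟨c, ?_⟩
  have h1 : univ.gcd v * ∑ i, pr v i * c i = univ.gcd v * 1 := by
    rw [mul_one, Finset.mul_sum]
    conv_rhs => rw [hc]
    refine Finset.sum_congr rfl fun i _ => ?_
    rw [← mul_assoc, pr_mul]
  exact mul_left_cancel₀ (gcd_ne hv) h1

theorem prim_par {N : ℕ} {w w' : Fin N → ℤ} (h : Pm w) (h' : Pm w') {c c' : ℤ} (hc : c ≠ 0)
    (e : ∀ i, c * w' i = c' * w i) : w' = w ∨ w' = -w := by
  obtain ⟨a, ha⟩ := h
  obtain ⟨a', ha'⟩ := h'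
  have h1 : c = c' * ∑ i, w i * a' i := by
    calc c = c * ∑ i, w' i * a' i := by rw [ha', mul_one]
      _ = ∑ i, (c * w' i) * a' i := by
        rw [Finset.mul_sum]; exact Finset.sum_congr rfl fun i _ => by ring
      _ = ∑ i, (c' * w i) * a' i := Finset.sum_congr rfl fun i _ => by rw [e i]
      _ = _ := by rw [Finset.mul_sum]; exact Finset.sum_congr rfl fun i _ => by ring
  have h2 : c' = c * ∑ i, w' i * a i := by
    calc c' = c' * ∑ i, w i * a i := by rw [ha, mul_one]
      _ = ∑ i, (c' * w i) * a i := by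
        rw [Finset.mul_sum]; exact Finset.sum_congr rfl fun i _ => by ring
      _ = ∑ i, (c * w' i) * a i := Finset.sum_congr rfl fun i _ => by rw [e i]
      _ = _ := by rw [Finset.mul_sum]; exact Finset.sum_congr rfl fun i _ => by ring
  have h3 : c' ∣ c := ⟨_, h1⟩
  have h4 : c ∣ c' := ⟨_, h2⟩
  have h5 : c.natAbs = c'.natAbs := Int.natAbs_eq_of_dvd_dvd h4 h3
  rcases Int.natAbs_eq_natAbs_iff.1 h5 with h6 | h6
  · left
    funext i
    have := e i
    rw [← h6] at this
    exact mul_left_cancel₀ hc this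
  · right
    funext i
    have := e i
    have h7 : c' = -c := by rw [h6]; ring
    rw [h7] at this
    apply mul_left_cancel₀ hc
    rw [this, Pi.neg_apply]
    ring

/-- the number of integer vectors in a box on a hyperplane -/
noncomputable def hp {N : ℕ} (w : Fin N → ℤ) (Z : ℕ) : ℕ :=
  ((bx N Z).filter fun y => w ⬝ᵥ y = 0).card

/-- small multiples or representatives of all classes -/
theorem cong_rep {N : ℕ} {w : Fin N → ℤ} (hw : Pm w) (j : Fin N) (Z : ℕ) :
    (∃ i, i ≠ j ∧ ∀ t : ℤ, 0 < t → t < Z → ¬ w j ∣ t * w i) ∨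
    (∀ r : ℤ, ∃ e : Fin N → ℤ, (∀ i, 0 ≤ e i ∧ (e i = 0 ∨ e i < Z)) ∧ e j = 0 ∧
      w j ∣ w ⬝ᵥ e - r) := by
  by_cases h : ∃ i, i ≠ j ∧ ∀ t : ℤ, 0 < t → t < Z → ¬ w j ∣ t * w i
  · exact Or.inl h
  · right
    push Not at h
    have h' : ∀ i, ∃ t : ℤ, i ≠ j → 0 < t ∧ t < Z ∧ w j ∣ t * w i := by
      intro i
      by_cases hi : i = j
      · exact ⟨0, fun h => absurd hi h⟩
      · obtain ⟨t, h1, h2, h3⟩ := h i hi
        exact ⟨t, fun _ => ⟨h1, h2, h3⟩⟩
    choose t ht using h'
    obtain ⟨c, hc⟩ := hw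
    intro r
    refine ⟨fun i => if i = j then 0 else (r * c i) % t i, ?_, by simp, ?_⟩
    · intro i
      by_cases hi : i = j
      · simp [hi]
      · obtain ⟨h1, h2, _⟩ := ht i hi
        simp only [if_neg hi]
        exact ⟨Int.emod_nonneg _ h1.ne', Or.inr (lt_trans (Int.emod_lt_of_pos _ h1) h2)⟩
    · have h1 : w ⬝ᵥ (fun i => if i = j then 0 else (r * c i) % t i) - r =
          ∑ i, w i * ((if i = j then 0 else (r * c i) % t i) - r * c i) := by
        simp only [dotProduct, mul_sub, Finset.sum_sub_distrib]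
        congr 1
        calc r = r * ∑ i, w i * c i := by rw [hc, mul_one]
          _ = _ := by rw [Finset.mul_sum]; exact Finset.sum_congr rfl fun i _ => by ring
      rw [h1]
      refine Finset.dvd_sum fun i _ => ?_
      by_cases hi : i = j
      · subst hi; exact Dvd.intro _ rfl
      · obtain ⟨_, _, h3⟩ := ht i hi
        rw [if_neg hi]
        have h4 : r * c i % t i - r * c i = t i * (-(r * c i / t i)) := by
          have := Int.emod_add_mul_ediv (r * c i) (t i)
          linarith
        rw [h4, ← mul_assoc]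
        refine Dvd.dvd.mul_right ?_ _
        rw [mul_comm]
        exact h3

/-- the number of integer vectors in a box on a hyperplane -/
theorem hp_bound {N : ℕ} {w : Fin N → ℤ} (hw : Pm w) (Z : ℕ) (hZ : 1 ≤ Z) :
    hp w Z * (Z * min (ht w) Z) ≤ (4 * Z + 1) ^ N := by
  classical
  have hN : 0 < N := by
    rcases Nat.eq_zero_or_pos N with h | h
    · subst h
      obtain ⟨c, hc⟩ := hw
      simp at hc
    · exact h
  obtain ⟨j, hj⟩ := exists_ht hN w
  have hwj : w j ≠ 0 := by
    intro h0
    rw [h0, abs_zero] at hj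
    obtain ⟨c, hc⟩ := hw
    have hall : ∀ i, w i = 0 := by
      intro i
      have := le_ht' w i
      rw [← hj] at this
      exact abs_nonpos_iff.1 this
    simp [hall] at hc
  have hT : (bx N (2 * Z)).card = (4 * Z + 1) ^ N := by rw [card_bx]; congr 1; ring
  have hcoord : ∀ y ∈ bx N Z, ∀ i, |y i| ≤ (Z : ℤ) := by
    intro y hy i
    exact (le_ht' y i).trans (by exact_mod_cast mem_bx.1 hy)
  unfold hp
  set Λ := (bx N Z).filter fun y => w ⬝ᵥ y = 0 with hΛ
  rcases cong_rep hw j Z with ⟨i, hij, hi⟩ | hall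
  · -- many multiples
    have h1 : Λ.card * (Z * Z) ≤ (4 * Z + 1) ^ N := by
      rw [← hT]
      have hc : Λ.card * (Z * Z) = (Λ ×ˢ (range Z ×ˢ range Z)).card := by
        rw [card_product, card_product, card_range]
      rw [hc]
      refine Finset.card_le_card_of_injOn
        (fun t => t.1 + (fun k => if k = j then (t.2.1 : ℤ) else if k = i then (t.2.2 : ℤ) else 0))
        ?_ ?_
      · rintro ⟨y, s, t⟩ h
        simp only [coe_product, Set.mem_prod, mem_coe, mem_range] at h
        rw [mem_coe, mem_bx]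
        refine ht_le fun k => ?_
        have h2 := hcoord y (Finset.mem_filter.1 h.1).1 k
        rw [abs_le] at h2 ⊢
        have hs := h.2.1
        have ht' := h.2.2
        simp only [Pi.add_apply]
        split_ifs <;> push_cast <;> constructor <;> omega
      · rintro ⟨y, s, t⟩ h ⟨y', s', t'⟩ h' e
        simp only [coe_product, Set.mem_prod, mem_coe, mem_range] at h h'
        have hval : ∀ (y : Fin N → ℤ) (s t : ℕ), w ⬝ᵥ (y + (fun k => if k = j then (s : ℤ)
            else if k = i then (t : ℤ) else 0)) = w ⬝ᵥ y + (w j * s + w i * t) := by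
          intro y s t
          rw [dotProduct_add]
          congr 1
          simp only [dotProduct]
          have : ∀ k, w k * (if k = j then (s : ℤ) else if k = i then (t : ℤ) else 0) =
              (if k = j then w j * s else 0) + (if k = i then w i * t else 0) := by
            intro k
            by_cases hk : k = j
            · subst hk
              simp [hij.symm]
            · by_cases hk2 : k = i
              · subst hk2; simp [hk]
              · simp [hk, hk2]
          rw [Finset.sum_congr rfl fun k _ => this k, Finset.sum_add_distrib]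
          simp
        have hd := congrArg (fun v => w ⬝ᵥ v) e
        simp only at hd
        rw [hval, hval, (Finset.mem_filter.1 h.1).2, (Finset.mem_filter.1 h'.1).2] at hd
        have hdvd : w j ∣ ((t : ℤ) - t') * w i := ⟨s' - s, by linarith⟩
        have htt : t = t' := by
          by_contra hne
          rcases lt_or_gt_of_ne hne with h3 | h3
          · refine hi ((t' : ℤ) - t) (by omega) (by omega) ?_
            have := (dvd_neg.2 hdvd)
            rwa [← neg_mul, neg_sub] at this
          · exact hi ((t : ℤ) - t') (by omega) (by omega) hdvd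
        subst htt
        have hss : s = s' := by
          have : w j * ((s : ℤ) - s') = 0 := by linarith
          rcases mul_eq_zero.1 this with h3 | h3
          · exact absurd h3 hwj
          · omega
        subst hss
        have hyy : y = y' := add_right_cancel e
        rw [hyy]
    calc Λ.card * (Z * min (ht w) Z) ≤ Λ.card * (Z * Z) :=
          Nat.mul_le_mul_left _ (Nat.mul_le_mul_left _ (min_le_right _ _))
      _ ≤ _ := h1
  · -- all classes
    choose E hE1 hE2 hE3 using hall
    have h1 : Λ.card * (Z * ht w) ≤ (4 * Z + 1) ^ N := by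
      rw [← hT]
      have hc : Λ.card * (Z * ht w) = (Λ ×ˢ (range Z ×ˢ range (ht w))).card := by
        rw [card_product, card_product, card_range, card_range]
      rw [hc]
      refine Finset.card_le_card_of_injOn
        (fun t => t.1 + (fun k => if k = j then (t.2.1 : ℤ) else E t.2.2 k)) ?_ ?_
      · rintro ⟨y, s, r⟩ h
        simp only [coe_product, Set.mem_prod, mem_coe, mem_range] at h
        rw [mem_coe, mem_bx]
        refine ht_le fun k => ?_
        have h2 := hcoord y (Finset.mem_filter.1 h.1).1 k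
        rw [abs_le] at h2 ⊢
        have hs := h.2.1
        have h3 := hE1 r k
        simp only [Pi.add_apply]
        split_ifs
        · push_cast; constructor <;> omega
        · push_cast
          rcases h3 with ⟨h4, h5 | h5⟩ <;> constructor <;> omega
      · rintro ⟨y, s, r⟩ h ⟨y', s', r'⟩ h' e
        simp only [coe_product, Set.mem_prod, mem_coe, mem_range] at h h'
        have hval : ∀ (y : Fin N → ℤ) (s r : ℕ), w ⬝ᵥ (y + (fun k => if k = j then (s : ℤ)
            else E r k)) = w ⬝ᵥ y + (w j * s + w ⬝ᵥ E r) := by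
          intro y s r
          rw [dotProduct_add]
          congr 1
          simp only [dotProduct]
          have : ∀ k, w k * (if k = j then (s : ℤ) else E r k) =
              (if k = j then w j * s else 0) + w k * E r k := by
            intro k
            by_cases hk : k = j
            · subst hk
              simp [hE2]
            · simp [hk]
          rw [Finset.sum_congr rfl fun k _ => this k, Finset.sum_add_distrib]
          simp
        have hd := congrArg (fun v => w ⬝ᵥ v) e
        simp only at hd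
        rw [hval, hval, (Finset.mem_filter.1 h.1).2, (Finset.mem_filter.1 h'.1).2] at hd
        have hrr : r = r' := by
          obtain ⟨a, ha⟩ := hE3 r
          obtain ⟨a', ha'⟩ := hE3 r'
          have hdvd : w j ∣ (r : ℤ) - r' := ⟨a' - a + s' - s, by
            have h5 : (r : ℤ) = w ⬝ᵥ E r - w j * a := by linarith
            have h6 : (r' : ℤ) = w ⬝ᵥ E r' - w j * a' := by linarith
            rw [h5, h6]
            have h7 : w ⬝ᵥ E r - w ⬝ᵥ E r' = w j * (s' - s) := by linarith
            linarith⟩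
          by_contra hne
          have h8 : |w j| ≤ |(r : ℤ) - r'| := by
            have hne' : (r : ℤ) - r' ≠ 0 := by omega
            have := Int.le_of_dvd (abs_pos.2 hne') ((abs_dvd_abs _ _).2 hdvd)
            exact this
          rw [hj] at h8
          have h9 := h.2.2
          have h10 := h'.2.2
          rcases abs_cases ((r : ℤ) - r') with ⟨h11, _⟩ | ⟨h11, _⟩ <;> rw [h11] at h8 <;> omega
        subst hrr
        have hss : s = s' := by
          have : w j * ((s : ℤ) - s') = 0 := by linarith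
          rcases mul_eq_zero.1 this with h3 | h3
          · exact absurd h3 hwj
          · omega
        subst hss
        have hyy : y = y' := add_right_cancel e
        rw [hyy]
    calc Λ.card * (Z * min (ht w) Z) ≤ Λ.card * (Z * ht w) :=
          Nat.mul_le_mul_left _ (Nat.mul_le_mul_left _ (min_le_left _ _))
      _ ≤ _ := h1

theorem ht_pos {N : ℕ} {w : Fin N → ℤ} (hw : Pm w) : 1 ≤ ht w := by
  by_contra h
  have h0 : ht w = 0 := by omega
  obtain ⟨c, hc⟩ := hw
  have hall : ∀ i, w i = 0 := by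
    intro i
    have := le_ht w i
    rw [h0] at this
    omega
  simp [hall] at hc

theorem hp_real {N : ℕ} (hN : 2 ≤ N) {w : Fin N → ℤ} (hw : Pm w) (Z : ℕ) (hZ : 1 ≤ Z) :
    (hp w Z : ℝ) ≤ 5 ^ N * ((Z : ℝ) ^ (N - 1) / ht w + (Z : ℝ) ^ (N - 2)) := by
  have h1 := hp_bound hw Z hZ
  have hh := ht_pos hw
  have hZr : (1 : ℝ) ≤ Z := by exact_mod_cast hZ
  have hhr : (1 : ℝ) ≤ ht w := by exact_mod_cast hh
  have h2 : (hp w Z : ℝ) * (Z * (min (ht w) Z : ℕ)) ≤ 5 ^ N * (Z : ℝ) ^ N := by
    calc (hp w Z : ℝ) * (Z * (min (ht w) Z : ℕ)) ≤ ((4 * Z + 1 : ℕ) : ℝ) ^ N := by exact_mod_cast h1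
      _ ≤ (5 * (Z : ℝ)) ^ N := by
          apply pow_le_pow_left₀ (by positivity)
          push_cast
          linarith
      _ = _ := by rw [mul_pow]
  have hZ1 : (Z : ℝ) ^ N = Z * Z ^ (N - 1) := by
    rw [← pow_succ']; congr 1; omega
  have hZ2 : (Z : ℝ) ^ (N - 1) = Z * Z ^ (N - 2) := by
    rw [← pow_succ']; congr 1; omega
  have hZ0 : (0 : ℝ) < Z := by linarith
  rcases le_total (ht w) Z with h | h
  · rw [min_eq_left h] at h2
    have h3 : (hp w Z : ℝ) * ht w ≤ 5 ^ N * (Z : ℝ) ^ (N - 1) := by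
      have : Z * ((hp w Z : ℝ) * ht w) ≤ Z * (5 ^ N * (Z : ℝ) ^ (N - 1)) := by
        rw [hZ1] at h2
        calc Z * ((hp w Z : ℝ) * ht w) = (hp w Z : ℝ) * (Z * (ht w : ℕ)) := by ring
          _ ≤ _ := h2
          _ = _ := by ring
      exact le_of_mul_le_mul_left this hZ0
    have h4 : (hp w Z : ℝ) ≤ 5 ^ N * ((Z : ℝ) ^ (N - 1) / ht w) := by
      rw [← mul_div_assoc, le_div_iff₀ (by linarith)]
      exact h3
    have h5 : (0 : ℝ) ≤ 5 ^ N * (Z : ℝ) ^ (N - 2) := by positivity
    rw [mul_add]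
    linarith
  · rw [min_eq_right h] at h2
    have h3 : (hp w Z : ℝ) ≤ 5 ^ N * (Z : ℝ) ^ (N - 2) := by
      have : (Z * Z : ℝ) * (hp w Z : ℝ) ≤ (Z * Z) * (5 ^ N * (Z : ℝ) ^ (N - 2)) := by
        rw [hZ1, hZ2] at h2
        calc (Z * Z : ℝ) * (hp w Z : ℝ) = (hp w Z : ℝ) * (Z * (Z : ℕ)) := by ring
          _ ≤ _ := h2
          _ = _ := by ring
      exact le_of_mul_le_mul_left this (by positivity)
    have h5 : (0 : ℝ) ≤ 5 ^ N * ((Z : ℝ) ^ (N - 1) / ht w) := by positivity
    rw [mul_add]
    linarith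

/-! ### matrices of rank at most two -/

theorem extract {K W : Type*} [Field K] [AddCommGroup W] [Module K W] [FiniteDimensional K W]
    {ι : Type*} [Fintype ι] (v : ι → W) (m : ℕ)
    (hm : m ≤ Module.finrank K (Submodule.span K (Set.range v))) :
    ∃ J : Finset ι, J.card = m ∧ LinearIndepOn K v (J : Set ι) := by
  classical
  induction m with
  | zero => exact ⟨∅, rfl, by simp⟩
  | succ m ih =>
    obtain ⟨J, hJc, hJ⟩ := ih (by omega)
    have hlt : Module.finrank K (Submodule.span K (v '' (J : Set ι))) ≤ m := by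
      rw [← hJc, ← Finset.coe_image]
      exact (finrank_span_finset_le_card _).trans Finset.card_image_le
    have hex : ∃ i, v i ∉ Submodule.span K (v '' (J : Set ι)) := by
      by_contra hcon
      push Not at hcon
      have hle : Submodule.span K (Set.range v) ≤ Submodule.span K (v '' (J : Set ι)) := by
        rw [Submodule.span_le]
        rintro _ ⟨i, rfl⟩
        exact hcon i
      have := Submodule.finrank_mono hle
      omega
    obtain ⟨i, hi⟩ := hex
    have hiJ : i ∉ J := fun h => hi (Submodule.subset_span ⟨i, h, rfl⟩)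
    refine ⟨insert i J, ?_, ?_⟩
    · rw [Finset.card_insert_of_notMem hiJ, hJc]
    · rw [Finset.coe_insert]
      exact hJ.insert hi

theorem cols {N1 N2 : ℕ} (hN : 1 ≤ N2) (M : Matrix (Fin N1) (Fin N2) ℤ)
    (hM : (M.map (Int.cast : ℤ → ℚ)).rank ≤ 2) :
    ∃ j1 j2 : Fin N2, ∀ x : Fin N1 → ℤ, (x ᵥ* M) j1 = 0 → (x ᵥ* M) j2 = 0 → x ᵥ* M = 0 := by
  classical
  set Q := M.map (Int.cast : ℤ → ℚ) with hQ
  obtain ⟨J, hJc, hJ⟩ := extract (K := ℚ) Q.col _ le_rfl
  rw [← Matrix.rank_eq_finrank_span_cols] at hJc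
  have hspan : ∀ j, Q.col j ∈ Submodule.span ℚ (Q.col '' (J : Set (Fin N2))) := by
    have h1 : Submodule.span ℚ (Q.col '' (J : Set (Fin N2))) = Submodule.span ℚ (Set.range Q.col) := by
      refine Submodule.eq_of_le_of_finrank_eq (Submodule.span_mono (Set.image_subset_range _ _)) ?_
      rw [← Matrix.rank_eq_finrank_span_cols, ← hJc]
      have h2 : LinearIndependent ℚ (fun i : J => Q.col i) := hJ
      have h3 := finrank_span_eq_card h2
      have h4 : Set.range (fun i : J => Q.col i) = Q.col '' (J : Set (Fin N2)) := by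
        ext v; simp
      rw [h4] at h3
      rw [h3, Fintype.card_coe]
    intro j
    rw [h1]
    exact Submodule.subset_span ⟨j, rfl⟩
  have hJ2 : ∃ j1 j2 : Fin N2, J ⊆ {j1, j2} := by
    have h2 : J.card ≤ 2 := by rw [hJc]; exact hM
    rcases Nat.lt_or_ge J.card 1 with h | h
    · have : J = ∅ := Finset.card_eq_zero.1 (by omega)
      exact ⟨⟨0, hN⟩, ⟨0, hN⟩, by rw [this]; exact Finset.empty_subset _⟩
    · rcases Nat.lt_or_ge J.card 2 with h' | h'
      · obtain ⟨a, ha⟩ := Finset.card_eq_one.1 (show J.card = 1 by omega)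
        exact ⟨a, a, by rw [ha]; simp⟩
      · obtain ⟨a, b, _, hab⟩ := Finset.card_eq_two.1 (show J.card = 2 by omega)
        exact ⟨a, b, by rw [hab]⟩
  obtain ⟨j1, j2, hJ12⟩ := hJ2
  refine ⟨j1, j2, fun x h1 h2 => ?_⟩
  funext j
  have h3 : Q.col j ∈ Submodule.span ℚ {Q.col j1, Q.col j2} := by
    refine Submodule.span_mono ?_ (hspan j)
    rintro _ ⟨i, hi, rfl⟩
    have := hJ12 hi
    rw [Finset.mem_insert, Finset.mem_singleton] at this
    rcases this with rfl | rfl
    · exact Set.mem_insert _ _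
    · exact Set.mem_insert_of_mem _ rfl
  obtain ⟨α, β, hαβ⟩ := Submodule.mem_span_pair.1 h3
  have hcast : ∀ j, (((x ᵥ* M) j : ℤ) : ℚ) = ∑ i, (x i : ℚ) * Q.col j i := by
    intro j
    simp only [vecMul, dotProduct, hQ, Matrix.col, Matrix.map_apply, Matrix.transpose_apply]
    push_cast
    rfl
  have h4 : (((x ᵥ* M) j : ℤ) : ℚ) = 0 := by
    rw [hcast, ← hαβ]
    have : ∑ i, (x i : ℚ) * (α • Q.col j1 + β • Q.col j2) i =
        α * ∑ i, (x i : ℚ) * Q.col j1 i + β * ∑ i, (x i : ℚ) * Q.col j2 i := by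
      rw [Finset.mul_sum, Finset.mul_sum, ← Finset.sum_add_distrib]
      refine Finset.sum_congr rfl fun i _ => ?_
      simp only [Pi.add_apply, Pi.smul_apply, smul_eq_mul]
      ring
    rw [this, ← hcast, ← hcast, h1, h2]
    simp
  exact_mod_cast h4

/-- two elements of the row space orthogonal to `y` with `M y ≠ 0` are parallel -/
theorem par {N1 N2 : ℕ} (M : Matrix (Fin N1) (Fin N2) ℤ) {j1 j2 : Fin N2}
    (hj : ∀ x : Fin N1 → ℤ, (x ᵥ* M) j1 = 0 → (x ᵥ* M) j2 = 0 → x ᵥ* M = 0)
    {x x' : Fin N1 → ℤ} {y : Fin N2 → ℤ} (h1 : (x ᵥ* M) ⬝ᵥ y = 0) (h2 : (x' ᵥ* M) ⬝ᵥ y = 0)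
    (hy : M *ᵥ y ≠ 0) :
    (∀ k, (x' ᵥ* M) j1 * (x ᵥ* M) k = (x ᵥ* M) j1 * (x' ᵥ* M) k) ∧
    (∀ k, (x' ᵥ* M) j2 * (x ᵥ* M) k = (x ᵥ* M) j2 * (x' ᵥ* M) k) := by
  classical
  obtain ⟨i, hi⟩ := Function.ne_iff.1 hy
  set z := x ᵥ* M with hz
  set z' := x' ᵥ* M with hz'
  set z'' := (Pi.single i 1 : Fin N1 → ℤ) ᵥ* M with hz''
  have hzy : z'' ⬝ᵥ y ≠ 0 := by
    rw [hz'', ← dotProduct_mulVec, single_one_dotProduct]
    exact hi
  have hT : ((z' j1 * z'' j2 - z' j2 * z'' j1) • x + (z'' j1 * z j2 - z'' j2 * z j1) • x' +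
      (z j1 * z' j2 - z j2 * z' j1) • (Pi.single i 1 : Fin N1 → ℤ)) ᵥ* M =
      (z' j1 * z'' j2 - z' j2 * z'' j1) • z + (z'' j1 * z j2 - z'' j2 * z j1) • z' +
      (z j1 * z' j2 - z j2 * z' j1) • z'' := by
    rw [add_vecMul, add_vecMul, smul_vecMul, smul_vecMul, smul_vecMul]
  have hT0 := hj ((z' j1 * z'' j2 - z' j2 * z'' j1) • x + (z'' j1 * z j2 - z'' j2 * z j1) • x' +
      (z j1 * z' j2 - z j2 * z' j1) • (Pi.single i 1 : Fin N1 → ℤ))
      (by rw [hT]; simp only [Pi.add_apply, Pi.smul_apply, smul_eq_mul]; ring)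
      (by rw [hT]; simp only [Pi.add_apply, Pi.smul_apply, smul_eq_mul]; ring)
  rw [hT] at hT0
  have hD : (z j1 * z' j2 - z j2 * z' j1) = 0 := by
    have h3 := congrArg (fun v => v ⬝ᵥ y) hT0
    simp only [add_dotProduct, smul_dotProduct, zero_dotProduct, h1, h2, smul_eq_mul, mul_zero,
      zero_add] at h3
    rcases mul_eq_zero.1 h3 with h | h
    · exact h
    · exact absurd h hzy
  have key : ∀ j, (j = j1 ∨ j = j2) → ∀ k, z' j * z k = z j * z' k := by
    intro j hjj k
    have e1 : (z' j • x - z j • x') ᵥ* M = z' j • z - z j • z' := by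
      rw [sub_vecMul, smul_vecMul, smul_vecMul]
    have h3 := hj (z' j • x - z j • x')
      (by
        rw [e1]; simp only [Pi.sub_apply, Pi.smul_apply, smul_eq_mul]
        rcases hjj with rfl | rfl
        · ring
        · linarith)
      (by
        rw [e1]; simp only [Pi.sub_apply, Pi.smul_apply, smul_eq_mul]
        rcases hjj with rfl | rfl
        · linarith
        · ring)
    rw [e1] at h3
    have h4 := congrFun h3 k
    simp only [Pi.sub_apply, Pi.smul_apply, smul_eq_mul, Pi.zero_apply] at h4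
    linarith
  exact ⟨key j1 (Or.inl rfl), key j2 (Or.inr rfl)⟩

end Pool.Agent.T6.H81.BH.BIL
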