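import Pool.Agent.H548.TL.Gen
import Pool.Agent.R723.EmbedC

/-! Auxiliary facts for module CD. -/

set_option autoImplicit false

namespace Pool.Agent.T6.H81.BH.CDm

open Module Matrix MvPolynomial
open Pool.Agent.H548.TL (tf g1 g2 g3 Tx Sm Tx_mulVec vecMul_Tx tf_g1 tf_g2 tf_g3 Tx_map exists_ker)

theorem exists_pderiv {N : ℕ} {p : MvPolynomial (Fin N) ℚ} (hp : Irreducible p) :
    ∃ i, ¬ p ∣ pderiv i p := by
  by_contra hcon
  push Not at hcon
  have h0 : ∀ i, pderiv i p = 0 := by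
    intro i
    by_contra hne
    have h1 := totalDegree_le_of_dvd_of_isDomain (hcon i) hne
    have h2 : ∀ m ∈ (pderiv i p).support, (m.sum fun _ e => e) + 1 ≤ p.totalDegree := by
      intro m hm
      rw [MvPolynomial.mem_support_iff, coeff_pderiv] at hm
      have h3 : coeff (m + Finsupp.single i 1) p ≠ 0 := left_ne_zero_of_mul hm
      have h4 := le_totalDegree (MvPolynomial.mem_support_iff.2 h3)
      rw [Finsupp.sum_add_index' (fun _ => rfl) (fun _ _ _ => rfl),
        Finsupp.sum_single_index rfl] at h4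
      exact h4
    have hne' : (pderiv i p).support.Nonempty := by
      rw [Finset.nonempty_iff_ne_empty, Ne, MvPolynomial.support_eq_empty]
      exact hne
    obtain ⟨m, hm, hmax⟩ := Finset.exists_mem_eq_sup _ hne' (fun m => m.sum fun _ e => e)
    have h5 : (pderiv i p).totalDegree = m.sum fun _ e => e := hmax
    have := h2 m hm
    omega
  have hC : p = C (coeff 0 p) := by
    ext s
    rw [coeff_C]
    split_ifs with hs
    · rw [← hs]
    · obtain ⟨i, hi⟩ : ∃ i, s i ≠ 0 := by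
        by_contra hcon2
        push Not at hcon2
        exact hs (Finsupp.ext fun i => (hcon2 i).symm)
      have h1 := congrArg (coeff (s - Finsupp.single i 1)) (h0 i)
      rw [coeff_pderiv, coeff_zero] at h1
      have h2 : s - Finsupp.single i 1 + Finsupp.single i 1 = s := by
        refine tsub_add_cancel_of_le ?_
        rw [Finsupp.single_le_iff]
        omega
      rw [h2] at h1
      rcases mul_eq_zero.1 h1 with h | h
      · exact h
      · exfalso
        have : (0 : ℚ) < ((s - Finsupp.single i 1 : Fin N →₀ ℕ) i : ℚ) + 1 := by positivity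
        linarith
  by_cases ha : coeff 0 p = 0
  · rw [ha, C_0] at hC
    exact hp.ne_zero hC
  · apply hp.not_isUnit
    rw [hC]
    exact (isUnit_iff_ne_zero.2 ha).map C

theorem g1_map {R S : Type*} [CommRing R] [CommRing S] {N1 N2 N3 : ℕ}
    (T : Fin N1 → Fin N2 → Fin N3 → ℤ) (φ : R →+* S) (y : Fin N2 → R) (z : Fin N3 → R)
    (i : Fin N1) : φ (g1 T y z i) = g1 T (fun j => φ (y j)) (fun k => φ (z k)) i := by
  unfold g1
  simp

theorem g2_map {R S : Type*} [CommRing R] [CommRing S] {N1 N2 N3 : ℕ}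
    (T : Fin N1 → Fin N2 → Fin N3 → ℤ) (φ : R →+* S) (x : Fin N1 → R) (z : Fin N3 → R)
    (i : Fin N2) : φ (g2 T x z i) = g2 T (fun j => φ (x j)) (fun k => φ (z k)) i := by
  unfold g2
  simp

theorem g3_map {R S : Type*} [CommRing R] [CommRing S] {N1 N2 N3 : ℕ}
    (T : Fin N1 → Fin N2 → Fin N3 → ℤ) (φ : R →+* S) (x : Fin N1 → R) (y : Fin N2 → R)
    (i : Fin N3) : φ (g3 T x y i) = g3 T (fun j => φ (x j)) (fun k => φ (y k)) i := by
  unfold g3
  simp

/-- the derivative of the generic matrix -/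
theorem deriv_Tx {N1 N2 N3 : ℕ} (T : Fin N1 → Fin N2 → Fin N3 → ℤ) (i : Fin N1) (j : Fin N2)
    (k : Fin N3) : pderiv i (Tx T (fun i => (X i : MvPolynomial (Fin N1) ℚ)) j k) =
      ((T i j k : ℤ) : MvPolynomial (Fin N1) ℚ) := by
  classical
  unfold Tx
  simp only [of_apply, map_sum]
  rw [Finset.sum_eq_single i]
  · have h1 : ((T i j k : ℤ) : MvPolynomial (Fin N1) ℚ) = C ((T i j k : ℤ) : ℚ) := by simp
    rw [h1, pderiv_C_mul, pderiv_X_self, mul_one]
  · intro l _ hl
    have h1 : ((T l j k : ℤ) : MvPolynomial (Fin N1) ℚ) = C ((T l j k : ℤ) : ℚ) := by simp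
    rw [h1, pderiv_C_mul, pderiv_X_of_ne hl, mul_zero]
  · intro h
    exact absurd (Finset.mem_univ i) h

/-- polynomial vectors in the kernels modulo `p`: the vector `g1` is proportional to the gradient -/
theorem key {N1 N2 N3 : ℕ} (T : Fin N1 → Fin N2 → Fin N3 → ℤ) (p : MvPolynomial (Fin N1) ℚ)
    (ξ : Fin N2 → MvPolynomial (Fin N1) ℚ) (η : Fin N3 → MvPolynomial (Fin N1) ℚ)
    (hξ : ∀ k, p ∣ (ξ ᵥ* Tx T (fun i => (X i : MvPolynomial (Fin N1) ℚ))) k)
    (hη : ∀ j, p ∣ (Tx T (fun i => (X i : MvPolynomial (Fin N1) ℚ)) *ᵥ η) j) (a b : Fin N1) :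
    p ∣ pderiv a p * g1 T ξ η b - pderiv b p * g1 T ξ η a := by
  obtain ⟨M, hM⟩ : ∃ M : Matrix (Fin N2) (Fin N3) (MvPolynomial (Fin N1) ℚ),
    M = Tx T (fun i => (X i : MvPolynomial (Fin N1) ℚ)) := ⟨_, rfl⟩
  rw [← hM] at hξ hη
  choose q hq using hη
  choose u hu using hξ
  -- the derivative of `M η = p q`
  have hd : ∀ (c : Fin N1) (j : Fin N2), ∑ k, pderiv c (M j k) * η k + ∑ k, M j k * pderiv c (η k) =
      pderiv c p * q j + p * pderiv c (q j) := by
    intro c j
    have h1 := congrArg (pderiv c) (hq j)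
    rw [pderiv_mul] at h1
    rw [← h1, ← Finset.sum_add_distrib]
    unfold mulVec dotProduct
    rw [map_sum]
    refine Finset.sum_congr rfl fun k _ => ?_
    rw [pderiv_mul]
  -- contraction with `ξ`
  have he : ∀ c : Fin N1, g1 T ξ η c = ∑ j, ξ j * ∑ k, pderiv c (M j k) * η k := by
    intro c
    unfold g1
    refine Finset.sum_congr rfl fun j _ => ?_
    rw [Finset.mul_sum]
    refine Finset.sum_congr rfl fun k _ => ?_
    rw [hM, deriv_Tx]
    ring
  have hf : ∀ c : Fin N1, ∑ j, ξ j * ∑ k, M j k * pderiv c (η k) =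
      p * ∑ k, u k * pderiv c (η k) := by
    intro c
    have h1 : ∑ j, ξ j * ∑ k, M j k * pderiv c (η k) = (ξ ᵥ* M) ⬝ᵥ (fun k => pderiv c (η k)) := by
      rw [← dotProduct_mulVec]
      rfl
    rw [h1]
    unfold dotProduct
    rw [Finset.mul_sum]
    refine Finset.sum_congr rfl fun k _ => ?_
    rw [hu k]
    ring
  have hg : ∀ c : Fin N1, g1 T ξ η c = pderiv c p * (∑ j, ξ j * q j) +
      p * ((∑ j, ξ j * pderiv c (q j)) - ∑ k, u k * pderiv c (η k)) := by
    intro c
    have h1 : g1 T ξ η c + ∑ j, ξ j * ∑ k, M j k * pderiv c (η k) =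
        pderiv c p * (∑ j, ξ j * q j) + p * (∑ j, ξ j * pderiv c (q j)) := by
      rw [he c, ← Finset.sum_add_distrib, Finset.mul_sum, Finset.mul_sum, ← Finset.sum_add_distrib]
      refine Finset.sum_congr rfl fun j _ => ?_
      rw [← mul_add, hd c j]
      ring
    rw [hf c] at h1
    linear_combination h1
  rw [hg a, hg b]
  refine ⟨pderiv a p * ((∑ j, ξ j * pderiv b (q j)) - ∑ k, u k * pderiv b (η k)) -
    pderiv b p * ((∑ j, ξ j * pderiv a (q j)) - ∑ k, u k * pderiv a (η k)), ?_⟩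
  ring

/-- independent rows -/
theorem pick {K : Type*} [Field K] {m n : ℕ} (A : Matrix (Fin m) (Fin n) K) (h : 3 ≤ A.rank) :
    ∃ g : Fin 3 → Fin m, LinearIndependent K (A.submatrix g id).row := by
  rw [Matrix.rank_eq_finrank_span_row] at h
  obtain ⟨f, hf, -, hli⟩ := Submodule.exists_fun_fin_finrank_span_eq K (Set.range A.row)
  have hf' : ∀ s : Fin 3, ∃ j, A.row j = f (Fin.castLE h s) := fun s => hf _
  choose g hg using hf'
  refine ⟨g, ?_⟩
  have h2 := hli.comp (Fin.castLE h) (Fin.castLE_injective h)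
  have h3 : (A.submatrix g id).row = f ∘ (Fin.castLE h) := by
    funext s
    exact hg s
  rw [h3]
  exact h2

theorem minor {K : Type*} [Field K] {m n : ℕ} (A : Matrix (Fin m) (Fin n) K) (h : 3 ≤ A.rank) :
    ∃ (g : Fin 3 → Fin m) (f : Fin 3 → Fin n), (A.submatrix g f).det ≠ 0 := by
  obtain ⟨g, hg⟩ := pick A h
  have h1 := hg.rank_matrix
  rw [Fintype.card_fin] at h1
  obtain ⟨f, hf⟩ := pick (A.submatrix g id)ᵀ (by rw [rank_transpose, h1])
  refine ⟨g, f, ?_⟩
  have h2 : ((A.submatrix g id)ᵀ.submatrix f id) = (A.submatrix g f)ᵀ := rfl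
  rw [h2] at hf
  have h3 := (Matrix.linearIndependent_rows_iff_isUnit (A := (A.submatrix g f)ᵀ)).1 hf
  rw [Matrix.isUnit_iff_isUnit_det, det_transpose, isUnit_iff_ne_zero] at h3
  exact h3

end Pool.Agent.T6.H81.BH.CDm
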