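import Pool.Agent.T6.H81.BH.Defs
import Pool.Agent.T6.H81.BH.CD1

/-! Module CD: the minors of size three have no common factor. -/

set_option autoImplicit false

namespace Pool.Agent.T6.H81.BH

namespace CDm

open Module Matrix MvPolynomial
open Pool.Agent.H548.TL (tf g1 g2 g3 Tx Sm Tx_mulVec vecMul_Tx tf_g1 tf_g2 tf_g3 Tx_map exists_ker)

/-- the argument over a field of fractions -/
theorem field_step {N1 N2 N3 : ℕ} (T : Fin N1 → Fin N2 → Fin N3 → ℤ) (h1 : 2 ≤ N1) (h2 : 4 ≤ N2)
    (h3 : 4 ≤ N3) (hs : Sm ℂ T) (p : MvPolynomial (Fin N1) ℚ) (hp : Irreducible p)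
    (K : Type) [Field K] (φ : MvPolynomial (Fin N1) ℚ →+* K) (hφ : ∀ f, φ f = 0 ↔ p ∣ f)
    (hφs : ∀ (n : ℕ) (v : Fin n → K), ∃ (b : K) (w : Fin n → MvPolynomial (Fin N1) ℚ), b ≠ 0 ∧
      ∀ i, φ (w i) = b * v i) (σ : K →+* ℂ)
    (hr : (Tx T (fun i => φ (X i))).rank ≤ 2) : False := by
  obtain ⟨M, hM⟩ : ∃ M : Matrix (Fin N2) (Fin N3) K, M = Tx T (fun i => φ (X i)) := ⟨_, rfl⟩
  rw [← hM] at hr
  -- left kernel
  obtain ⟨ξ, hξ0, hξ⟩ := exists_ker Mᵀ (by rw [rank_transpose]; omega)
  rw [mulVec_transpose] at hξ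
  obtain ⟨a, ha⟩ := exists_pderiv hp
  have ha0 : φ (pderiv a p) ≠ 0 := fun h => ha ((hφ _).1 h)
  -- right kernel
  let ℓ : LinearMap.ker M.mulVecLin →ₗ[K] K :=
    { toFun := fun η => g1 T ξ (η : Fin N3 → K) a
      map_add' := by
        intro x y
        show g1 T ξ ((x : Fin N3 → K) + y) a = g1 T ξ (x : Fin N3 → K) a + g1 T ξ (y : Fin N3 → K) a
        unfold g1
        rw [← Finset.sum_add_distrib]
        refine Finset.sum_congr rfl fun j _ => ?_
        rw [← Finset.sum_add_distrib]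
        refine Finset.sum_congr rfl fun k _ => ?_
        rw [Pi.add_apply]
        ring
      map_smul' := by
        intro c x
        show g1 T ξ (c • (x : Fin N3 → K)) a = c • g1 T ξ (x : Fin N3 → K) a
        unfold g1
        rw [smul_eq_mul, Finset.mul_sum]
        refine Finset.sum_congr rfl fun j _ => ?_
        rw [Finset.mul_sum]
        refine Finset.sum_congr rfl fun k _ => ?_
        rw [Pi.smul_apply, smul_eq_mul]
        ring }
  have hdim : 2 ≤ finrank K (LinearMap.ker M.mulVecLin) := by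
    have h4 := LinearMap.finrank_range_add_finrank_ker M.mulVecLin
    rw [finrank_fintype_fun_eq_card, Fintype.card_fin] at h4
    have h5 : finrank K (LinearMap.range M.mulVecLin) = M.rank := rfl
    omega
  have hker : LinearMap.ker ℓ ≠ ⊥ := by
    apply LinearMap.ker_ne_bot_of_finrank_lt
    rw [finrank_self]
    omega
  obtain ⟨η', hη1, hη2⟩ := Submodule.exists_mem_ne_zero_of_ne_bot hker
  obtain ⟨η, hηd⟩ : ∃ η : Fin N3 → K, η = (η' : Fin N3 → K) := ⟨_, rfl⟩
  have hη0 : η ≠ 0 := by
    rw [hηd]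
    intro h
    exact hη2 (Subtype.ext h)
  have hηM : M *ᵥ η = 0 := by
    rw [hηd]
    have := η'.2
    rwa [LinearMap.mem_ker, Matrix.mulVecLin_apply] at this
  have hηa : g1 T ξ η a = 0 := by
    rw [hηd]
    exact hη1
  -- polynomial representatives
  obtain ⟨b, ξw, hb, hξw⟩ := hφs N2 ξ
  obtain ⟨b', ηw, hb', hηw⟩ := hφs N3 η
  have hφM : ∀ j k, φ (Tx T (fun i => (X i : MvPolynomial (Fin N1) ℚ)) j k) = M j k := by
    intro j k
    rw [hM]
    have := congrFun (congrFun (Tx_map T φ (fun i => (X i : MvPolynomial (Fin N1) ℚ))) j) k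
    rwa [Matrix.map_apply] at this
  have hk1 : ∀ k, p ∣ (ξw ᵥ* Tx T (fun i => (X i : MvPolynomial (Fin N1) ℚ))) k := by
    intro k
    rw [← hφ]
    unfold vecMul dotProduct
    rw [map_sum]
    have h5 := congrFun hξ k
    unfold vecMul dotProduct at h5
    calc ∑ j, φ (ξw j * Tx T (fun i => (X i : MvPolynomial (Fin N1) ℚ)) j k) =
        b * ∑ j, ξ j * M j k := by
          rw [Finset.mul_sum]
          refine Finset.sum_congr rfl fun j _ => ?_
          rw [map_mul, hξw, hφM]
          ring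
      _ = 0 := by
          rw [h5]
          simp
  have hk2 : ∀ j, p ∣ (Tx T (fun i => (X i : MvPolynomial (Fin N1) ℚ)) *ᵥ ηw) j := by
    intro j
    rw [← hφ]
    unfold mulVec dotProduct
    rw [map_sum]
    have h5 := congrFun hηM j
    unfold mulVec dotProduct at h5
    calc ∑ k, φ (Tx T (fun i => (X i : MvPolynomial (Fin N1) ℚ)) j k * ηw k) =
        b' * ∑ k, M j k * η k := by
          rw [Finset.mul_sum]
          refine Finset.sum_congr rfl fun k _ => ?_
          rw [map_mul, hηw, hφM]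
          ring
      _ = 0 := by
          rw [h5]
          simp
  have hg1 : ∀ c, φ (g1 T ξw ηw c) = b * b' * g1 T ξ η c := by
    intro c
    rw [g1_map]
    unfold g1
    rw [Finset.mul_sum]
    refine Finset.sum_congr rfl fun j _ => ?_
    rw [Finset.mul_sum]
    refine Finset.sum_congr rfl fun k _ => ?_
    show (T c j k : K) * φ (ξw j) * φ (ηw k) = _
    rw [hξw, hηw]
    ring
  have hg : g1 T ξ η = 0 := by
    funext c
    have h5 := key T p ξw ηw hk1 hk2 a c
    rw [← hφ, map_sub, map_mul, map_mul, hg1, hg1, hηa, mul_zero, mul_zero, sub_zero] at h5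
    rcases mul_eq_zero.1 h5 with h | h
    · exact absurd h ha0
    · rcases mul_eq_zero.1 h with h | h
      · exact absurd h (mul_ne_zero hb hb')
      · exact h
  have hg2 : g2 T (fun i => φ (X i)) η = 0 := by
    rw [← Tx_mulVec, ← hM, hηM]
  have hg3 : g3 T (fun i => φ (X i)) ξ = 0 := by
    rw [← vecMul_Tx, ← hM, hξ]
  have hx0 : (fun i => φ (X i : MvPolynomial (Fin N1) ℚ)) ≠ 0 := by
    intro h
    have e0 : p ∣ X (⟨0, by omega⟩ : Fin N1) := (hφ _).1 (congrFun h _)
    have e1 : p ∣ X (⟨1, by omega⟩ : Fin N1) := (hφ _).1 (congrFun h _)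
    obtain ⟨u, hu⟩ := e0
    obtain ⟨v, hv⟩ := e1
    have hX : Irreducible (X (⟨0, by omega⟩ : Fin N1) : MvPolynomial (Fin N1) ℚ) :=
      MvPolynomial.X_prime.irreducible
    rcases hX.isUnit_or_isUnit hu with h' | h'
    · exact hp.not_isUnit h'
    · -- `p` is associated with `X 0`
      obtain ⟨w, hw⟩ := h'.exists_right_inv
      have hpX : p = X (⟨0, by omega⟩ : Fin N1) * w := by
        rw [hu, mul_assoc, hw, mul_one]
      rw [hpX] at hv
      have h6 := congrArg (MvPolynomial.eval (fun i : Fin N1 => if i.val = 0 then (0 : ℚ) else 1)) hv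
      simp at h6
  -- complex point
  refine hs (fun i => σ (φ (X i))) (fun j => σ (ξ j)) (fun k => σ (η k)) ?_ ?_ ?_ ⟨?_, ?_, ?_⟩
  · intro h
    apply hx0
    funext i
    exact (map_eq_zero σ).1 (congrFun h i)
  · intro h
    apply hξ0
    funext i
    exact (map_eq_zero σ).1 (congrFun h i)
  · intro h
    apply hη0
    funext i
    exact (map_eq_zero σ).1 (congrFun h i)
  · funext i
    rw [← g1_map, hg]
    simp
  · funext i
    rw [← g2_map T σ (fun i => φ (X i)) η, hg2]
    simp
  · funext i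
    rw [← g3_map T σ (fun i => φ (X i)) ξ, hg3]
    simp

theorem countable_frac (A : Type) [CommRing A] [IsDomain A] [Countable A] :
    Countable (FractionRing A) := by
  have hsurj : Function.Surjective (fun t : A × nonZeroDivisors A =>
      (Localization.mk t.1 t.2 : FractionRing A)) := by
    intro z
    induction z using Localization.induction_on with
    | H y => exact ⟨y, rfl⟩
  exact hsurj.countable

theorem countable_poly (N : ℕ) : Countable (MvPolynomial (Fin N) ℚ) := by
  rw [← Cardinal.mk_le_aleph0_iff]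
  refine MvPolynomial.cardinalMk_le_max.trans ?_
  simp

end CDm

open Module Matrix MvPolynomial
open Pool.Agent.H548.TL (Tx Sm Tx_map)

theorem cD : StmtCD := by
  intro N1 N2 N3 T h1 h2 h3 hs p hp
  by_contra hcon
  push Not at hcon
  have hprime : Prime p := hp.prime
  have hI : (Ideal.span {p}).IsPrime := (Ideal.span_singleton_prime hp.ne_zero).2 hprime
  have := hI
  have := CDm.countable_poly N1
  have hcA : Countable (MvPolynomial (Fin N1) ℚ ⧸ Ideal.span {p}) :=
    Ideal.Quotient.mk_surjective.countable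
  have hcK := CDm.countable_frac (MvPolynomial (Fin N1) ℚ ⧸ Ideal.span {p})
  let K := FractionRing (MvPolynomial (Fin N1) ℚ ⧸ Ideal.span {p})
  let φ : MvPolynomial (Fin N1) ℚ →+* K :=
    (algebraMap (MvPolynomial (Fin N1) ℚ ⧸ Ideal.span {p}) K).comp (Ideal.Quotient.mk _)
  have hφ : ∀ f, φ f = 0 ↔ p ∣ f := by
    intro f
    show algebraMap (MvPolynomial (Fin N1) ℚ ⧸ Ideal.span {p}) K (Ideal.Quotient.mk _ f) = 0 ↔ _
    rw [FaithfulSMul.algebraMap_eq_zero_iff, Ideal.Quotient.eq_zero_iff_mem,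
      Ideal.mem_span_singleton]
  have : CharZero K := by
    have hinj : Function.Injective (φ.comp (C : ℚ →+* MvPolynomial (Fin N1) ℚ)) :=
      RingHom.injective _
    exact charZero_of_injective_ringHom hinj
  obtain ⟨σ⟩ := Pool.Agent.R723.exists_ringHom_complex K
  refine CDm.field_step T h1 h2 h3 hs p hp K φ hφ ?_ σ ?_
  · intro n v
    obtain ⟨b, hb⟩ := IsLocalization.exist_integer_multiples_of_finite
      (nonZeroDivisors (MvPolynomial (Fin N1) ℚ ⧸ Ideal.span {p})) v
    have hb' : ∀ i, ∃ w : MvPolynomial (Fin N1) ℚ, φ w =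
        algebraMap (MvPolynomial (Fin N1) ℚ ⧸ Ideal.span {p}) K b * v i := by
      intro i
      obtain ⟨t, ht⟩ := hb i
      obtain ⟨w, hw⟩ := Ideal.Quotient.mk_surjective t
      refine ⟨w, ?_⟩
      show algebraMap (MvPolynomial (Fin N1) ℚ ⧸ Ideal.span {p}) K (Ideal.Quotient.mk _ w) = _
      rw [hw, ht, Algebra.smul_def]
    choose w hw using hb'
    refine ⟨algebraMap (MvPolynomial (Fin N1) ℚ ⧸ Ideal.span {p}) K b, w, ?_, hw⟩
    exact IsLocalization.to_map_ne_zero_of_mem_nonZeroDivisors K le_rfl b.2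
  · by_contra hr
    push Not at hr
    obtain ⟨f, g, hfg⟩ := CDm.minor _ (show 3 ≤ (Tx T (fun i => φ (X i))).rank from hr)
    apply hfg
    have h4 := (hφ _).2 (hcon f g)
    rw [RingHom.map_det, RingHom.mapMatrix_apply, ← submatrix_map, Tx_map] at h4
    exact h4

end Pool.Agent.T6.H81.BH
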