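import Mathlib
import Pool.Agent.T6.H81.BH.Defs
import Pool.Agent.H548.TL.Ev

/-!
Module CNT: the common zeros of two polynomials without common factor.
-/

set_option autoImplicit false

namespace Pool.Agent.T6.H81.BH.ModCnt

open Finset
open Pool.Agent.H548.WM (ht bx mem_bx card_bx card_bx_le)

/-- In a unique factorization domain `R`: if the irreducible `P` does not divide `G` in `R[X]`,
the ideal of the two contains a nonzero constant. -/
theorem exists_const {R : Type*} [CommRing R] [IsDomain R] [UniqueFactorizationMonoid R]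
    {P G : Polynomial R} (hP : Irreducible P) (hG : ¬ P ∣ G) :
    ∃ (h : R) (a b : Polynomial R), h ≠ 0 ∧ a * P + b * G = Polynomial.C h := by
  classical
  by_cases h0 : P.natDegree = 0
  · obtain ⟨c, hc⟩ := Polynomial.natDegree_eq_zero.mp h0
    refine ⟨c, 1, 0, ?_, ?_⟩
    · rintro rfl
      apply hP.ne_zero
      rw [← hc, Polynomial.C_0]
    · rw [one_mul, zero_mul, add_zero, hc]
  · have hprim := hP.isPrimitive h0
    let _ : NormalizedGCDMonoid R := Classical.choice inferInstance
    set K := FractionRing R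
    have hirr : Irreducible (P.map (algebraMap R K)) :=
      (hprim.irreducible_iff_irreducible_map_fraction_map (K := K)).mp hP
    have hnd : ¬ P.map (algebraMap R K) ∣ G.map (algebraMap R K) := by
      intro h
      exact hG (hprim.dvd_of_fraction_map_dvd_fraction_map (K := K) h)
    have hco : IsCoprime (P.map (algebraMap R K)) (G.map (algebraMap R K)) :=
      (hirr.coprime_iff_not_dvd).mpr hnd
    obtain ⟨a', b', hab⟩ := hco
    obtain ⟨c, hc, hc'⟩ := IsLocalization.integerNormalization_spec (nonZeroDivisors R) a'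
    obtain ⟨d, hd, hd'⟩ := IsLocalization.integerNormalization_spec (nonZeroDivisors R) b'
    set a := IsLocalization.integerNormalization (nonZeroDivisors R) a'
    set b := IsLocalization.integerNormalization (nonZeroDivisors R) b'
    refine ⟨c * d, Polynomial.C d * a, Polynomial.C c * b,
      mul_ne_zero (nonZeroDivisors.ne_zero hc) (nonZeroDivisors.ne_zero hd), ?_⟩
    apply Polynomial.map_injective (algebraMap R K) (IsFractionRing.injective R K)
    have h1 : c • a' = Polynomial.C (algebraMap R K c) * a' := by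
      rw [← algebraMap_smul K c a', Polynomial.smul_eq_C_mul]
    have h2 : d • b' = Polynomial.C (algebraMap R K d) * b' := by
      rw [← algebraMap_smul K d b', Polynomial.smul_eq_C_mul]
    simp only [Polynomial.map_add, Polynomial.map_mul, Polynomial.map_C, hc', hd', h1, h2]
    rw [map_mul, Polynomial.C_mul]
    linear_combination (Polynomial.C ((algebraMap R K) c) * Polynomial.C ((algebraMap R K) d)) * hab

/-- An irreducible constant which does not divide some coefficient. -/
theorem exists_coeff {R : Type*} [CommRing R] [IsDomain R]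
    {P G : Polynomial R} (hP : Irreducible P) (hG : ¬ P ∣ G) {q : R} (hq : Irreducible q) :
    ∃ Q : Polynomial R, (Q = P ∨ Q = G) ∧ ∃ i, ¬ q ∣ Q.coeff i := by
  by_contra hcon
  push Not at hcon
  have h1 : Polynomial.C q ∣ P := Polynomial.C_dvd_iff_dvd_coeff _ _ |>.mpr (hcon P (Or.inl rfl))
  have h2 : Polynomial.C q ∣ G := Polynomial.C_dvd_iff_dvd_coeff _ _ |>.mpr (hcon G (Or.inr rfl))
  have h3 : ¬ IsUnit (Polynomial.C q) := by
    rw [Polynomial.isUnit_C]
    exact hq.not_isUnit
  obtain ⟨r, hr⟩ := h1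
  have h4 : IsUnit r := (hP.isUnit_or_isUnit hr).resolve_left h3
  obtain ⟨u, rfl⟩ := h4
  apply hG
  refine dvd_trans ⟨((u⁻¹ : (Polynomial R)ˣ) : Polynomial R), ?_⟩ h2
  rw [hr, mul_assoc, Units.mul_inv, mul_one]

/-- A nonzero element with value zero has an irreducible factor with value zero. -/
theorem exists_factor {R K : Type*} [CommRing R] [IsDomain R] [UniqueFactorizationMonoid R]
    [Field K] {h : R} (h0 : h ≠ 0) : ∃ s : Multiset R, (∀ q ∈ s, Irreducible q) ∧
      ∀ φ : R →+* K, φ h = 0 → ∃ q ∈ s, φ q = 0 := by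
  refine ⟨UniqueFactorizationMonoid.factors h,
    fun q hq => UniqueFactorizationMonoid.irreducible_of_factor q hq, ?_⟩
  intro φ hφ
  obtain ⟨u, hu⟩ := UniqueFactorizationMonoid.factors_prod h0
  rw [← hu, map_mul, mul_eq_zero] at hφ
  rcases hφ with hφ | hφ
  · rw [map_multiset_prod, Multiset.prod_eq_zero_iff, Multiset.mem_map] at hφ
    exact hφ
  · exact absurd hφ (u.isUnit.map φ).ne_zero

open Classical in
/-- The points of the box with `tail` in a set and at most `n` values of the first coordinate. -/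
theorem card_fib {N n : ℕ} {B : Finset (Fin (N + 1) → ℤ)} {t : Finset (Fin N → ℤ)}
    (hB : ∀ z ∈ B, Fin.tail z ∈ t)
    (hn : ∀ z' ∈ t, (B.filter fun z => Fin.tail z = z').card ≤ n) : B.card ≤ n * t.card := by
  exact Finset.card_le_mul_card_image_of_maps_to hB n hn

theorem tail_mem {N ρ : ℕ} {z : Fin (N + 1) → ℤ} (hz : z ∈ bx (N + 1) ρ) :
    Fin.tail z ∈ bx N ρ := by
  unfold bx at *
  rw [Fintype.mem_piFinset] at *
  intro i
  exact hz i.succ

theorem zero_mem {N ρ : ℕ} {z : Fin (N + 1) → ℤ} (hz : z ∈ bx (N + 1) ρ) :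
    z 0 ∈ Finset.Icc (-(ρ : ℤ)) ρ := by
  unfold bx at *
  rw [Fintype.mem_piFinset] at hz
  exact hz 0

/-- Evaluation. -/
theorem eval_tail {N : ℕ} (f : MvPolynomial (Fin (N + 1)) ℚ) (z : Fin (N + 1) → ℤ) :
    MvPolynomial.eval (fun i => (z i : ℚ)) f =
      Polynomial.eval (z 0 : ℚ) (Polynomial.map
        (MvPolynomial.eval (fun i => (Fin.tail z i : ℚ))) (MvPolynomial.finSuccEquiv ℚ N f)) := by
  rw [← MvPolynomial.eval_eq_eval_mv_eval']
  congr 2
  funext i
  refine Fin.cases ?_ (fun j => ?_) i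
  · rfl
  · rfl

open Classical in
/-- The zeros over the zeros of the irreducible `q`. -/
theorem card_over {N : ℕ} (ih : ∀ (p g : MvPolynomial (Fin N) ℚ), Irreducible p → ¬ p ∣ g →
      ∃ C : ℝ, 0 ≤ C ∧ ∀ ρ : ℕ, 1 ≤ ρ →
        ((((bx N ρ).filter fun z => MvPolynomial.eval (fun i => (z i : ℚ)) p = 0 ∧
          MvPolynomial.eval (fun i => (z i : ℚ)) g = 0).card : ℕ) : ℝ) * (ρ : ℝ) ^ 2 ≤
          C * (ρ : ℝ) ^ N)
    (p g : MvPolynomial (Fin (N + 1)) ℚ) (hp : Irreducible p) (hg : ¬ p ∣ g)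
    (q : MvPolynomial (Fin N) ℚ) (hq : Irreducible q) :
    ∃ C : ℝ, 0 ≤ C ∧ ∀ ρ : ℕ, 1 ≤ ρ →
      ((((bx (N + 1) ρ).filter fun z => (MvPolynomial.eval (fun i => (z i : ℚ)) p = 0 ∧
        MvPolynomial.eval (fun i => (z i : ℚ)) g = 0) ∧
        MvPolynomial.eval (fun i => (Fin.tail z i : ℚ)) q = 0).card : ℕ) : ℝ) * (ρ : ℝ) ^ 2 ≤
        C * (ρ : ℝ) ^ (N + 1) := by
  have hN : 1 ≤ N := by
    rcases Nat.eq_zero_or_pos N with rfl | h
    · exfalso
      have h1 := MvPolynomial.eq_C_of_isEmpty q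
      apply hq.not_isUnit
      rw [h1]
      apply IsUnit.map
      rw [isUnit_iff_ne_zero]
      intro h0
      apply hq.ne_zero
      rw [h1, h0, map_zero]
    · exact h
  have hP : Irreducible (MvPolynomial.finSuccEquiv ℚ N p) :=
    (MulEquiv.irreducible_iff (MvPolynomial.finSuccEquiv ℚ N)).mpr hp
  have hG : ¬ MvPolynomial.finSuccEquiv ℚ N p ∣ MvPolynomial.finSuccEquiv ℚ N g := by
    intro h
    exact hg ((map_dvd_iff (MvPolynomial.finSuccEquiv ℚ N)).mp h)
  obtain ⟨Q, hQ, i, hc⟩ := exists_coeff hP hG hq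
  obtain ⟨C1, hC1, hC1'⟩ := ih q (Q.coeff i) hq hc
  refine ⟨3 * C1 + Q.natDegree * (q.totalDegree * 3 ^ (N - 1)), by positivity, fun ρ hρ => ?_⟩
  have hρ' : (1 : ℝ) ≤ ρ := by exact_mod_cast hρ
  set B1 := (bx (N + 1) ρ).filter fun z =>
    (MvPolynomial.eval (fun i => (Fin.tail z i : ℚ)) q = 0 ∧
      MvPolynomial.eval (fun i => (Fin.tail z i : ℚ)) (Q.coeff i) = 0) with hB1
  set B2 := (bx (N + 1) ρ).filter fun z =>
    (MvPolynomial.eval (fun i => (Fin.tail z i : ℚ)) q = 0 ∧
      MvPolynomial.eval (fun i => (Fin.tail z i : ℚ)) (Q.coeff i) ≠ 0) ∧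
      Polynomial.eval (z 0 : ℚ) (Polynomial.map
        (MvPolynomial.eval (fun i => (Fin.tail z i : ℚ))) Q) = 0 with hB2
  have hsub : ((bx (N + 1) ρ).filter fun z => (MvPolynomial.eval (fun i => (z i : ℚ)) p = 0 ∧
        MvPolynomial.eval (fun i => (z i : ℚ)) g = 0) ∧
        MvPolynomial.eval (fun i => (Fin.tail z i : ℚ)) q = 0) ⊆ B1 ∪ B2 := by
    intro z hz
    rw [mem_filter] at hz
    rw [mem_union, hB1, hB2, mem_filter, mem_filter]
    by_cases hcz : MvPolynomial.eval (fun i => (Fin.tail z i : ℚ)) (Q.coeff i) = 0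
    · exact Or.inl ⟨hz.1, hz.2.2, hcz⟩
    · refine Or.inr ⟨hz.1, ⟨hz.2.2, hcz⟩, ?_⟩
      rcases hQ with rfl | rfl
      · rw [← eval_tail]
        exact hz.2.1.1
      · rw [← eval_tail]
        exact hz.2.1.2
  have hcard := (card_le_card hsub).trans (card_union_le _ _)
  -- the first set
  have hb1 : B1.card ≤ (3 * ρ) * ((bx N ρ).filter fun z =>
      MvPolynomial.eval (fun i => (z i : ℚ)) q = 0 ∧
          MvPolynomial.eval (fun i => (z i : ℚ)) (Q.coeff i) = 0).card := by
    apply card_fib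
    · intro z hz
      rw [hB1, mem_filter] at hz
      rw [mem_filter]
      exact ⟨tail_mem hz.1, hz.2⟩
    · intro z' _
      have h1 : (B1.filter fun z => Fin.tail z = z').card ≤ (Finset.Icc (-(ρ : ℤ)) ρ).card := by
        apply Finset.card_le_card_of_injOn (fun z => z 0)
        · intro z hz
          rw [mem_coe, mem_filter, hB1, mem_filter] at hz
          exact zero_mem hz.1.1
        · intro z hz w hw hzw
          rw [mem_coe, mem_filter] at hz hw
          rw [← Fin.cons_self_tail z, ← Fin.cons_self_tail w, hz.2, hw.2]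
          simp only at hzw
          rw [hzw]
      rw [Int.card_Icc] at h1
      omega
  have hb2 : B2.card ≤ Q.natDegree * ((bx N ρ).filter fun z =>
      MvPolynomial.eval (fun i => (z i : ℚ)) q = 0).card := by
    apply card_fib
    · intro z hz
      rw [hB2, mem_filter] at hz
      rw [mem_filter]
      exact ⟨tail_mem hz.1, hz.2.1.1⟩
    · intro z' _
      by_cases hcz : MvPolynomial.eval (fun i => (z' i : ℚ)) (Q.coeff i) = 0
      · rw [card_eq_zero.mpr, ]
        · exact Nat.zero_le _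
        · rw [filter_eq_empty_iff]
          intro z hz hzz
          rw [hB2, mem_filter] at hz
          apply hz.2.1.2
          rw [hzz]
          exact hcz
      · set QQ := Polynomial.map (MvPolynomial.eval (fun i => (z' i : ℚ))) Q with hQQ
        have hQ0 : QQ ≠ 0 := by
          intro h0
          apply hcz
          have := congrArg (fun f => Polynomial.coeff f i) h0
          simpa [hQQ, Polynomial.coeff_map] using this
        have h1 : (B2.filter fun z => Fin.tail z = z').card ≤ (QQ.roots.toFinset).card := by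
          apply Finset.card_le_card_of_injOn (fun z => (z 0 : ℚ))
          · intro z hz
            rw [mem_coe, mem_filter, hB2, mem_filter] at hz
            rw [mem_coe, Multiset.mem_toFinset, Polynomial.mem_roots hQ0, Polynomial.IsRoot.def]
            have h2 := hz.1.2.2
            rw [hz.2] at h2
            exact h2
          · intro z hz w hw hzw
            rw [mem_coe, mem_filter] at hz hw
            rw [← Fin.cons_self_tail z, ← Fin.cons_self_tail w, hz.2, hw.2]
            simp only [Int.cast_inj] at hzw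
            rw [hzw]
        refine h1.trans ((Multiset.toFinset_card_le _).trans ((Polynomial.card_roots' _).trans ?_))
        exact Polynomial.natDegree_map_le
  have hz := Pool.Agent.H548.TL.zerosQ hN hq.ne_zero ρ hρ
  have hC := hC1' ρ hρ
  have e1 : ((B1.card : ℕ) : ℝ) * (ρ : ℝ) ^ 2 ≤ 3 * C1 * (ρ : ℝ) ^ (N + 1) := by
    calc ((B1.card : ℕ) : ℝ) * (ρ : ℝ) ^ 2 ≤ ((3 * ρ) * (((bx N ρ).filter fun z =>
      MvPolynomial.eval (fun i => (z i : ℚ)) q = 0 ∧
          MvPolynomial.eval (fun i => (z i : ℚ)) (Q.coeff i) = 0).card : ℕ)) * (ρ : ℝ) ^ 2 := by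
          gcongr
          exact_mod_cast hb1
      _ = (3 * ρ) * (((((bx N ρ).filter fun z =>
      MvPolynomial.eval (fun i => (z i : ℚ)) q = 0 ∧
          MvPolynomial.eval (fun i => (z i : ℚ)) (Q.coeff i) = 0).card : ℕ)) * (ρ : ℝ) ^ 2) := by
          ring
      _ ≤ (3 * ρ) * (C1 * (ρ : ℝ) ^ N) := by
          gcongr
      _ = _ := by
          rw [pow_succ]
          ring
  have e2 : ((B2.card : ℕ) : ℝ) * (ρ : ℝ) ^ 2 ≤
      Q.natDegree * (q.totalDegree * 3 ^ (N - 1)) * (ρ : ℝ) ^ (N + 1) := by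
    calc ((B2.card : ℕ) : ℝ) * (ρ : ℝ) ^ 2 ≤ (Q.natDegree * (((bx N ρ).filter fun z =>
      MvPolynomial.eval (fun i => (z i : ℚ)) q = 0).card : ℕ)) * (ρ : ℝ) ^ 2 := by
          gcongr
          exact_mod_cast hb2
      _ ≤ (Q.natDegree * (q.totalDegree * (3 * ρ) ^ (N - 1))) * (ρ : ℝ) ^ 2 := by
          gcongr
      _ = _ := by
          obtain ⟨k, rfl⟩ : ∃ k, N = k + 1 := ⟨N - 1, by omega⟩
          rw [Nat.add_sub_cancel, mul_pow]
          ring
  calc ((((bx (N + 1) ρ).filter fun z => (MvPolynomial.eval (fun i => (z i : ℚ)) p = 0 ∧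
        MvPolynomial.eval (fun i => (z i : ℚ)) g = 0) ∧
        MvPolynomial.eval (fun i => (Fin.tail z i : ℚ)) q = 0).card : ℕ) : ℝ) * (ρ : ℝ) ^ 2
      ≤ ((B1.card : ℝ) + B2.card) * (ρ : ℝ) ^ 2 := by
        gcongr
        exact_mod_cast hcard
    _ ≤ _ := by
        rw [add_mul, add_mul]
        exact add_le_add e1 e2

open Classical in
theorem main : ∀ (N : ℕ) (p g : MvPolynomial (Fin N) ℚ), Irreducible p → ¬ p ∣ g →
      ∃ C : ℝ, 0 ≤ C ∧ ∀ ρ : ℕ, 1 ≤ ρ →
        ((((bx N ρ).filter fun z => MvPolynomial.eval (fun i => (z i : ℚ)) p = 0 ∧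
          MvPolynomial.eval (fun i => (z i : ℚ)) g = 0).card : ℕ) : ℝ) * (ρ : ℝ) ^ 2 ≤
          C * (ρ : ℝ) ^ N := by
  intro N
  induction N with
  | zero =>
    intro p g hp _
    exfalso
    have h1 := MvPolynomial.eq_C_of_isEmpty p
    apply hp.not_isUnit
    rw [h1]
    apply IsUnit.map
    rw [isUnit_iff_ne_zero]
    intro h0
    apply hp.ne_zero
    rw [h1, h0, map_zero]
  | succ N ih =>
    intro p g hp hg
    have hP : Irreducible (MvPolynomial.finSuccEquiv ℚ N p) :=
      (MulEquiv.irreducible_iff (MvPolynomial.finSuccEquiv ℚ N)).mpr hp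
    have hG : ¬ MvPolynomial.finSuccEquiv ℚ N p ∣ MvPolynomial.finSuccEquiv ℚ N g := by
      intro h
      exact hg ((map_dvd_iff (MvPolynomial.finSuccEquiv ℚ N)).mp h)
    obtain ⟨h, a, b, h0, hab⟩ := exists_const hP hG
    obtain ⟨s, hs, hs'⟩ := exists_factor (K := ℚ) h0
    have hov := fun q (hq : q ∈ s.toFinset) =>
      card_over ih p g hp hg q (hs q (Multiset.mem_toFinset.mp hq))
    choose! C hC0 hC using hov
    refine ⟨∑ q ∈ s.toFinset, C q, Finset.sum_nonneg hC0, fun ρ hρ => ?_⟩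
    have hsub : ((bx (N + 1) ρ).filter fun z => MvPolynomial.eval (fun i => (z i : ℚ)) p = 0 ∧
          MvPolynomial.eval (fun i => (z i : ℚ)) g = 0) ⊆ s.toFinset.biUnion fun q =>
        ((bx (N + 1) ρ).filter fun z => (MvPolynomial.eval (fun i => (z i : ℚ)) p = 0 ∧
          MvPolynomial.eval (fun i => (z i : ℚ)) g = 0) ∧
          MvPolynomial.eval (fun i => (Fin.tail z i : ℚ)) q = 0) := by
      intro z hz
      rw [mem_filter] at hz
      have h1 := congrArg (fun f => Polynomial.eval (z 0 : ℚ) (Polynomial.map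
        (MvPolynomial.eval (fun i => (Fin.tail z i : ℚ))) f)) hab
      simp only [Polynomial.map_add, Polynomial.map_mul, Polynomial.eval_add, Polynomial.eval_mul,
        ← eval_tail, hz.2.1, hz.2.2, mul_zero, add_zero, Polynomial.map_C, Polynomial.eval_C] at h1
      obtain ⟨q, hq, hq'⟩ := hs' (MvPolynomial.eval (fun i => (Fin.tail z i : ℚ))) h1.symm
      rw [mem_biUnion]
      refine ⟨q, Multiset.mem_toFinset.mpr hq, ?_⟩
      rw [mem_filter]
      exact ⟨hz.1, hz.2, hq'⟩
    have h1 := (card_le_card hsub).trans card_biUnion_le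
    calc ((((bx (N + 1) ρ).filter fun z => MvPolynomial.eval (fun i => (z i : ℚ)) p = 0 ∧
          MvPolynomial.eval (fun i => (z i : ℚ)) g = 0).card : ℕ) : ℝ) * (ρ : ℝ) ^ 2
        ≤ (∑ q ∈ s.toFinset, ((((bx (N + 1) ρ).filter fun z =>
          (MvPolynomial.eval (fun i => (z i : ℚ)) p = 0 ∧
          MvPolynomial.eval (fun i => (z i : ℚ)) g = 0) ∧
          MvPolynomial.eval (fun i => (Fin.tail z i : ℚ)) q = 0).card : ℕ) : ℝ)) *
            (ρ : ℝ) ^ 2 := by
          gcongr
          exact_mod_cast h1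
      _ ≤ _ := by
          rw [Finset.sum_mul, Finset.sum_mul]
          exact Finset.sum_le_sum fun q hq => hC q hq ρ hρ

end Pool.Agent.T6.H81.BH.ModCnt

namespace Pool.Agent.T6.H81.BH

open Finset
open Pool.Agent.H548.WM (ht bx mem_bx)

theorem cnt : StmtCnt := by
  classical
  intro N p g hN hp hg
  obtain ⟨C, hC, h⟩ := ModCnt.main N p g hp hg
  refine ⟨C, hC, fun ρ hρ => ?_⟩
  have h1 := h ρ hρ
  have hρ' : (0 : ℝ) < ρ := by exact_mod_cast hρ
  obtain ⟨k, rfl⟩ : ∃ k, N = k + 2 := ⟨N - 2, by omega⟩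
  rw [Nat.add_sub_cancel]
  rw [pow_add, ← mul_assoc] at h1
  exact le_of_mul_le_mul_right h1 (by positivity)

end Pool.Agent.T6.H81.BH
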